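import Pool.Agent.W_d33b62m_h36.Mo

/-!
# The smooth weights: the sum over the integers (MP_d33b62, T2, file Mf2)

`aw κ Y n = tp (log n - vY Y) (log n / vY Y) ^ κ`, a tent in `log n` with support `(Y, 2 Y)` times a factor near `1`.
Facts: `W_b58c63_h68` (`aw_support` etc., grep for it), `W_d33b62_h36/BV4.lean` (`BV4_facts`, `BV4_tp`, `aw_le_two`, `XM_ge'`).
-/

set_option autoImplicit false

noncomputable section

open Finset Filter

namespace Pool.Agent.W33m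

open Pool.Agent.Wd33b62 (Pl PS xr nmS nm supp Sub dn fib era off FF lam zz AA BB SX QH GH TT0 HasExp conv Ex QOK
  qwt xwt EB Bd mem_PS)
open Pool.Agent.Wb58c63 (PI mem_PI VP aw ap XM Pr)
open Pool.Agent.M58 (lp' lm')

open Pool.Agent.Wb58c63 (tp l0 vY)

theorem mf2_l0_pos : 0 < l0 := by
  unfold l0
  have := Real.log_pos (by norm_num : (1 : ℝ) < 2)
  linarith

theorem mf2_tp (Y x : ℝ) (hY : 0 < Y) (h1 : 5 / 4 * Y ≤ x) (h2 : x ≤ 3 / 2 * Y) :
    1 / 2 ≤ tp (Real.log x - vY Y) := by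
  have hx : 0 < x := by linarith
  have a1 : Real.log (5 / 4) + Real.log Y ≤ Real.log x := by
    rw [← Real.log_mul (by norm_num) hY.ne']
    exact Real.log_le_log (by linarith) h1
  have a2 : Real.log x ≤ Real.log (3 / 2) + Real.log Y := by
    rw [← Real.log_mul (by norm_num) hY.ne']
    exact Real.log_le_log hx h2
  have b1 : Real.log 2 ≤ 4 * Real.log (5 / 4) := by
    rw [← Real.log_rpow (by norm_num)]
    exact Real.log_le_log (by norm_num) (by norm_num)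
  have b2 : 4 * Real.log (3 / 2) ≤ 3 * Real.log 2 := by
    rw [← Real.log_rpow (by norm_num), ← Real.log_rpow (by norm_num)]
    exact Real.log_le_log (by norm_num) (by norm_num)
  have hl : l0 = Real.log 2 / 2 := rfl
  have h0 := mf2_l0_pos
  have habs : |Real.log x - vY Y| ≤ l0 / 2 := by
    unfold vY
    rw [abs_le]
    constructor <;> linarith
  unfold tp
  refine le_max_of_le_right ?_
  have : |Real.log x - vY Y| / l0 ≤ 1 / 2 := by
    rw [div_le_iff₀ h0]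
    linarith
  linarith

theorem mf2_nonneg (κ : ℕ) (Y : ℝ) (hY : 1 ≤ Y) (n : ℕ) : 0 ≤ aw κ Y n := by
  unfold aw
  have h1 : 0 ≤ tp (Real.log n - vY Y) := le_max_left _ _
  have h2 : 0 ≤ Real.log (n : ℝ) := Real.log_natCast_nonneg n
  have h3 : 0 ≤ vY Y := by
    unfold vY
    have := Real.log_nonneg hY
    have := mf2_l0_pos
    linarith
  positivity

/-- The sum over the integers has order `Y`: `tp ≥ 1 / 2` on the middle half of the window and `(log n / vY Y) ^ κ → 1`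
uniformly. -/
theorem aw_sum_ge : ∃ c : ℝ, 0 < c ∧ ∀ κ : ℕ, ∀ᶠ Y : ℝ in atTop, c * Y ≤ ∑ n ∈ IW Y, aw κ Y n := by
  refine ⟨1 / 32, by norm_num, fun κ => ?_⟩
  have hlim : Tendsto (fun Y : ℝ => (Real.log Y / vY Y) ^ κ) atTop (nhds (1 ^ κ)) := by
    apply Tendsto.pow
    have h1 : Tendsto (fun Y : ℝ => 1 - l0 / vY Y) atTop (nhds (1 - 0)) := by
      apply Tendsto.sub tendsto_const_nhds
      apply Tendsto.div_atTop tendsto_const_nhds
      unfold vY
      exact tendsto_atTop_add_const_right _ _ Real.tendsto_log_atTop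
    rw [sub_zero] at h1
    refine h1.congr' ?_
    filter_upwards [eventually_gt_atTop (1 : ℝ)] with Y hY
    have hv : 0 < vY Y := by
      unfold vY
      have := Real.log_pos hY
      have := mf2_l0_pos
      linarith
    rw [eq_div_iff hv.ne', sub_mul, div_mul_cancel₀ _ hv.ne', one_mul]
    unfold vY
    ring
  rw [one_pow] at hlim
  have hev : ∀ᶠ Y : ℝ in atTop, 1 / 2 < (Real.log Y / vY Y) ^ κ :=
    hlim.eventually (lt_mem_nhds (by norm_num))
  filter_upwards [hev, eventually_ge_atTop (8 : ℝ)] with Y hY1 hY8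
  have hY0 : 0 < Y := by linarith
  have hv : 0 < vY Y := by
    unfold vY
    have := Real.log_pos (by linarith : (1 : ℝ) < Y)
    have := mf2_l0_pos
    linarith
  set s : Finset ℕ := Icc ⌈5 / 4 * Y⌉₊ ⌊3 / 2 * Y⌋₊ with hs
  have hsub : s ⊆ IW Y := by
    intro n hn
    rw [hs, mem_Icc] at hn
    have h1 : 5 / 4 * Y ≤ (n : ℝ) := Nat.ceil_le.1 hn.1
    have h2 : (n : ℝ) ≤ 3 / 2 * Y := (Nat.le_floor_iff (by positivity)).1 hn.2
    unfold IW
    rw [mem_Ico]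
    constructor
    · have : ((⌊Y / 2⌋₊ : ℕ) : ℝ) ≤ n := (Nat.floor_le (by positivity)).trans (by linarith)
      exact_mod_cast this
    · rw [Nat.lt_ceil]
      linarith
  have hterm : ∀ n ∈ s, (1 / 4 : ℝ) ≤ aw κ Y n := by
    intro n hn
    rw [hs, mem_Icc] at hn
    have h1 : 5 / 4 * Y ≤ (n : ℝ) := Nat.ceil_le.1 hn.1
    have h2 : (n : ℝ) ≤ 3 / 2 * Y := (Nat.le_floor_iff (by positivity)).1 hn.2
    have h3 := mf2_tp Y n hY0 h1 h2
    have h4 : (Real.log Y / vY Y) ^ κ ≤ (Real.log n / vY Y) ^ κ := by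
      apply pow_le_pow_left₀
      · exact div_nonneg (Real.log_nonneg (by linarith)) hv.le
      · apply div_le_div_of_nonneg_right _ hv.le
        exact Real.log_le_log hY0 (by linarith)
    unfold aw
    nlinarith
  have hcard : Y / 4 - 1 ≤ (s.card : ℝ) := by
    rw [hs, Nat.card_Icc]
    have h1 : (3 / 2 * Y) < (⌊3 / 2 * Y⌋₊ : ℝ) + 1 := Nat.lt_floor_add_one _
    have h2 : ((⌈5 / 4 * Y⌉₊ : ℕ) : ℝ) < 5 / 4 * Y + 1 := Nat.ceil_lt_add_one (by positivity)
    have h3 : ((⌊3 / 2 * Y⌋₊ + 1 : ℕ) : ℝ) - ((⌈5 / 4 * Y⌉₊ : ℕ) : ℝ) ≤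
        ((⌊3 / 2 * Y⌋₊ + 1 - ⌈5 / 4 * Y⌉₊ : ℕ) : ℝ) := by
      rw [sub_le_iff_le_add]
      have : ⌊3 / 2 * Y⌋₊ + 1 ≤ ⌊3 / 2 * Y⌋₊ + 1 - ⌈5 / 4 * Y⌉₊ + ⌈5 / 4 * Y⌉₊ := by omega
      exact_mod_cast this
    push_cast at h3 ⊢
    linarith
  calc 1 / 32 * Y ≤ (Y / 4 - 1) * (1 / 4) := by linarith
    _ ≤ s.card * (1 / 4) := by nlinarith
    _ = ∑ _n ∈ s, (1 / 4 : ℝ) := by rw [sum_const, nsmul_eq_mul]
    _ ≤ ∑ n ∈ s, aw κ Y n := sum_le_sum hterm
    _ ≤ ∑ n ∈ IW Y, aw κ Y n :=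
        sum_le_sum_of_subset_of_nonneg hsub (fun n _ _ => mf2_nonneg κ Y (by linarith) n)

end Pool.Agent.W33m
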