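import Pool.Agent.W_d33b62m_h36.Mf1
import Pool.Agent.W_d33b62m_h36.Mf2
import Pool.Agent.W_pnt_h80.PNT

/-!
# The smooth weights: the prime number theorem (MP_d33b62, T2, file Mf3)

`aw κ Y n = tp (log n - vY Y) (log n / vY Y) ^ κ`, a tent in `log n` with support `(Y, 2 Y)` times a factor near `1`.
Facts: `W_b58c63_h68` (`aw_support` etc., grep for it), `W_d33b62_h36/BV4.lean` (`BV4_facts`, `BV4_tp`, `aw_le_two`, `XM_ge'`).
-/

set_option autoImplicit false

noncomputable section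

open Finset Filter

namespace Pool.Agent.W33m

open Pool.Agent.Wd33b62 (Pl PS xr nmS nm supp Sub dn fib era off FF lam zz AA BB SX QH GH TT0 HasExp conv Ex QOK
  qwt xwt EB Bd mem_PS)
open Pool.Agent.Wb58c63 (PI mem_PI VP aw ap XM Pr)
open Pool.Agent.M58 (lp' lm')

open Pool.Agent.Wb58c63 (tp l0 vY)

/-- `θ` at natural numbers. -/
def Mf3_f (n : ℕ) : ℝ := if n.Prime then Real.log n else 0

theorem Mf3_theta (n : ℕ) : ∑ m ∈ range (n + 1), Mf3_f m = Chebyshev.theta n := by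
  unfold Chebyshev.theta Mf3_f
  rw [Nat.floor_natCast, Finset.sum_filter, Finset.sum_range_succ']
  have h0 : (if Nat.Prime 0 then Real.log ((0 : ℕ) : ℝ) else 0) = 0 := by simp
  rw [h0, add_zero]
  have h1 : Ioc 0 n = (range n).map ⟨fun i => i + 1, fun a b h => by simpa using h⟩ := by
    ext m
    simp only [Finset.mem_Ioc, Finset.mem_map, Finset.mem_range, Function.Embedding.coeFn_mk]
    constructor
    · rintro ⟨h1, h2⟩
      exact ⟨m - 1, by omega, by omega⟩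
    · rintro ⟨a, h1, rfl⟩
      omega
  rw [h1, Finset.sum_map]
  rfl

/-- The prime number theorem for the partial sums. -/
theorem Mf3_E (δ : ℝ) (hδ : 0 < δ) : ∃ N0 : ℕ, ∀ n : ℕ, N0 ≤ n →
    |∑ m ∈ range (n + 1), (Mf3_f m - 1)| ≤ δ * n + 1 := by
  have h1 := Metric.tendsto_atTop.1 Pool.Agent.W_pnt_h80.theta_tendsto δ hδ
  obtain ⟨X0, hX0⟩ := h1
  refine ⟨⌈X0⌉₊ + 1, fun n hn => ?_⟩
  have hn1 : X0 ≤ (n : ℝ) := by
    have := Nat.le_ceil X0
    have h2 : ((⌈X0⌉₊ + 1 : ℕ) : ℝ) ≤ n := by exact_mod_cast hn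
    push_cast at h2
    linarith
  have hn0 : (0 : ℝ) < n := by
    have h2 : 0 < n := by omega
    exact_mod_cast h2
  have h2 := hX0 n hn1
  rw [Real.dist_eq] at h2
  have h3 : |Chebyshev.theta n - n| ≤ δ * n := by
    have e : Chebyshev.theta n - n = (Chebyshev.theta n / n - 1) * n := by
      field_simp
    rw [e, abs_mul, abs_of_pos hn0]
    exact mul_le_mul_of_nonneg_right h2.le hn0.le
  rw [Finset.sum_sub_distrib, Mf3_theta, Finset.sum_const, Finset.card_range, nsmul_eq_mul, mul_one]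
  have e : Chebyshev.theta n - ((n + 1 : ℕ) : ℝ) = (Chebyshev.theta n - n) - 1 := by
    push_cast
    ring
  rw [e]
  have h4 := abs_sub (Chebyshev.theta n - n) 1
  rw [abs_one] at h4
  linarith

/-- Summation by parts. -/
theorem Mf3_parts (a E : ℕ → ℝ) (A B : ℕ) (hAB : A ≤ B) :
    ∑ n ∈ Ico A B, a n * (E (n + 1) - E n) =
      a B * E B - a A * E A - ∑ n ∈ Ico A B, (a (n + 1) - a n) * E (n + 1) := by
  have h1 : ∑ n ∈ Ico A B, (a (n + 1) * E (n + 1) - a n * E n) = a B * E B - a A * E A :=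
    Finset.sum_Ico_sub (fun n => a n * E n) hAB
  rw [← h1, ← Finset.sum_sub_distrib]
  refine Finset.sum_congr rfl fun n _ => ?_
  ring

theorem Mf3_XM (κ : ℕ) (Y : ℝ) (hY : 1 ≤ Y) : XM κ Y = ∑ n ∈ IW Y, aw κ Y n * Mf3_f n := by
  unfold XM Pr IW ap Mf3_f
  rw [Finset.sum_filter]
  have h1 : ∀ n : ℕ, (if n.Prime then aw κ Y n * Real.log n else 0) =
      aw κ Y n * (if n.Prime then Real.log n else 0) := by
    intro n
    split_ifs
    · rfl
    · rw [mul_zero]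
  rw [Finset.sum_congr rfl fun n _ => h1 n]
  symm
  refine Finset.sum_subset ?_ ?_
  · intro n hn
    rw [mem_Ico] at hn
    exact mem_range.2 hn.2
  · intro n hn hn2
    rw [mem_range] at hn
    rw [mem_Ico] at hn2
    have h2 : aw κ Y n = 0 := by
      by_contra h3
      obtain ⟨h4, h5⟩ := Pool.Agent.Wb58c63.aw_support κ Y hY n h3
      apply hn2
      refine ⟨?_, hn⟩
      have h6 : ((⌊Y / 2⌋₊ : ℕ) : ℝ) ≤ Y / 2 := Nat.floor_le (by linarith)
      have h7 : ((⌊Y / 2⌋₊ : ℕ) : ℝ) ≤ n := by linarith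
      exact_mod_cast h7
    rw [h2, zero_mul]

/-- **The prime numbers with the smooth weights**: `XM κ Y = ∑_p aw κ Y p log p ≥ (1 - ε) ∑_n aw κ Y n`.
Cut `(Y, 2 Y)` into `J` pieces `(Y (1 + j / J), Y (1 + (j + 1) / J)]`; on each piece `aw κ Y` varies by at most
`C / J` (Lipschitz in `log n`, see `aw_tv`), the number of integers is `Y / J + O (1)` and `∑ log p = Y / J + o (Y)` by
the prime number theorem `θ (x) ~ x` (`theta_tendsto` in `Pool/Agent/W_pnt_h80/PNT.lean`). So the difference of the two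
sums is at most `C Y / J + o (Y)`, and the sum over the integers is `≥ c Y` (`aw_sum_ge`). -/
theorem XM_PNT (ε : ℝ) (hε : 0 < ε) (κ : ℕ) : ∀ᶠ Y : ℝ in atTop,
    (1 - ε) * ∑ n ∈ IW Y, aw κ Y n ≤ XM κ Y := by
  obtain ⟨c, hc, hge⟩ := aw_sum_ge
  obtain ⟨C, hC, htv⟩ := aw_tv κ
  set δ : ℝ := ε * c / (4 * C) with hδ
  have hδ0 : 0 < δ := by positivity
  obtain ⟨N0, hN0⟩ := Mf3_E δ hδ0
  filter_upwards [hge κ, htv, eventually_ge_atTop (2 * (N0 : ℝ) + 2), eventually_ge_atTop (2 / δ + 1)] with Y h1 h2 h3 h4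
  have hN0' : (0 : ℝ) ≤ (N0 : ℝ) := Nat.cast_nonneg _
  have hY1 : (1 : ℝ) ≤ Y := by linarith
  have hY0 : (0 : ℝ) < Y := by linarith
  rw [Mf3_XM κ Y hY1]
  set A := ⌊Y / 2⌋₊ with hA
  set B := ⌈2 * Y⌉₊ with hB
  have hIW : IW Y = Ico A B := rfl
  have hAr : (A : ℝ) ≤ Y / 2 := Nat.floor_le (by linarith)
  have hBr : 2 * Y ≤ (B : ℝ) := Nat.le_ceil _
  have hAB : A ≤ B := by
    have : (A : ℝ) ≤ B := by linarith
    exact_mod_cast this
  have haA : aw κ Y A = 0 := by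
    by_contra h
    have := (Pool.Agent.Wb58c63.aw_support κ Y hY1 A h).1
    linarith
  have haB : aw κ Y B = 0 := by
    by_contra h
    have := (Pool.Agent.Wb58c63.aw_support κ Y hY1 B h).2
    linarith
  set E : ℕ → ℝ := fun n => ∑ m ∈ range n, (Mf3_f m - 1) with hE
  have hEs : ∀ n, E (n + 1) - E n = Mf3_f n - 1 := by
    intro n
    rw [hE]
    simp only
    rw [Finset.sum_range_succ]
    ring
  have hdiff : ∑ n ∈ IW Y, aw κ Y n * Mf3_f n - ∑ n ∈ IW Y, aw κ Y n =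
      - ∑ n ∈ Ico A B, (aw κ Y (n + 1) - aw κ Y n) * E (n + 1) := by
    rw [← Finset.sum_sub_distrib, hIW]
    have e1 : ∀ n ∈ Ico A B, aw κ Y n * Mf3_f n - aw κ Y n = aw κ Y n * (E (n + 1) - E n) := by
      intro n _
      rw [hEs]
      ring
    rw [Finset.sum_congr rfl e1, Mf3_parts _ _ A B hAB, haA, haB]
    ring
  have hEb : ∀ n ∈ Ico A B, |E (n + 1)| ≤ 4 * δ * Y := by
    intro n hn
    rw [mem_Ico] at hn
    have hN0n : N0 ≤ n := by
      have h5 : Y / 2 < (A : ℝ) + 1 := Nat.lt_floor_add_one _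
      have h6 : (N0 : ℝ) < A + 1 := by linarith
      have h7 : N0 < A + 1 := by exact_mod_cast h6
      omega
    have h8 := hN0 n hN0n
    have h9 : (n : ℝ) ≤ 2 * Y := by
      have := Nat.lt_ceil.1 hn.2
      linarith
    have h10 : 1 ≤ δ * Y := by
      have h11 : 2 / δ ≤ Y := by linarith
      rw [div_le_iff₀ hδ0] at h11
      linarith
    calc |E (n + 1)| ≤ δ * n + 1 := h8
      _ ≤ δ * (2 * Y) + δ * Y := by
          have := mul_le_mul_of_nonneg_left h9 hδ0.le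
          linarith
      _ ≤ 4 * δ * Y := by nlinarith
  have hfin : |∑ n ∈ IW Y, aw κ Y n * Mf3_f n - ∑ n ∈ IW Y, aw κ Y n| ≤ ε * (c * Y) := by
    rw [hdiff, abs_neg]
    calc |∑ n ∈ Ico A B, (aw κ Y (n + 1) - aw κ Y n) * E (n + 1)|
        ≤ ∑ n ∈ Ico A B, |(aw κ Y (n + 1) - aw κ Y n) * E (n + 1)| := Finset.abs_sum_le_sum_abs _ _
      _ ≤ ∑ n ∈ Ico A B, |aw κ Y (n + 1) - aw κ Y n| * (4 * δ * Y) := by
          refine Finset.sum_le_sum fun n hn => ?_
          rw [abs_mul]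
          exact mul_le_mul_of_nonneg_left (hEb n hn) (abs_nonneg _)
      _ = (∑ n ∈ Ico A B, |aw κ Y (n + 1) - aw κ Y n|) * (4 * δ * Y) := by
          rw [Finset.sum_mul]
      _ ≤ C * (4 * δ * Y) := mul_le_mul_of_nonneg_right h2 (by positivity)
      _ = ε * (c * Y) := by
          rw [hδ]
          field_simp
  have hlow := (abs_le.1 hfin).1
  have hup : ε * (c * Y) ≤ ε * ∑ n ∈ IW Y, aw κ Y n := mul_le_mul_of_nonneg_left h1 hε.le
  linarith

end Pool.Agent.W33m
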