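import Pool.Agent.W_d33b62m_h36.Mr2
import Pool.Agent.W_d33b62f_h37.Df

/-!
# T2 in the form of `W_d33b62f_h37/Top.lean` (MP_d33b62, file Ms)
-/

set_option autoImplicit false

noncomputable section

open Finset Filter

namespace Pool.Agent.W33f

open Pool.Agent.W33m (MD V1 GS T2_MD)
open Pool.Agent.Wb58c63 (PI mem_PI VP)

theorem Ms_mem_Pw (w : ℕ) (z : ℝ) (p : ℕ) : p ∈ Pw w z ↔ p.Prime ∧ w < p ∧ (p : ℝ) < z := by
  unfold Pw
  rw [mem_filter, mem_range, Nat.lt_ceil]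
  tauto

theorem Ms_Pw (w : ℕ) (z : ℝ) : Pw w z = PI ((w : ℝ) + 1) z := by
  ext p
  rw [Ms_mem_Pw, mem_PI]
  refine and_congr_right fun _ => and_congr_left fun _ => ?_
  constructor
  · intro h
    exact_mod_cast Nat.succ_le_of_lt h
  · intro h
    have h1 : w + 1 ≤ p := by exact_mod_cast h
    omega

/-- From `T2_MD` with `h l = 24 t l ≤ 10 ^ 6 ≤ w`: `VV = V1` (`Pw w z = PI (w + 1) z`), `GS` is the set (`Y` natural). -/
theorem T2 (t : Fin 2000 → ℕ) (ht : Function.Injective t) (htp : ∀ l, (t l).Prime ∧ 2000 < t l ∧ t l ≤ 41666) :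
    ∃ c δ : ℝ, 0 < c ∧ c < 1 ∧ 0 < δ ∧ ∃ w₀ : ℕ, ∀ w ≥ w₀, ∀ M : ℕ, (∀ p : ℕ, p.Prime → (p ∣ M ↔ p ≤ w)) →
      ∀ b : ℕ, (∀ l, Nat.Coprime (b + 24 * t l) M) → ∃ Y₀ : ℕ, ∀ Y ≥ Y₀,
        δ * (Y / M) * VV 2000 w ((Y : ℝ) ^ c) ≤
          ({n : ℕ | n ∈ Ioc Y (2 * Y) ∧ n ≡ b [MOD M] ∧ Rou (fun l => 24 * t l) w ((Y : ℝ) ^ c) n ∧
            ∃ i j, i ≠ j ∧ (n + 24 * t i).Prime ∧ (n + 24 * t j).Prime}.ncard : ℝ) := by
  classical
  obtain ⟨c, δ, hc0, hc1, hδ, w0, H⟩ := T2_MD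
  refine ⟨c, δ, hc0, hc1, hδ, max w0 (10 ^ 6), fun w hw M hM b hb => ?_⟩
  have hw0 : w0 ≤ w := (le_max_left _ _).trans hw
  have hw6 : 10 ^ 6 ≤ w := (le_max_right _ _).trans hw
  have hM0 : 0 < M := by
    rcases Nat.eq_zero_or_pos M with h | h
    · exfalso
      obtain ⟨p, hp1, hp2⟩ := Nat.exists_infinite_primes (w + 1)
      have := (hM p hp2).1 (by rw [h]; exact dvd_zero _)
      omega
    · exact h
  let d : MD 2000 :=
    { h := fun l => 24 * t l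
      w := w
      M := M
      b := b
      w_ge := by omega
      h_inj := fun x y hxy => ht (by
        have h1 : 24 * t x = 24 * t y := hxy
        omega)
      h_le := fun i => by
        have := (htp i).2.2
        omega
      M_pos := hM0
      M_primes := hM
      cop := hb }
  obtain ⟨a, ha⟩ := eventually_atTop.1 (H d hw0)
  refine ⟨⌈a⌉₊, fun Y hY => ?_⟩
  have h1 := ha (Y : ℝ) ((Nat.le_ceil a).trans (Nat.cast_le.2 hY))
  have e1 : V1 2000 d.w ((Y : ℝ) ^ c) = VV 2000 w ((Y : ℝ) ^ c) := by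
    unfold V1 VV VP
    rw [Ms_Pw]
  rw [e1] at h1
  refine h1.trans (le_of_eq ?_)
  congr 1
  rw [← Set.ncard_coe_finset]
  congr 1
  ext n
  rw [mem_coe]
  unfold GS
  have e2 : ⌊(Y : ℝ)⌋₊ = Y := Nat.floor_natCast Y
  have e3 : ⌊2 * (Y : ℝ)⌋₊ = 2 * Y := by
    have : (2 : ℝ) * (Y : ℝ) = ((2 * Y : ℕ) : ℝ) := by push_cast; ring
    rw [this, Nat.floor_natCast]
  rw [mem_filter, e2, e3, Set.mem_ofPred_eq]
  refine and_congr_right fun _ => and_congr_right fun _ => and_congr_left fun _ => ?_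
  constructor
  · intro h p hp l hd
    rw [Ms_mem_Pw] at hp
    exact h p hp.1 hp.2.1 hp.2.2 l (by exact_mod_cast hd)
  · intro h p hp hwp hpY l hd
    exact h p ((Ms_mem_Pw w _ p).2 ⟨hp, hwp, hpY⟩) l (by exact_mod_cast hd)

end Pool.Agent.W33f
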