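import Pool.Agent.W_d33b62m_h36.Mo
import Pool.Agent.W_d33b62_h36.AR2a

/-!
# Transfer from the integers and the primes to the model (helper36, MP_d33b62, T2)
-/

set_option autoImplicit false

noncomputable section

open Finset

namespace Pool.Agent.W33m

open Pool.Agent.Wd33b62 (Pl PS xr nmS nm supp Sub dn fib era off FF lam zz AA BB SX QH GH TT0 HasExp conv Ex QOK
  qwt xwt EB Bd mem_PS Er_le_EB AR2a_card AR2a_nm_pos AR2a_xwt)
open Pool.Agent.Wb58c63 (PI mem_PI VP ap Pr XM TT prim Er Sd aw)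

/-- **The labeling of `n`.** The shifts are different and at most `D0 < p`, so `p` divides at most one of the
`n + sh v`. -/
theorem cc_iff {k : ℕ} (d : MD k) (z : ℝ) (n : ℕ) (p : Pl d.w z) (v : Fin k) :
    cM d z n p = some v ↔ p.1 ∣ n + d.h v := by
  classical
  have hp := mem_PS.1 p.2
  unfold cM
  constructor
  · intro h
    split_ifs at h with h1
    have h2 : h1.choose = v := Option.some.inj h
    rw [← h2]
    exact h1.choose_spec
  · intro h
    have h1 : ∃ v, p.1 ∣ n + d.h v := ⟨v, h⟩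
    rw [dif_pos h1]
    congr 1
    have h2 : p.1 ∣ n + d.h h1.choose := h1.choose_spec
    apply d.h_inj
    show d.h h1.choose = d.h v
    have h3 : d.h h1.choose ≤ d.w := d.h_le _
    have h4 : d.h v ≤ d.w := d.h_le _
    have h5 : n + d.h h1.choose ≡ n + d.h v [MOD p.1] :=
      ((Nat.modEq_zero_iff_dvd).2 h2).trans ((Nat.modEq_zero_iff_dvd).2 h).symm
    have h6 : d.h h1.choose ≡ d.h v [MOD p.1] := Nat.ModEq.add_left_cancel' n h5
    exact Nat.ModEq.eq_of_lt_of_lt h6 (lt_of_le_of_lt h3 hp.2.1) (lt_of_le_of_lt h4 hp.2.1)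

theorem Sub_cc_iff {k : ℕ} (d : MD k) (z : ℝ) (n : ℕ) (σ : Pl d.w z → Option (Fin k)) :
    Sub σ (cM d z n) ↔ ∀ p v, σ p = some v → p.1 ∣ n + d.h v := by
  constructor
  · intro h p v hv
    rcases h p with h1 | h1
    · rw [h1] at hv
      exact absurd hv (by simp)
    · rw [hv] at h1
      exact (cc_iff d z n p v).1 h1.symm
  · intro h p
    rcases hv : σ p with _ | v
    · exact Or.inl rfl
    · exact Or.inr ((cc_iff d z n p v).2 (h p v hv)).symm

theorem AR2a_class {k : ℕ} (d : MD k) (z : ℝ) (q r : ℕ) (σ : Pl d.w z → Option (Fin k))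
    (hco : q.Coprime (nm σ)) :
    ∃ b : ℕ, ∀ n : ℕ, (n ≡ r [MOD q] ∧ Sub σ (cM d z n)) ↔ n ≡ b [MOD (q * nm σ)] := by
  classical
  have hp : ∀ p : Pl d.w z, p.1.Prime := fun p => (mem_PS.1 p.2).1
  set a : Pl d.w z → ℕ := fun p => match σ p with
    | none => 0
    | some v => (p.1 - 1) * d.h v with ha
  have hpp : Set.Pairwise (↑(supp σ) : Set (Pl d.w z)) (Function.onFun Nat.Coprime fun p => p.1) := by
    intro p _ p' _ hne
    exact (Nat.coprime_primes (hp p) (hp p')).2 fun h => hne (Subtype.ext h)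
  obtain ⟨m, hm⟩ := Nat.chineseRemainderOfFinset a (fun p => p.1) (supp σ)
    (fun p _ => (hp p).ne_zero) hpp
  obtain ⟨b, hb1, hb2⟩ := Nat.chineseRemainder hco r m
  refine ⟨b, fun n => ?_⟩
  have key : ∀ (p : Pl d.w z) (v : Fin k), σ p = some v → ∀ n : ℕ,
      (p.1 ∣ n + d.h v ↔ n ≡ a p [MOD p.1]) := by
    intro p v hv n
    have h1 : a p = (p.1 - 1) * d.h v := by
      simp only [ha, hv]
    have h2 : a p + d.h v = p.1 * d.h v := by
      rw [h1]
      have := (hp p).one_le
      obtain ⟨t, ht⟩ := Nat.exists_eq_add_of_le this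
      rw [ht]
      simp only [Nat.add_sub_cancel_left]
      ring
    constructor
    · intro h
      have h3 : n + d.h v ≡ a p + d.h v [MOD p.1] := by
        rw [h2]
        exact ((Nat.modEq_zero_iff_dvd.2 h)).trans
          (Nat.modEq_zero_iff_dvd.2 (dvd_mul_right _ _)).symm
      exact Nat.ModEq.add_right_cancel' _ h3
    · intro h
      have h3 : n + d.h v ≡ a p + d.h v [MOD p.1] := h.add_right _
      rw [h2] at h3
      exact Nat.modEq_zero_iff_dvd.1 (h3.trans (Nat.modEq_zero_iff_dvd.2 (dvd_mul_right _ _)))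
  have hsub : ∀ n : ℕ, Sub σ (cM d z n) ↔ ∀ p ∈ supp σ, n ≡ a p [MOD p.1] := by
    intro n
    rw [Sub_cc_iff]
    constructor
    · intro h p hps
      have h1 : σ p ≠ none := (Finset.mem_filter.1 hps).2
      obtain ⟨v, hv⟩ := Option.ne_none_iff_exists'.1 h1
      exact (key p v hv n).1 (h p v hv)
    · intro h p v hv
      refine (key p v hv n).2 (h p ?_)
      unfold supp
      rw [Finset.mem_filter]
      exact ⟨Finset.mem_univ _, by rw [hv]; simp⟩
  rw [hsub n, ← Nat.modEq_and_modEq_iff_modEq_mul hco]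
  have hnm : nm σ = ∏ p ∈ supp σ, p.1 := rfl
  have hcr : (∀ p ∈ supp σ, n ≡ a p [MOD p.1]) ↔ n ≡ m [MOD nm σ] := by
    constructor
    · intro h
      rw [Nat.modEq_iff_dvd, hnm]
      push_cast
      refine Finset.prod_dvd_of_coprime ?_ ?_
      · intro p hps p' hps' hne
        have := (hpp hps hps' hne)
        simp only [Function.onFun] at this ⊢
        exact Nat.isCoprime_iff_coprime.2 this
      · intro p hps
        exact Nat.modEq_iff_dvd.1 ((h p hps).trans (hm p hps).symm)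
    · intro h p hps
      have h1 : p.1 ∣ nm σ := by
        rw [hnm]
        exact Finset.dvd_prod_of_mem (fun p : Pl d.w z => p.1) hps
      exact (h.of_dvd h1).trans (hm p hps)
  rw [hcr]
  constructor
  · rintro ⟨h1, h2⟩
    exact ⟨h1.trans hb1.symm, h2.trans hb2.symm⟩
  · rintro ⟨h1, h2⟩
    exact ⟨h1.trans hb1, h2.trans hb2⟩

private theorem AR2b_prime {D0 : ℕ} {z : ℝ} (p : Pl D0 z) : p.1.Prime := (mem_PS.1 p.2).1

private theorem AR2b_gt {D0 : ℕ} {z : ℝ} (p : Pl D0 z) : D0 < p.1 := (mem_PS.1 p.2).2.1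

private theorem AR2b_lt {D0 : ℕ} {z : ℝ} (p : Pl D0 z) : (p.1 : ℝ) < z := (mem_PS.1 p.2).2.2

private theorem AR2b_copS {D0 : ℕ} {z : ℝ} (S : Finset (Pl D0 z)) (a : Pl D0 z) (ha : a ∉ S) :
    a.1.Coprime (nmS S) := by
  unfold nmS
  refine Nat.Coprime.prod_right fun p hp => ?_
  rw [Nat.coprime_primes (AR2b_prime a) (AR2b_prime p)]
  intro h
  apply ha
  rwa [Subtype.ext h]

private theorem AR2b_ins {D0 : ℕ} {z : ℝ} (S : Finset (Pl D0 z)) (q : Pl D0 z) (hq : q ∉ S) :
    nmS (insert q S) = q.1 * nmS S := by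
  unfold nmS
  rw [Finset.prod_insert hq]

private theorem AR2b_modS {D0 : ℕ} {z : ℝ} (S : Finset (Pl D0 z)) (a b : ℕ) :
    a ≡ b [MOD nmS S] ↔ ∀ p ∈ S, a ≡ b [MOD p.1] := by
  classical
  induction S using Finset.induction_on with
  | empty => simp [nmS, Nat.modEq_one]
  | insert q S hq ih =>
    rw [AR2b_ins S q hq, ← Nat.modEq_and_modEq_iff_modEq_mul (AR2b_copS S q hq), ih]
    simp

private theorem AR2b_totS {D0 : ℕ} {z : ℝ} (S : Finset (Pl D0 z)) :
    ((nmS S).totient : ℝ) = ∏ p ∈ S, ((p.1 : ℝ) - 1) := by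
  classical
  induction S using Finset.induction_on with
  | empty => simp [nmS]
  | insert q S hq ih =>
    rw [AR2b_ins S q hq, Nat.totient_mul (AR2b_copS S q hq), Nat.totient_prime (AR2b_prime q), Nat.cast_mul,
      ih, Finset.prod_insert hq, Nat.cast_sub (AR2b_prime q).one_le, Nat.cast_one]

private theorem AR2b_copW {k : ℕ} (d : MD k) {z : ℝ} (S : Finset (Pl d.w z)) :
    d.M.Coprime (nmS S) := by
  unfold nmS
  refine Nat.Coprime.prod_right fun p hp => ?_
  refine Nat.Coprime.symm ((Nat.Prime.coprime_iff_not_dvd (AR2b_prime p)).2 fun h => ?_)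
  have h1 := (d.M_primes p.1 (AR2b_prime p)).1 h
  have h2 := AR2b_gt p
  omega

private theorem AR2b_exN {k : ℕ} (d : MD k) (z : ℝ) (i : Fin k) (σ : Pl d.w z → Option (Fin k)) :
    ∃ N : ℕ, N ≡ d.b + d.h i [MOD d.M] ∧ ∀ p v, σ p = some v → N + d.h v ≡ d.h i [MOD p.1] := by
  classical
  obtain ⟨N1, hN1⟩ := Nat.chineseRemainderOfFinset (ι := Pl d.w z)
    (fun p => match σ p with
      | none => 0
      | some v => d.h i + (p.1 * d.h v - d.h v)) (fun p => p.1) (supp σ)
    (fun p _ => (AR2b_prime p).ne_zero)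
    (fun p _ q _ hpq => by
      show Nat.Coprime p.1 q.1
      rw [Nat.coprime_primes (AR2b_prime p) (AR2b_prime q)]
      exact fun h => hpq (Subtype.ext h))
  obtain ⟨N, hN2, hN3⟩ := Nat.chineseRemainder (AR2b_copW d (supp σ)) (d.b + d.h i) N1
  refine ⟨N, hN2, fun p v hpv => ?_⟩
  have hp : p ∈ supp σ := by
    unfold supp
    simp [hpv]
  have h1 := (AR2b_modS (supp σ) N N1).1 hN3 p hp
  have h2 := hN1 p hp
  simp only [hpv] at h2
  have h3 : N + d.h v ≡ d.h i + (p.1 * d.h v - d.h v) + d.h v [MOD p.1] :=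
    (h1.trans h2).add_right _
  have h4 : d.h v ≤ p.1 * d.h v := Nat.le_mul_of_pos_left _ (AR2b_prime p).pos
  have h5 : d.h i + (p.1 * d.h v - d.h v) + d.h v = d.h i + p.1 * d.h v := by omega
  rw [h5] at h3
  refine h3.trans ?_
  have h6 : p.1 * d.h v ≡ 0 [MOD p.1] := (Nat.modEq_zero_iff_dvd).2 (Dvd.intro _ rfl)
  simpa using h6.add_left (d.h i)

open Classical in
private theorem AR2b_one {k : ℕ} (d : MD k) (z : ℝ) (κ : ℕ) (Y : ℝ) (i : Fin k) (hY : 1 ≤ Y) (hz : z ≤ Y)
    (hD : (d.w : ℝ) ≤ Y) (σ : Pl d.w z → Option (Fin k)) (hσ : ∀ p, σ p ≠ some (i)) :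
    |∑ p ∈ (PM d i Y).filter (fun p => Sub σ (cM d z (p - d.h i))), ap κ Y p -
      XM κ Y / (d.M.totient : ℝ) * ∏ p ∈ supp σ, 1 / ((p.1 : ℝ) - 1)| ≤ EB κ Y (d.M * nm σ) := by
  obtain ⟨N, hN1, hN2⟩ := AR2b_exN d z i σ
  have hsh : d.h (i) = d.h i := rfl
  have hhi : d.h i ≤ d.w := d.h_le (i)
  -- the sum is the sum over a residue class
  have e1 : ∑ p ∈ (PM d i Y).filter (fun p => Sub σ (cM d z (p - d.h i))), ap κ Y p =
      Sd κ Y N (d.M * nm σ) := by
    unfold Wb58c63.Sd PM
    rw [Finset.filter_filter, Finset.sum_filter, Finset.sum_filter]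
    refine Finset.sum_congr rfl fun p _ => ?_
    by_cases h0 : ap κ Y p = 0
    · rw [h0]
      simp
    · have h1 : aw κ Y p ≠ 0 := by
        intro h1
        apply h0
        unfold Wb58c63.ap
        rw [h1, zero_mul]
      have h2 := (Wb58c63.aw_support κ Y hY p h1).1
      have h3 : d.h i ≤ p := by
        have h4 : (d.h i : ℝ) ≤ p := by
          have h5 : (d.h i : ℝ) ≤ d.w := by exact_mod_cast hhi
          linarith
        exact_mod_cast h4
      have h4 : (p ≡ d.b + d.h i [MOD d.M] ∧ Sub σ (cM d z (p - d.h i))) ↔ p ≡ N [MOD d.M * nm σ] := by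
        unfold nm
        rw [← Nat.modEq_and_modEq_iff_modEq_mul (AR2b_copW d (supp σ)), AR2b_modS, Sub_cc_iff]
        refine and_congr ⟨fun h => h.trans hN1.symm, fun h => h.trans hN1⟩ ?_
        have key : ∀ (q : Pl d.w z) (v : Fin k), σ q = some v →
            (q.1 ∣ p - d.h i + d.h v ↔ p ≡ N [MOD q.1]) := by
          intro q v hqv
          have a1 := hN2 q v hqv
          have a2 : q.1 ∣ p - d.h i + d.h v ↔ p + d.h v ≡ d.h i [MOD q.1] := by
            rw [← Nat.modEq_zero_iff_dvd]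
            constructor
            · intro h
              have h5 := h.add_right (d.h i)
              rw [zero_add] at h5
              rwa [show p - d.h i + d.h v + d.h i = p + d.h v by omega] at h5
            · intro h
              apply Nat.ModEq.add_right_cancel' (d.h i)
              rw [zero_add]
              rwa [show p - d.h i + d.h v + d.h i = p + d.h v by omega]
          rw [a2]
          constructor
          · intro h
            exact Nat.ModEq.add_right_cancel' (d.h v) (h.trans a1.symm)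
          · intro h
            exact (h.add_right (d.h v)).trans a1
        constructor
        · intro h q hq
          have hq' : σ q ≠ none := by
            unfold supp at hq
            simpa using hq
          obtain ⟨v, hv⟩ := Option.ne_none_iff_exists'.1 hq'
          exact (key q v hv).1 (h q v hv)
        · intro h q v hv
          have hq : q ∈ supp σ := by
            unfold supp
            simp [hv]
          exact (key q v hv).2 (h q hq)
      simp only [h4]
  have hnm : 0 < nm σ := by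
    unfold nm nmS
    exact Finset.prod_pos fun p _ => (AR2b_prime p).pos
  have e2 : XM κ Y / (d.M.totient : ℝ) * ∏ p ∈ supp σ, 1 / ((p.1 : ℝ) - 1) =
      XM κ Y / ((d.M * nm σ).totient : ℝ) := by
    unfold nm
    rw [Nat.totient_mul (AR2b_copW d (supp σ)), Nat.cast_mul, AR2b_totS, Finset.prod_div_distrib,
      Finset.prod_const_one, div_mul_div_comm, mul_one]
  have hprimes : ∀ p : ℕ, p.Prime → p ∣ d.M * nm σ → p ≤ d.w ∨ ∃ q ∈ supp σ, q.1 = p := by
    intro p hp hdvd
    rcases (Nat.Prime.dvd_mul hp).1 hdvd with h | h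
    · exact Or.inl ((d.M_primes p hp).1 h)
    · right
      unfold nm nmS at h
      obtain ⟨q, hq, hpq⟩ := (Prime.dvd_finsetProd_iff hp.prime _).1 h
      exact ⟨q, hq, ((Nat.prime_dvd_prime_iff_eq hp (AR2b_prime q)).1 hpq).symm⟩
  have e3 := Er_le_EB κ Y hY (d.M * nm σ) N (Nat.mul_pos d.M_pos hnm) (by
      intro p hp hdvd
      rcases hprimes p hp hdvd with h | ⟨q, hq, h⟩
      · have h1 : (p : ℝ) ≤ d.w := by exact_mod_cast h
        linarith
      · have h1 := AR2b_lt q
        rw [h] at h1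
        linarith) (by
      refine Nat.Coprime.symm (Nat.coprime_of_dvd fun p hp hpN hdvd => ?_)
      rcases (Nat.Prime.dvd_mul hp).1 hdvd with h | h
      · have h1 : N ≡ d.b + d.h i [MOD p] := hN1.of_dvd h
        have h2 : p ∣ d.b + d.h i := (Nat.modEq_zero_iff_dvd).1
          (h1.symm.trans ((Nat.modEq_zero_iff_dvd).2 hpN))
        have h3 : p ∣ 1 := by
          rw [← d.cop i]
          exact Nat.dvd_gcd h2 h
        exact hp.one_lt.ne' (Nat.dvd_one.1 h3)
      · unfold nm nmS at h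
        obtain ⟨q, hq, hpq⟩ := (Prime.dvd_finsetProd_iff hp.prime _).1 h
        have hqp : p = q.1 := (Nat.prime_dvd_prime_iff_eq hp (AR2b_prime q)).1 hpq
        have hq' : σ q ≠ none := by
          unfold supp at hq
          simpa using hq
        obtain ⟨v, hv⟩ := Option.ne_none_iff_exists'.1 hq'
        have h1 := hN2 q v hv
        rw [← hqp] at h1
        have h2 : d.h v ≡ d.h i [MOD p] := by
          have h3 := ((Nat.modEq_zero_iff_dvd).2 hpN).add_right (d.h v)
          rw [zero_add] at h3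
          exact h3.symm.trans h1
        have h3 := AR2b_gt q
        rw [← hqp] at h3
        have h4 : d.h v < p := lt_of_le_of_lt (d.h_le v) h3
        have h5 : d.h i < p := lt_of_le_of_lt hhi h3
        have h6 : d.h v = d.h (i) := by
          rw [hsh]
          exact Nat.ModEq.eq_of_lt_of_lt h2 h4 h5
        have h7 : v = i := d.h_inj h6
        rw [h7] at hv
        exact hσ q hv)
  rw [e1, e2]
  exact e3

/-- **Transfer for the primes.** `p ∈ PM d i Y` with `ap ≠ 0` is `> Y ≥ D0 ≥ h i`; `σ ≤ cM d z (p - h i)` means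
`p ≡ h i - sh (σ q) mod q` for all `q ∈ supp σ`; with `p ≡ b + h i mod W` this is one residue class `N_σ` modulo `W nm σ`, which is
coprime to the modulus (`σ q ≠ inl i`, the shifts differ by a number `≠ 0` of absolute value `≤ D0 < q`; `cop`). So the sum over
`p` is `Sd κ Y N_σ (W nm σ) = XM / φ(W nm σ) + Er`, `φ(W nm σ) = φ(W) ∏ (q - 1)`, and `Er_le_EB` (the primes dividing `W nm σ` are
at most `Y`). Exchange the sums. -/
theorem tr_prime {k : ℕ} (d : MD k) (z : ℝ) (κ : ℕ) (Y : ℝ) (i : Fin k) (hY : 1 ≤ Y) (hz : z ≤ Y)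
    (hD : (d.w : ℝ) ≤ Y) (α : (Pl d.w z → Option (Fin k)) → ℝ)
    (hα : ∀ σ, α σ ≠ 0 → ∀ p, σ p ≠ some (i)) :
    |∑ p ∈ PM d i Y, ap κ Y p * ∑ σ ∈ dn (cM d z (p - d.h i)), α σ -
      XM κ Y / (d.M.totient : ℝ) * ∑ σ, α σ * ∏ p ∈ supp σ, 1 / ((p.1 : ℝ) - 1)| ≤
      ∑ σ, |α σ| * EB κ Y (d.M * nm σ) := by
  classical
  have e1 : ∑ p ∈ PM d i Y, ap κ Y p * ∑ σ ∈ dn (cM d z (p - d.h i)), α σ =
      ∑ σ, α σ * ∑ p ∈ (PM d i Y).filter (fun p => Sub σ (cM d z (p - d.h i))), ap κ Y p := by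
    have h1 : ∀ p ∈ PM d i Y, ap κ Y p * ∑ σ ∈ dn (cM d z (p - d.h i)), α σ =
        ∑ σ, if Sub σ (cM d z (p - d.h i)) then α σ * ap κ Y p else 0 := by
      intro p _
      unfold dn
      rw [Finset.mul_sum, Finset.sum_filter]
      refine Finset.sum_congr rfl fun σ _ => ?_
      split_ifs
      · ring
      · rfl
    rw [Finset.sum_congr rfl h1, Finset.sum_comm]
    refine Finset.sum_congr rfl fun σ _ => ?_
    rw [Finset.sum_filter, Finset.mul_sum]
    refine Finset.sum_congr rfl fun p _ => ?_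
    split_ifs
    · rfl
    · rw [mul_zero]
  rw [e1, Finset.mul_sum, ← Finset.sum_sub_distrib]
  refine (Finset.abs_sum_le_sum_abs _ _).trans (Finset.sum_le_sum fun σ _ => ?_)
  by_cases h0 : α σ = 0
  · rw [h0]
    simp
  · have h1 := AR2b_one d z κ Y i hY hz hD σ (hα σ h0)
    have h2 : α σ * ∑ p ∈ (PM d i Y).filter (fun p => Sub σ (cM d z (p - d.h i))), ap κ Y p -
        XM κ Y / (d.M.totient : ℝ) * (α σ * ∏ p ∈ supp σ, 1 / ((p.1 : ℝ) - 1)) =
        α σ * (∑ p ∈ (PM d i Y).filter (fun p => Sub σ (cM d z (p - d.h i))), ap κ Y p -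
          XM κ Y / (d.M.totient : ℝ) * ∏ p ∈ supp σ, 1 / ((p.1 : ℝ) - 1)) := by ring
    rw [h2, abs_mul]
    exact mul_le_mul_of_nonneg_left h1 (abs_nonneg _)


end Pool.Agent.W33m
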