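import Pool.Agent.W_d33b62m_h36.Mo
import Pool.Agent.W_d33b62f_h37.Sv
import Pool.Agent.W_d33b62_h36.LA2
import Pool.Agent.W_d33b62_h36.AR3b

/-!
# The fundamental lemma weights: expansion (MP_d33b62, T2, file Mb1)
-/

set_option autoImplicit false

noncomputable section

open Finset Filter

namespace Pool.Agent.W33m

open Pool.Agent.Wd33b62 (Pl PS xr nmS nm supp Sub dn fib era off FF lam zz AA BB SX QH GH TT0 HasExp conv Ex QOK
  qwt xwt EB Bd mem_PS)
open Pool.Agent.Wb58c63 (PI mem_PI VP aw ap XM Pr)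
open Pool.Agent.M58 (lp' lm')
open Pool.Agent.Wd33b62 (LA2_J LA2_mem_dn LA2_supp_J LA2_J_sub LA2_supp_sub LA2_eq_J LA2_mem_supp AR3b_prime AR3b_nmS)

variable {w : ℕ} {z : ℝ} {V : Type} [Fintype V] [DecidableEq V]

/-- The expansion. As `Lm_hasExp` in `W_d33b62_h36/AR3d.lean`: a sub-labeling `σ` of `c` is determined by its support
`S ⊆ supp c` (`LA2_J`, `LA2_eq_J` in `LA2.lean`), and `aLS σ` is the term of `S` if all primes of `S` are `< z0`, and `0` else. -/
theorem LS_hasExp (s : Bool) (z0 : ℝ) (b : ℕ) :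
    HasExp (LS (w := w) (z := z) (V := V) s z0 b) (aLS s z0 b) := by
  classical
  intro c
  have hR : ∑ σ ∈ dn c, aLS s z0 b σ =
      ∑ σ ∈ (dn c).filter fun σ => ∀ p ∈ supp σ, (p.1 : ℝ) < z0,
        (if s then lp' z0 b ((supp σ).image Subtype.val) else lm' z0 b ((supp σ).image Subtype.val)) := by
    rw [Finset.sum_filter]
    refine Finset.sum_congr rfl fun σ _ => ?_
    unfold aLS
    congr 1
  rw [hR]
  unfold LS
  have hsub : ∀ S ∈ ((supp c).filter fun p => (p.1 : ℝ) < z0).powerset, S ⊆ supp c := fun S hS =>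
    (mem_powerset.1 hS).trans (filter_subset _ _)
  refine Finset.sum_bij' (fun S _ => LA2_J c S) (fun σ _ => supp σ) ?_ ?_ ?_ ?_ ?_
  · intro S hS
    rw [mem_filter, LA2_mem_dn, LA2_supp_J (hsub S hS)]
    refine ⟨LA2_J_sub c S, fun p hp => ?_⟩
    exact (mem_filter.1 (mem_powerset.1 hS hp)).2
  · intro σ hσ
    obtain ⟨h1, h2⟩ := mem_filter.1 hσ
    rw [LA2_mem_dn] at h1
    rw [mem_powerset]
    intro p hp
    exact mem_filter.2 ⟨LA2_supp_sub h1 hp, h2 p hp⟩
  · intro S hS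
    exact LA2_supp_J (hsub S hS)
  · intro σ hσ
    obtain ⟨h1, _⟩ := mem_filter.1 hσ
    rw [LA2_mem_dn] at h1
    exact (LA2_eq_J h1 rfl).symm
  · intro S hS
    rw [LA2_supp_J (hsub S hS)]

/-- The coefficients are bounded by `1` (`abs_lp_le_one`, `abs_lm_le_one` in `W_d33b62f_h37/Sv.lean`) and supported on
products `≤ z0 ^ (4 b + 5)` (`lp_supp`, `lm_supp` in `W_b58c63_m1/SPl.lean`; `nm σ` is the product of the image of `supp σ`,
see `AR3b_nmS`). -/
theorem Bd_aLS (s : Bool) (z0 : ℝ) (hz0 : 2 ≤ z0) (b : ℕ) :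
    Bd (aLS (w := w) (z := z) (V := V) s z0 b) (z0 ^ (4 * b + 5)) 1 1 := by
  classical
  intro σ
  refine ⟨?_, fun h => ?_⟩
  · rw [one_pow, mul_one]
    unfold aLS
    split_ifs
    · exact Pool.Agent.W33f.abs_lp_le_one _ _ _
    · exact Pool.Agent.W33f.abs_lm_le_one _ _ _
    · rw [abs_zero]
      exact zero_le_one
  · unfold aLS at h
    by_cases hc : ∀ p ∈ supp σ, (p.1 : ℝ) < z0
    · rw [if_pos hc] at h
      have hS : (supp σ).image Subtype.val ⊆ PI 0 z0 := by
        intro p hp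
        obtain ⟨q, hq, rfl⟩ := Finset.mem_image.1 hp
        exact mem_PI.2 ⟨AR3b_prime q, Nat.cast_nonneg _, hc q hq⟩
      unfold nm
      rw [AR3b_nmS]
      cases s with
      | true => exact Pool.Agent.M58.lp_supp z0 hz0 b _ hS h
      | false => exact Pool.Agent.M58.lm_supp z0 hz0 b _ hS h
    · rw [if_neg hc] at h
      exact absurd rfl h

/-- The weights depend only on the places `< z0`. -/
theorem LS_congr (s : Bool) (z0 : ℝ) (b : ℕ) (c c' : Pl w z → Option V)
    (h : ∀ p : Pl w z, (p.1 : ℝ) < z0 → c p = c' p) : LS s z0 b c = LS s z0 b c' := by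
  classical
  have h1 : ((supp c).filter fun p => (p.1 : ℝ) < z0) = (supp c').filter fun p => (p.1 : ℝ) < z0 := by
    ext p
    rw [mem_filter, mem_filter, LA2_mem_supp, LA2_mem_supp]
    constructor
    · rintro ⟨h2, h3⟩
      rw [h p h3] at h2
      exact ⟨h2, h3⟩
    · rintro ⟨h2, h3⟩
      rw [← h p h3] at h2
      exact ⟨h2, h3⟩
  unfold LS
  rw [h1]

end Pool.Agent.W33m
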