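import Pool.Agent.W_d33b62m_h36.Mo
import Pool.Agent.W_d33b62f_h37.Sv
import Pool.Agent.W_d33b62_h36.AR3b

/-!
# The fundamental lemma weights: the sieve inequalities (MP_d33b62, T2, file Mb2)
-/

set_option autoImplicit false

noncomputable section

open Finset Filter

namespace Pool.Agent.W33m

open Pool.Agent.Wd33b62 (Pl PS xr nmS nm supp Sub dn fib era off FF lam zz AA BB SX QH GH TT0 HasExp conv Ex QOK
  qwt xwt EB Bd mem_PS)
open Pool.Agent.Wb58c63 (PI mem_PI VP aw ap XM Pr)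
open Pool.Agent.M58 (lp' lm')

variable {w : ℕ} {z : ℝ} {V : Type} [Fintype V] [DecidableEq V]

open Classical in
/-- The sieve inequalities: `rh_bounds`, `tp_eq`, `tm_eq` of `W_b58c63_m1/SPl.lean` for the number
`∏ p` over the labelled primes `< z0` (see `nb`, `filter_nb`, `ind_nb` in `W_d33b62f_h37/Sv.lean`). -/
theorem LS_ineq (z0 : ℝ) (hz0 : 2 ≤ z0) (b : ℕ) (c : Pl w z → Option V) :
    LS false z0 b c ≤ (if ∀ p ∈ supp c, z0 ≤ (p.1 : ℝ) then 1 else 0) ∧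
      (if ∀ p ∈ supp c, z0 ≤ (p.1 : ℝ) then 1 else 0) ≤ LS true z0 b c := by
  obtain ⟨F, hF⟩ : ∃ F : Finset (Pl w z), F = (supp c).filter fun p => (p.1 : ℝ) < z0 := ⟨_, rfl⟩
  obtain ⟨P, hPd⟩ : ∃ P : Finset ℕ, P = F.image Subtype.val := ⟨_, rfl⟩
  have hP : ∀ p ∈ P, p.Prime ∧ (p : ℝ) < z0 := by
    intro p hp
    rw [hPd, mem_image] at hp
    obtain ⟨q, hq, rfl⟩ := hp
    rw [hF, mem_filter] at hq
    have hq2 := q.2
    unfold PS at hq2
    exact ⟨(Pool.Agent.Wb58c63.mem_PI.1 hq2).1, hq.2⟩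
  have h1 := Pool.Agent.M58.th_ineq (Pool.Agent.M58.Pz z0) (Pool.Agent.M58.bz b)
    (Pool.Agent.M58.Jz z0) (Pool.Agent.W33f.nb P (fun _ (_ : Unit) => True) ())
    fun j _ => ⟨b + j, by rw [Pool.Agent.M58.bz]; ring⟩
  rw [Pool.Agent.M58.blk_Pz z0 hz0, Pool.Agent.W33f.ind_nb z0 P hP _ ()] at h1
  have h2 : Pool.Agent.M58.thm (Pool.Agent.M58.Pz z0) (Pool.Agent.M58.bz b)
      (Pool.Agent.M58.Jz z0) (Pool.Agent.W33f.nb P (fun _ (_ : Unit) => True) ()) =
      Pool.Agent.M58.tm' z0 b (Pool.Agent.W33f.nb P (fun _ (_ : Unit) => True) ()) := rfl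
  have h3 : Pool.Agent.M58.thp (Pool.Agent.M58.Pz z0) (Pool.Agent.M58.bz b)
      (Pool.Agent.M58.Jz z0) (Pool.Agent.W33f.nb P (fun _ (_ : Unit) => True) ()) =
      Pool.Agent.M58.tp' z0 b (Pool.Agent.W33f.nb P (fun _ (_ : Unit) => True) ()) := rfl
  rw [h2, h3, Pool.Agent.M58.tm_eq z0 hz0 b, Pool.Agent.M58.tp_eq z0 hz0 b,
    Pool.Agent.W33f.filter_nb z0 P hP _ ()] at h1
  simp only [Finset.filter_true] at h1
  have hsum : ∀ l : Finset ℕ → ℝ, ∑ S ∈ P.powerset, l S =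
      ∑ S ∈ F.powerset, l (S.image Subtype.val) := by
    intro l
    rw [hPd, powerset_image, sum_image]
    intro S _ S' _ h
    exact Finset.image_injective Subtype.val_injective h
  rw [hsum, hsum] at h1
  have hiff : (∀ p ∈ P, ¬ True) ↔ (∀ p ∈ supp c, z0 ≤ (p.1 : ℝ)) := by
    constructor
    · intro h p hp
      by_contra hlt
      refine h p.1 ?_ trivial
      rw [hPd, mem_image]
      exact ⟨p, by rw [hF, mem_filter]; exact ⟨hp, not_le.1 hlt⟩, rfl⟩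
    · intro h p hp _
      rw [hPd, mem_image] at hp
      obtain ⟨q, hq, rfl⟩ := hp
      rw [hF, mem_filter] at hq
      exact absurd hq.2 (not_lt.2 (h q hq.1))
  have h4 := h1.1
  have h5 := h1.2.1
  simp only [hiff] at h4 h5
  unfold LS
  rw [← hF]
  simp only [if_true, Bool.false_eq_true, if_false]
  exact ⟨by convert h4, by convert h5⟩

end Pool.Agent.W33m
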