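import Pool.Agent.W_d33b62m_h36.Mo
import Pool.Agent.W_d33b62f_h37.Sv
import Pool.Agent.W_d33b62m_h36.Mb1
import Pool.Agent.W_d33b62_h36.LA1

/-!
# The fundamental lemma weights: expectations (MP_d33b62, T2, file Mb3)
-/

set_option autoImplicit false

noncomputable section

open Finset Filter

namespace Pool.Agent.W33m

open Pool.Agent.Wd33b62 (Pl PS xr nmS nm supp Sub dn fib era off FF lam zz AA BB SX QH GH TT0 HasExp conv Ex QOK
  qwt xwt EB Bd mem_PS)
open Pool.Agent.Wb58c63 (PI mem_PI VP aw ap XM Pr)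
open Pool.Agent.M58 (lp' lm')

variable {w : ℕ} {z : ℝ} {V : Type} [Fintype V] [DecidableEq V]

/-- The probability that all places of `S` carry a label. -/
theorem Mb3_prb (q : Pl w z → V → ℝ) (S : Finset (Pl w z)) :
    ∑ c : Pl w z → Option V, Pool.Agent.Wd33b62.prb q c * (if S ⊆ supp c then (1 : ℝ) else 0) =
      ∏ p ∈ S, ∑ v, q p v := by
  classical
  have h1 : ∀ c : Pl w z → Option V, Pool.Agent.Wd33b62.prb q c * (if S ⊆ supp c then (1 : ℝ) else 0) =
      ∏ i, (Pool.Agent.Wd33b62.pv q i (c i) * if i ∈ S ∧ c i = none then 0 else 1) := by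
    intro c
    rw [prod_mul_distrib]
    unfold Pool.Agent.Wd33b62.prb
    congr 1
    by_cases h : S ⊆ supp c
    · rw [if_pos h]
      symm
      refine prod_eq_one fun i _ => if_neg ?_
      rintro ⟨h2, h3⟩
      have h4 := h h2
      unfold supp at h4
      rw [mem_filter] at h4
      exact h4.2 h3
    · rw [if_neg h]
      symm
      rw [not_subset] at h
      obtain ⟨i, hi, hn⟩ := h
      refine prod_eq_zero (mem_univ i) (if_pos ⟨hi, ?_⟩)
      by_contra hc
      apply hn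
      unfold supp
      rw [mem_filter]
      exact ⟨mem_univ i, hc⟩
  simp only [h1]
  rw [Pool.Agent.Wd33b62.sum_prod (fun i a => Pool.Agent.Wd33b62.pv q i a * if i ∈ S ∧ a = none then 0 else 1)]
  have h2 : ∀ i : Pl w z, Pool.Agent.Wd33b62.pv q i none * (if i ∈ S ∧ (none : Option V) = none then (0 : ℝ) else 1) +
      ∑ v, Pool.Agent.Wd33b62.pv q i (some v) * (if i ∈ S ∧ some v = none then (0 : ℝ) else 1) =
      if i ∈ S then ∑ v, q i v else 1 := by
    intro i
    simp only [Pool.Agent.Wd33b62.pv, reduceCtorEq, and_false, if_false, mul_one, and_true]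
    split_ifs
    · rw [mul_zero, zero_add]
    · rw [mul_one, sub_add_cancel]
  rw [prod_congr rfl fun i _ => h2 i, prod_ite_mem, univ_inter]

/-- `Ex q (∑_{S ⊆ supp c, primes < z0} l(S)) = ∑_S l(S) ∏_{p ∈ S} (∑_v q p v)`: from `Ex_of_hasExp` and `LS_hasExp`
(sum over the labels at the places of `S`, `sum_prod`/`Finset.prod_univ_sum`), or directly. -/
theorem Ex_LS (s : Bool) (z0 : ℝ) (b : ℕ) (hz : z0 ≤ z) (q : Pl w z → V → ℝ) (g : ℕ → ℝ)
    (hq : ∀ p, ∑ v, q p v = g p.1) :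
    Ex q (LS s z0 b) = ∑ S ∈ (PI ((w : ℝ) + 1) z0).powerset,
      (if s then lp' z0 b S else lm' z0 b S) * ∏ p ∈ S, g p := by
  classical
  set F0 : Finset (Pl w z) := univ.filter fun p => (p.1 : ℝ) < z0 with hF0
  set l : Finset ℕ → ℝ := fun S => if s then lp' z0 b S else lm' z0 b S with hl
  have h1 : ∀ c : Pl w z → Option V, Pool.Agent.Wd33b62.prb q c * LS s z0 b c =
      ∑ S ∈ F0.powerset, l (S.image Subtype.val) *
        (Pool.Agent.Wd33b62.prb q c * (if S ⊆ supp c then (1 : ℝ) else 0)) := by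
    intro c
    have h2 : ((supp c).filter fun p => (p.1 : ℝ) < z0).powerset = F0.powerset.filter (fun S => S ⊆ supp c) := by
      ext S
      rw [mem_powerset, mem_filter, mem_powerset, hF0]
      constructor
      · intro h
        exact ⟨fun p hp => mem_filter.2 ⟨mem_univ p, (mem_filter.1 (h hp)).2⟩, h.trans (filter_subset _ _)⟩
      · rintro ⟨h, h'⟩ p hp
        exact mem_filter.2 ⟨h' hp, (mem_filter.1 (h hp)).2⟩
    unfold LS
    rw [h2, sum_filter, mul_sum]
    refine sum_congr rfl fun S _ => ?_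
    simp only [hl]
    split_ifs <;> ring
  unfold Ex
  simp only [h1]
  rw [sum_comm]
  simp only [← mul_sum, Mb3_prb, hq]
  refine sum_bij (fun S _ => S.image Subtype.val) ?_ ?_ ?_ ?_
  · intro S hS
    rw [mem_powerset] at hS ⊢
    intro p hp
    rw [mem_image] at hp
    obtain ⟨x, hx, rfl⟩ := hp
    have h3 := hS hx
    rw [hF0, mem_filter] at h3
    have h4 := mem_PS.1 x.2
    rw [mem_PI]
    refine ⟨h4.1, ?_, h3.2⟩
    exact_mod_cast h4.2.1
  · intro S _ T _ h
    exact image_injective Subtype.val_injective h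
  · intro T hT
    rw [mem_powerset] at hT
    refine ⟨F0.filter fun p => p.1 ∈ T, ?_, ?_⟩
    · rw [mem_powerset]
      exact filter_subset _ _
    · ext p
      rw [mem_image]
      constructor
      · rintro ⟨x, hx, rfl⟩
        exact (mem_filter.1 hx).2
      · intro hp
        have h3 := mem_PI.1 (hT hp)
        have h4 : w < p := by
          have h5 : ((w + 1 : ℕ) : ℝ) ≤ p := by push_cast; exact h3.2.1
          have h6 : w + 1 ≤ p := by exact_mod_cast h5
          omega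
        refine ⟨⟨p, mem_PS.2 ⟨h3.1, h4, h3.2.2.trans_le hz⟩⟩, ?_, rfl⟩
        rw [mem_filter, hF0, mem_filter]
        exact ⟨⟨mem_univ _, h3.2.2⟩, hp⟩
  · intro S _
    rw [prod_image (fun a _ b _ h => Subtype.val_injective h)]

/-- The fundamental lemma (`FLk` of `W_d33b62_h47/T1.lean` with the density `g` on `PI (w + 1) z0` and `0` elsewhere:
`main_restrict`, `VP_restrict` in `W_d33b62f_h37/Sv.lean`). -/
theorem Ex_LS_FL (κ : ℝ) (hκ : 0 ≤ κ) : ∃ C : ℝ, 1 ≤ C ∧ ∀ (w : ℕ) (z z0 : ℝ) (b : ℕ) (k : ℕ)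
    (q : Pl w z → Fin k → ℝ) (g : ℕ → ℝ), 2 ≤ z0 → z0 ≤ z → 1 ≤ b → (∀ p, ∑ v, q p v = g p.1) →
    (∀ p ∈ PI ((w : ℝ) + 1) z0, 0 ≤ g p ∧ g p ≤ 3 / 4 ∧ g p ≤ κ / p) →
      Ex q (LS true z0 b) ≤ VP g (PI ((w : ℝ) + 1) z0) * (1 + C * Real.exp (-b)) ∧
      VP g (PI ((w : ℝ) + 1) z0) * (1 - C * Real.exp (-b)) ≤ Ex q (LS false z0 b) := by
  classical
  obtain ⟨C, hC1, hC⟩ := Pool.Agent.Wd33b62k.FLk κ hκ
  refine ⟨C, hC1, ?_⟩
  intro w z z0 b k q g hz0 hz hb hq hg
  set P : Finset ℕ := PI ((w : ℝ) + 1) z0 with hPdef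
  have hP : ∀ p ∈ P, p.Prime ∧ (p : ℝ) < z0 := fun p hp => ⟨(mem_PI.1 hp).1, (mem_PI.1 hp).2.2⟩
  set g' : ℕ → ℝ := fun p => if p ∈ P then g p else 0 with hg'
  have hg1 : ∀ p, p.Prime → 0 ≤ g' p ∧ g' p ≤ 3 / 4 ∧ g' p ≤ κ / p := by
    intro p hp
    rw [hg']
    by_cases h : p ∈ P
    · simp only [if_pos h]
      exact hg p h
    · simp only [if_neg h]
      exact ⟨le_rfl, by norm_num, by positivity⟩
  obtain ⟨f1, f2, f3⟩ := hC z0 b g' hz0 hb hg1
  rw [Pool.Agent.W33f.main_restrict z0 P hP g (lp' z0 b)] at f1 f2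
  rw [Pool.Agent.W33f.main_restrict z0 P hP g (lm' z0 b)] at f3
  rw [Pool.Agent.W33f.VP_restrict z0 P hP g] at f1 f2 f3
  rw [Ex_LS true z0 b hz q g hq, Ex_LS false z0 b hz q g hq]
  simp only [if_true, Bool.false_eq_true, if_false]
  exact ⟨f2, f3⟩

end Pool.Agent.W33m
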