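import Pool.Agent.W_d33b62m_h36.Mo
import Pool.Agent.W_d33b62_h36.LA1

/-!
# Independence of disjoint sets of places (MP_d33b62, T2, file Mc1)
-/

set_option autoImplicit false

noncomputable section

open Finset Filter

namespace Pool.Agent.W33m

open Pool.Agent.Wd33b62 (Pl PS xr nmS nm supp Sub dn fib era off FF lam zz AA BB SX QH GH TT0 HasExp conv Ex QOK
  qwt xwt EB Bd mem_PS)
open Pool.Agent.Wb58c63 (PI mem_PI VP aw ap XM Pr)
open Pool.Agent.M58 (lp' lm')

private def mc1mix {ι V : Type} [DecidableEq ι] (A : Finset ι) (c c' : ι → Option V) :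
    ι → Option V := fun i => if i ∈ A then c i else c' i

private theorem mc1_prb {ι V : Type} [Fintype ι] [DecidableEq ι] [Fintype V] [DecidableEq V]
    (q : ι → V → ℝ) (A : Finset ι) (c c' : ι → Option V) :
    Wd33b62.prb q (mc1mix A c c') * Wd33b62.prb q (mc1mix A c' c) =
      Wd33b62.prb q c * Wd33b62.prb q c' := by
  unfold Wd33b62.prb
  rw [← Finset.prod_mul_distrib, ← Finset.prod_mul_distrib]
  refine Finset.prod_congr rfl fun i _ => ?_
  unfold mc1mix
  by_cases hi : i ∈ A
  · simp only [if_pos hi]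
  · simp only [if_neg hi]
    ring

/-- **Independence** in a product model: `prb q c` is the product over the places of `A` times the product over the others,
split the sum over `c` with `Equiv.piEquivPiSubtypeProd` (or `Fintype.sum_prod_type` after it); with `Ex_one` for each factor:
the sum of `prb` over the other places is `1` (`sum_prod` in `LA1.lean`: `pv q i none + ∑ v pv q i (some v) = 1`). -/
theorem Ex_indep {ι V : Type} [Fintype ι] [DecidableEq ι] [Fintype V] [DecidableEq V] (q : ι → V → ℝ)
    (A : Finset ι) (G H : (ι → Option V) → ℝ) (hG : ∀ c c', (∀ i ∈ A, c i = c' i) → G c = G c')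
    (hH : ∀ c c', (∀ i, i ∉ A → c i = c' i) → H c = H c') :
    Ex q (fun c => G c * H c) = Ex q G * Ex q H := by
  have h1 : Ex q (fun c => G c * H c) = Ex q (fun c => G c * H c) * Ex q (fun _ => 1) := by
    rw [Wd33b62.Ex_one, mul_one]
  have hinv : Function.Involutive (fun x : (ι → Option V) × (ι → Option V) =>
      (mc1mix A x.1 x.2, mc1mix A x.2 x.1)) := by
    rintro ⟨c, c'⟩
    refine Prod.ext ?_ ?_
    · funext i
      by_cases hi : i ∈ A <;> simp [mc1mix, hi]
    · funext i
      by_cases hi : i ∈ A <;> simp [mc1mix, hi]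
  have h2 : Ex q (fun c => G c * H c) * Ex q (fun _ => 1) =
      ∑ x : (ι → Option V) × (ι → Option V),
        Wd33b62.prb q x.1 * Wd33b62.prb q x.2 * (G x.1 * H x.1) := by
    unfold Ex
    rw [Finset.sum_mul_sum, Fintype.sum_prod_type]
    refine Finset.sum_congr rfl fun c _ => Finset.sum_congr rfl fun c' _ => ?_
    ring
  have h3 : Ex q G * Ex q H = ∑ x : (ι → Option V) × (ι → Option V),
        Wd33b62.prb q x.1 * Wd33b62.prb q x.2 * (G x.1 * H x.2) := by
    unfold Ex
    rw [Finset.sum_mul_sum, Fintype.sum_prod_type]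
    refine Finset.sum_congr rfl fun c _ => Finset.sum_congr rfl fun c' _ => ?_
    ring
  rw [h1, h2, h3, ← Equiv.sum_comp (hinv.toPerm _)]
  refine Finset.sum_congr rfl fun x _ => ?_
  obtain ⟨c, c'⟩ := x
  have e : hinv.toPerm _ (c, c') = (mc1mix A c c', mc1mix A c' c) := rfl
  rw [e]
  simp only
  rw [mc1_prb, hG (mc1mix A c c') c (fun i hi => by simp [mc1mix, hi]),
    hH (mc1mix A c c') c' (fun i hi => by simp [mc1mix, hi])]

end Pool.Agent.W33m
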