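import Pool.Agent.W_d33b62m_h36.Md
import Pool.Agent.W_d33b62_h36.LA3

/-!
# The Selberg weight depends only on the large places (MP_d33b62, T2, file Mc2)
-/

set_option autoImplicit false

noncomputable section

open Finset Filter

namespace Pool.Agent.W33m

open Pool.Agent.Wd33b62 (Pl PS xr nmS nm supp Sub dn fib era off FF lam zz AA BB SX QH GH TT0 HasExp conv Ex QOK
  qwt xwt EB Bd mem_PS)
open Pool.Agent.Wb58c63 (PI mem_PI VP aw ap XM Pr)
open Pool.Agent.M58 (lp' lm')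

/-- The Selberg weight depends only on the places `≥ Y ^ c`: `FF_congr` in `LA3.lean`, `yM κ ≠ 0` implies
`GM (fib κ v) ≠ 0` for all `v`, so all labelled places are `≥ Y ^ c`. -/
theorem FW_congr (k w : ℕ) (c Y : ℝ) (a a' : Pl w (Y ^ th) → Option (Fin k))
    (h : ∀ p : Pl w (Y ^ th), Y ^ c ≤ (p.1 : ℝ) → a p = a' p) : FW k w c Y a = FW k w c Y a' := by
  unfold FW
  congr 1
  apply Pool.Agent.Wd33b62.FF_congr
  intro κ hκ p hp
  have h1 := (yM_ne_zero k (Y ^ c) (Y ^ th) κ hκ).2 p (Pool.Agent.Wd33b62.LA3_mem_supp.2 hp)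
  rw [h p h1]

end Pool.Agent.W33m
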