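import Pool.Agent.W_d33b62m_h36.Mo
import Pool.Agent.W_d33b62_h36.AR3c

/-!
# Basic facts on the step function and the Selberg variables (MP_d33b62, T2, file Md)

Compare `W_d33b62_h36/AR1b.lean` and `AR1c.lean`.
-/

set_option autoImplicit false

noncomputable section

open Finset Filter

namespace Pool.Agent.W33m

open Pool.Agent.Wd33b62 (Pl PS xr nmS nm supp Sub dn fib era off FF lam zz AA BB SX QH GH TT0 HasExp conv Ex QOK
  qwt xwt EB Bd mem_PS)
open Pool.Agent.Wb58c63 (PI mem_PI VP aw ap XM Pr)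
open Pool.Agent.M58 (lp' lm')

variable {w : ℕ} {z : ℝ}

theorem tl_pos (l : ℕ) : 0 < tl l := by
  unfold tl
  positivity

theorem cl_pos (l : ℕ) : 0 < cl l := by
  unfold cl
  split_ifs <;> positivity

theorem cl_sum : ∑ l ∈ range 9, cl l = 1 := by
  simp [cl, sum_range_succ]
  norm_num

theorem GM_nonneg (z0 R : ℝ) (S : Finset (Pl w z)) : 0 ≤ GM z0 R S := by
  unfold GM
  split_ifs
  · refine Finset.sum_nonneg fun l _ => mul_nonneg (cl_pos l).le ?_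
    split_ifs <;> norm_num
  · exact le_rfl

theorem GM_le_one (z0 R : ℝ) (S : Finset (Pl w z)) : GM z0 R S ≤ 1 := by
  unfold GM
  split_ifs
  · refine le_of_le_of_eq ?_ cl_sum
    refine Finset.sum_le_sum fun l _ => ?_
    have := (cl_pos l).le
    split_ifs
    · rw [mul_one]
    · rw [mul_zero]
      exact this
  · exact zero_le_one

theorem GM_anti (z0 R : ℝ) (S T : Finset (Pl w z)) (h : S ⊆ T) : GM z0 R T ≤ GM z0 R S := by
  by_cases hT : ∀ p ∈ T, z0 ≤ (p.1 : ℝ)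
  · have hS : ∀ p ∈ S, z0 ≤ (p.1 : ℝ) := fun p hp => hT p (h hp)
    unfold GM
    rw [if_pos hT, if_pos hS]
    refine Finset.sum_le_sum fun l _ => mul_le_mul_of_nonneg_left ?_ (cl_pos l).le
    have h1 : (nmS S : ℝ) ≤ nmS T := by
      exact_mod_cast Pool.Agent.Wd33b62.AR1b_nmS_le S T h
    split_ifs with h2 h3
    · exact le_rfl
    · exact absurd (h1.trans h2) h3
    · exact zero_le_one
    · exact le_rfl
  · have h0 : GM z0 R T = 0 := by
      unfold GM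
      rw [if_neg hT]
    rw [h0]
    exact GM_nonneg z0 R S

theorem GM_empty (z0 R : ℝ) (hR : 1 ≤ R) : GM z0 R (∅ : Finset (Pl w z)) = 1 := by
  unfold GM
  rw [if_pos (fun p hp => absurd hp (Finset.notMem_empty p))]
  refine Eq.trans (Finset.sum_congr rfl fun l _ => ?_) cl_sum
  rw [if_pos, mul_one]
  unfold nmS
  rw [Finset.prod_empty, Nat.cast_one]
  exact Real.one_le_rpow hR (tl_pos l).le

/-- `tl 8 = 32 / 775`. -/
theorem GM_ne_zero (z0 R : ℝ) (hR : 1 ≤ R) (S : Finset (Pl w z)) (h : GM z0 R S ≠ 0) :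
    (∀ p ∈ S, z0 ≤ (p.1 : ℝ)) ∧ (nmS S : ℝ) ≤ R ^ (32 / 775 : ℝ) := by
  unfold GM at h
  by_cases h1 : ∀ p ∈ S, z0 ≤ (p.1 : ℝ)
  · refine ⟨h1, ?_⟩
    rw [if_pos h1] at h
    obtain ⟨l, hl, hne⟩ := Finset.exists_ne_zero_of_sum_ne_zero h
    have h2 : (nmS S : ℝ) ≤ R ^ tl l := by
      by_contra hc
      exact hne (by rw [if_neg hc, mul_zero])
    refine h2.trans (Real.rpow_le_rpow_of_exponent_le hR ?_)
    rw [Finset.mem_range] at hl
    unfold tl
    have h3 : (2 : ℝ) ^ l ≤ 2 ^ 8 := pow_le_pow_right₀ (by norm_num) (by omega)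
    rw [div_le_iff₀ (by norm_num)]
    refine h3.trans (by norm_num)
  · rw [if_neg h1] at h
    exact absurd rfl h

theorem GH_GM (hw : 1 ≤ w) (k : ℕ) (z0 R : ℝ) : GH (xr w z) (fun _ : Fin k => GM z0 R) := by
  have hD' : (1 : ℝ) ≤ w := by exact_mod_cast hw
  constructor
  · exact fun p => Pool.Agent.Wd33b62.xr_pos p
  · intro p
    refine (Pool.Agent.Wd33b62.xr_le hw p).trans ?_
    rw [div_le_one (by linarith)]
    exact hD'
  · exact fun _ S => GM_nonneg z0 R S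
  · exact fun _ S T h => GM_anti z0 R S T h

theorem co_nonneg (R : ℝ) (hR : 1 < R) (S : Finset (Pl w z)) : 0 ≤ co R S := by
  unfold co
  refine div_nonneg (Real.log_nonneg ?_) (Real.log_pos hR).le
  exact_mod_cast Pool.Agent.Wd33b62.AR1b_nmS_pos S

theorem yM_nonneg (k : ℕ) (z0 R : ℝ) (κ : Pl w z → Option (Fin k)) : 0 ≤ yM k z0 R κ := by
  unfold yM
  split_ifs
  · exact Finset.prod_nonneg fun v _ => GM_nonneg z0 R _
  · exact le_rfl

theorem yM_le (k : ℕ) (z0 R : ℝ) (κ : Pl w z → Option (Fin k)) : yM k z0 R κ ≤ ∏ v, GM z0 R (fib κ v) := by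
  unfold yM
  split_ifs
  · exact le_rfl
  · exact Finset.prod_nonneg fun v _ => GM_nonneg z0 R _

/-- If `y κ ≠ 0`, then `nm κ ≤ R` and all labelled places are `≥ z0`. -/
theorem yM_ne_zero (k : ℕ) (z0 R : ℝ) (κ : Pl w z → Option (Fin k)) (h : yM k z0 R κ ≠ 0) :
    (nm κ : ℝ) ≤ R ∧ ∀ p ∈ supp κ, z0 ≤ (p.1 : ℝ) := by
  unfold yM at h
  by_cases h1 : (nm κ : ℝ) ≤ R
  · refine ⟨h1, fun p hp => ?_⟩
    rw [if_pos h1] at h
    unfold supp at hp
    rw [Finset.mem_filter] at hp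
    obtain ⟨v, hv⟩ := Option.ne_none_iff_exists'.1 hp.2
    have h2 := Finset.prod_ne_zero_iff.1 h v (Finset.mem_univ v)
    unfold GM at h2
    by_contra hc
    refine h2 (if_neg fun h3 => hc (h3 p ?_))
    unfold fib
    rw [Finset.mem_filter]
    exact ⟨Finset.mem_univ _, hv⟩
  · rw [if_neg h1] at h
    exact absurd rfl h

/-- `log (nm κ) = ∑_v log (nmS (fib κ v))` (`AR1c_nm`). -/
theorem yM_ge (k : ℕ) (z0 R : ℝ) (hR : 1 < R) (κ : Pl w z → Option (Fin k)) (h : ∑ v, co R (fib κ v) ≤ 1) :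
    ∏ v, GM z0 R (fib κ v) ≤ yM k z0 R κ := by
  have hpos : ∀ S : Finset (Pl w z), (1 : ℝ) ≤ nmS S := fun S => by
    exact_mod_cast Pool.Agent.Wd33b62.AR1b_nmS_pos S
  have hlR : 0 < Real.log R := Real.log_pos hR
  have h5 : ∑ v : Fin k, co R (fib κ v) = Real.log (∏ v : Fin k, (nmS (fib κ v) : ℝ)) / Real.log R := by
    rw [Real.log_prod fun i _ => by
      have := hpos (fib κ i)
      positivity, Finset.sum_div]
    rfl
  rw [h5, div_le_one hlR] at h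
  have h6 : 0 < ∏ v : Fin k, (nmS (fib κ v) : ℝ) :=
    Finset.prod_pos fun i _ => by linarith [hpos (fib κ i)]
  have h7 : (nm κ : ℝ) ≤ R := by
    rw [Pool.Agent.Wd33b62.AR1c_nm]
    push_cast
    exact (Real.log_le_log_iff h6 (by linarith)).1 h
  unfold yM
  rw [if_pos h7]

theorem one_le_AM (w : ℕ) (c Y : ℝ) (hY : 1 ≤ Y) : 1 ≤ AM w c Y := by
  have hR : 1 ≤ Y ^ th := Real.one_le_rpow hY (by unfold th; norm_num)
  unfold AM AA
  have h1 : GM (Y ^ c) (Y ^ th) (∅ : Finset (Pl w (Y ^ th))) ^ 2 * ∏ i ∈ (∅ : Finset (Pl w (Y ^ th))), xr w (Y ^ th) i ≤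
      ∑ S : Finset (Pl w (Y ^ th)), GM (Y ^ c) (Y ^ th) S ^ 2 * ∏ i ∈ S, xr w (Y ^ th) i :=
    Finset.single_le_sum (f := fun S : Finset (Pl w (Y ^ th)) => GM (Y ^ c) (Y ^ th) S ^ 2 * ∏ i ∈ S, xr w (Y ^ th) i)
      (fun S _ => mul_nonneg (sq_nonneg _) (Finset.prod_nonneg fun i _ => (Pool.Agent.Wd33b62.xr_pos i).le))
      (Finset.mem_univ ∅)
  rw [Finset.prod_empty, mul_one, GM_empty _ _ hR, one_pow] at h1
  exact h1

theorem one_le_BM (w : ℕ) (c Y : ℝ) (hY : 1 ≤ Y) : 1 ≤ BM w c Y := by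
  have hR : 1 ≤ Y ^ th := Real.one_le_rpow hY (by unfold th; norm_num)
  unfold BM BB
  have h1 : GM (Y ^ c) (Y ^ th) (∅ : Finset (Pl w (Y ^ th))) * ∏ i ∈ (∅ : Finset (Pl w (Y ^ th))), xr w (Y ^ th) i ≤
      ∑ S : Finset (Pl w (Y ^ th)), GM (Y ^ c) (Y ^ th) S * ∏ i ∈ S, xr w (Y ^ th) i :=
    Finset.single_le_sum (f := fun S : Finset (Pl w (Y ^ th)) => GM (Y ^ c) (Y ^ th) S * ∏ i ∈ S, xr w (Y ^ th) i)
      (fun S _ => mul_nonneg (GM_nonneg _ _ _) (Finset.prod_nonneg fun i _ => (Pool.Agent.Wd33b62.xr_pos i).le))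
      (Finset.mem_univ ∅)
  rw [Finset.prod_empty, mul_one, GM_empty _ _ hR] at h1
  exact h1

/-- `AR3c_BB` with `M = 1`, `X = (Y ^ th) ^ (32 / 775) ≤ Y`. -/
theorem BM_le (w : ℕ) (c Y : ℝ) (hY : 1 ≤ Y) : BM w c Y ≤ 1 + Real.log Y := by
  have hth : (0 : ℝ) ≤ th := by unfold th; norm_num
  have hR : 1 ≤ Y ^ th := Real.one_le_rpow hY hth
  have hX : (1 : ℝ) ≤ (Y ^ th) ^ (32 / 775 : ℝ) := Real.one_le_rpow hR (by norm_num)
  have h1 := Pool.Agent.Wd33b62.AR3c_BB (D0 := w) (z := Y ^ th) (GM (Y ^ c) (Y ^ th)) 1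
    ((Y ^ th) ^ (32 / 775 : ℝ)) zero_le_one hX (GM_le_one _ _) (by
      intro S hS
      by_contra hcon
      have h5 := (GM_ne_zero (Y ^ c) (Y ^ th) hR S (by linarith)).2
      linarith)
  have h2 : Real.log ((Y ^ th) ^ (32 / 775 : ℝ)) ≤ Real.log Y := by
    rw [Real.log_rpow (by linarith), Real.log_rpow (by linarith)]
    have h3 : 0 ≤ Real.log Y := Real.log_nonneg hY
    unfold th
    nlinarith
  unfold BM
  linarith

end Pool.Agent.W33m
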