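import Pool.Agent.W_d33b62m_h36.Mb1
import Pool.Agent.W_d33b62m_h36.Md
import Pool.Agent.W_d33b62_h36.LA3
import Pool.Agent.W_d33b62_h36.AR3a
import Pool.Agent.W_d33b62_h36.AR3c

/-!
# The coefficients of the complete weight (MP_d33b62, T2, file Me)
-/

set_option autoImplicit false

noncomputable section

open Finset Filter

namespace Pool.Agent.W33m

open Pool.Agent.Wd33b62 (Pl PS xr nmS nm supp Sub dn fib era off FF lam zz AA BB SX QH GH TT0 HasExp conv Ex QOK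
  qwt xwt EB Bd mem_PS)
open Pool.Agent.Wb58c63 (PI mem_PI VP aw ap XM Pr)
open Pool.Agent.M58 (lp' lm')

/-- `abs_lam_le` (each `|lam σ| ≤ BM ^ k`), `lam_ne_zero`, `yM_ne_zero`, `AR3c_supp`. -/
theorem Bd_lamM (k w : ℕ) (hw : 1 ≤ w) (c Y : ℝ) (hY : 1 ≤ Y) :
    Bd (lam (xr w (Y ^ th)) (yM k (Y ^ c) (Y ^ th))) (Y ^ th) ((1 + Real.log Y) ^ k) 1 := by
  have hGH : GH (xr w (Y ^ th)) (fun _ : Fin k => GM (Y ^ c) (Y ^ th)) := GH_GM hw k (Y ^ c) (Y ^ th)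
  intro σ
  constructor
  · rw [one_pow, mul_one]
    have h1 := Pool.Agent.Wd33b62.abs_lam_le hGH (y := yM k (Y ^ c) (Y ^ th))
      (yM_nonneg k (Y ^ c) (Y ^ th)) (yM_le k (Y ^ c) (Y ^ th)) σ
    refine h1.trans ?_
    have h2 := BM_le w c Y hY
    have h3 := one_le_BM w c Y hY
    unfold BM at h2 h3
    rw [Finset.prod_const, Finset.card_univ, Fintype.card_fin]
    exact pow_le_pow_left₀ (by linarith) h2 k
  · intro h
    obtain ⟨κ, hκ, hy⟩ := Pool.Agent.Wd33b62.lam_ne_zero h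
    exact (Pool.Agent.Wd33b62.AR3c_supp hκ).trans (yM_ne_zero k (Y ^ c) (Y ^ th) κ hy).1

/-- The coefficients of `LS s (Y ^ c) b * FW k w c Y`. -/
def aT (s : Bool) (k w b : ℕ) (c Y : ℝ) : (Pl w (Y ^ th) → Option (Fin k)) → ℝ :=
  conv (aLS s (Y ^ c) b) (conv (lam (xr w (Y ^ th)) (yM k (Y ^ c) (Y ^ th))) (lam (xr w (Y ^ th)) (yM k (Y ^ c) (Y ^ th))))

/-- `HasExp.mul` twice, `FF_hasExp`, `LS_hasExp`. -/
theorem aT_hasExp (s : Bool) (k w b : ℕ) (c Y : ℝ) :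
    HasExp (fun a => LS s (Y ^ c) b a * FW k w c Y a) (aT s k w b c Y) := by
  have h1 := (LS_hasExp (w := w) (z := Y ^ th) (V := Fin k) s (Y ^ c) b).mul
    ((Pool.Agent.Wd33b62.FF_hasExp (xr w (Y ^ th)) (yM k (Y ^ c) (Y ^ th))).mul
      (Pool.Agent.Wd33b62.FF_hasExp (xr w (Y ^ th)) (yM k (Y ^ c) (Y ^ th))))
  have h2 : (fun a => LS s (Y ^ c) b a * FW k w c Y a) = fun a : Pl w (Y ^ th) → Option (Fin k) =>
      LS s (Y ^ c) b a * (FF (xr w (Y ^ th)) (yM k (Y ^ c) (Y ^ th)) a *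
        FF (xr w (Y ^ th)) (yM k (Y ^ c) (Y ^ th)) a) := by
    funext a
    unfold FW
    rw [pow_two]
  rw [h2]
  exact h1

/-- `conv_bd` twice: `(1 + 1) (1 + (1 + 1) (1 + 1)) = 10`; the level is `(Y ^ c) ^ (4 b + 5) Y ^ th Y ^ th
= Y ^ (c (4 b + 5) + 498 / 1000) ≤ Y ^ (499 / 1000)`. -/
theorem Bd_aT (s : Bool) (k w b : ℕ) (hw : 1 ≤ w) (c Y : ℝ) (hY : 1 ≤ Y) (hc : c * (4 * b + 5) ≤ 1 / 1000)
    (h2 : 2 ≤ Y ^ c) :
    Bd (aT s k w b c Y) (Y ^ (499 / 1000 : ℝ)) ((1 + Real.log Y) ^ (2 * k)) 10 := by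
  have hY0 : 0 < Y := by linarith
  have hl : 0 ≤ Real.log Y := Real.log_nonneg hY
  have h1 := Bd_lamM k w hw c Y hY
  have h3 := Pool.Agent.Wd33b62.conv_bd h1 h1 (by positivity) (by positivity) zero_le_one
    (by positivity) zero_le_one
  have h4 := Pool.Agent.Wd33b62.conv_bd (Bd_aLS (w := w) (z := Y ^ th) (V := Fin k) s (Y ^ c) h2 b) h3
    (by positivity) zero_le_one zero_le_one (by positivity) (by norm_num)
  have h5 : (Y ^ c) ^ (4 * b + 5) * (Y ^ th * Y ^ th) ≤ Y ^ (499 / 1000 : ℝ) := by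
    rw [← Real.rpow_natCast, ← Real.rpow_mul hY0.le, ← Real.rpow_add hY0, ← Real.rpow_add hY0]
    refine Real.rpow_le_rpow_of_exponent_le hY ?_
    unfold th
    push_cast
    linarith
  intro σ
  obtain ⟨h6, h7⟩ := h4 σ
  refine ⟨?_, fun h => (h7 h).trans h5⟩
  unfold aT
  refine h6.trans (le_of_eq ?_)
  rw [one_mul, ← pow_add, ← two_mul]
  norm_num

end Pool.Agent.W33m
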