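import Pool.Agent.W_d33b62m_h36.Mo

/-!
# The smooth weights: variation and shifts (MP_d33b62, T2, file Mf1)

`aw κ Y n = tp (log n - vY Y) (log n / vY Y) ^ κ`, a tent in `log n` with support `(Y, 2 Y)` times a factor near `1`.
Facts: `W_b58c63_h68` (`aw_support` etc., grep for it), `W_d33b62_h36/BV4.lean` (`BV4_facts`, `BV4_tp`, `aw_le_two`, `XM_ge'`).
-/

set_option autoImplicit false

noncomputable section

open Finset Filter

namespace Pool.Agent.W33m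

open Pool.Agent.Wd33b62 (Pl PS xr nmS nm supp Sub dn fib era off FF lam zz AA BB SX QH GH TT0 HasExp conv Ex QOK
  qwt xwt EB Bd mem_PS)
open Pool.Agent.Wb58c63 (PI mem_PI VP aw ap XM Pr)
open Pool.Agent.M58 (lp' lm')

open Pool.Agent.Wb58c63 (tp l0 vY)

open Pool.Agent.Wb58c63 (l0_pos tp_nonneg tp_le_one)

theorem Mf1_tp_lip (x y : ℝ) : |tp x - tp y| ≤ |x - y| / l0 := by
  unfold tp
  have h1 : |max 0 (1 - |x| / l0) - max 0 (1 - |y| / l0)| ≤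
      |(1 - |x| / l0) - (1 - |y| / l0)| := by
    have := abs_max_sub_max_le_abs (1 - |x| / l0) (1 - |y| / l0) 0
    rwa [max_comm, max_comm (1 - |y| / l0) 0] at this
  refine h1.trans ?_
  have h2 : (1 - |x| / l0) - (1 - |y| / l0) = (|y| - |x|) / l0 := by ring
  rw [h2, abs_div, abs_of_pos l0_pos]
  refine div_le_div_of_nonneg_right ?_ l0_pos.le
  rw [abs_sub_comm x y]
  exact abs_abs_sub_abs_le _ _

theorem Mf1_pow_lip (k : ℕ) {x y : ℝ} (hx0 : 0 ≤ x) (hx : x ≤ 2) (hy0 : 0 ≤ y) (hy : y ≤ 2) :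
    |x ^ k - y ^ k| ≤ k * 2 ^ k * |x - y| := by
  induction k with
  | zero => simp
  | succ k ih =>
    have h1 : x ^ (k + 1) - y ^ (k + 1) = x * (x ^ k - y ^ k) + (x - y) * y ^ k := by ring
    rw [h1]
    refine (abs_add_le _ _).trans ?_
    rw [abs_mul, abs_mul, abs_of_nonneg hx0, abs_of_nonneg (pow_nonneg hy0 k)]
    have h2 : y ^ k ≤ 2 ^ k := pow_le_pow_left₀ hy0 hy k
    have h3 : x * |x ^ k - y ^ k| ≤ 2 * (k * 2 ^ k * |x - y|) :=
      mul_le_mul hx ih (abs_nonneg _) (by norm_num)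
    have h4 : |x - y| * y ^ k ≤ |x - y| * 2 ^ k :=
      mul_le_mul_of_nonneg_left h2 (abs_nonneg _)
    have h5 : |x - y| * 2 ^ k ≤ |x - y| * (2 * 2 ^ k) := by
      apply mul_le_mul_of_nonneg_left _ (abs_nonneg _)
      have : (0 : ℝ) < 2 ^ k := by positivity
      linarith
    push_cast
    rw [pow_succ]
    linarith

/-- The Lipschitz constant. -/
def Mf1_L (κ : ℕ) : ℝ := 2 ^ κ / l0 + κ * 2 ^ κ / l0

theorem Mf1_L_pos (κ : ℕ) : 0 < Mf1_L κ := by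
  unfold Mf1_L
  have := l0_pos
  positivity

theorem Mf1_F_lip (k : ℕ) {v x y : ℝ} (hv : l0 ≤ v) (hx0 : 0 ≤ x) (hx : x ≤ 2 * v)
    (hy0 : 0 ≤ y) (hy : y ≤ 2 * v) :
    |tp (x - v) * (x / v) ^ k - tp (y - v) * (y / v) ^ k| ≤ Mf1_L k * |x - y| := by
  have hl := l0_pos
  have hv0 : 0 < v := lt_of_lt_of_le hl hv
  have e1 : x / v ≤ 2 := by rwa [div_le_iff₀ hv0]
  have e2 : y / v ≤ 2 := by rwa [div_le_iff₀ hv0]
  have e3 : 0 ≤ x / v := div_nonneg hx0 hv0.le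
  have e4 : 0 ≤ y / v := div_nonneg hy0 hv0.le
  have h1 : tp (x - v) * (x / v) ^ k - tp (y - v) * (y / v) ^ k =
      (tp (x - v) - tp (y - v)) * (x / v) ^ k + tp (y - v) * ((x / v) ^ k - (y / v) ^ k) := by ring
  rw [h1]
  refine (abs_add_le _ _).trans ?_
  rw [abs_mul, abs_mul, abs_of_nonneg (pow_nonneg e3 k), abs_of_nonneg (tp_nonneg _)]
  have h2 : |tp (x - v) - tp (y - v)| ≤ |x - y| / l0 := by
    have := Mf1_tp_lip (x - v) (y - v)
    rwa [show x - v - (y - v) = x - y by ring] at this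
  have h3 : (x / v) ^ k ≤ 2 ^ k := pow_le_pow_left₀ e3 e1 k
  have h4 : |(x / v) ^ k - (y / v) ^ k| ≤ k * 2 ^ k * (|x - y| / l0) := by
    refine (Mf1_pow_lip k e3 e1 e4 e2).trans ?_
    apply mul_le_mul_of_nonneg_left _ (by positivity)
    rw [show x / v - y / v = (x - y) / v by ring, abs_div, abs_of_pos hv0]
    exact div_le_div_of_nonneg_left (abs_nonneg _) hl hv
  have h5 : |tp (x - v) - tp (y - v)| * (x / v) ^ k ≤ |x - y| / l0 * 2 ^ k :=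
    mul_le_mul h2 h3 (pow_nonneg e3 k) (by positivity)
  have h6 : tp (y - v) * |(x / v) ^ k - (y / v) ^ k| ≤ 1 * (k * 2 ^ k * (|x - y| / l0)) :=
    mul_le_mul (tp_le_one _) h4 (abs_nonneg _) zero_le_one
  calc _ ≤ |x - y| / l0 * 2 ^ k + 1 * (k * 2 ^ k * (|x - y| / l0)) := add_le_add h5 h6
    _ = Mf1_L k * |x - y| := by unfold Mf1_L; ring

theorem Mf1_diff (κ w : ℕ) {Y : ℝ} (hY : (w : ℝ) + 6 ≤ Y) {n : ℕ} (hn : n ∈ IW Y) {h : ℕ} (hh : h ≤ w) :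
    |aw κ Y (n + h) - aw κ Y n| ≤ Mf1_L κ * (3 * h / Y) := by
  have hw0 : (0 : ℝ) ≤ w := Nat.cast_nonneg _
  have hY6 : 6 ≤ Y := by linarith
  have hY0 : 0 < Y := by linarith
  have hhw : (h : ℝ) ≤ w := by exact_mod_cast hh
  have hh0 : (0 : ℝ) ≤ h := Nat.cast_nonneg _
  unfold IW at hn
  rw [mem_Ico] at hn
  have h1 : Y / 3 ≤ n := by
    have e1 : Y / 2 < ⌊Y / 2⌋₊ + 1 := Nat.lt_floor_add_one _
    have e2 : ((⌊Y / 2⌋₊ : ℕ) : ℝ) ≤ n := by exact_mod_cast hn.1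
    linarith
  have h2 : (n : ℝ) ≤ 2 * Y := by
    have e1 : n + 1 ≤ ⌈2 * Y⌉₊ := hn.2
    have e2 : ((⌈2 * Y⌉₊ : ℕ) : ℝ) < 2 * Y + 1 := Nat.ceil_lt_add_one (by linarith)
    have e3 : ((n + 1 : ℕ) : ℝ) ≤ ((⌈2 * Y⌉₊ : ℕ) : ℝ) := by exact_mod_cast e1
    push_cast at e3
    linarith
  have hn1 : (1 : ℝ) ≤ n := by linarith
  have hn0 : (0 : ℝ) < n := by linarith
  have hYY : 2 * Y + w ≤ Y ^ 2 := by nlinarith
  have hlY : 0 ≤ Real.log Y := Real.log_nonneg (by linarith)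
  have hl := l0_pos
  have hv : l0 ≤ vY Y := by unfold vY; linarith
  have hup : ∀ x : ℝ, 1 ≤ x → x ≤ 2 * Y + w → 0 ≤ Real.log x ∧ Real.log x ≤ 2 * vY Y := by
    intro x hx1 hx2
    refine ⟨Real.log_nonneg hx1, ?_⟩
    have e1 : Real.log x ≤ Real.log (Y ^ 2) := Real.log_le_log (by linarith) (hx2.trans hYY)
    rw [Real.log_pow] at e1
    unfold vY
    push_cast at e1
    linarith
  obtain ⟨a1, a2⟩ := hup n hn1 (by linarith)
  obtain ⟨b1, b2⟩ := hup ((n + h : ℕ) : ℝ) (by push_cast; linarith) (by push_cast; linarith)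
  have h3 := Mf1_F_lip κ hv b1 b2 a1 a2
  have h4 : |Real.log ((n + h : ℕ) : ℝ) - Real.log n| ≤ 3 * h / Y := by
    have e1 : Real.log ((n + h : ℕ) : ℝ) - Real.log n = Real.log (1 + h / n) := by
      rw [← Real.log_div (by push_cast; positivity) hn0.ne']
      congr 1
      push_cast
      field_simp
    have e2 : (0 : ℝ) ≤ h / n := by positivity
    rw [e1, abs_of_nonneg (Real.log_nonneg (by linarith))]
    have e3 := Real.log_le_sub_one_of_pos (by linarith : (0 : ℝ) < 1 + h / n)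
    have e4 : (h : ℝ) / n ≤ 3 * h / Y := by
      rw [div_le_div_iff₀ hn0 hY0]
      nlinarith
    linarith
  unfold aw
  exact h3.trans (mul_le_mul_of_nonneg_left h4 (Mf1_L_pos κ).le)

/-- The total variation on the window is bounded: `|tp a - tp b| ≤ |a - b| / l0`, `|log (n + 1) - log n| ≤ 1 / n ≤ 3 / Y`,
and for the power factor `|x ^ κ - y ^ κ| ≤ κ (max x y) ^ (κ - 1) |x - y|` with `x, y ≤ 2` for `Y` large. -/
theorem aw_tv (κ : ℕ) : ∃ C : ℝ, 0 < C ∧ ∀ᶠ Y : ℝ in atTop,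
    ∑ n ∈ IW Y, |aw κ Y (n + 1) - aw κ Y n| ≤ C := by
  refine ⟨9 * Mf1_L κ, by have := Mf1_L_pos κ; positivity, ?_⟩
  filter_upwards [eventually_ge_atTop (7 : ℝ)] with Y hY
  have hY0 : 0 < Y := by linarith
  have h1 : ∀ n ∈ IW Y, |aw κ Y (n + 1) - aw κ Y n| ≤ Mf1_L κ * (3 / Y) := by
    intro n hn
    have := Mf1_diff κ 1 (Y := Y) (by push_cast; linarith) hn (h := 1) le_rfl
    simpa using this
  have h2 : ((IW Y).card : ℝ) ≤ 3 * Y := by
    unfold IW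
    rw [Nat.card_Ico]
    have e2 : ((⌈2 * Y⌉₊ : ℕ) : ℝ) < 2 * Y + 1 := Nat.ceil_lt_add_one (by linarith)
    have e3 : ((⌈2 * Y⌉₊ - ⌊Y / 2⌋₊ : ℕ) : ℝ) ≤ ((⌈2 * Y⌉₊ : ℕ) : ℝ) := by
      exact_mod_cast Nat.sub_le _ _
    linarith
  calc ∑ n ∈ IW Y, |aw κ Y (n + 1) - aw κ Y n| ≤ ∑ n ∈ IW Y, Mf1_L κ * (3 / Y) := sum_le_sum h1
    _ = ((IW Y).card : ℝ) * (Mf1_L κ * (3 / Y)) := by rw [sum_const, nsmul_eq_mul]
    _ ≤ (3 * Y) * (Mf1_L κ * (3 / Y)) := by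
        have := Mf1_L_pos κ
        exact mul_le_mul_of_nonneg_right h2 (by positivity)
    _ = 9 * Mf1_L κ := by field_simp; ring

/-- Shifts by at most `w` change the weight by at most `e`, if `Y` is large. -/
theorem aw_shift (κ w : ℕ) (e : ℝ) (he : 0 < e) : ∀ᶠ Y : ℝ in atTop, ∀ n ∈ IW Y, ∀ h ≤ w,
    aw κ Y (n + h) ≤ aw κ Y n + e := by
  filter_upwards [eventually_ge_atTop ((w : ℝ) + 6), eventually_ge_atTop (Mf1_L κ * (3 * w) / e)] with Y hY hY2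
  intro n hn h hh
  have hw0 : (0 : ℝ) ≤ w := Nat.cast_nonneg _
  have hY0 : 0 < Y := by linarith
  have h1 := Mf1_diff κ w hY hn hh
  have h2 : Mf1_L κ * (3 * h / Y) ≤ e := by
    have e1 : Mf1_L κ * (3 * w) ≤ Y * e := by rwa [div_le_iff₀ he] at hY2
    have e2 : (h : ℝ) ≤ w := by exact_mod_cast hh
    have e3 : Mf1_L κ * (3 * h) ≤ Mf1_L κ * (3 * w) :=
      mul_le_mul_of_nonneg_left (by linarith) (Mf1_L_pos κ).le
    rw [← mul_div_assoc, div_le_iff₀ hY0]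
    linarith
  have h3 := le_abs_self (aw κ Y (n + h) - aw κ Y n)
  linarith

end Pool.Agent.W33m
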