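import Pool.Agent.W_d33b62m_h36.Mo

/-!
# The harmonic sum over rough numbers: definition (MP_d33b62, T2, file Mg0)

`N(x) = ∑ 1 / n` over the squarefree `n ≤ x` without prime factors below `z0`. Let `P0 = ∏_{p < z0} (1 - 1 / p)`.
`N(x) = P0 log x + small`, if `z0 = Y ^ c` with `c` small and `x = R ^ t`, `R = Y ^ th`.
-/

set_option autoImplicit false

noncomputable section

open Finset Filter

namespace Pool.Agent.W33m

open Pool.Agent.Wd33b62 (Pl PS xr nmS nm supp Sub dn fib era off FF lam zz AA BB SX QH GH TT0 HasExp conv Ex QOK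
  qwt xwt EB Bd mem_PS)
open Pool.Agent.Wb58c63 (PI mem_PI VP aw ap XM Pr)
open Pool.Agent.M58 (lp' lm')

open Classical in
/-- The sum over the rough numbers which need not be squarefree. -/
def rs (z0 x : ℝ) : ℝ := ∑ n ∈ (Icc 1 ⌊x⌋₊).filter (fun n => ∀ p : ℕ, p.Prime → p ∣ n → z0 ≤ (p : ℝ)), 1 / (n : ℝ)

end Pool.Agent.W33m
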