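import Pool.Agent.W_d33b62m_h36.Mg0

/-!
# The harmonic sum over rough numbers: lower bound (MP_d33b62, T2, file Mg1)

`N(x) = ∑ 1 / n` over the squarefree `n ≤ x` without prime factors below `z0`. Let `P0 = ∏_{p < z0} (1 - 1 / p)`.
`N(x) = P0 log x + small`, if `z0 = Y ^ c` with `c` small and `x = R ^ t`, `R = Y ^ th`.
-/

set_option autoImplicit false

noncomputable section

open Finset Filter

namespace Pool.Agent.W33m

open Pool.Agent.Wd33b62 (Pl PS xr nmS nm supp Sub dn fib era off FF lam zz AA BB SX QH GH TT0 HasExp conv Ex QOK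
  qwt xwt EB Bd mem_PS)
open Pool.Agent.Wb58c63 (PI mem_PI VP aw ap XM Pr)
open Pool.Agent.M58 (lp' lm')

/-- `n ↦ 1 / n` as a homomorphism. -/
def Mg1f : ℕ →* ℝ where
  toFun n := (n : ℝ)⁻¹
  map_one' := by simp
  map_mul' a b := by push_cast; rw [mul_inv]

theorem Mg1_P0 (z0 : ℝ) : ∏ p ∈ (⌈z0⌉₊).primesBelow, (1 - Mg1f p)⁻¹ = (P0 z0)⁻¹ := by
  rw [Finset.prod_inv_distrib]
  congr 1
  unfold P0 VP
  have h1 : (⌈z0⌉₊).primesBelow = PI 0 z0 := by
    ext p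
    rw [mem_PI, Nat.mem_primesBelow, Nat.lt_ceil]
    constructor
    · rintro ⟨h1, h2⟩
      exact ⟨h2, by positivity, h1⟩
    · rintro ⟨h1, _, h2⟩
      exact ⟨h2, h1⟩
  rw [h1]
  refine Finset.prod_congr rfl fun p _ => ?_
  show 1 - (p : ℝ)⁻¹ = 1 - 1 / (p : ℝ)
  rw [one_div]

theorem Mg1_P0_pos (z0 : ℝ) : 0 < P0 z0 := by
  unfold P0 VP
  refine Finset.prod_pos fun p hp => ?_
  have h1 : (1 : ℝ) < p := by exact_mod_cast (mem_PI.1 hp).1.one_lt
  have h2 : 1 / (p : ℝ) < 1 := by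
    rw [div_lt_one (by linarith)]
    exact h1
  linarith

/-- The sum of `1 / m` over finitely many smooth numbers. -/
theorem Mg1_smooth (z0 : ℝ) (s : Finset ℕ) (hs : ∀ m ∈ s, m ∈ (⌈z0⌉₊).smoothNumbers) :
    ∑ m ∈ s, (m : ℝ)⁻¹ ≤ (P0 z0)⁻¹ := by
  have hf : ∀ {p : ℕ}, p.Prime → ‖Mg1f p‖ < 1 := by
    intro p hp
    have h1 : (1 : ℝ) < p := by exact_mod_cast hp.one_lt
    show ‖(p : ℝ)⁻¹‖ < 1
    rw [norm_inv, Real.norm_natCast]
    exact inv_lt_one_of_one_lt₀ h1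
  obtain ⟨_, hsum⟩ := EulerProduct.summable_and_hasSum_smoothNumbers_prod_primesBelow_geometric hf ⌈z0⌉₊
  rw [← Mg1_P0]
  let g : s → (⌈z0⌉₊).smoothNumbers := fun m => ⟨m.1, hs m.1 m.2⟩
  have hg : Function.Injective g := by
    intro a b hab
    apply Subtype.ext
    exact congrArg (fun x => x.1) hab
  have h1 : ∑ m ∈ s, (m : ℝ)⁻¹ = ∑ m ∈ (Finset.univ.map ⟨g, hg⟩), Mg1f m.1 := by
    rw [Finset.sum_map]
    rw [← Finset.sum_coe_sort]
    rfl
  rw [h1]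
  apply sum_le_hasSum _ _ hsum
  intro i _
  show 0 ≤ ((i.1 : ℕ) : ℝ)⁻¹
  positivity

/-- The decomposition into the smooth and the rough part. -/
theorem Mg1_decomp (K n : ℕ) (hn : 0 < n) :
    ∃ m r : ℕ, m * r = n ∧ m ∈ K.smoothNumbers ∧ ∀ p : ℕ, p.Prime → p ∣ r → K ≤ p := by
  refine ⟨(n.primeFactorsList.filter (· < K)).prod, (n.primeFactorsList.filter (fun p => ¬ p < K)).prod, ?_,
    Nat.prod_mem_smoothNumbers n K, ?_⟩
  · have h1 : (n.primeFactorsList.filter (· < K) ++ n.primeFactorsList.filter (fun p => ¬ p < K)).Perm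
        n.primeFactorsList := by
      have h := List.filter_append_perm (fun p : ℕ => decide (p < K)) n.primeFactorsList
      have h2 : (fun p : ℕ => decide ¬ p < K) = fun p : ℕ => !decide (p < K) := by
        funext p
        exact decide_not
      rw [h2]
      exact h
    rw [← List.prod_append, h1.prod_eq, Nat.prod_primeFactorsList hn.ne']
  · intro p hp hd
    have h1 : p ∈ n.primeFactorsList.filter (fun p => ¬ p < K) := by
      have h2 := (Prime.dvd_prod_iff hp.prime).1 hd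
      obtain ⟨a, ha, hpa⟩ := h2
      have h3 : a.Prime := Nat.prime_of_mem_primeFactorsList (List.mem_of_mem_filter ha)
      rw [(Nat.prime_dvd_prime_iff_eq hp h3).1 hpa]
      exact ha
    have h2 := List.of_mem_filter h1
    simpa using h2

/-- **Lower bound.** Every `N ≤ x` is `m n` with all primes of `m` below `z0` and `n ≤ x` rough (`Nat.smoothNumbers`), so
`log x ≤ ∑_{N ≤ x} 1 / N ≤ (∑_m 1 / m) rs z0 x`, and `∑_m 1 / m = 1 / P0 z0` over all `m` with primes `< z0` (Mathlib: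
`Nat.smoothNumbers`, `EulerProduct.prod_filter_prime_geometric_eq_tsum_smoothNumbers` or
`Nat.geometric...`; to avoid infinite sums use `∑_{m ≤ x, smooth} 1 / m ≤ ∏_{p < z0} (1 - 1 / p)⁻¹`, which may exist in
Mathlib or in the pool: grep `smoothNumbers`). -/
theorem rs_ge (z0 x : ℝ) (_hz0 : 2 ≤ z0) (hx : 1 ≤ x) : P0 z0 * Real.log x ≤ rs z0 x := by
  classical
  set N := ⌊x⌋₊ with hN
  set K := ⌈z0⌉₊ with hK
  have h1 : Real.log x ≤ ∑ n ∈ Icc 1 N, (n : ℝ)⁻¹ := by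
    have h := log_le_harmonic_floor x (by linarith)
    rw [harmonic_eq_sum_Icc] at h
    push_cast at h
    exact h
  choose! m r hmr hm hr using fun n (hn : 0 < n) => Mg1_decomp K n hn
  set S : Finset ℕ := (Icc 1 N).filter (fun m => m ∈ K.smoothNumbers) with hS
  set T : Finset ℕ := (Icc 1 N).filter (fun n => ∀ p : ℕ, p.Prime → p ∣ n → z0 ≤ (p : ℝ)) with hT
  have h2 : ∑ n ∈ Icc 1 N, (n : ℝ)⁻¹ ≤ ∑ q ∈ S ×ˢ T, ((q.1 : ℝ)⁻¹ * (q.2 : ℝ)⁻¹) := by
    have h3 : ∑ n ∈ Icc 1 N, (n : ℝ)⁻¹ =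
        ∑ q ∈ (Icc 1 N).image (fun n => (m n, r n)), ((q.1 : ℝ)⁻¹ * (q.2 : ℝ)⁻¹) := by
      rw [Finset.sum_image]
      · refine Finset.sum_congr rfl fun n hn => ?_
        have h4 := hmr n (Finset.mem_Icc.1 hn).1
        have h5 : ((m n : ℝ)) * (r n : ℝ) = (n : ℝ) := by exact_mod_cast h4
        rw [← mul_inv, h5]
      · intro a ha b hb hab
        have ha' := hmr a (Finset.mem_Icc.1 (Finset.mem_coe.1 ha)).1
        have hb' := hmr b (Finset.mem_Icc.1 (Finset.mem_coe.1 hb)).1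
        simp only [Prod.mk.injEq] at hab
        rw [← ha', ← hb', hab.1, hab.2]
    rw [h3]
    refine Finset.sum_le_sum_of_subset_of_nonneg ?_ fun q _ _ => by positivity
    intro q hq
    rw [Finset.mem_image] at hq
    obtain ⟨n, hn, rfl⟩ := hq
    rw [Finset.mem_Icc] at hn
    have h4 := hmr n hn.1
    have h5 : 0 < m n := by
      rcases Nat.eq_zero_or_pos (m n) with h | h
      · rw [h, zero_mul] at h4
        omega
      · exact h
    have h6 : 0 < r n := by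
      rcases Nat.eq_zero_or_pos (r n) with h | h
      · rw [h, mul_zero] at h4
        omega
      · exact h
    rw [Finset.mem_product, hS, hT, Finset.mem_filter, Finset.mem_filter, Finset.mem_Icc, Finset.mem_Icc]
    refine ⟨⟨⟨h5, ?_⟩, hm n hn.1⟩, ⟨h6, ?_⟩, ?_⟩
    · exact (Nat.le_mul_of_pos_right _ h6).trans (h4.le.trans hn.2)
    · exact (Nat.le_mul_of_pos_left _ h5).trans (h4.le.trans hn.2)
    · intro p hp hd
      exact Nat.ceil_le.1 (hr n hn.1 p hp hd)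
  have h4 : ∑ q ∈ S ×ˢ T, ((q.1 : ℝ)⁻¹ * (q.2 : ℝ)⁻¹) = (∑ m ∈ S, (m : ℝ)⁻¹) * ∑ n ∈ T, (n : ℝ)⁻¹ := by
    rw [Finset.sum_mul_sum, Finset.sum_product]
  have h5 : rs z0 x = ∑ n ∈ T, (n : ℝ)⁻¹ := by
    unfold rs
    rw [hT]
    refine Finset.sum_congr ?_ fun n _ => one_div _
    ext n
    simp only [Finset.mem_filter, hN]
  have h6 := Mg1_smooth z0 S fun m hm => (Finset.mem_filter.1 hm).2
  have hP := Mg1_P0_pos z0
  have h7 : 0 ≤ ∑ n ∈ T, (n : ℝ)⁻¹ := Finset.sum_nonneg fun n _ => by positivity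
  rw [h5]
  calc P0 z0 * Real.log x ≤ P0 z0 * ((P0 z0)⁻¹ * ∑ n ∈ T, (n : ℝ)⁻¹) := by
        refine mul_le_mul_of_nonneg_left ?_ hP.le
        refine h1.trans (h2.trans ?_)
        rw [h4]
        exact mul_le_mul_of_nonneg_right h6 h7
    _ = ∑ n ∈ T, (n : ℝ)⁻¹ := by rw [← mul_assoc, mul_inv_cancel₀ hP.ne', one_mul]

/-- `P0 z0 ≤ 1 / log z0`: `log z0 ≤ ∑_{n < z0} 1 / n ≤ ∏_{p < z0} (1 - 1 / p)⁻¹` (the first part of `rs_ge`, or grep
`VP_inv` in the pool). -/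
theorem P0_le (z0 : ℝ) (hz0 : 2 ≤ z0) : P0 z0 ≤ 1 / Real.log z0 := by
  have hlog : 0 < Real.log z0 := Real.log_pos (by linarith)
  have hP := Mg1_P0_pos z0
  have hK : 0 < ⌈z0⌉₊ := Nat.ceil_pos.2 (by linarith)
  have h1 : Real.log z0 ≤ ∑ n ∈ Icc 1 (⌈z0⌉₊ - 1), (n : ℝ)⁻¹ := by
    have h := log_add_one_le_harmonic (⌈z0⌉₊ - 1)
    rw [harmonic_eq_sum_Icc] at h
    push_cast at h
    refine le_trans (Real.log_le_log (by linarith) ?_) h
    have h2 : ((⌈z0⌉₊ - 1 : ℕ) : ℝ) + 1 = (⌈z0⌉₊ : ℝ) := by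
      have h3 : ⌈z0⌉₊ - 1 + 1 = ⌈z0⌉₊ := by omega
      exact_mod_cast congrArg (Nat.cast (R := ℝ)) h3
    rw [h2]
    exact Nat.le_ceil z0
  have h2 := Mg1_smooth z0 (Icc 1 (⌈z0⌉₊ - 1)) fun m hm => by
    rw [Finset.mem_Icc] at hm
    exact Nat.mem_smoothNumbers_of_lt (by omega) (by omega)
  have h3 : Real.log z0 ≤ (P0 z0)⁻¹ := h1.trans h2
  rw [le_div_iff₀ hlog]
  calc P0 z0 * Real.log z0 ≤ P0 z0 * (P0 z0)⁻¹ := mul_le_mul_of_nonneg_left h3 hP.le
    _ = 1 := mul_inv_cancel₀ hP.ne'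

end Pool.Agent.W33m
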