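import Pool.Agent.W_d33b62m_h36.Mg0

/-!
# The tail of the harmonic sum over smooth numbers (MP_d33b62, T2, file Mg2)

`N(x) = ∑ 1 / n` over the squarefree `n ≤ x` without prime factors below `z0`. Let `P0 = ∏_{p < z0} (1 - 1 / p)`.
`N(x) = P0 log x + small`, if `z0 = Y ^ c` with `c` small and `x = R ^ t`, `R = Y ^ th`.
-/

set_option autoImplicit false

noncomputable section

open Finset Filter

namespace Pool.Agent.W33m

open Pool.Agent.Wd33b62 (Pl PS xr nmS nm supp Sub dn fib era off FF lam zz AA BB SX QH GH TT0 HasExp conv Ex QOK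
  qwt xwt EB Bd mem_PS)
open Pool.Agent.Wb58c63 (PI mem_PI VP aw ap XM Pr mertens_one)
open Pool.Agent.M58 (lp' lm')

open Classical in
/-- The smooth numbers up to `N`. -/
def mg2A (z0 : ℝ) (N : ℕ) : Finset ℕ :=
  (Icc 1 N).filter (fun m => ∀ p : ℕ, p.Prime → p ∣ m → (p : ℝ) < z0)

def mg2S (z0 : ℝ) (N : ℕ) : ℝ := ∑ m ∈ mg2A z0 N, 1 / (m : ℝ)

theorem mg2_mem {z0 : ℝ} {N m : ℕ} : m ∈ mg2A z0 N ↔
    (1 ≤ m ∧ m ≤ N) ∧ ∀ p : ℕ, p.Prime → p ∣ m → (p : ℝ) < z0 := by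
  classical
  unfold mg2A
  rw [mem_filter, mem_Icc]

theorem mg2_S_nonneg (z0 : ℝ) (N : ℕ) : 0 ≤ mg2S z0 N := by
  unfold mg2S
  positivity

/-- One prime: `∑ v_p(m) / m ≤ S / (p - 1)`. -/
theorem mg2_prime (z0 : ℝ) (N p : ℕ) (hp : p.Prime) :
    ∑ m ∈ mg2A z0 N, (m.factorization p : ℝ) / m ≤ mg2S z0 N / ((p : ℝ) - 1) := by
  classical
  set T : ℝ := ∑ m ∈ mg2A z0 N, (m.factorization p : ℝ) / m with hT
  have hp2 : (2 : ℝ) ≤ p := by exact_mod_cast hp.two_le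
  have hp0 : (0 : ℝ) < p := by linarith
  set g : ℕ → ℝ := fun m => ((m.factorization p : ℝ) + 1) / m with hg
  have h1 : T = ∑ m ∈ (mg2A z0 N).filter (fun m => p ∣ m), (m.factorization p : ℝ) / m := by
    rw [hT, Finset.sum_filter]
    apply Finset.sum_congr rfl
    intro m _
    by_cases h : p ∣ m
    · rw [if_pos h]
    · rw [if_neg h, Nat.factorization_eq_zero_of_not_dvd h, Nat.cast_zero, zero_div]
  have h2 : ∑ m ∈ (mg2A z0 N).filter (fun m => p ∣ m), (m.factorization p : ℝ) / m =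
      ∑ m ∈ (mg2A z0 N).filter (fun m => p ∣ m), g (m / p) / p := by
    apply Finset.sum_congr rfl
    intro m hm
    rw [mem_filter, mg2_mem] at hm
    obtain ⟨⟨⟨hm1, _⟩, _⟩, k, hk⟩ := hm
    have hk0 : k ≠ 0 := by
      rintro rfl
      omega
    have hdiv : m / p = k := by
      rw [hk]
      exact Nat.mul_div_cancel_left k hp.pos
    have hf : m.factorization p = k.factorization p + 1 := by
      rw [hk, Nat.factorization_mul hp.ne_zero hk0]
      simp [hp.factorization, add_comm]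
    rw [hdiv, hf, hg, hk]
    have hk' : (k : ℝ) ≠ 0 := by exact_mod_cast hk0
    push_cast
    field_simp
  have h3 : ∑ m ∈ (mg2A z0 N).filter (fun m => p ∣ m), g (m / p) ≤ ∑ m ∈ mg2A z0 N, g m := by
    have hinj : Set.InjOn (fun m => m / p) ((mg2A z0 N).filter (fun m => p ∣ m) : Set ℕ) := by
      intro a ha b hb hab
      rw [mem_coe, mem_filter] at ha hb
      have e1 := Nat.div_mul_cancel ha.2
      have e2 := Nat.div_mul_cancel hb.2
      simp only at hab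
      rw [← e1, ← e2, hab]
    rw [← Finset.sum_image (f := g) hinj]
    apply Finset.sum_le_sum_of_subset_of_nonneg
    · intro x hx
      rw [mem_image] at hx
      obtain ⟨m, hm, rfl⟩ := hx
      rw [mem_filter, mg2_mem] at hm
      obtain ⟨⟨⟨hm1, hm2⟩, hm3⟩, hpm⟩ := hm
      rw [mg2_mem]
      refine ⟨⟨?_, (Nat.div_le_self m p).trans hm2⟩, fun q hq hqd => hm3 q hq ?_⟩
      · exact Nat.div_pos (Nat.le_of_dvd (by omega) hpm) hp.pos
      · exact hqd.trans (Nat.div_dvd_of_dvd hpm)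
    · intro m _ _
      rw [hg]
      positivity
  have h4 : ∑ m ∈ mg2A z0 N, g m = T + mg2S z0 N := by
    rw [hT]
    unfold mg2S
    rw [← Finset.sum_add_distrib]
    apply Finset.sum_congr rfl
    intro m _
    rw [hg]
    ring
  have h5 : T ≤ (T + mg2S z0 N) / p := by
    calc T = ∑ m ∈ (mg2A z0 N).filter (fun m => p ∣ m), g (m / p) / p := by rw [h1, h2]
      _ = (∑ m ∈ (mg2A z0 N).filter (fun m => p ∣ m), g (m / p)) / p := by rw [Finset.sum_div]
      _ ≤ (T + mg2S z0 N) / p := by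
          apply div_le_div_of_nonneg_right _ hp0.le
          rw [← h4]
          exact h3
  rw [le_div_iff₀ hp0] at h5
  rw [le_div_iff₀ (by linarith)]
  linarith

/-- The first moment of `log m`. -/
theorem mg2_log (z0 : ℝ) (N : ℕ) :
    ∑ m ∈ mg2A z0 N, Real.log m / m ≤ (∑ p ∈ PI 0 z0, Real.log p / ((p : ℝ) - 1)) * mg2S z0 N := by
  classical
  have h1 : ∀ m ∈ mg2A z0 N, Real.log m / m = ∑ p ∈ PI 0 z0, Real.log p * ((m.factorization p : ℝ) / m) := by
    intro m hm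
    rw [mg2_mem] at hm
    rw [Real.log_nat_eq_sum_factorization, Finsupp.sum_of_support_subset (s := PI 0 z0)]
    · rw [Finset.sum_div]
      apply Finset.sum_congr rfl
      intro p _
      ring
    · intro p hp
      rw [Nat.support_factorization, Nat.mem_primeFactors] at hp
      rw [mem_PI]
      exact ⟨hp.1, by positivity, hm.2 p hp.1 hp.2.1⟩
    · intro p _
      simp
  rw [Finset.sum_congr rfl h1, Finset.sum_comm, Finset.sum_mul]
  apply Finset.sum_le_sum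
  intro p hp
  rw [mem_PI] at hp
  rw [← Finset.mul_sum]
  have h2 := mg2_prime z0 N p hp.1
  have h3 : 0 ≤ Real.log (p : ℝ) := Real.log_natCast_nonneg p
  calc Real.log p * ∑ m ∈ mg2A z0 N, (m.factorization p : ℝ) / m ≤
      Real.log p * (mg2S z0 N / ((p : ℝ) - 1)) := mul_le_mul_of_nonneg_left h2 h3
    _ = Real.log p / ((p : ℝ) - 1) * mg2S z0 N := by ring

theorem mg2_mert : ∃ C : ℝ, 0 < C ∧ ∀ z0 : ℝ, 2 ≤ z0 →
    ∑ p ∈ PI 0 z0, Real.log p / ((p : ℝ) - 1) ≤ Real.log z0 + C := by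
  obtain ⟨C, hC, h⟩ := mertens_one
  have hs : Summable (fun n : ℕ => 1 / (n : ℝ) ^ (3 / 2 : ℝ)) :=
    Real.summable_one_div_nat_rpow.2 (by norm_num)
  have hT : 0 ≤ ∑' n : ℕ, 1 / (n : ℝ) ^ (3 / 2 : ℝ) := tsum_nonneg (fun n => by positivity)
  refine ⟨C + 4 * ∑' n : ℕ, 1 / (n : ℝ) ^ (3 / 2 : ℝ), by linarith, fun z0 hz => ?_⟩
  have h1 := (abs_le.1 (h z0 hz)).2
  have h2 : ∑ p ∈ PI 0 z0, Real.log p / ((p : ℝ) - 1) ≤
      ∑ p ∈ PI 0 z0, (Real.log p / p + 4 * (1 / (p : ℝ) ^ (3 / 2 : ℝ))) := by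
    apply Finset.sum_le_sum
    intro p hp
    rw [mem_PI] at hp
    have hp2 : (2 : ℝ) ≤ p := by exact_mod_cast hp.1.two_le
    have hp0 : (0 : ℝ) < p := by linarith
    have hl0 : 0 ≤ Real.log (p : ℝ) := Real.log_natCast_nonneg p
    have hl : Real.log (p : ℝ) ≤ 2 * (p : ℝ) ^ (1 / 2 : ℝ) := by
      have := Real.log_le_rpow_div hp0.le (by norm_num : (0 : ℝ) < 1 / 2)
      linarith
    have hpow : (p : ℝ) ^ (3 / 2 : ℝ) * (p : ℝ) ^ (1 / 2 : ℝ) = (p : ℝ) ^ 2 := by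
      rw [← Real.rpow_add hp0, ← Real.rpow_natCast]
      norm_num
    have hq : 0 < (p : ℝ) ^ (3 / 2 : ℝ) := by positivity
    have e1 : Real.log p / ((p : ℝ) - 1) - Real.log p / p = Real.log p / ((p : ℝ) * ((p : ℝ) - 1)) := by
      have : (p : ℝ) - 1 ≠ 0 := by linarith
      field_simp
      ring
    have e2 : Real.log p / ((p : ℝ) * ((p : ℝ) - 1)) ≤ 4 * (1 / (p : ℝ) ^ (3 / 2 : ℝ)) := by
      rw [mul_one_div, div_le_div_iff₀ (by nlinarith) hq]
      calc Real.log p * (p : ℝ) ^ (3 / 2 : ℝ) ≤ 2 * (p : ℝ) ^ (1 / 2 : ℝ) * (p : ℝ) ^ (3 / 2 : ℝ) :=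
            mul_le_mul_of_nonneg_right hl hq.le
        _ = 2 * (p : ℝ) ^ 2 := by rw [mul_assoc, mul_comm ((p : ℝ) ^ (1 / 2 : ℝ)), hpow]
        _ ≤ 4 * ((p : ℝ) * ((p : ℝ) - 1)) := by nlinarith
    linarith
  have h3 : ∑ p ∈ PI 0 z0, 1 / (p : ℝ) ^ (3 / 2 : ℝ) ≤ ∑' n : ℕ, 1 / (n : ℝ) ^ (3 / 2 : ℝ) :=
    hs.sum_le_tsum _ (fun n _ => by positivity)
  rw [Finset.sum_add_distrib, ← Finset.mul_sum] at h2
  linarith

theorem mg2_tendsto (z0 : ℝ) : Tendsto (fun N : ℕ => P0 z0 * mg2S z0 N) atTop (nhds 1) := by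
  classical
  let f : ℕ →* ℝ :=
    { toFun := fun m => (m : ℝ)⁻¹
      map_one' := by simp
      map_mul' := fun a b => by push_cast; rw [mul_inv] }
  have hf : ∀ {p : ℕ}, p.Prime → ‖f p‖ < 1 := by
    intro p hp
    have hp2 : (2 : ℝ) ≤ p := by exact_mod_cast hp.two_le
    show ‖((p : ℝ)⁻¹)‖ < 1
    rw [Real.norm_of_nonneg (by positivity)]
    exact inv_lt_one_of_one_lt₀ (by linarith)
  have hs := (EulerProduct.summable_and_hasSum_smoothNumbers_prod_primesBelow_geometric hf ⌈z0⌉₊).2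
  have hP : P0 z0 * ∏ p ∈ (⌈z0⌉₊).primesBelow, (1 - f p)⁻¹ = 1 := by
    have : P0 z0 = ∏ p ∈ (⌈z0⌉₊).primesBelow, (1 - f p) := by
      unfold P0 VP
      have e : PI 0 z0 = (⌈z0⌉₊).primesBelow := by
        ext p
        rw [mem_PI, Nat.mem_primesBelow, Nat.lt_ceil]
        constructor
        · rintro ⟨a, _, b⟩
          exact ⟨b, a⟩
        · rintro ⟨a, b⟩
          exact ⟨b, by positivity, a⟩
      rw [e]
      apply Finset.prod_congr rfl
      intro p _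
      show 1 - 1 / (p : ℝ) = 1 - (p : ℝ)⁻¹
      rw [one_div]
    rw [this, ← Finset.prod_mul_distrib]
    apply Finset.prod_eq_one
    intro p hp
    rw [Nat.mem_primesBelow] at hp
    have h1 := hf hp.2
    apply mul_inv_cancel₀
    have : f p < 1 := (le_abs_self _).trans_lt h1
    linarith
  have hs2 : HasSum (Set.indicator (Nat.smoothNumbers ⌈z0⌉₊) (fun m => f m))
      (∏ p ∈ (⌈z0⌉₊).primesBelow, (1 - f p)⁻¹) := hasSum_subtype_iff_indicator.1 hs
  have ht := hs2.tendsto_sum_nat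
  have ht2 := (ht.comp (tendsto_add_atTop_nat 1)).const_mul (P0 z0)
  rw [hP] at ht2
  refine ht2.congr (fun N => ?_)
  congr 1
  simp only [Function.comp]
  unfold mg2S
  rw [← Finset.sum_filter_add_sum_filter_not (range (N + 1)) (fun m => m ∈ mg2A z0 N)]
  have e1 : (range (N + 1)).filter (fun m => m ∈ mg2A z0 N) = mg2A z0 N := by
    ext m
    rw [mem_filter, mem_range]
    constructor
    · exact fun h => h.2
    · intro h
      exact ⟨by have := (mg2_mem.1 h).1.2; omega, h⟩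
  have e2 : ∑ m ∈ (range (N + 1)).filter (fun m => ¬ m ∈ mg2A z0 N),
      Set.indicator (Nat.smoothNumbers ⌈z0⌉₊) (fun m => f m) m = 0 := by
    apply Finset.sum_eq_zero
    intro m hm
    rw [mem_filter, mem_range] at hm
    apply Set.indicator_of_notMem
    intro h
    apply hm.2
    rw [mg2_mem]
    refine ⟨⟨Nat.one_le_iff_ne_zero.2 (Nat.ne_zero_of_mem_smoothNumbers h), by omega⟩, fun p hp hpm => ?_⟩
    rw [Nat.mem_smoothNumbers'] at h
    exact Nat.lt_ceil.1 (h p hp hpm)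
  rw [e1, e2, add_zero]
  apply Finset.sum_congr rfl
  intro m hm
  rw [mg2_mem] at hm
  have : m ∈ Nat.smoothNumbers ⌈z0⌉₊ := by
    rw [Nat.mem_smoothNumbers']
    exact fun p hp hpm => Nat.lt_ceil.2 (hm.2 p hp hpm)
  rw [Set.indicator_of_mem this]
  show (m : ℝ)⁻¹ = 1 / (m : ℝ)
  rw [one_div]

open Classical in
/-- The smooth numbers up to `y` have almost the full harmonic sum:
`∑_{m smooth} (log m) / m = (1 / P0) ∑_{p < z0} log p / (p - 1)`, so (Markov)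
`∑_{m > y} 1 / m ≤ (1 / P0) (log z0 + C) / log y`. Here all sums are over `m` with primes `< z0`. To have finite sums one
can cut at `m ≤ X` and use `log m = ∑_{p ^ j ∣ m} log p`: `∑_{m ≤ X} (log m) / m ≤ ∑_{p < z0, j ≥ 1} (log p / p ^ j) ∑_{m ≤ X} 1 / m`.
`∑_{p < z0} log p / (p - 1) ≤ log z0 + C`: `mertens_one` in `W_b58c63_h68/ArB.lean`. -/
theorem smooth_tail : ∃ C : ℝ, 0 < C ∧ ∀ z0 y : ℝ, 2 ≤ z0 → 1 < y →
    (1 - (Real.log z0 + C) / Real.log y) ≤
      P0 z0 * ∑ m ∈ (Icc 1 ⌊y⌋₊).filter (fun m => ∀ p : ℕ, p.Prime → p ∣ m → (p : ℝ) < z0), 1 / (m : ℝ) := by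
  obtain ⟨C, hC, h⟩ := mg2_mert
  refine ⟨C, hC, fun z0 y hz hy => ?_⟩
  have hly : 0 < Real.log y := Real.log_pos hy
  have hP0 : 0 ≤ P0 z0 := by
    unfold P0 VP
    apply Finset.prod_nonneg
    intro p hp
    rw [mem_PI] at hp
    have hp2 : (2 : ℝ) ≤ p := by exact_mod_cast hp.1.two_le
    have : 1 / (p : ℝ) ≤ 1 := by
      rw [div_le_one (by linarith)]
      linarith
    linarith
  have key : ∀ N : ℕ, ⌊y⌋₊ ≤ N →
      (P0 z0 * mg2S z0 N) * (1 - (Real.log z0 + C) / Real.log y) ≤ P0 z0 * mg2S z0 ⌊y⌋₊ := by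
    intro N hN
    have h1 := mg2_log z0 N
    have h2 := h z0 hz
    have h3 := mg2_S_nonneg z0 N
    have hsub : mg2A z0 ⌊y⌋₊ ⊆ mg2A z0 N := by
      intro m hm
      rw [mg2_mem] at hm ⊢
      exact ⟨⟨hm.1.1, hm.1.2.trans hN⟩, hm.2⟩
    have h4 : Real.log y * (mg2S z0 N - mg2S z0 ⌊y⌋₊) ≤ ∑ m ∈ mg2A z0 N, Real.log m / m := by
      unfold mg2S
      rw [← Finset.sum_sdiff hsub, add_sub_cancel_right, Finset.mul_sum, ← Finset.sum_sdiff hsub]
      have h5 : 0 ≤ ∑ m ∈ mg2A z0 ⌊y⌋₊, Real.log (m : ℝ) / m :=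
        Finset.sum_nonneg (fun m _ => div_nonneg (Real.log_natCast_nonneg m) (Nat.cast_nonneg m))
      have h6 : ∑ m ∈ mg2A z0 N \ mg2A z0 ⌊y⌋₊, Real.log y * (1 / (m : ℝ)) ≤
          ∑ m ∈ mg2A z0 N \ mg2A z0 ⌊y⌋₊, Real.log (m : ℝ) / m := by
        apply Finset.sum_le_sum
        intro m hm
        rw [Finset.mem_sdiff, mg2_mem, mg2_mem] at hm
        have hmy : ⌊y⌋₊ < m := by
          by_contra hcon
          exact hm.2 ⟨⟨hm.1.1.1, by omega⟩, hm.1.2⟩
        have hmy' : y < (m : ℝ) := (Nat.floor_lt (by linarith)).1 hmy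
        rw [mul_one_div]
        apply div_le_div_of_nonneg_right _ (Nat.cast_nonneg m)
        exact Real.log_le_log (by linarith) hmy'.le
      linarith
    have h7 : Real.log y * (mg2S z0 N - mg2S z0 ⌊y⌋₊) ≤ (Real.log z0 + C) * mg2S z0 N :=
      h4.trans (h1.trans (mul_le_mul_of_nonneg_right h2 h3))
    have h8 : mg2S z0 N * (1 - (Real.log z0 + C) / Real.log y) ≤ mg2S z0 ⌊y⌋₊ := by
      have e : mg2S z0 N * (1 - (Real.log z0 + C) / Real.log y) =
          (mg2S z0 N * Real.log y - (Real.log z0 + C) * mg2S z0 N) / Real.log y := by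
        field_simp
      rw [e, div_le_iff₀ hly]
      linarith
    calc (P0 z0 * mg2S z0 N) * (1 - (Real.log z0 + C) / Real.log y) =
        P0 z0 * (mg2S z0 N * (1 - (Real.log z0 + C) / Real.log y)) := by ring
      _ ≤ P0 z0 * mg2S z0 ⌊y⌋₊ := mul_le_mul_of_nonneg_left h8 hP0
  have hlim := (mg2_tendsto z0).mul_const (1 - (Real.log z0 + C) / Real.log y)
  rw [one_mul] at hlim
  exact le_of_tendsto hlim (by filter_upwards [eventually_ge_atTop ⌊y⌋₊] with N hN using key N hN)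

end Pool.Agent.W33m
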