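import Pool.Agent.W_d33b62m_h36.Mg0
import Pool.Agent.W_d33b62m_h36.Mg2

/-!
# The harmonic sum over rough numbers: upper bound (MP_d33b62, T2, file Mg3)

`N(x) = ∑ 1 / n` over the squarefree `n ≤ x` without prime factors below `z0`. Let `P0 = ∏_{p < z0} (1 - 1 / p)`.
`N(x) = P0 log x + small`, if `z0 = Y ^ c` with `c` small and `x = R ^ t`, `R = Y ^ th`.
-/

set_option autoImplicit false

noncomputable section

open Finset Filter

namespace Pool.Agent.W33m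

open Pool.Agent.Wd33b62 (Pl PS xr nmS nm supp Sub dn fib era off FF lam zz AA BB SX QH GH TT0 HasExp conv Ex QOK
  qwt xwt EB Bd mem_PS)
open Pool.Agent.Wb58c63 (PI mem_PI VP aw ap XM Pr)
open Pool.Agent.M58 (lp' lm')

/-- Rough and smooth parts are determined by the product. -/
theorem Mg3_cop (z0 : ℝ) (n m : ℕ) (hn : ∀ p : ℕ, p.Prime → p ∣ n → z0 ≤ (p : ℝ))
    (hm : ∀ p : ℕ, p.Prime → p ∣ m → (p : ℝ) < z0) : Nat.Coprime n m := by
  refine Nat.coprime_of_dvd fun p hp h1 h2 => ?_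
  exact absurd (hm p hp h2) (not_lt.2 (hn p hp h1))

/-- **Upper bound.** `(∑_{n ≤ x rough} 1 / n) (∑_{m ≤ y smooth} 1 / m) ≤ ∑_{N ≤ x y} 1 / N ≤ 1 + log x + log y`, the products
`m n` are different (`m` is the smooth part). With `smooth_tail`. -/
theorem Mg3_prod (z0 x y : ℝ) (hx : 1 ≤ x) (hy : 1 ≤ y) (S : Finset ℕ)
    (hS : ∀ m ∈ S, m ∈ Icc 1 ⌊y⌋₊ ∧ ∀ p : ℕ, p.Prime → p ∣ m → (p : ℝ) < z0) :
    rs z0 x * ∑ m ∈ S, 1 / (m : ℝ) ≤ 1 + Real.log x + Real.log y := by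
  classical
  unfold rs
  set R := (Icc 1 ⌊x⌋₊).filter (fun n => ∀ p : ℕ, p.Prime → p ∣ n → z0 ≤ (p : ℝ)) with hR
  have hRm : ∀ n ∈ R, n ∈ Icc 1 ⌊x⌋₊ ∧ ∀ p : ℕ, p.Prime → p ∣ n → z0 ≤ (p : ℝ) := by
    intro n hn
    rw [hR, mem_filter] at hn
    exact hn
  rw [Finset.sum_mul_sum, ← Finset.sum_product']
  have hinj : Set.InjOn (fun q : ℕ × ℕ => q.1 * q.2) (R ×ˢ S : Finset (ℕ × ℕ)) := by
    rintro ⟨n, m⟩ h1 ⟨n', m'⟩ h2 he
    rw [mem_coe, mem_product] at h1 h2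
    simp only at h1 h2 he
    obtain ⟨hn1, hn2⟩ := hRm n h1.1
    obtain ⟨hm1, hm2⟩ := hS m h1.2
    obtain ⟨hn1', hn2'⟩ := hRm n' h2.1
    obtain ⟨hm1', hm2'⟩ := hS m' h2.2
    have e1 : n ∣ n' := by
      have : n ∣ n' * m' := he ▸ Dvd.intro _ rfl
      exact (Mg3_cop z0 n m' hn2 hm2').dvd_of_dvd_mul_right this
    have e2 : n' ∣ n := by
      have : n' ∣ n * m := he.symm ▸ Dvd.intro _ rfl
      exact (Mg3_cop z0 n' m hn2' hm2).dvd_of_dvd_mul_right this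
    have e3 : n = n' := Nat.dvd_antisymm e1 e2
    have hn0 : 0 < n := (Finset.mem_Icc.1 hn1).1
    subst e3
    have e4 : m = m' := Nat.eq_of_mul_eq_mul_left hn0 he
    rw [e4]
  have hsum : ∑ q ∈ R ×ˢ S, 1 / (q.1 : ℝ) * (1 / (q.2 : ℝ)) =
      ∑ N ∈ (R ×ˢ S).image (fun q : ℕ × ℕ => q.1 * q.2), 1 / (N : ℝ) := by
    rw [Finset.sum_image hinj]
    refine Finset.sum_congr rfl fun q _ => ?_
    push_cast
    rw [one_div_mul_one_div]
  rw [hsum]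
  have hsub : (R ×ˢ S).image (fun q : ℕ × ℕ => q.1 * q.2) ⊆ Icc 1 ⌊x * y⌋₊ := by
    intro N hN
    rw [mem_image] at hN
    obtain ⟨⟨n, m⟩, hq, rfl⟩ := hN
    rw [mem_product] at hq
    obtain ⟨hn1, _⟩ := hRm n hq.1
    obtain ⟨hm1, _⟩ := hS m hq.2
    rw [Finset.mem_Icc] at hn1 hm1 ⊢
    refine ⟨Nat.mul_pos hn1.1 hm1.1, ?_⟩
    apply Nat.le_floor
    push_cast
    have h1 : (n : ℝ) ≤ x := (Nat.le_floor_iff (by linarith)).1 hn1.2
    have h2 : (m : ℝ) ≤ y := (Nat.le_floor_iff (by linarith)).1 hm1.2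
    exact mul_le_mul h1 h2 (Nat.cast_nonneg _) (by linarith)
  calc ∑ N ∈ (R ×ˢ S).image (fun q : ℕ × ℕ => q.1 * q.2), 1 / (N : ℝ)
      ≤ ∑ N ∈ Icc 1 ⌊x * y⌋₊, 1 / (N : ℝ) :=
        Finset.sum_le_sum_of_subset_of_nonneg hsub fun i _ _ => by positivity
    _ = (harmonic ⌊x * y⌋₊ : ℝ) := by
        rw [harmonic_eq_sum_Icc]
        push_cast
        refine Finset.sum_congr rfl fun i _ => ?_
        rw [one_div]
    _ ≤ 1 + Real.log (x * y) := harmonic_floor_le_one_add_log (x * y) (by nlinarith)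
    _ = 1 + Real.log x + Real.log y := by
        rw [Real.log_mul (by linarith) (by linarith)]
        ring

theorem Mg3_P0 (z0 : ℝ) : 0 ≤ P0 z0 := by
  unfold P0 VP
  refine Finset.prod_nonneg fun p hp => ?_
  have h1 : p.Prime := (mem_PI.1 hp).1
  have h2 : (1 : ℝ) ≤ p := by exact_mod_cast h1.one_lt.le
  have h3 : 1 / (p : ℝ) ≤ 1 := by
    rw [div_le_one (by linarith)]
    exact h2
  linarith

/-- **Upper bound.** `(∑_{n ≤ x rough} 1 / n) (∑_{m ≤ y smooth} 1 / m) ≤ ∑_{N ≤ x y} 1 / N ≤ 1 + log x + log y`, the products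
`m n` are different (`m` is the smooth part). With `smooth_tail`. -/
theorem rs_le : ∃ C : ℝ, 0 < C ∧ ∀ z0 x y : ℝ, 2 ≤ z0 → 1 ≤ x → 1 < y →
    rs z0 x * (1 - (Real.log z0 + C) / Real.log y) ≤ P0 z0 * (1 + Real.log x + Real.log y) := by
  classical
  obtain ⟨C, hC, h⟩ := smooth_tail
  refine ⟨C, hC, ?_⟩
  intro z0 x y hz hx hy
  have h1 := h z0 y hz hy
  have hrs : 0 ≤ rs z0 x := by
    unfold rs
    exact Finset.sum_nonneg fun i _ => by positivity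
  have h2 := Mg3_prod z0 x y hx hy.le
    ((Icc 1 ⌊y⌋₊).filter (fun m => ∀ p : ℕ, p.Prime → p ∣ m → (p : ℝ) < z0))
    (fun m hm => mem_filter.1 hm)
  refine (mul_le_mul_of_nonneg_left h1 hrs).trans ?_
  have h3 := mul_le_mul_of_nonneg_left h2 (Mg3_P0 z0)
  refine le_trans (le_of_eq ?_) h3
  have h4 : ((Icc 1 ⌊y⌋₊).filter (fun m => ∀ p : ℕ, p.Prime → p ∣ m → (p : ℝ) < z0)) =
    ((Icc 1 ⌊y⌋₊).filter (fun m => ∀ p : ℕ, p.Prime → p ∣ m → (p : ℝ) < z0)) := rfl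
  ring_nf

end Pool.Agent.W33m
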