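import Pool.Agent.W_d33b62m_h36.Mg0
import Pool.Agent.W_d33b62_h36.AR3b

/-!
# The squarefree rough numbers (MP_d33b62, T2, file Mg4)

`N(x) = ∑ 1 / n` over the squarefree `n ≤ x` without prime factors below `z0`. Let `P0 = ∏_{p < z0} (1 - 1 / p)`.
`N(x) = P0 log x + small`, if `z0 = Y ^ c` with `c` small and `x = R ^ t`, `R = Y ^ th`.
-/

set_option autoImplicit false

noncomputable section

open Finset Filter

namespace Pool.Agent.W33m

open Pool.Agent.Wd33b62 (Pl PS xr nmS nm supp Sub dn fib era off FF lam zz AA BB SX QH GH TT0 HasExp conv Ex QOK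
  qwt xwt EB Bd mem_PS)
open Pool.Agent.Wb58c63 (PI mem_PI VP aw ap XM Pr)
open Pool.Agent.M58 (lp' lm')

open Classical in
/-- `mo` as a sum over the squarefree rough numbers. -/
theorem mg4_mo (w : ℕ) (z z0 R t : ℝ) (hw : (w : ℝ) + 1 ≤ z0) (hz : R ^ t < z) :
    mo w z 0 z0 R t = ∑ n ∈ ((Icc 1 ⌊R ^ t⌋₊).filter (fun n => ∀ p : ℕ, p.Prime → p ∣ n → z0 ≤ (p : ℝ))).filter
      (fun n => Squarefree n), 1 / (n : ℝ) := by
  have hprod : ∀ S : Finset (Pl w z), ∏ i ∈ S, xr w z i = 1 / ((nmS S : ℕ) : ℝ) := by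
    intro S
    unfold xr nmS
    rw [Nat.cast_prod, one_div, ← Finset.prod_inv_distrib]
    exact Finset.prod_congr rfl fun p _ => one_div _
  have h1 : mo w z 0 z0 R t = ∑ S ∈ (univ : Finset (Finset (Pl w z))).filter
      (fun S => (∀ p ∈ S, z0 ≤ (p.1 : ℝ)) ∧ (nmS S : ℝ) ≤ R ^ t), 1 / ((nmS S : ℕ) : ℝ) := by
    unfold mo
    rw [Finset.sum_filter]
    refine Finset.sum_congr rfl fun S _ => ?_
    rw [hprod S, pow_zero, one_mul]
  rw [h1]
  refine Finset.sum_bij (fun S _ => nmS S) ?_ ?_ ?_ ?_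
  · intro S hS
    obtain ⟨-, h2, h3⟩ := Finset.mem_filter.1 hS
    refine Finset.mem_filter.2 ⟨Finset.mem_filter.2 ⟨Finset.mem_Icc.2 ⟨Pool.Agent.Wd33b62.AR3b_pos S, Nat.le_floor h3⟩, ?_⟩,
      Pool.Agent.Wd33b62.AR3b_sqf S⟩
    intro p hp hpd
    have h4 : p ∈ (nmS S).primeFactors :=
      Nat.mem_primeFactors.2 ⟨hp, hpd, Nat.one_le_iff_ne_zero.1 (Pool.Agent.Wd33b62.AR3b_pos S)⟩
    rw [Pool.Agent.Wd33b62.AR3b_pf] at h4
    obtain ⟨q, hq, rfl⟩ := Finset.mem_image.1 h4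
    exact h2 q hq
  · intro S _ T _ h
    exact Pool.Agent.Wd33b62.AR3b_inj h
  · intro n hn
    obtain ⟨h2, hsq⟩ := Finset.mem_filter.1 hn
    obtain ⟨h3, hr⟩ := Finset.mem_filter.1 h2
    obtain ⟨hn1, hn2⟩ := Finset.mem_Icc.1 h3
    have hn0 : n ≠ 0 := by omega
    have hnx : (n : ℝ) ≤ R ^ t := by
      by_contra hc
      push Not at hc
      rcases le_or_gt 0 (R ^ t) with h4 | h4
      · exact absurd ((Nat.cast_le.2 hn2).trans (Nat.floor_le h4)) (not_le.2 hc)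
      · rw [Nat.floor_of_nonpos h4.le] at hn2
        omega
    have hmem : ∀ p ∈ n.primeFactors, p ∈ PS w z := by
      intro p hp
      obtain ⟨hpp, hpd, -⟩ := Nat.mem_primeFactors.1 hp
      have h4 := hr p hpp hpd
      have h5 : (p : ℝ) ≤ n := by exact_mod_cast Nat.le_of_dvd (by omega) hpd
      exact mem_PI.2 ⟨hpp, by linarith, by linarith⟩
    refine ⟨(univ : Finset (Pl w z)).filter (fun p => p.1 ∣ n), ?_, ?_⟩
    swap
    · rw [Pool.Agent.Wd33b62.AR3b_nmS]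
      have h4 : (((univ : Finset (Pl w z)).filter (fun p => p.1 ∣ n)).image Subtype.val) = n.primeFactors := by
        ext p
        rw [Finset.mem_image]
        constructor
        · rintro ⟨q, hq, rfl⟩
          exact Nat.mem_primeFactors.2 ⟨Pool.Agent.Wd33b62.AR3b_prime q, (Finset.mem_filter.1 hq).2, hn0⟩
        · intro hp
          exact ⟨⟨p, hmem p hp⟩, Finset.mem_filter.2 ⟨Finset.mem_univ _, Nat.dvd_of_mem_primeFactors hp⟩, rfl⟩
      rw [h4]
      exact Nat.prod_primeFactors_of_squarefree hsq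
    · have h5 : nmS ((univ : Finset (Pl w z)).filter (fun p => p.1 ∣ n)) = n := by
        rw [Pool.Agent.Wd33b62.AR3b_nmS]
        have h4 : (((univ : Finset (Pl w z)).filter (fun p => p.1 ∣ n)).image Subtype.val) = n.primeFactors := by
          ext p
          rw [Finset.mem_image]
          constructor
          · rintro ⟨q, hq, rfl⟩
            exact Nat.mem_primeFactors.2 ⟨Pool.Agent.Wd33b62.AR3b_prime q, (Finset.mem_filter.1 hq).2, hn0⟩
          · intro hp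
            exact ⟨⟨p, hmem p hp⟩, Finset.mem_filter.2 ⟨Finset.mem_univ _, Nat.dvd_of_mem_primeFactors hp⟩, rfl⟩
        rw [h4]
        exact Nat.prod_primeFactors_of_squarefree hsq
      refine Finset.mem_filter.2 ⟨Finset.mem_univ _, fun p hp => ?_, ?_⟩
      · exact hr p.1 (Pool.Agent.Wd33b62.AR3b_prime p) (Finset.mem_filter.1 hp).2
      · rw [h5]
        exact hnx
  · intro S _
    rfl

/-- The squarefree rough numbers: for `w < z0` and `x < z` the sets `S` of places `≥ z0` with `nmS S ≤ x` correspond to the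
squarefree rough `n ≤ x` (`AR3b_inj`, `AR3b_sqf`); a rough `n` which is not squarefree is divisible by `p ^ 2` with a
prime `p ≥ z0`, and `∑_{n ≤ x rough, p² ∣ n} 1 / n ≤ rs z0 x / p ^ 2`, `∑_{p ≥ z0} 1 / p ^ 2 ≤ 2 / z0`. -/
theorem mo_rs (w : ℕ) (z z0 R t : ℝ) (hz0 : 2 ≤ z0) (hw : (w : ℝ) + 1 ≤ z0) (hz : R ^ t < z) (hR : 1 ≤ R) (ht : 0 ≤ t) :
    mo w z 0 z0 R t ≤ rs z0 (R ^ t) ∧ (1 - 2 / z0) * rs z0 (R ^ t) ≤ mo w z 0 z0 R t := by
  classical
  rw [mg4_mo w z z0 R t hw hz]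
  set x : ℝ := R ^ t with hx
  set F : Finset ℕ := (Icc 1 ⌊x⌋₊).filter (fun n => ∀ p : ℕ, p.Prime → p ∣ n → z0 ≤ (p : ℝ)) with hF
  have hrs : rs z0 x = ∑ n ∈ F, 1 / (n : ℝ) := by
    unfold rs
    rw [hF]
  rw [hrs]
  constructor
  · exact Finset.sum_le_sum_of_subset_of_nonneg (Finset.filter_subset _ _) fun n _ _ => by positivity
  have hrs0 : 0 ≤ ∑ n ∈ F, 1 / (n : ℝ) := Finset.sum_nonneg fun n _ => by positivity
  have hsplit := Finset.sum_filter_add_sum_filter_not F (fun n => Squarefree n) (fun n => 1 / (n : ℝ))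
  -- the primes
  set P : Finset ℕ := (range (⌊x⌋₊ + 1)).filter (fun p => p.Prime ∧ z0 ≤ (p : ℝ)) with hP
  have hF1 : ∀ n ∈ F, 1 ≤ n := fun n hn => (Finset.mem_Icc.1 (Finset.mem_filter.1 hn).1).1
  have h1 : ∑ n ∈ F.filter (fun n => ¬ Squarefree n), 1 / (n : ℝ) ≤
      ∑ p ∈ P, ∑ n ∈ F.filter (fun n => p ^ 2 ∣ n), 1 / (n : ℝ) := by
    have h2 : ∑ p ∈ P, ∑ n ∈ F.filter (fun n => p ^ 2 ∣ n), 1 / (n : ℝ) =
        ∑ n ∈ F, ∑ p ∈ P, (if p ^ 2 ∣ n then 1 / (n : ℝ) else 0) := by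
      rw [Finset.sum_comm]
      refine Finset.sum_congr rfl fun p _ => ?_
      rw [Finset.sum_filter]
    rw [h2, Finset.sum_filter]
    refine Finset.sum_le_sum fun n hn => ?_
    have h0 : ∀ p ∈ P, 0 ≤ (if p ^ 2 ∣ n then 1 / (n : ℝ) else 0) := fun p _ => by
      split_ifs
      · positivity
      · exact le_rfl
    by_cases hsq : Squarefree n
    · rw [if_neg (not_not.2 hsq)]
      exact Finset.sum_nonneg h0
    · rw [if_pos hsq]
      rw [Nat.squarefree_iff_prime_squarefree] at hsq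
      push Not at hsq
      obtain ⟨p, hp, hpn⟩ := hsq
      obtain ⟨hn1, hn2⟩ := Finset.mem_filter.1 hn
      obtain ⟨hn3, hn4⟩ := Finset.mem_Icc.1 hn1
      have hpn1 : p ∣ n := (Dvd.intro p rfl).trans hpn
      have hpP : p ∈ P := by
        refine Finset.mem_filter.2 ⟨Finset.mem_range.2 ?_, hp, hn2 p hp hpn1⟩
        have := Nat.le_of_dvd (by omega) hpn1
        omega
      refine le_trans (le_of_eq ?_) (Finset.single_le_sum h0 hpP)
      rw [if_pos]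
      rw [pow_two]
      exact hpn
  have h3 : ∀ p ∈ P, ∑ n ∈ F.filter (fun n => p ^ 2 ∣ n), 1 / (n : ℝ) ≤ ((p : ℝ) ^ 2)⁻¹ * ∑ n ∈ F, 1 / (n : ℝ) := by
    intro p hp
    obtain ⟨-, hpp, -⟩ := Finset.mem_filter.1 hp
    have hp0 : 0 < p ^ 2 := pow_pos hpp.pos 2
    have h4 : ∑ n ∈ F.filter (fun n => p ^ 2 ∣ n), 1 / (n : ℝ) =
        ∑ m ∈ (F.filter (fun n => p ^ 2 ∣ n)).image (fun n : ℕ => (n / p ^ 2 : ℕ)), ((p : ℝ) ^ 2)⁻¹ * (1 / (m : ℝ)) := by
      rw [Finset.sum_image]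
      · refine Finset.sum_congr rfl fun n hn => ?_
        obtain ⟨-, m, rfl⟩ := Finset.mem_filter.1 hn
        rw [Nat.mul_div_cancel_left m hp0]
        push_cast
        rw [one_div, mul_inv, one_div]
      · intro a ha b hb hab
        obtain ⟨-, ha2⟩ := Finset.mem_filter.1 ha
        obtain ⟨-, hb2⟩ := Finset.mem_filter.1 hb
        simp only at hab
        rw [← Nat.mul_div_cancel' ha2, ← Nat.mul_div_cancel' hb2, hab]
    rw [h4, Finset.mul_sum]
    refine Finset.sum_le_sum_of_subset_of_nonneg ?_ fun m _ _ => by positivity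
    intro m hm
    obtain ⟨n, hn, rfl⟩ := Finset.mem_image.1 hm
    obtain ⟨hnF, m, rfl⟩ := Finset.mem_filter.1 hn
    rw [Nat.mul_div_cancel_left m hp0]
    obtain ⟨hn1, hn2⟩ := Finset.mem_filter.1 hnF
    obtain ⟨hn3, hn4⟩ := Finset.mem_Icc.1 hn1
    have hm0 : 0 < m := by
      rcases Nat.eq_zero_or_pos m with h | h
      · rw [h] at hn3
        omega
      · exact h
    refine Finset.mem_filter.2 ⟨Finset.mem_Icc.2 ⟨hm0, ?_⟩, fun q hq hqm => hn2 q hq (hqm.mul_left _)⟩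
    exact (Nat.le_mul_of_pos_left m hp0).trans hn4
  have h5 : ∑ p ∈ P, ((p : ℝ) ^ 2)⁻¹ ≤ 2 / z0 := by
    have hc : 1 ≤ ⌈z0⌉₊ := Nat.one_le_ceil_iff.2 (by linarith)
    have hsub : P ⊆ Ioo (⌈z0⌉₊ - 1) (⌊x⌋₊ + 1) := by
      intro p hp
      obtain ⟨hp1, -, hp2⟩ := Finset.mem_filter.1 hp
      rw [Finset.mem_Ioo]
      have := Nat.ceil_le.2 hp2
      have := Finset.mem_range.1 hp1
      omega
    refine (Finset.sum_le_sum_of_subset_of_nonneg hsub fun p _ _ => by positivity).trans ?_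
    refine (sum_Ioo_inv_sq_le (α := ℝ) (⌈z0⌉₊ - 1) (⌊x⌋₊ + 1)).trans ?_
    have h6 : ((⌈z0⌉₊ - 1 : ℕ) : ℝ) + 1 = ⌈z0⌉₊ := by
      rw [Nat.cast_sub hc]
      push_cast
      ring
    rw [h6]
    exact div_le_div_of_nonneg_left (by norm_num) (by linarith) (Nat.le_ceil z0)
  have h6 : ∑ n ∈ F.filter (fun n => ¬ Squarefree n), 1 / (n : ℝ) ≤ 2 / z0 * ∑ n ∈ F, 1 / (n : ℝ) := by
    refine h1.trans ((Finset.sum_le_sum h3).trans ?_)
    rw [← Finset.sum_mul]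
    exact mul_le_mul_of_nonneg_right h5 hrs0
  have h7 : (1 - 2 / z0) * ∑ n ∈ F, 1 / (n : ℝ) = ∑ n ∈ F, 1 / (n : ℝ) - 2 / z0 * ∑ n ∈ F, 1 / (n : ℝ) := by ring
  rw [h7]
  linarith

end Pool.Agent.W33m
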