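import Pool.Agent.W_d33b62m_h36.Mg1
import Pool.Agent.W_d33b62m_h36.Mg3
import Pool.Agent.W_d33b62m_h36.Mg4

/-!
# The harmonic sum over rough numbers: asymptotics (MP_d33b62, T2, file Mg5)

`N(x) = ∑ 1 / n` over the squarefree `n ≤ x` without prime factors below `z0`. Let `P0 = ∏_{p < z0} (1 - 1 / p)`.
`N(x) = P0 log x + small`, if `z0 = Y ^ c` with `c` small and `x = R ^ t`, `R = Y ^ th`.
-/

set_option autoImplicit false

noncomputable section

open Finset Filter

namespace Pool.Agent.W33m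

open Pool.Agent.Wd33b62 (Pl PS xr nmS nm supp Sub dn fib era off FF lam zz AA BB SX QH GH TT0 HasExp conv Ex QOK
  qwt xwt EB Bd mem_PS)
open Pool.Agent.Wb58c63 (PI mem_PI VP aw ap XM Pr)
open Pool.Agent.M58 (lp' lm')

/-- **The asymptotics.** Given `ε`, choose `y = z0 ^ s` with `s` large, then `c` small: `log y / log R = s c / th`.
The lower bound is `(1 - 2 / z0) P0 t log R`, and `t ≤ 1 / 2`. The upper bound is
`P0 (1 + t log R + s c log Y) / (1 - (log z0 + C) / (s log z0))`. -/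
theorem mo_zero (ε : ℝ) (hε : 0 < ε) : ∃ c0 : ℝ, 0 < c0 ∧ ∀ c : ℝ, 0 < c → c ≤ c0 → ∀ w : ℕ, ∀ᶠ Y : ℝ in atTop,
    ∀ t : ℝ, 0 ≤ t → t ≤ 1 / 2 →
      |mo w (Y ^ th) 0 (Y ^ c) (Y ^ th) t - t * La (Y ^ c) (Y ^ th)| ≤ ε * La (Y ^ c) (Y ^ th) := by
  obtain ⟨C, hC, hU⟩ := rs_le
  have hth : 0 < th := by unfold th; norm_num
  obtain ⟨s, hs2, hse⟩ : ∃ s : ℝ, 2 < s ∧ 4 + 8 * ε ≤ s * ε := by
    refine ⟨(4 + 8 * ε) / ε + 2, ?_, ?_⟩
    · have : 0 < (4 + 8 * ε) / ε := by positivity
      linarith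
    · rw [add_mul, div_mul_cancel₀ _ hε.ne']
      linarith
  have hs0 : 0 < s := by linarith
  refine ⟨ε * th / (4 * s), by positivity, ?_⟩
  intro c hc hcc w
  have t1 : Tendsto (fun Y : ℝ => Y ^ c) atTop atTop := tendsto_rpow_atTop hc
  have t2 : Tendsto (fun Y : ℝ => Y ^ th) atTop atTop := tendsto_rpow_atTop hth
  have l1 : Tendsto (fun Y : ℝ => Real.log (Y ^ c)) atTop atTop := Real.tendsto_log_atTop.comp t1
  have l2 : Tendsto (fun Y : ℝ => Real.log (Y ^ th)) atTop atTop := Real.tendsto_log_atTop.comp t2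
  filter_upwards [t1.eventually_ge_atTop 2, t1.eventually_ge_atTop ((w : ℝ) + 1), t1.eventually_ge_atTop (1 / ε),
    t2.eventually_gt_atTop 1, l1.eventually_ge_atTop C, l2.eventually_ge_atTop (4 / ε),
    eventually_gt_atTop (1 : ℝ)] with Y h1 h1w h1e h2 h3 h4 hY
  intro t ht0 ht1
  have hY0 : 0 < Y := by linarith
  have hlY : 0 < Real.log Y := Real.log_pos hY
  have ez : Real.log (Y ^ c) = c * Real.log Y := Real.log_rpow hY0 c
  have eR : Real.log (Y ^ th) = th * Real.log Y := Real.log_rpow hY0 th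
  have hlz : 0 < Real.log (Y ^ c) := by rw [ez]; positivity
  have hlR : 0 < Real.log (Y ^ th) := by rw [eR]; positivity
  have hsl : s * Real.log (Y ^ c) ≤ ε / 4 * Real.log (Y ^ th) := by
    rw [ez, eR]
    have h5 : s * c ≤ ε / 4 * th := by
      rw [le_div_iff₀ (by positivity)] at hcc
      linarith
    have := mul_le_mul_of_nonneg_right h5 hlY.le
    linarith
  clear ez eR
  set z0 : ℝ := Y ^ c with hz0
  set R : ℝ := Y ^ th with hR
  have hP : 0 ≤ P0 z0 := by
    unfold P0 VP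
    refine prod_nonneg fun p hp => ?_
    have hp2 : (2 : ℝ) ≤ (p : ℝ) := by exact_mod_cast (mem_PI.1 hp).1.two_le
    have : 1 / (p : ℝ) ≤ 1 := by
      rw [div_le_one (by linarith)]
      linarith
    linarith
  have hRt : R ^ t < R := by
    calc R ^ t ≤ R ^ (1 / 2 : ℝ) := Real.rpow_le_rpow_of_exponent_le h2.le ht1
      _ < R ^ (1 : ℝ) := Real.rpow_lt_rpow_of_exponent_lt h2 (by norm_num)
      _ = R := Real.rpow_one R
  obtain ⟨m1, m2⟩ := mo_rs w R z0 R t h1 h1w hRt h2.le ht0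
  have hRt1 : 1 ≤ R ^ t := Real.one_le_rpow h2.le ht0
  have g1 := rs_ge z0 (R ^ t) h1 hRt1
  have elog : Real.log (R ^ t) = t * Real.log R := Real.log_rpow (by linarith) t
  rw [elog] at g1
  have hz00 : 0 < z0 := by linarith
  have hLa : 0 ≤ La z0 R := mul_nonneg hlR.le hP
  rw [abs_le]
  constructor
  · have h5 : 2 / z0 * t ≤ ε := by
      rw [div_mul_eq_mul_div, div_le_iff₀ hz00]
      rw [div_le_iff₀ hε] at h1e
      nlinarith
    have h6 : 0 ≤ 1 - 2 / z0 := by
      rw [sub_nonneg, div_le_one hz00]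
      exact h1
    have h7 := mul_le_mul_of_nonneg_left g1 h6
    have h8 : (1 - 2 / z0) * (P0 z0 * (t * Real.log R)) = t * La z0 R - (2 / z0 * t) * La z0 R := by
      unfold La
      ring
    have h9 := mul_le_mul_of_nonneg_right h5 hLa
    linarith
  · have hy : 1 < z0 ^ s := Real.one_lt_rpow (by linarith) hs0
    have g2 := hU z0 (R ^ t) (z0 ^ s) h1 hRt1 hy
    have elogy : Real.log (z0 ^ s) = s * Real.log z0 := Real.log_rpow hz00 s
    rw [elog, elogy] at g2
    set δ : ℝ := (Real.log z0 + C) / (s * Real.log z0) with hδ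
    have hδ1 : δ ≤ 2 / s := by
      rw [hδ, div_le_div_iff₀ (by positivity) hs0]
      nlinarith
    have hδ0 : 0 ≤ δ := by
      rw [hδ]
      positivity
    have h2s : 2 / s < 1 := by
      rw [div_lt_one hs0]
      exact hs2
    have hd : 0 < 1 - δ := by linarith
    have h5 : 1 ≤ ε / 4 * Real.log R := by
      rw [div_le_iff₀ hε] at h4
      linarith
    have h6 : (t + ε) * δ ≤ ε / 4 := by
      calc (t + ε) * δ ≤ (1 / 2 + ε) * (2 / s) := by
            refine mul_le_mul (by linarith) hδ1 hδ0 (by linarith)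
        _ = (1 + 2 * ε) / s := by
            field_simp
        _ ≤ ε / 4 := by
            rw [div_le_iff₀ hs0]
            linarith
    have h7 : P0 z0 * (1 + t * Real.log R + s * Real.log z0) ≤ P0 z0 * ((t + ε / 2) * Real.log R) := by
      refine mul_le_mul_of_nonneg_left ?_ hP
      nlinarith
    have h8 : P0 z0 * ((t + ε / 2) * Real.log R) ≤ ((t + ε) * La z0 R) * (1 - δ) := by
      have h9 : (t + ε / 2) ≤ (t + ε) * (1 - δ) := by
        nlinarith
      have h10 := mul_le_mul_of_nonneg_right h9 hLa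
      have h11 : P0 z0 * ((t + ε / 2) * Real.log R) = (t + ε / 2) * La z0 R := by
        unfold La
        ring
      rw [h11]
      linarith
    have h12 : rs z0 (R ^ t) ≤ (t + ε) * La z0 R :=
      le_of_mul_le_mul_right ((g2.trans h7).trans h8) hd
    linarith

end Pool.Agent.W33m
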