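import Pool.Agent.W_d33b62m_h36.Mg5

/-!
# The moments of the cost (MP_d33b62, T2, file Mh)
-/

set_option autoImplicit false

noncomputable section

open Finset Filter

namespace Pool.Agent.W33m

open Pool.Agent.Wd33b62 (Pl PS xr nmS nm supp Sub dn fib era off FF lam zz AA BB SX QH GH TT0 HasExp conv Ex QOK
  qwt xwt EB Bd mem_PS)
open Pool.Agent.Wb58c63 (PI mem_PI VP aw ap XM Pr)
open Pool.Agent.M58 (lp' lm')

open MeasureTheory in
theorem mom_ind (n : ℕ) (c t : ℝ) (hc : 0 ≤ c) (hct : c ≤ t) :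
    ∫ u in (0:ℝ)..t, Set.indicator {u | u ≤ c} (fun u => ((n : ℝ) + 1) * u ^ n) u = c ^ (n + 1) := by
  rw [intervalIntegral.integral_indicator (Set.mem_Icc.2 ⟨hc, hct⟩), intervalIntegral.integral_const_mul, integral_pow]
  have : (n : ℝ) + 1 ≠ 0 := by positivity
  field_simp
  simp

open MeasureTheory in
theorem mom_int (n : ℕ) (c t : ℝ) :
    IntervalIntegrable (fun u => Set.indicator {u : ℝ | u ≤ c} (fun u => ((n : ℝ) + 1) * u ^ n) u) volume 0 t := by
  rw [intervalIntegrable_iff]
  refine IntegrableOn.indicator ?_ measurableSet_Iic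
  rw [← intervalIntegrable_iff]
  exact (by fun_prop : Continuous fun u : ℝ => ((n : ℝ) + 1) * u ^ n).intervalIntegrable _ _

open MeasureTheory in
theorem mom_abs {ι : Type} (s : Finset ι) (c x : ι → ℝ) (hc : ∀ i ∈ s, 0 ≤ c i) (hx : ∀ i ∈ s, 0 ≤ x i)
    (L ε t : ℝ) (hL : 0 ≤ L) (ht0 : 0 ≤ t) (ht : t ≤ 1)
    (h : ∀ u, 0 ≤ u → u ≤ t → |∑ i ∈ s.filter (fun i => c i ≤ u), x i - u * L| ≤ ε * L) (j : ℕ) :
    |∑ i ∈ s.filter (fun i => c i ≤ t), c i ^ j * x i - t ^ (j + 1) / (j + 1) * L| ≤ 2 * ε * L := by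
  have hεL : 0 ≤ ε * L := (abs_nonneg _).trans (h 0 le_rfl ht0)
  cases j with
  | zero =>
    have h1 := h t ht0 le_rfl
    simp only [pow_zero, one_mul, zero_add, pow_one, Nat.cast_zero, div_one]
    linarith
  | succ n =>
    -- bounds for the sum over `c i < u`
    have hlow : ∀ u, 0 ≤ u → u ≤ t → u * L - ε * L ≤ ∑ i ∈ s.filter (fun i => c i < u), x i := by
      intro u hu0 hut
      rcases hu0.eq_or_lt with hu | hu
      · rw [← hu, zero_mul]
        have : 0 ≤ ∑ i ∈ s.filter (fun i => c i < 0), x i :=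
          sum_nonneg fun i hi => hx i (mem_filter.1 hi).1
        linarith
      · refine le_of_forall_pos_le_add fun δ hδ => ?_
        obtain ⟨v, hv0, hvu, hvL⟩ : ∃ v, 0 ≤ v ∧ v < u ∧ (u - v) * L ≤ δ := by
          refine ⟨max 0 (u - δ / (L + 1)), le_max_left _ _, max_lt hu (by
            have : 0 < δ / (L + 1) := by positivity
            linarith), ?_⟩
          have h1 : u - max 0 (u - δ / (L + 1)) ≤ δ / (L + 1) := by
            have := le_max_right 0 (u - δ / (L + 1))
            linarith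
          calc (u - max 0 (u - δ / (L + 1))) * L ≤ δ / (L + 1) * L := mul_le_mul_of_nonneg_right h1 hL
            _ ≤ δ / (L + 1) * (L + 1) := by
              refine mul_le_mul_of_nonneg_left (by linarith) (by positivity)
            _ = δ := by field_simp
        have h2 := (abs_le.1 (h v hv0 (by linarith))).1
        have h3 : ∑ i ∈ s.filter (fun i => c i ≤ v), x i ≤ ∑ i ∈ s.filter (fun i => c i < u), x i := by
          refine sum_le_sum_of_subset_of_nonneg ?_ (fun i hi _ => hx i (mem_filter.1 hi).1)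
          intro i hi
          rw [mem_filter] at hi ⊢
          exact ⟨hi.1, hi.2.trans_lt hvu⟩
        nlinarith
    have hupp : ∀ u, 0 ≤ u → u ≤ t → ∑ i ∈ s.filter (fun i => c i < u), x i ≤ u * L + ε * L := by
      intro u hu0 hut
      have h2 := (abs_le.1 (h u hu0 hut)).2
      have h3 : ∑ i ∈ s.filter (fun i => c i < u), x i ≤ ∑ i ∈ s.filter (fun i => c i ≤ u), x i := by
        refine sum_le_sum_of_subset_of_nonneg ?_ (fun i hi _ => hx i (mem_filter.1 hi).1)
        intro i hi
        rw [mem_filter] at hi ⊢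
        exact ⟨hi.1, hi.2.le⟩
      linarith
    have hNt := abs_le.1 (h t ht0 le_rfl)
    set Nt := ∑ i ∈ s.filter (fun i => c i ≤ t), x i with hNtd
    -- the integral representation
    have hrep : ∑ i ∈ s.filter (fun i => c i ≤ t), c i ^ (n + 1) * x i =
        ∫ u in (0:ℝ)..t, ∑ i ∈ s.filter (fun i => c i ≤ t),
          Set.indicator {u | u ≤ c i} (fun u => ((n : ℝ) + 1) * u ^ n) u * x i := by
      rw [intervalIntegral.integral_finsetSum]
      · refine sum_congr rfl fun i hi => ?_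
        rw [mem_filter] at hi
        rw [intervalIntegral.integral_mul_const, mom_ind n (c i) t (hc i hi.1) hi.2]
      · intro i _
        exact (mom_int n (c i) t).mul_const _
    have hpt : ∀ u ∈ Set.Icc 0 t, ∑ i ∈ s.filter (fun i => c i ≤ t),
          Set.indicator {u | u ≤ c i} (fun u => ((n : ℝ) + 1) * u ^ n) u * x i =
          ((n : ℝ) + 1) * u ^ n * (Nt - ∑ i ∈ s.filter (fun i => c i < u), x i) := by
      intro u hu
      have h1 : s.filter (fun i => c i < u) = (s.filter (fun i => c i ≤ t)).filter (fun i => c i < u) := by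
        rw [filter_filter]
        refine filter_congr fun i _ => ⟨fun h => ⟨h.le.trans hu.2, h⟩, fun h => h.2⟩
      rw [h1, hNtd, sum_filter (fun i => c i < u), ← sum_sub_distrib, mul_sum]
      refine sum_congr rfl fun i _ => ?_
      by_cases hi : c i < u
      · rw [if_pos hi, Set.indicator_of_notMem (by simpa using hi)]
        ring
      · rw [if_neg hi, Set.indicator_of_mem (by simpa using hi)]
        ring
    have hcont : ∀ a b : ℝ, Continuous fun u : ℝ => ((n : ℝ) + 1) * u ^ n * (a + b * u) := by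
      intro a b
      fun_prop
    have hintg : ∀ a b : ℝ, ∫ u in (0:ℝ)..t, ((n : ℝ) + 1) * u ^ n * (a + b * u) =
        a * t ^ (n + 1) + b * ((n : ℝ) + 1) / (n + 2) * t ^ (n + 2) := by
      intro a b
      have h1 : (fun u : ℝ => ((n : ℝ) + 1) * u ^ n * (a + b * u)) =
          fun u : ℝ => (a * ((n : ℝ) + 1)) * u ^ n + (b * ((n : ℝ) + 1)) * u ^ (n + 1) := by
        funext u
        ring
      rw [h1, intervalIntegral.integral_add (by
        exact (by fun_prop : Continuous fun u : ℝ => (a * ((n : ℝ) + 1)) * u ^ n).intervalIntegrable _ _) (by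
        exact (by fun_prop : Continuous fun u : ℝ => (b * ((n : ℝ) + 1)) * u ^ (n + 1)).intervalIntegrable _ _),
        intervalIntegral.integral_const_mul, intervalIntegral.integral_const_mul, integral_pow, integral_pow]
      have h2 : (n : ℝ) + 1 ≠ 0 := by positivity
      have h3 : (n : ℝ) + 2 ≠ 0 := by positivity
      have h4 : (n : ℝ) + 1 + 1 ≠ 0 := by positivity
      push_cast
      simp only [ne_eq, Nat.add_eq_zero_iff, one_ne_zero, and_false, not_false_eq_true, zero_pow, sub_zero]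
      field_simp
      ring
    have hI : IntervalIntegrable (fun u => ∑ i ∈ s.filter (fun i => c i ≤ t),
          Set.indicator {u | u ≤ c i} (fun u => ((n : ℝ) + 1) * u ^ n) u * x i) volume 0 t := by
      have h1 := IntervalIntegrable.sum (μ := volume) (a := 0) (b := t) (s.filter (fun i => c i ≤ t))
        (f := fun i u => Set.indicator {u | u ≤ c i} (fun u => ((n : ℝ) + 1) * u ^ n) u * x i)
        (fun i _ => (mom_int n (c i) t).mul_const _)
      refine h1.congr ?_
      intro u _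
      simp only [Finset.sum_apply]
    have hup : ∑ i ∈ s.filter (fun i => c i ≤ t), c i ^ (n + 1) * x i ≤
        (t * L + 2 * (ε * L)) * t ^ (n + 1) + (-L) * ((n : ℝ) + 1) / (n + 2) * t ^ (n + 2) := by
      rw [hrep, ← hintg]
      refine intervalIntegral.integral_mono_on ht0 hI ((hcont _ _).intervalIntegrable _ _) fun u hu => ?_
      rw [hpt u hu]
      refine mul_le_mul_of_nonneg_left ?_ (by
        have := hu.1
        positivity)
      have := hlow u hu.1 hu.2
      linarith [hNt.2]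
    have hlo : (t * L - 2 * (ε * L)) * t ^ (n + 1) + (-L) * ((n : ℝ) + 1) / (n + 2) * t ^ (n + 2) ≤
        ∑ i ∈ s.filter (fun i => c i ≤ t), c i ^ (n + 1) * x i := by
      rw [hrep, ← hintg]
      refine intervalIntegral.integral_mono_on ht0 ((hcont _ _).intervalIntegrable _ _) hI fun u hu => ?_
      rw [hpt u hu]
      refine mul_le_mul_of_nonneg_left ?_ (by
        have := hu.1
        positivity)
      have := hupp u hu.1 hu.2
      linarith [hNt.1]
    have htn : t ^ (n + 1) ≤ 1 := pow_le_one₀ ht0 ht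
    have htn0 : 0 ≤ t ^ (n + 1) := pow_nonneg ht0 _
    have hkey : t * L * t ^ (n + 1) + (-L) * ((n : ℝ) + 1) / (n + 2) * t ^ (n + 2) =
        t ^ (n + 1 + 1) / ((n + 1 : ℕ) + 1) * L := by
      have h3 : (n : ℝ) + 2 ≠ 0 := by positivity
      have h4 : (n : ℝ) + 1 + 1 ≠ 0 := by positivity
      push_cast
      field_simp
      ring
    rw [abs_le]
    have h5 : 2 * (ε * L) * t ^ (n + 1) ≤ 2 * ε * L := by nlinarith
    constructor
    · rw [← hkey]
      nlinarith
    · rw [← hkey]
      nlinarith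

/-- `∑_S t(S) ^ j / nmS S = t ^ j N(t) - ∫_0^t j u ^ (j - 1) N(u) du` over the rough `S` with `t(S) = log (nmS S) / log R ≤ t`
(for each `S`: `t(S) ^ j = t ^ j - ∫_{t(S)}^t j u ^ (j - 1) du`), and `N(u) = u La + O(ε La)` by `mo_zero`: the result is
`t ^ (j + 1) La - (j / (j + 1)) t ^ (j + 1) La + O(2 ε La)`. Instead of the integral one may cut `[0, t]` into `m` equal
pieces and use Abel summation. -/
theorem mo_j (j : ℕ) (ε : ℝ) (hε : 0 < ε) : ∃ c0 : ℝ, 0 < c0 ∧ ∀ c : ℝ, 0 < c → c ≤ c0 → ∀ w : ℕ,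
    ∀ᶠ Y : ℝ in atTop, ∀ t : ℝ, 0 ≤ t → t ≤ 1 / 2 →
      |mo w (Y ^ th) j (Y ^ c) (Y ^ th) t - t ^ (j + 1) / (j + 1) * La (Y ^ c) (Y ^ th)| ≤
        ε * La (Y ^ c) (Y ^ th) := by
  classical
  obtain ⟨c0, hc0, H⟩ := mo_zero (ε / 2) (by positivity)
  refine ⟨c0, hc0, fun c hc hcc w => ?_⟩
  filter_upwards [H c hc hcc w, eventually_gt_atTop (1 : ℝ)] with Y hY hY1 t ht0 ht
  have hth : 0 < th := by unfold th; norm_num
  have hR : 1 < Y ^ th := Real.one_lt_rpow hY1 hth
  have hlR : 0 < Real.log (Y ^ th) := Real.log_pos hR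
  have hP : 0 ≤ P0 (Y ^ c) := by
    unfold P0 VP
    refine prod_nonneg fun p hp => ?_
    have h2 : (2 : ℝ) ≤ p := by exact_mod_cast (mem_PI.1 hp).1.two_le
    rw [sub_nonneg, div_le_one (by linarith)]
    linarith
  have hL : 0 ≤ La (Y ^ c) (Y ^ th) := mul_nonneg hlR.le hP
  have hS : ∀ S : Finset (Pl w (Y ^ th)), 1 ≤ (nmS S : ℝ) := by
    intro S
    have : 0 < nmS S := by
      unfold nmS
      refine prod_pos fun p _ => ?_
      exact (mem_PI.1 (p.2)).1.pos
    exact_mod_cast this
  have hco : ∀ (S : Finset (Pl w (Y ^ th))) (u : ℝ), (nmS S : ℝ) ≤ (Y ^ th) ^ u ↔ co (Y ^ th) S ≤ u := by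
    intro S u
    have h1 : 0 < (nmS S : ℝ) := by linarith [hS S]
    rw [← Real.log_le_log_iff h1 (Real.rpow_pos_of_pos (by linarith) u), Real.log_rpow (by linarith)]
    unfold co
    rw [div_le_iff₀ hlR]
  have key : ∀ (i : ℕ) (u : ℝ), mo w (Y ^ th) i (Y ^ c) (Y ^ th) u =
      ∑ S ∈ (univ.filter fun S : Finset (Pl w (Y ^ th)) => ∀ p ∈ S, Y ^ c ≤ (p.1 : ℝ)).filter
        (fun S => co (Y ^ th) S ≤ u), co (Y ^ th) S ^ i * ∏ p ∈ S, xr w (Y ^ th) p := by
    intro i u
    unfold mo
    rw [filter_filter, sum_filter]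
    refine sum_congr rfl fun S _ => ?_
    simp only [hco]
  have h0 := mom_abs (univ.filter fun S : Finset (Pl w (Y ^ th)) => ∀ p ∈ S, Y ^ c ≤ (p.1 : ℝ))
    (fun S => co (Y ^ th) S) (fun S => ∏ p ∈ S, xr w (Y ^ th) p)
    (fun S _ => div_nonneg (Real.log_nonneg (hS S)) hlR.le)
    (fun S _ => prod_nonneg fun p _ => by unfold xr; positivity)
    (La (Y ^ c) (Y ^ th)) (ε / 2) t hL ht0 (by linarith) (fun u hu0 hut => by
      have h1 := hY u hu0 (by linarith)
      rw [key] at h1
      simpa only [pow_zero, one_mul] using h1) j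
  rw [key]
  refine h0.trans (le_of_eq (by ring))

end Pool.Agent.W33m
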