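import Pool.Agent.W_d33b62m_h36.Mo
import Pool.Agent.W_d33b62m_h36.Md

/-!
# The certificate: the sums as combinations of moments (MP_d33b62, T2, file Mi1)
-/

set_option autoImplicit false

noncomputable section

open Finset Filter

namespace Pool.Agent.W33m

open Pool.Agent.Wd33b62 (Pl PS xr nmS nm supp Sub dn fib era off FF lam zz AA BB SX QH GH TT0 HasExp conv Ex QOK
  qwt xwt EB Bd mem_PS)
open Pool.Agent.Wb58c63 (PI mem_PI VP aw ap XM Pr)
open Pool.Agent.M58 (lp' lm')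

/-- `G = ∑_l cl l 1[nmS ≤ R ^ tl l]` on rough sets, so `BM = ∑_l cl l mo 0 (tl l)`. -/
theorem BM_eq (w : ℕ) (c Y : ℝ) :
    BM w c Y = ∑ l ∈ range 9, cl l * mo w (Y ^ th) 0 (Y ^ c) (Y ^ th) (tl l) := by
  classical
  unfold BM BB mo
  simp only [Finset.mul_sum]
  rw [Finset.sum_comm]
  apply Finset.sum_congr rfl
  intro S _
  unfold GM
  by_cases hS : ∀ p ∈ S, Y ^ c ≤ (p.1 : ℝ)
  · rw [if_pos hS, Finset.sum_mul]
    apply Finset.sum_congr rfl
    intro l _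
    by_cases h2 : (nmS S : ℝ) ≤ (Y ^ th) ^ tl l
    · rw [if_pos h2, if_pos ⟨hS, h2⟩]
      ring
    · rw [if_neg h2, if_neg (fun h => h2 h.2)]
      ring
  · rw [if_neg hS, zero_mul]
    symm
    apply Finset.sum_eq_zero
    intro l _
    rw [if_neg (fun h => hS h.1), mul_zero]

theorem tl_mono {l l' : ℕ} (h : l ≤ l') : tl l ≤ tl l' := by
  unfold tl
  have : (2 : ℝ) ^ l ≤ 2 ^ l' := pow_le_pow_right₀ (by norm_num) h
  linarith

/-- `G ^ 2 = ∑_{l, l'} cl l cl l' 1[nmS ≤ R ^ tl (min l l')]` on rough sets (`R ≥ 1`, `tl` is increasing). -/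
theorem MM_eq (j w : ℕ) (c Y : ℝ) (hY : 1 ≤ Y) : MM j w c Y =
    ∑ l ∈ range 9, ∑ l' ∈ range 9, cl l * cl l' * mo w (Y ^ th) j (Y ^ c) (Y ^ th) (tl (min l l')) := by
  classical
  have hR : (1 : ℝ) ≤ Y ^ th := Real.one_le_rpow hY (by unfold th; norm_num)
  unfold MM mo
  simp only [Finset.mul_sum]
  have hcomm : ∑ l ∈ range 9, ∑ l' ∈ range 9, ∑ S : Finset (Pl w (Y ^ th)), (cl l * cl l' *
      if (∀ p ∈ S, Y ^ c ≤ (p.1 : ℝ)) ∧ (nmS S : ℝ) ≤ (Y ^ th) ^ tl (min l l') then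
        co (Y ^ th) S ^ j * ∏ p ∈ S, xr w (Y ^ th) p else 0) =
      ∑ S : Finset (Pl w (Y ^ th)), ∑ l ∈ range 9, ∑ l' ∈ range 9, (cl l * cl l' *
      if (∀ p ∈ S, Y ^ c ≤ (p.1 : ℝ)) ∧ (nmS S : ℝ) ≤ (Y ^ th) ^ tl (min l l') then
        co (Y ^ th) S ^ j * ∏ p ∈ S, xr w (Y ^ th) p else 0) := by
    rw [Finset.sum_comm (s := (Finset.univ : Finset (Finset (Pl w (Y ^ th)))))]
    exact Finset.sum_congr rfl (fun l _ => Finset.sum_comm)
  rw [hcomm]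
  apply Finset.sum_congr rfl
  intro S _
  unfold GM
  by_cases hS : ∀ p ∈ S, Y ^ c ≤ (p.1 : ℝ)
  · rw [if_pos hS, sq, Finset.sum_mul_sum, Finset.mul_sum, Finset.sum_mul]
    apply Finset.sum_congr rfl
    intro l _
    rw [Finset.mul_sum, Finset.sum_mul]
    apply Finset.sum_congr rfl
    intro l' _
    have hmin : (nmS S : ℝ) ≤ (Y ^ th) ^ tl (min l l') ↔
        (nmS S : ℝ) ≤ (Y ^ th) ^ tl l ∧ (nmS S : ℝ) ≤ (Y ^ th) ^ tl l' := by
      constructor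
      · intro h
        exact ⟨h.trans (Real.rpow_le_rpow_of_exponent_le hR (tl_mono (min_le_left _ _))),
          h.trans (Real.rpow_le_rpow_of_exponent_le hR (tl_mono (min_le_right _ _)))⟩
      · rintro ⟨h1, h2⟩
        rcases min_choice l l' with h | h <;> rw [h] <;> assumption
    by_cases h1 : (nmS S : ℝ) ≤ (Y ^ th) ^ tl l
    · by_cases h2 : (nmS S : ℝ) ≤ (Y ^ th) ^ tl l'
      · rw [if_pos h1, if_pos h2, if_pos ⟨hS, hmin.2 ⟨h1, h2⟩⟩]
        ring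
      · have hn : ¬ ((∀ p ∈ S, Y ^ c ≤ (p.1 : ℝ)) ∧ (nmS S : ℝ) ≤ (Y ^ th) ^ tl (min l l')) :=
          fun h => h2 (hmin.1 h.2).2
        rw [if_neg h2, if_neg hn]
        ring
    · have hn : ¬ ((∀ p ∈ S, Y ^ c ≤ (p.1 : ℝ)) ∧ (nmS S : ℝ) ≤ (Y ^ th) ^ tl (min l l')) :=
        fun h => h1 (hmin.1 h.2).1
      rw [if_neg h1, if_neg hn]
      ring
  · rw [if_neg hS]
    simp only [ne_eq, OfNat.ofNat_ne_zero, not_false_eq_true, zero_pow, mul_zero, zero_mul]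
    symm
    apply Finset.sum_eq_zero
    intro l _
    apply Finset.sum_eq_zero
    intro l' _
    rw [if_neg (fun h => hS h.1), mul_zero]

theorem AM_eq (w : ℕ) (c Y : ℝ) : AM w c Y = MM 0 w c Y := by
  unfold AM MM AA
  apply Finset.sum_congr rfl
  intro S _
  rw [pow_zero, one_mul]

end Pool.Agent.W33m
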