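import Pool.Agent.W_d33b62m_h36.Mi1
import Pool.Agent.W_d33b62m_h36.Mh

/-!
# The certificate: asymptotics (MP_d33b62, T2, file Mi2)
-/

set_option autoImplicit false

noncomputable section

open Finset Filter

namespace Pool.Agent.W33m

open Pool.Agent.Wd33b62 (Pl PS xr nmS nm supp Sub dn fib era off FF lam zz AA BB SX QH GH TT0 HasExp conv Ex QOK
  qwt xwt EB Bd mem_PS)
open Pool.Agent.Wb58c63 (PI mem_PI VP aw ap XM Pr)
open Pool.Agent.M58 (lp' lm')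

/-- Weighted means. -/
theorem Mi2_mean {ι : Type} (s : Finset ι) (w x y : ι → ℝ) (E : ℝ) (hw : ∀ i ∈ s, 0 ≤ w i) (h1 : ∑ i ∈ s, w i = 1)
    (h : ∀ i ∈ s, |x i - y i| ≤ E) : |∑ i ∈ s, w i * x i - ∑ i ∈ s, w i * y i| ≤ E := by
  rw [← sum_sub_distrib]
  refine le_trans (abs_sum_le_sum_abs _ _) ?_
  calc ∑ i ∈ s, |w i * x i - w i * y i| ≤ ∑ i ∈ s, w i * E := by
        refine sum_le_sum fun i hi => ?_
        rw [← mul_sub, abs_mul, abs_of_nonneg (hw i hi)]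
        exact mul_le_mul_of_nonneg_left (h i hi) (hw i hi)
    _ = E := by rw [← sum_mul, h1, one_mul]

theorem Mi2_cl0 (l : ℕ) : 0 ≤ cl l := by
  unfold cl
  split_ifs <;> positivity

theorem Mi2_cl1 : ∑ l ∈ range 9, cl l = 1 := by
  norm_num [cl, sum_range_succ]

theorem Mi2_tl {l : ℕ} (hl : l < 9) : 0 ≤ tl l ∧ tl l ≤ 1 / 2 := by
  unfold tl
  interval_cases l <;> norm_num

theorem Mi2_B : ∑ l ∈ range 9, cl l * (tl l ^ (0 + 1) / ((0 : ℕ) + 1 : ℝ)) = 1 / 1240 := by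
  norm_num [cl, tl, sum_range_succ]

theorem Mi2_min (j : ℕ) : ∑ l ∈ range 9, ∑ l' ∈ range 9, cl l * cl l' * (tl (min l l') ^ (j + 1) / ((j : ℝ) + 1)) =
    ∑ l ∈ range 9, (cl l ^ 2 + 2 * cl l * (1 - ∑ i ∈ range (l + 1), cl i)) * (tl l ^ (j + 1) / ((j : ℝ) + 1)) := by
  simp only [sum_range_succ, sum_range_zero, cl]
  norm_num
  ring

theorem Mi2_0 : ∑ l ∈ range 9, (cl l ^ 2 + 2 * cl l * (1 - ∑ i ∈ range (l + 1), cl i)) *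
    (tl l ^ (0 + 1) / (((0 : ℕ) : ℝ) + 1)) = 767 / 3174400 := by
  norm_num [cl, tl, sum_range_succ]

theorem Mi2_1 : ∑ l ∈ range 9, (cl l ^ 2 + 2 * cl l * (1 - ∑ i ∈ range (l + 1), cl i)) *
    (tl l ^ (1 + 1) / (((1 : ℕ) : ℝ) + 1)) = 7 / 76880000 := by
  norm_num [cl, tl, sum_range_succ]

theorem Mi2_2 : ∑ l ∈ range 9, (cl l ^ 2 + 2 * cl l * (1 - ∑ i ∈ range (l + 1), cl i)) *
    (tl l ^ (2 + 1) / (((2 : ℕ) : ℝ) + 1)) = 1789 / 2859936000000 := by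
  norm_num [cl, tl, sum_range_succ]

/-- The second moments. -/
theorem Mi2_M (j w : ℕ) (c Y ε L N : ℝ) (hY : 1 ≤ Y) (hN : ∑ l ∈ range 9, (cl l ^ 2 + 2 * cl l *
      (1 - ∑ i ∈ range (l + 1), cl i)) * (tl l ^ (j + 1) / ((j : ℝ) + 1)) = N)
    (h : ∀ t : ℝ, 0 ≤ t → t ≤ 1 / 2 →
      |mo w (Y ^ th) j (Y ^ c) (Y ^ th) t - t ^ (j + 1) / (j + 1) * L| ≤ ε * L) :
    |MM j w c Y - N * L| ≤ ε * L := by
  have hN' : N * L = ∑ x ∈ range 9 ×ˢ range 9, cl x.1 * cl x.2 * (tl (min x.1 x.2) ^ (j + 1) / ((j : ℝ) + 1) * L) := by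
    rw [← hN, ← Mi2_min, sum_mul, sum_product]
    refine sum_congr rfl fun l _ => ?_
    rw [sum_mul]
    exact sum_congr rfl fun l' _ => by ring
  have hM : MM j w c Y = ∑ x ∈ range 9 ×ˢ range 9, cl x.1 * cl x.2 *
      mo w (Y ^ th) j (Y ^ c) (Y ^ th) (tl (min x.1 x.2)) := by
    rw [MM_eq j w c Y hY, sum_product]
  rw [hN', hM]
  refine Mi2_mean _ (fun x : ℕ × ℕ => cl x.1 * cl x.2) _ _ _ (fun x _ => mul_nonneg (Mi2_cl0 _) (Mi2_cl0 _)) ?_ ?_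
  · rw [sum_product, ← sum_mul_sum, Mi2_cl1, one_mul]
  · intro x hx
    rw [mem_product, mem_range, mem_range] at hx
    have h1 := Mi2_tl (lt_of_le_of_lt (min_le_left x.1 x.2) hx.1)
    exact h _ h1.1 h1.2

/-- The numbers: `∑ cl l tl l = 1 / 1240`, `∑ cl l cl l' tl (min l l') ^ (j + 1) / (j + 1)` is `767 / 3174400` for `j = 0`,
`7 / 76880000` for `j = 1` and `1789 / 2859936000000` for `j = 2` (`norm_num [cl, tl, sum_range_succ]` or `decide` over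
`ℚ`); the total weight `∑ cl l cl l'` is `1`. -/
theorem cert (ε : ℝ) (hε : 0 < ε) : ∃ c0 : ℝ, 0 < c0 ∧ ∀ c : ℝ, 0 < c → c ≤ c0 → ∀ w : ℕ, ∀ᶠ Y : ℝ in atTop,
    |BM w c Y - 1 / 1240 * La (Y ^ c) (Y ^ th)| ≤ ε * La (Y ^ c) (Y ^ th) ∧
    |AM w c Y - 767 / 3174400 * La (Y ^ c) (Y ^ th)| ≤ ε * La (Y ^ c) (Y ^ th) ∧
    |MM 1 w c Y - 7 / 76880000 * La (Y ^ c) (Y ^ th)| ≤ ε * La (Y ^ c) (Y ^ th) ∧
    |MM 2 w c Y - 1789 / 2859936000000 * La (Y ^ c) (Y ^ th)| ≤ ε * La (Y ^ c) (Y ^ th) := by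
  obtain ⟨c0, h0, H0⟩ := mo_j 0 ε hε
  obtain ⟨c1, h1, H1⟩ := mo_j 1 ε hε
  obtain ⟨c2, h2, H2⟩ := mo_j 2 ε hε
  refine ⟨min c0 (min c1 c2), lt_min h0 (lt_min h1 h2), fun c hc hcc w => ?_⟩
  have e0 := H0 c hc (le_trans hcc (min_le_left _ _)) w
  have e1 := H1 c hc (le_trans hcc (le_trans (min_le_right _ _) (min_le_left _ _))) w
  have e2 := H2 c hc (le_trans hcc (le_trans (min_le_right _ _) (min_le_right _ _))) w
  filter_upwards [e0, e1, e2, eventually_ge_atTop (1 : ℝ)] with Y E0 E1 E2 hY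
  refine ⟨?_, ?_, ?_, ?_⟩
  · have hN : 1 / 1240 * La (Y ^ c) (Y ^ th) =
        ∑ l ∈ range 9, cl l * (tl l ^ (0 + 1) / ((0 : ℕ) + 1 : ℝ) * La (Y ^ c) (Y ^ th)) := by
      rw [← Mi2_B, sum_mul]
      exact sum_congr rfl fun l _ => by ring
    rw [hN, BM_eq]
    refine Mi2_mean _ cl _ _ _ (fun l _ => Mi2_cl0 l) Mi2_cl1 fun l hl => ?_
    have h3 := Mi2_tl (mem_range.1 hl)
    exact E0 _ h3.1 h3.2
  · rw [AM_eq]
    exact Mi2_M 0 w c Y ε _ _ hY Mi2_0 E0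
  · exact Mi2_M 1 w c Y ε _ _ hY Mi2_1 E1
  · exact Mi2_M 2 w c Y ε _ _ hY Mi2_2 E2

end Pool.Agent.W33m
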