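import Pool.Agent.W_d33b62m_h36.Mi2

/-!
# The certificate: the ratios (MP_d33b62, T2, file Mi3)
-/

set_option autoImplicit false

noncomputable section

open Finset Filter

namespace Pool.Agent.W33m

open Pool.Agent.Wd33b62 (Pl PS xr nmS nm supp Sub dn fib era off FF lam zz AA BB SX QH GH TT0 HasExp conv Ex QOK
  qwt xwt EB Bd mem_PS)
open Pool.Agent.Wb58c63 (PI mem_PI VP aw ap XM Pr)
open Pool.Agent.M58 (lp' lm')

/-- The first ratio: `(1 / 1240) ^ 2 / (767 / 3174400) = 0.0026916…`. -/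
theorem rat1 : ∃ c0 : ℝ, 0 < c0 ∧ ∀ c : ℝ, 0 < c → c ≤ c0 → ∀ w : ℕ, ∀ᶠ Y : ℝ in atTop,
    269 / 100000 * (La (Y ^ c) (Y ^ th) * AM w c Y) ≤ BM w c Y ^ 2 := by
  obtain ⟨c0, h0, H⟩ := cert (1 / 10 ^ 8) (by norm_num)
  refine ⟨c0, h0, fun c hc hcc w => ?_⟩
  filter_upwards [H c hc hcc w] with Y hY
  obtain ⟨hB, hA, _, _⟩ := hY
  generalize La (Y ^ c) (Y ^ th) = L at hB hA ⊢
  generalize AM w c Y = A at hA ⊢
  generalize BM w c Y = B at hB ⊢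
  have hL : 0 ≤ L := by
    have := (abs_nonneg _).trans hB
    linarith
  rw [abs_le] at hB hA
  have h1 : (1 / 1240 - 1 / 10 ^ 8) * L ≤ B := by linarith [hB.1]
  have h2 : A ≤ (767 / 3174400 + 1 / 10 ^ 8) * L := by linarith [hA.2]
  have h3 : ((1 / 1240 - 1 / 10 ^ 8) * L) ^ 2 ≤ B ^ 2 :=
    pow_le_pow_left₀ (mul_nonneg (by norm_num) hL) h1 2
  have h4 : L * A ≤ L * ((767 / 3174400 + 1 / 10 ^ 8) * L) := mul_le_mul_of_nonneg_left h2 hL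
  have h5 : 269 / 100000 * (L * ((767 / 3174400 + 1 / 10 ^ 8) * L)) ≤ ((1 / 1240 - 1 / 10 ^ 8) * L) ^ 2 := by
    have : 0 ≤ L ^ 2 := sq_nonneg L
    nlinarith
  linarith

/-- The Chebyshev loss with the centre `m = 753 / 1000` and `1 - T = 743 / 775`:
`((k - 1) M2 / A + (k - 1) (k - 2) (M1 / A) ^ 2 - 2 m (k - 1) M1 / A + m ^ 2) / (1 - T - m) ^ 2 = 0.1158…` for `k = 2000`
with the main terms of `cert`. (`AM > 0`: `one_le_AM`.) -/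
theorem rat2 : ∃ c0 : ℝ, 0 < c0 ∧ ∀ c : ℝ, 0 < c → c ≤ c0 → ∀ w : ℕ, ∀ᶠ Y : ℝ in atTop,
    (1999 * (MM 2 w c Y / AM w c Y) + 1999 * 1998 * (MM 1 w c Y / AM w c Y) ^ 2 -
      2 * (753 / 1000) * 1999 * (MM 1 w c Y / AM w c Y) + (753 / 1000) ^ 2) / (743 / 775 - 753 / 1000) ^ 2 ≤ 118 / 1000 := by
  obtain ⟨c0, h0, H⟩ := cert (1 / 10 ^ 12) (by norm_num)
  refine ⟨c0, h0, fun c hc hcc w => ?_⟩
  filter_upwards [H c hc hcc w, eventually_ge_atTop (1 : ℝ)] with Y hY hY1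
  obtain ⟨_, hA, hM1, hM2⟩ := hY
  have hA1 := one_le_AM w c Y hY1
  generalize La (Y ^ c) (Y ^ th) = L at hA hM1 hM2
  generalize AM w c Y = A at hA hA1 ⊢
  generalize MM 1 w c Y = M1 at hM1 ⊢
  generalize MM 2 w c Y = M2 at hM2 ⊢
  rw [abs_le] at hA hM1 hM2
  have hA0 : 0 < A := by linarith
  have hL : 0 < L := by
    have : 1 ≤ (767 / 3174400 + 1 / 10 ^ 12) * L := by linarith [hA.2]
    nlinarith
  have hx1 : 37683 / 10 ^ 8 ≤ M1 / A := by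
    rw [le_div_iff₀ hA0]
    nlinarith [hA.2, hM1.1]
  have hx2 : M1 / A ≤ 37684 / 10 ^ 8 := by
    rw [div_le_iff₀ hA0]
    nlinarith [hA.1, hM1.2]
  have hy : M2 / A ≤ 2594 / 10 ^ 9 := by
    rw [div_le_iff₀ hA0]
    nlinarith [hA.1, hM2.2]
  generalize M1 / A = x at hx1 hx2 ⊢
  generalize M2 / A = y at hy ⊢
  rw [div_le_iff₀ (by norm_num)]
  have hq : x ^ 2 ≤ (37683 / 10 ^ 8 + 37684 / 10 ^ 8) * x - 37683 / 10 ^ 8 * (37684 / 10 ^ 8) := by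
    nlinarith [mul_nonneg (sub_nonneg.2 hx1) (sub_nonneg.2 hx2)]
  norm_num at hq hy hx1 hx2 ⊢
  linarith

end Pool.Agent.W33m
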