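import Pool.Agent.W_d33b62m_h36.Mo
import Pool.Agent.W_d33b62_h36.LG5

/-!
# The lower bound with Chebyshev's inequality: one labeling (MP_d33b62, T2, file Mj1)

A variant of `TLow` (`W_d33b62_h36/LG5.lean`) with the second moment instead of Markov's inequality.
-/

set_option autoImplicit false

noncomputable section

open Finset Filter

namespace Pool.Agent.W33m

open Pool.Agent.Wd33b62 (Pl PS xr nmS nm supp Sub dn fib era off FF lam zz AA BB SX QH GH TT0 HasExp conv Ex QOK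
  qwt xwt EB Bd mem_PS)
open Pool.Agent.Wb58c63 (PI mem_PI VP aw ap XM Pr)
open Pool.Agent.M58 (lp' lm')

/-- `zz x y (qx x {i}) τ ≥ ∏_{v ≠ i} G(τ_v) (1 - k ∑_{supp τ} x - k ^ 2 SX) BB` for the labelings `τ` without the label `i`
and of cost `≤ 1 - T` (as `LG5_Y`, there with `1 / 2`; the sets `S` of the label `i` have cost `≤ T`). -/
theorem Mj_Y {ι : Type} [Fintype ι] [DecidableEq ι] {k : ℕ} {x : ι → ℝ} {G : Finset ι → ℝ}
    (hG : GH x (fun _ : Fin k => G)) (i : Fin k) {y : (ι → Option (Fin k)) → ℝ} (hy0 : ∀ κ, 0 ≤ y κ)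
    (ℓ : Finset ι → ℝ) (hyg : ∀ κ, ∑ v, ℓ (fib κ v) ≤ 1 → ∏ v, G (fib κ v) ≤ y κ) (T : ℝ)
    (hU : ∀ S, G S ≠ 0 → ℓ S ≤ T) (τ : ι → Option (Fin k)) (hτ : ∀ p v, τ p = some v → v ≠ i)
    (hc : ∑ v ∈ ({i} : Finset (Fin k))ᶜ, ℓ (fib τ v) ≤ 1 - T) :
    (∏ v ∈ ({i} : Finset (Fin k))ᶜ, G (fib τ v)) * ((1 - k * ∑ p ∈ supp τ, x p - (k : ℝ) ^ 2 * SX x) * BB x G) ≤
      zz x y (Pool.Agent.Wd33b62.qx x {i}) τ := by
  classical
  have hx0 : ∀ i, 0 ≤ x i := fun i => (hG.x_pos i).le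
  obtain ⟨U, hUd⟩ : ∃ U : Finset (Fin k), U = {i} := ⟨_, rfl⟩
  have hτ' : ∀ p v, τ p = some v → v ∉ U := by
    intro p v h
    rw [hUd, Finset.mem_singleton]
    exact hτ p v h
  rw [← hUd] at hc ⊢
  have hBB : ∏ u ∈ U, BB x ((fun _ : Fin k => G) u) = BB x G := by
    rw [hUd, Finset.prod_singleton]
  have hP0 : 0 ≤ ∏ v ∈ Uᶜ, G (fib τ v) := Finset.prod_nonneg fun v _ => hG.g_nonneg v _
  have h1 := mul_le_mul_of_nonneg_left
    (Pool.Agent.Wd33b62.disj_lower x hx0 (fun _ : Fin k => G) hG.g_nonneg hG.g_anti (supp τ) U) hP0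
  rw [hBB, Fintype.card_fin] at h1
  refine h1.trans ?_
  rw [Finset.mul_sum]
  unfold zz
  obtain ⟨F, hF⟩ : ∃ F, F = univ.filter (fun κ : ι → Option (Fin k) => (∀ i ∈ supp τ, κ i = none) ∧
    ∀ i v, κ i = some v → v ∈ U) := ⟨_, rfl⟩
  refine le_trans (le_of_eq (Finset.sum_congr (s₂ := F) ?_ (fun κ _ => rfl))) ?_
  · ext κ
    rw [hF]
    simp only [Finset.mem_filter]
  have hFm : ∀ κ ∈ F, (∀ i ∈ supp τ, κ i = none) ∧ ∀ i v, κ i = some v → v ∈ U := by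
    intro κ hκ
    rw [hF] at hκ
    exact (Finset.mem_filter.1 hκ).2
  have hinj : ∀ a ∈ F, ∀ b ∈ F, Pool.Agent.Wd33b62.LG5_mrg τ a = Pool.Agent.Wd33b62.LG5_mrg τ b →
      a = b := by
    intro a ha b hb hab
    rw [← Pool.Agent.Wd33b62.LG5_off τ a (hFm a ha).1, ← Pool.Agent.Wd33b62.LG5_off τ b (hFm b hb).1,
      hab]
  have h2 : ∑ κ ∈ F.image (Pool.Agent.Wd33b62.LG5_mrg τ), y κ *
        ∏ i ∈ supp κ \ supp τ, (x i - Pool.Agent.Wd33b62.qv (Pool.Agent.Wd33b62.qx x U) i (κ i)) ≤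
      ∑ κ ∈ Pool.Agent.Wd33b62.up τ, y κ *
        ∏ i ∈ supp κ \ supp τ, (x i - Pool.Agent.Wd33b62.qv (Pool.Agent.Wd33b62.qx x U) i (κ i)) := by
    refine Finset.sum_le_sum_of_subset_of_nonneg ?_ fun κ _ _ => ?_
    · intro κ hκ
      obtain ⟨κ', _, rfl⟩ := Finset.mem_image.1 hκ
      exact Pool.Agent.Wd33b62.LG3_mem_up.2 (Pool.Agent.Wd33b62.LG5_sub τ κ')
    · refine mul_nonneg (hy0 κ) (Finset.prod_nonneg fun i hi => ?_)
      rw [Finset.mem_sdiff] at hi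
      cases h5 : κ i with
      | none => exact absurd h5 (Pool.Agent.Wd33b62.LG3_mem_supp.1 hi.1)
      | some v =>
        change 0 ≤ x i - Pool.Agent.Wd33b62.qx x U i v
        unfold Pool.Agent.Wd33b62.qx
        split_ifs
        · rw [sub_zero]
          exact hx0 i
        · rw [sub_self]
  refine le_trans ?_ h2
  rw [Finset.sum_image hinj]
  refine Finset.sum_le_sum fun κ hκ => ?_
  obtain ⟨hκ1, hκ2⟩ := hFm κ hκ
  rw [Pool.Agent.Wd33b62.LG5_term x U τ κ hκ1 hκ2, ← mul_assoc]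
  refine mul_le_mul_of_nonneg_right ?_ (Finset.prod_nonneg fun i _ => hx0 i)
  have e1 : ∑ v ∈ U, ℓ (fib (Pool.Agent.Wd33b62.LG5_mrg τ κ) v) = ∑ v ∈ U, ℓ (fib κ v) :=
    Finset.sum_congr rfl fun v hv => by rw [Pool.Agent.Wd33b62.LG5_fib_in U τ κ hτ' hκ1 v hv]
  have e2 : ∑ v ∈ Uᶜ, ℓ (fib (Pool.Agent.Wd33b62.LG5_mrg τ κ) v) = ∑ v ∈ Uᶜ, ℓ (fib τ v) :=
    Finset.sum_congr rfl fun v hv => by
      rw [Pool.Agent.Wd33b62.LG5_fib_out U τ κ hκ2 v (Finset.mem_compl.1 hv)]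
  have e3 : ∏ v ∈ U, G (fib (Pool.Agent.Wd33b62.LG5_mrg τ κ) v) = ∏ v ∈ U, G (fib κ v) :=
    Finset.prod_congr rfl fun v hv => by rw [Pool.Agent.Wd33b62.LG5_fib_in U τ κ hτ' hκ1 v hv]
  have e4 : ∏ v ∈ Uᶜ, G (fib (Pool.Agent.Wd33b62.LG5_mrg τ κ) v) = ∏ v ∈ Uᶜ, G (fib τ v) :=
    Finset.prod_congr rfl fun v hv => by
      rw [Pool.Agent.Wd33b62.LG5_fib_out U τ κ hκ2 v (Finset.mem_compl.1 hv)]
  by_cases h6 : G (fib κ i) ≠ 0
  · have h7 := hU (fib κ i) h6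
    have h8 : ∑ v, ℓ (fib (Pool.Agent.Wd33b62.LG5_mrg τ κ) v) ≤ 1 := by
      rw [← Finset.sum_add_sum_compl U, e1, e2, hUd, Finset.sum_singleton]
      rw [hUd] at hc
      linarith
    have h9 := hyg _ h8
    rw [← Finset.prod_mul_prod_compl U, e3, e4, mul_comm] at h9
    exact h9
  · push Not at h6
    have h7 : ∏ u ∈ U, G (fib κ u) = 0 := Finset.prod_eq_zero (i := i) (by rw [hUd]; simp) h6
    rw [h7, mul_zero]
    exact hy0 _

end Pool.Agent.W33m
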