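import Pool.Agent.W_d33b62m_h36.Mo
import Pool.Agent.W_d33b62_h36.LG5

/-!
# The second moment of the cost (MP_d33b62, T2, file Mj2)

See `LG5_cost` (`W_d33b62_h36/LG5.lean`) for the first moment.
-/

set_option autoImplicit false

noncomputable section

open Finset Filter

namespace Pool.Agent.W33m

open Pool.Agent.Wd33b62 (Pl PS xr nmS nm supp Sub dn fib era off FF lam zz AA BB SX QH GH TT0 HasExp conv Ex QOK
  qwt xwt EB Bd mem_PS qx LG4_qwt_good LC1_qwt LC1_inj LG3_mem_fib)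
open Pool.Agent.Wb58c63 (PI mem_PI VP aw ap XM Pr)
open Pool.Agent.M58 (lp' lm')

open Classical in
/-- The families with `S i = ∅`. -/
def Mj2_t {ι : Type} [Fintype ι] {k : ℕ} (i : Fin k) : Finset (Fin k → Finset ι) :=
  Fintype.piFinset fun v => if v ∈ ({i} : Finset (Fin k))ᶜ then (univ : Finset (Finset ι)) else {∅}

theorem Mj2_pi {ι : Type} [Fintype ι] {k : ℕ} (i : Fin k) (g : Fin k → Finset ι → ℝ) :
    ∑ S ∈ Mj2_t (ι := ι) i, ∏ v ∈ ({i} : Finset (Fin k))ᶜ, g v (S v) =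
      ∏ v ∈ ({i} : Finset (Fin k))ᶜ, ∑ S : Finset ι, g v S := by
  classical
  have e1 : ∀ S : Fin k → Finset ι, ∏ v ∈ ({i} : Finset (Fin k))ᶜ, g v (S v) =
      ∏ v, (if v ∈ ({i} : Finset (Fin k))ᶜ then g v (S v) else 1) := by
    intro S
    rw [Finset.prod_ite_mem, Finset.univ_inter]
  have e2 : ∏ v ∈ ({i} : Finset (Fin k))ᶜ, ∑ S : Finset ι, g v S =
      ∏ v, (if v ∈ ({i} : Finset (Fin k))ᶜ then ∑ S : Finset ι, g v S else 1) := by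
    rw [Finset.prod_ite_mem, Finset.univ_inter]
  rw [e2, Finset.sum_congr rfl fun S _ => e1 S, Mj2_t,
    ← Finset.prod_univ_sum (fun v => if v ∈ ({i} : Finset (Fin k))ᶜ then (univ : Finset (Finset ι)) else {∅})
      (fun v S => if v ∈ ({i} : Finset (Fin k))ᶜ then g v S else 1)]
  refine Finset.prod_congr rfl fun v _ => ?_
  by_cases h : v ∈ ({i} : Finset (Fin k))ᶜ
  · rw [if_pos h, if_pos h]
    exact Finset.sum_congr rfl fun S _ => by rw [if_pos h]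
  · rw [if_neg h, if_neg h, Finset.sum_singleton, if_neg h]

theorem Mj2_xwt {ι : Type} [Fintype ι] [DecidableEq ι] {k : ℕ} (x : ι → ℝ) (i : Fin k) (τ : ι → Option (Fin k))
    (hτ : ∀ p v, τ p = some v → v ∉ ({i} : Finset (Fin k))) :
    xwt x τ = ∏ v ∈ ({i} : Finset (Fin k))ᶜ, ∏ p ∈ fib τ v, x p := by
  classical
  rw [← LG4_qwt_good x {i} τ hτ, LC1_qwt, ← Finset.prod_mul_prod_compl ({i} : Finset (Fin k))]
  have e1 : ∏ v ∈ ({i} : Finset (Fin k)), ∏ p ∈ fib τ v, qx x {i} p v = 1 := by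
    rw [Finset.prod_singleton]
    apply Finset.prod_eq_one
    intro p hp
    exact absurd (Finset.mem_singleton_self i) (hτ p i (LG3_mem_fib.1 hp))
  rw [e1, one_mul]
  refine Finset.prod_congr rfl fun v hv => Finset.prod_congr rfl fun p _ => ?_
  unfold qx
  rw [if_neg (Finset.mem_compl.1 hv)]

/-- The decoupled term. -/
def Mj2_Φ {ι : Type} {k : ℕ} (x : ι → ℝ) (G : Finset ι → ℝ) (i : Fin k) (ℓ : Finset ι → ℝ) (m : ℝ)
    (S : Fin k → Finset ι) : ℝ :=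
  (∑ v ∈ ({i} : Finset (Fin k))ᶜ, ℓ (S v) - m) ^ 2 *
    ∏ v ∈ ({i} : Finset (Fin k))ᶜ, (G (S v) ^ 2 * ∏ p ∈ S v, x p)

theorem Mj2_le {ι : Type} [Fintype ι] [DecidableEq ι] {k : ℕ} (x : ι → ℝ) (hx : ∀ p, 0 ≤ x p) (G : Finset ι → ℝ)
    (i : Fin k) (ℓ : Finset ι → ℝ) (m : ℝ) :
    ∑ τ ∈ univ.filter (fun τ : ι → Option (Fin k) => ∀ p v, τ p = some v → v ∉ ({i} : Finset (Fin k))),
      (∑ v ∈ ({i} : Finset (Fin k))ᶜ, ℓ (fib τ v) - m) ^ 2 *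
        ((∏ v ∈ ({i} : Finset (Fin k))ᶜ, G (fib τ v) ^ 2) * xwt x τ) ≤ ∑ S ∈ Mj2_t i, Mj2_Φ x G i ℓ m S := by
  classical
  have e1 : ∀ τ ∈ univ.filter (fun τ : ι → Option (Fin k) => ∀ p v, τ p = some v → v ∉ ({i} : Finset (Fin k))),
      (∑ v ∈ ({i} : Finset (Fin k))ᶜ, ℓ (fib τ v) - m) ^ 2 *
        ((∏ v ∈ ({i} : Finset (Fin k))ᶜ, G (fib τ v) ^ 2) * xwt x τ) = Mj2_Φ x G i ℓ m (fun v => fib τ v) := by
    intro τ hτ
    rw [Mj2_xwt x i τ (Finset.mem_filter.1 hτ).2, ← Finset.prod_mul_distrib]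
    rfl
  rw [Finset.sum_congr rfl e1, ← Finset.sum_image (f := Mj2_Φ x G i ℓ m)
    (g := fun (κ : ι → Option (Fin k)) (v : Fin k) => fib κ v) (fun a _ b _ hab => LC1_inj hab)]
  refine Finset.sum_le_sum_of_subset_of_nonneg ?_ fun S _ _ => ?_
  · intro S hS
    obtain ⟨κ, hκ, rfl⟩ := Finset.mem_image.mp hS
    rw [Mj2_t, Fintype.mem_piFinset]
    intro v
    by_cases h : v ∈ ({i} : Finset (Fin k))ᶜ
    · rw [if_pos h]
      exact Finset.mem_univ _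
    · rw [if_neg h, Finset.mem_singleton]
      rw [Finset.mem_compl, not_not] at h
      apply Finset.eq_empty_of_forall_notMem
      intro p hp
      exact (Finset.mem_filter.1 hκ).2 p v (LG3_mem_fib.1 hp) h
  · unfold Mj2_Φ
    refine mul_nonneg (sq_nonneg _) (Finset.prod_nonneg fun v _ => mul_nonneg (sq_nonneg _)
      (Finset.prod_nonneg fun p _ => hx p))

theorem Mj2_ite {k : ℕ} (J : Finset (Fin k)) (L F : Fin k → ℝ) (u : Fin k) (hu : u ∈ J) :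
    ∏ v ∈ J, ((if v = u then L v else 1) * F v) = L u * ∏ v ∈ J, F v := by
  rw [Finset.prod_mul_distrib, Finset.prod_ite_eq' _ u L, if_pos hu]

theorem Mj2_ite2 {k : ℕ} (J : Finset (Fin k)) (L F : Fin k → ℝ) (u u' : Fin k) (hu : u ∈ J) (hu' : u' ∈ J) :
    ∏ v ∈ J, ((if v = u then L v else 1) * (if v = u' then L v else 1) * F v) = L u * L u' * ∏ v ∈ J, F v := by
  rw [Finset.prod_mul_distrib, Finset.prod_mul_distrib, Finset.prod_ite_eq' _ u L, if_pos hu,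
    Finset.prod_ite_eq' _ u' L, if_pos hu']

/-- The sums of the products. -/
theorem Mj2_two {ι : Type} [Fintype ι] {k : ℕ} (x : ι → ℝ) (G : Finset ι → ℝ) (i : Fin k)
    (ℓ : Finset ι → ℝ) (hA : 0 < AA x G) (u u' : Fin k) (hu : u ∈ ({i} : Finset (Fin k))ᶜ)
    (hu' : u' ∈ ({i} : Finset (Fin k))ᶜ) :
    ∑ S ∈ Mj2_t (ι := ι) i, ℓ (S u) * ℓ (S u') * ∏ v ∈ ({i} : Finset (Fin k))ᶜ, (G (S v) ^ 2 * ∏ p ∈ S v, x p) =
      (if u = u' then (∑ S, ℓ S ^ 2 * G S ^ 2 * ∏ p ∈ S, x p) / AA x G else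
        ((∑ S, ℓ S ^ 1 * G S ^ 2 * ∏ p ∈ S, x p) / AA x G) ^ 2) * AA x G ^ (k - 1) := by
  classical
  have hcard : (({i} : Finset (Fin k))ᶜ).card = k - 1 := by
    rw [Finset.card_compl, Fintype.card_fin, Finset.card_singleton]
  have e1 : ∀ S : Fin k → Finset ι, ℓ (S u) * ℓ (S u') *
      ∏ v ∈ ({i} : Finset (Fin k))ᶜ, (G (S v) ^ 2 * ∏ p ∈ S v, x p) =
      ∏ v ∈ ({i} : Finset (Fin k))ᶜ, ((if v = u then ℓ (S v) else 1) * (if v = u' then ℓ (S v) else 1) *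
        (G (S v) ^ 2 * ∏ p ∈ S v, x p)) := by
    intro S
    exact (Mj2_ite2 _ (fun v => ℓ (S v)) (fun v => G (S v) ^ 2 * ∏ p ∈ S v, x p) u u' hu hu').symm
  rw [Finset.sum_congr rfl fun S _ => e1 S, Mj2_pi i (fun v S => (if v = u then ℓ S else 1) *
    (if v = u' then ℓ S else 1) * (G S ^ 2 * ∏ p ∈ S, x p))]
  have hA' := hA.ne'
  by_cases h : u = u'
  · subst h
    rw [if_pos rfl]
    have e2 : ∀ v ∈ ({i} : Finset (Fin k))ᶜ, ∑ S : Finset ι, (if v = u then ℓ S else 1) *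
        (if v = u then ℓ S else 1) * (G S ^ 2 * ∏ p ∈ S, x p) =
        (if v = u then (∑ S, ℓ S ^ 2 * G S ^ 2 * ∏ p ∈ S, x p) / AA x G else 1) * AA x G := by
      intro v _
      by_cases hv : v = u
      · rw [if_pos hv, div_mul_cancel₀ _ hA']
        exact Finset.sum_congr rfl fun S _ => by rw [if_pos hv]; ring
      · rw [if_neg hv, one_mul]
        unfold AA
        exact Finset.sum_congr rfl fun S _ => by rw [if_neg hv]; ring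
    rw [Finset.prod_congr rfl e2, Finset.prod_mul_distrib, Finset.prod_const, hcard,
      Finset.prod_ite_eq' _ u (fun _ => (∑ S, ℓ S ^ 2 * G S ^ 2 * ∏ p ∈ S, x p) / AA x G), if_pos hu]
  · rw [if_neg h]
    have e2 : ∀ v ∈ ({i} : Finset (Fin k))ᶜ, ∑ S : Finset ι, (if v = u then ℓ S else 1) *
        (if v = u' then ℓ S else 1) * (G S ^ 2 * ∏ p ∈ S, x p) =
        (if v = u then (∑ S, ℓ S ^ 1 * G S ^ 2 * ∏ p ∈ S, x p) / AA x G else 1) *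
        (if v = u' then (∑ S, ℓ S ^ 1 * G S ^ 2 * ∏ p ∈ S, x p) / AA x G else 1) * AA x G := by
      intro v _
      by_cases hv : v = u
      · have hv' : v ≠ u' := fun h' => h (hv ▸ h')
        rw [if_pos hv, if_neg hv', mul_one, div_mul_cancel₀ _ hA']
        exact Finset.sum_congr rfl fun S _ => by rw [if_pos hv, if_neg hv']; ring
      · by_cases hv' : v = u'
        · rw [if_neg hv, if_pos hv', one_mul, div_mul_cancel₀ _ hA']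
          exact Finset.sum_congr rfl fun S _ => by rw [if_neg hv, if_pos hv']; ring
        · rw [if_neg hv, if_neg hv', one_mul, one_mul]
          unfold AA
          exact Finset.sum_congr rfl fun S _ => by rw [if_neg hv, if_neg hv']; ring
    rw [Finset.prod_congr rfl e2, Finset.prod_mul_distrib, Finset.prod_mul_distrib, Finset.prod_const, hcard,
      Finset.prod_ite_eq' _ u (fun _ => (∑ S, ℓ S ^ 1 * G S ^ 2 * ∏ p ∈ S, x p) / AA x G), if_pos hu,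
      Finset.prod_ite_eq' _ u' (fun _ => (∑ S, ℓ S ^ 1 * G S ^ 2 * ∏ p ∈ S, x p) / AA x G), if_pos hu', sq]

theorem Mj2_one {ι : Type} [Fintype ι] {k : ℕ} (x : ι → ℝ) (G : Finset ι → ℝ) (i : Fin k)
    (ℓ : Finset ι → ℝ) (hA : 0 < AA x G) (u : Fin k) (hu : u ∈ ({i} : Finset (Fin k))ᶜ) :
    ∑ S ∈ Mj2_t (ι := ι) i, ℓ (S u) * ∏ v ∈ ({i} : Finset (Fin k))ᶜ, (G (S v) ^ 2 * ∏ p ∈ S v, x p) =
      (∑ S, ℓ S ^ 1 * G S ^ 2 * ∏ p ∈ S, x p) / AA x G * AA x G ^ (k - 1) := by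
  classical
  have hcard : (({i} : Finset (Fin k))ᶜ).card = k - 1 := by
    rw [Finset.card_compl, Fintype.card_fin, Finset.card_singleton]
  have e1 : ∀ S : Fin k → Finset ι, ℓ (S u) * ∏ v ∈ ({i} : Finset (Fin k))ᶜ, (G (S v) ^ 2 * ∏ p ∈ S v, x p) =
      ∏ v ∈ ({i} : Finset (Fin k))ᶜ, ((if v = u then ℓ (S v) else 1) * (G (S v) ^ 2 * ∏ p ∈ S v, x p)) := by
    intro S
    exact (Mj2_ite _ (fun v => ℓ (S v)) (fun v => G (S v) ^ 2 * ∏ p ∈ S v, x p) u hu).symm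
  rw [Finset.sum_congr rfl fun S _ => e1 S, Mj2_pi i (fun v S => (if v = u then ℓ S else 1) *
    (G S ^ 2 * ∏ p ∈ S, x p))]
  have hA' := hA.ne'
  have e2 : ∀ v ∈ ({i} : Finset (Fin k))ᶜ, ∑ S : Finset ι, (if v = u then ℓ S else 1) * (G S ^ 2 * ∏ p ∈ S, x p) =
      (if v = u then (∑ S, ℓ S ^ 1 * G S ^ 2 * ∏ p ∈ S, x p) / AA x G else 1) * AA x G := by
    intro v _
    by_cases hv : v = u
    · rw [if_pos hv, div_mul_cancel₀ _ hA']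
      exact Finset.sum_congr rfl fun S _ => by rw [if_pos hv]; ring
    · rw [if_neg hv, one_mul]
      unfold AA
      exact Finset.sum_congr rfl fun S _ => by rw [if_neg hv]; ring
  rw [Finset.prod_congr rfl e2, Finset.prod_mul_distrib, Finset.prod_const, hcard,
    Finset.prod_ite_eq' _ u (fun _ => (∑ S, ℓ S ^ 1 * G S ^ 2 * ∏ p ∈ S, x p) / AA x G), if_pos hu]

theorem Mj2_zero {ι : Type} [Fintype ι] {k : ℕ} (x : ι → ℝ) (G : Finset ι → ℝ) (i : Fin k) :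
    ∑ S ∈ Mj2_t (ι := ι) i, ∏ v ∈ ({i} : Finset (Fin k))ᶜ, (G (S v) ^ 2 * ∏ p ∈ S v, x p) = AA x G ^ (k - 1) := by
  classical
  rw [Mj2_pi i (fun _ S => G S ^ 2 * ∏ p ∈ S, x p), Finset.prod_const, Finset.card_compl, Fintype.card_fin,
    Finset.card_singleton]
  rfl

/-- The second moment of the cost over the labelings: the sum over the labelings `τ` (disjoint sets) is at most the sum over
all families `(S_v)_{v ≠ i}` (`LC1_inj`, all terms are `≥ 0`), and there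
`∑ (∑_v ℓ(S_v) - m) ^ 2 ∏ G(S_v) ^ 2 x(S_v)` is a polynomial in the one-variable sums
`A = ∑ G² x`, `M1 = ∑ ℓ G² x`, `M2 = ∑ ℓ² G² x`: `(k - 1) M2 A^(k-2) + (k - 1) (k - 2) M1² A^(k-3) - 2 m (k - 1) M1 A^(k-2) + m² A^(k-1)`. -/
theorem Mj_var {ι : Type} [Fintype ι] [DecidableEq ι] {k : ℕ} {x : ι → ℝ} {G : Finset ι → ℝ}
    (hG : GH x (fun _ : Fin k => G)) (i : Fin k) (ℓ : Finset ι → ℝ) (m : ℝ) (hA : 0 < AA x G) :
    ∑ τ ∈ univ.filter (fun τ : ι → Option (Fin k) => ∀ p v, τ p = some v → v ∉ ({i} : Finset (Fin k))),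
      (∑ v ∈ ({i} : Finset (Fin k))ᶜ, ℓ (fib τ v) - m) ^ 2 *
        ((∏ v ∈ ({i} : Finset (Fin k))ᶜ, G (fib τ v) ^ 2) * xwt x τ) ≤
      (((k : ℝ) - 1) * ((∑ S, ℓ S ^ 2 * G S ^ 2 * ∏ p ∈ S, x p) / AA x G) +
        ((k : ℝ) - 1) * ((k : ℝ) - 2) * ((∑ S, ℓ S ^ 1 * G S ^ 2 * ∏ p ∈ S, x p) / AA x G) ^ 2 -
        2 * m * ((k : ℝ) - 1) * ((∑ S, ℓ S ^ 1 * G S ^ 2 * ∏ p ∈ S, x p) / AA x G) + m ^ 2) * AA x G ^ (k - 1) := by
  classical
  refine (Mj2_le x (fun p => (hG.x_pos p).le) G i ℓ m).trans (le_of_eq ?_)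
  have hk : 1 ≤ k := Nat.one_le_iff_ne_zero.2 (by
    rintro rfl
    exact i.elim0)
  have hcard : (({i} : Finset (Fin k))ᶜ).card = k - 1 := by
    rw [Finset.card_compl, Fintype.card_fin, Finset.card_singleton]
  have hcr : ((({i} : Finset (Fin k))ᶜ).card : ℝ) = (k : ℝ) - 1 := by
    rw [hcard, Nat.cast_sub hk, Nat.cast_one]
  obtain ⟨J, hJ⟩ : ∃ J, J = ({i} : Finset (Fin k))ᶜ := ⟨_, rfl⟩
  have e1 : ∀ S : Fin k → Finset ι, Mj2_Φ x G i ℓ m S =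
      ∑ u ∈ J, ∑ u' ∈ J, ℓ (S u) * ℓ (S u') * ∏ v ∈ ({i} : Finset (Fin k))ᶜ, (G (S v) ^ 2 * ∏ p ∈ S v, x p) -
      2 * m * ∑ u ∈ J, ℓ (S u) * ∏ v ∈ ({i} : Finset (Fin k))ᶜ, (G (S v) ^ 2 * ∏ p ∈ S v, x p) +
      m ^ 2 * ∏ v ∈ ({i} : Finset (Fin k))ᶜ, (G (S v) ^ 2 * ∏ p ∈ S v, x p) := by
    intro S
    unfold Mj2_Φ
    have e2 : ∑ u ∈ J, ∑ u' ∈ J, ℓ (S u) * ℓ (S u') * ∏ v ∈ ({i} : Finset (Fin k))ᶜ, (G (S v) ^ 2 * ∏ p ∈ S v, x p) =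
        (∑ u ∈ J, ℓ (S u)) * (∑ u ∈ J, ℓ (S u)) * ∏ v ∈ ({i} : Finset (Fin k))ᶜ, (G (S v) ^ 2 * ∏ p ∈ S v, x p) := by
      rw [Finset.sum_mul_sum, Finset.sum_mul]
      exact Finset.sum_congr rfl fun u _ => by rw [Finset.sum_mul]
    rw [e2, ← Finset.sum_mul, ← hJ]
    ring
  rw [Finset.sum_congr rfl fun S _ => e1 S, Finset.sum_add_distrib, Finset.sum_sub_distrib, ← Finset.mul_sum,
    ← Finset.mul_sum, Mj2_zero]
  have e3 : ∑ S ∈ Mj2_t (ι := ι) i, ∑ u ∈ J, ∑ u' ∈ J, ℓ (S u) * ℓ (S u') *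
      ∏ v ∈ ({i} : Finset (Fin k))ᶜ, (G (S v) ^ 2 * ∏ p ∈ S v, x p) =
      (((k : ℝ) - 1) * ((∑ S, ℓ S ^ 2 * G S ^ 2 * ∏ p ∈ S, x p) / AA x G) +
        ((k : ℝ) - 1) * ((k : ℝ) - 2) * ((∑ S, ℓ S ^ 1 * G S ^ 2 * ∏ p ∈ S, x p) / AA x G) ^ 2) *
        AA x G ^ (k - 1) := by
    rw [Finset.sum_comm]
    have e4 : ∀ u ∈ J, ∑ S ∈ Mj2_t (ι := ι) i, ∑ u' ∈ J, ℓ (S u) * ℓ (S u') *
        ∏ v ∈ ({i} : Finset (Fin k))ᶜ, (G (S v) ^ 2 * ∏ p ∈ S v, x p) =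
        ((∑ S, ℓ S ^ 2 * G S ^ 2 * ∏ p ∈ S, x p) / AA x G + ((k : ℝ) - 2) *
          ((∑ S, ℓ S ^ 1 * G S ^ 2 * ∏ p ∈ S, x p) / AA x G) ^ 2) * AA x G ^ (k - 1) := by
      intro u hu
      rw [Finset.sum_comm, Finset.sum_congr rfl fun u' hu' =>
        Mj2_two x G i ℓ hA u u' (hJ ▸ hu) (hJ ▸ hu'), ← Finset.sum_mul]
      congr 1
      rw [← Finset.add_sum_erase J _ hu, if_pos rfl]
      congr 1
      rw [Finset.sum_congr rfl fun u' hu' => if_neg (Finset.ne_of_mem_erase hu').symm, Finset.sum_const,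
        Finset.card_erase_of_mem hu, nsmul_eq_mul, Nat.cast_sub (Finset.card_pos.2 ⟨u, hu⟩), hJ, hcr, Nat.cast_one]
      ring
    rw [Finset.sum_congr rfl e4, Finset.sum_const, nsmul_eq_mul, hJ, hcr]
    ring
  have e5 : ∑ S ∈ Mj2_t (ι := ι) i, ∑ u ∈ J, ℓ (S u) *
      ∏ v ∈ ({i} : Finset (Fin k))ᶜ, (G (S v) ^ 2 * ∏ p ∈ S v, x p) =
      ((k : ℝ) - 1) * ((∑ S, ℓ S ^ 1 * G S ^ 2 * ∏ p ∈ S, x p) / AA x G) * AA x G ^ (k - 1) := by
    rw [Finset.sum_comm, Finset.sum_congr rfl fun u hu => Mj2_one x G i ℓ hA u (hJ ▸ hu), Finset.sum_const,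
      nsmul_eq_mul, hJ, hcr]
    ring
  rw [e3, e5]
  ring

end Pool.Agent.W33m
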