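import Pool.Agent.W_d33b62m_h36.Mj1
import Pool.Agent.W_d33b62m_h36.Mj2

/-!
# The lower bound with Chebyshev's inequality (MP_d33b62, T2, file Mj3)
-/

set_option autoImplicit false

noncomputable section

open Finset Filter

namespace Pool.Agent.W33m

open Pool.Agent.Wd33b62 (Pl PS xr nmS nm supp Sub dn fib era off FF lam zz AA BB SX QH GH TT0 HasExp conv Ex QOK
  qwt xwt EB Bd mem_PS qx LG4_TT0 LG4_upper LG3_BB_nonneg disj_lower sum_supp_le LG5_sq)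
open Pool.Agent.Wb58c63 (PI mem_PI VP aw ap XM Pr)
open Pool.Agent.M58 (lp' lm')

theorem Mj3_disj {ι V : Type} [Fintype ι] [DecidableEq ι] [Fintype V] [DecidableEq V] (x : ι → ℝ)
    (hx : ∀ i, 0 ≤ x i) (h : V → Finset ι → ℝ) (hh : ∀ v S, 0 ≤ h v S)
    (ha : ∀ v S T, S ⊆ T → h v T ≤ h v S) (U : Finset V) (s : Finset (ι → Option V))
    (hs : ∀ τ, τ ∈ s ↔ ∀ p v, τ p = some v → v ∉ U) :
    (1 - Fintype.card V ^ 2 * SX x) * ∏ u ∈ Uᶜ, BB x (h u) ≤ ∑ κ ∈ s, (∏ u ∈ Uᶜ, h u (fib κ u)) * xwt x κ := by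
  have := disj_lower x hx h hh ha ∅ Uᶜ
  rw [Finset.sum_empty, mul_zero, sub_zero] at this
  refine le_trans this (le_of_eq ?_)
  refine Finset.sum_congr ?_ fun τ _ => rfl
  ext τ
  rw [hs, Finset.mem_filter]
  constructor
  · rintro ⟨h1, _, h2⟩
    exact fun i v h3 => Finset.mem_compl.1 (h2 i v h3)
  · intro h2
    exact ⟨Finset.mem_univ _, fun i hi => absurd hi (Finset.notMem_empty i),
      fun i v h3 => Finset.mem_compl.2 (h2 i v h3)⟩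

/-- **Lower bound.** `TT0 = ∑_τ zz² xwt` (`LG4_TT0`); for cost `≤ 1 - T` use `Mj_Y` and `LG5_sq`; the sum over all `τ` of
`∏ G² xwt` is `≥ (1 - k² SX) A^(k-1)` (`disj_lower` with `T = ∅`, `U = {i}ᶜ`), the `τ` of larger cost are estimated by
`(∑ ℓ - m)² / (1 - T - m)²` (`Mj_var`), and `∑ ∏ G² xwt ∑_{supp τ} x ≤ k SX A^(k-1)` (`sum_supp_le`). -/
theorem TLow2 {ι : Type} [Fintype ι] [DecidableEq ι] {k : ℕ} {x : ι → ℝ} {G : Finset ι → ℝ}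
    (hG : GH x (fun _ : Fin k => G)) (i : Fin k) {y : (ι → Option (Fin k)) → ℝ} (hy0 : ∀ κ, 0 ≤ y κ)
    (ℓ : Finset ι → ℝ) (hyg : ∀ κ, ∑ v, ℓ (fib κ v) ≤ 1 → ∏ v, G (fib κ v) ≤ y κ) (T m : ℝ) (hTm : m < 1 - T)
    (hU : ∀ S, G S ≠ 0 → ℓ S ≤ T) (hA : 0 < AA x G) :
    (1 - (((k : ℝ) - 1) * ((∑ S, ℓ S ^ 2 * G S ^ 2 * ∏ p ∈ S, x p) / AA x G) +
        ((k : ℝ) - 1) * ((k : ℝ) - 2) * ((∑ S, ℓ S ^ 1 * G S ^ 2 * ∏ p ∈ S, x p) / AA x G) ^ 2 -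
        2 * m * ((k : ℝ) - 1) * ((∑ S, ℓ S ^ 1 * G S ^ 2 * ∏ p ∈ S, x p) / AA x G) + m ^ 2) / (1 - T - m) ^ 2 -
        5 * (k : ℝ) ^ 2 * SX x) * (AA x G ^ (k - 1) * BB x G ^ 2) ≤ TT0 x y {i} := by
  classical
  have hx0 : ∀ p, 0 ≤ x p := fun p => (hG.x_pos p).le
  have hk : 1 ≤ k := Nat.one_le_iff_ne_zero.2 (by
    rintro rfl
    exact i.elim0)
  obtain ⟨U, hUU⟩ : ∃ U : Finset (Fin k), U = {i} := ⟨_, rfl⟩
  obtain ⟨K, hK⟩ : ∃ K : ℝ, K = k := ⟨_, rfl⟩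
  obtain ⟨B, hB⟩ : ∃ B, B = BB x G := ⟨_, rfl⟩
  obtain ⟨A, hAd⟩ : ∃ A, A = AA x G ^ (k - 1) := ⟨_, rfl⟩
  obtain ⟨Va, hVa⟩ : ∃ Va : ℝ, Va = ((k : ℝ) - 1) * ((∑ S, ℓ S ^ 2 * G S ^ 2 * ∏ p ∈ S, x p) / AA x G) +
        ((k : ℝ) - 1) * ((k : ℝ) - 2) * ((∑ S, ℓ S ^ 1 * G S ^ 2 * ∏ p ∈ S, x p) / AA x G) ^ 2 -
        2 * m * ((k : ℝ) - 1) * ((∑ S, ℓ S ^ 1 * G S ^ 2 * ∏ p ∈ S, x p) / AA x G) + m ^ 2 := ⟨_, rfl⟩
  have hvar := Mj_var hG i ℓ m hA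
  have hK0 : 0 ≤ K := by rw [hK]; exact Nat.cast_nonneg _
  have hB0 : 0 ≤ B := by rw [hB]; exact LG3_BB_nonneg hG i
  have hA0 : 0 ≤ A := by rw [hAd]; exact pow_nonneg hA.le _
  have hSX : 0 ≤ SX x := Finset.sum_nonneg fun i _ => sq_nonneg _
  have hd : 0 < 1 - T - m := by linarith
  have hcard : (({i} : Finset (Fin k))ᶜ).card = k - 1 := by
    rw [Finset.card_compl, Fintype.card_fin, Finset.card_singleton]
  have hprodA : ∏ _v ∈ ({i} : Finset (Fin k))ᶜ, AA x G = A := by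
    rw [Finset.prod_const, hcard, hAd]
  have hBBA : BB x (fun S => G S ^ 2) = AA x G := rfl
  rw [← hVa, ← hAd] at hvar
  rw [← hVa, ← hB, ← hAd, ← hK, LG4_TT0]
  obtain ⟨good, hgm⟩ : ∃ s : Finset (ι → Option (Fin k)), ∀ τ, τ ∈ s ↔
    ∀ p v, τ p = some v → v ∉ ({i} : Finset (Fin k)) :=
    ⟨univ.filter (fun τ : ι → Option (Fin k) => ∀ p v, τ p = some v → v ∉ ({i} : Finset (Fin k))), fun τ => by
      rw [Finset.mem_filter]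
      exact ⟨fun h => h.2, fun h => ⟨Finset.mem_univ _, h⟩⟩⟩
  have hgood : ∀ (d : DecidablePred fun τ : ι → Option (Fin k) => ∀ p v, τ p = some v → v ∉ ({i} : Finset (Fin k))),
      @Finset.filter _ (fun τ : ι → Option (Fin k) => ∀ p v, τ p = some v → v ∉ ({i} : Finset (Fin k))) d univ =
        good := by
    intro d
    ext τ
    rw [hgm, Finset.mem_filter]
    exact ⟨fun h => h.2, fun h => ⟨Finset.mem_univ _, h⟩⟩
  obtain ⟨Q, hQ⟩ : ∃ Q : (ι → Option (Fin k)) → ℝ, ∀ τ, Q τ =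
    (∏ v ∈ ({i} : Finset (Fin k))ᶜ, G (fib τ v) ^ 2) * xwt x τ := ⟨_, fun _ => rfl⟩
  have hX0 : ∀ τ : ι → Option (Fin k), 0 ≤ xwt x τ := fun τ => Finset.prod_nonneg fun p _ => hx0 p
  have hQ0 : ∀ τ, 0 ≤ Q τ := by
    intro τ
    rw [hQ]
    exact mul_nonneg (Finset.prod_nonneg fun v _ => sq_nonneg _) (hX0 τ)
  have hs0 : ∀ τ : ι → Option (Fin k), 0 ≤ ∑ p ∈ supp τ, x p := fun τ =>
    Finset.sum_nonneg fun p _ => hx0 p
  have hg2 : ∀ (v : Fin k) (S : Finset ι), 0 ≤ (fun (_ : Fin k) S => G S ^ 2) v S := fun v S => sq_nonneg _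
  have hg2a : ∀ (v : Fin k) (S T : Finset ι), S ⊆ T → (fun (_ : Fin k) S => G S ^ 2) v T ≤
      (fun (_ : Fin k) S => G S ^ 2) v S :=
    fun v S T hST => pow_le_pow_left₀ (hG.g_nonneg v T) (hG.g_anti v S T hST) 2
  have q1 : ∑ τ ∈ good, Q τ ≤ A := by
    have := LG4_upper x hx0 (fun _ S => G S ^ 2) hg2 {i}
    rw [hgood, Finset.prod_congr rfl fun _ _ => hBBA, hprodA] at this
    refine le_trans (le_of_eq ?_) this
    exact Finset.sum_congr rfl fun τ _ => hQ τ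
  have q2 : (1 - K ^ 2 * SX x) * A ≤ ∑ τ ∈ good, Q τ := by
    have := Mj3_disj x hx0 (fun _ S => G S ^ 2) hg2 hg2a ({i} : Finset (Fin k)) good hgm
    rw [Fintype.card_fin, ← hK, Finset.prod_congr rfl fun _ _ => hBBA, hprodA] at this
    refine le_trans this (le_of_eq ?_)
    exact Finset.sum_congr rfl fun τ _ => (hQ τ).symm
  have q3 : ∑ τ ∈ good, (∑ v ∈ ({i} : Finset (Fin k))ᶜ, ℓ (fib τ v) - m) ^ 2 * Q τ ≤ Va * A := by
    rw [hgood] at hvar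
    refine le_trans (le_of_eq ?_) hvar
    exact Finset.sum_congr rfl fun τ _ => by rw [hQ]
  have q4 : ∑ τ ∈ good, Q τ * ∑ p ∈ supp τ, x p ≤ K * SX x * A := by
    have := sum_supp_le x hx0 (fun _ S => G S ^ 2) hg2 hg2a ({i} : Finset (Fin k))
    rw [hgood, Fintype.card_fin, ← hK, Finset.prod_congr rfl fun _ _ => hBBA, hprodA] at this
    refine le_trans (le_of_eq ?_) this
    exact Finset.sum_congr rfl fun τ _ => by rw [hQ]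
  obtain ⟨G2, hG2⟩ : ∃ s, s = good.filter (fun τ => ∑ v ∈ ({i} : Finset (Fin k))ᶜ, ℓ (fib τ v) ≤ 1 - T) := ⟨_, rfl⟩
  have hG2s : G2 ⊆ good := by rw [hG2]; exact Finset.filter_subset _ _
  have r1 : ∑ τ ∈ G2, Q τ ≤ A :=
    (Finset.sum_le_sum_of_subset_of_nonneg hG2s fun τ _ _ => hQ0 τ).trans q1
  have hd2 : 0 < (1 - T - m) ^ 2 := by positivity
  have r2 : (1 - Va / (1 - T - m) ^ 2 - K ^ 2 * SX x) * A ≤ ∑ τ ∈ G2, Q τ := by
    have h1 : ∑ τ ∈ good, Q τ - ∑ τ ∈ good, 1 / (1 - T - m) ^ 2 *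
        ((∑ v ∈ ({i} : Finset (Fin k))ᶜ, ℓ (fib τ v) - m) ^ 2 * Q τ) ≤ ∑ τ ∈ G2, Q τ := by
      rw [← Finset.sum_sub_distrib, hG2, Finset.sum_filter]
      refine Finset.sum_le_sum fun τ _ => ?_
      have h2 : 0 ≤ 1 / (1 - T - m) ^ 2 * ((∑ v ∈ ({i} : Finset (Fin k))ᶜ, ℓ (fib τ v) - m) ^ 2 * Q τ) :=
        mul_nonneg (by positivity) (mul_nonneg (sq_nonneg _) (hQ0 τ))
      split_ifs with h3
      · linarith
      · push Not at h3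
        have h4 : (1 - T - m) ^ 2 ≤ (∑ v ∈ ({i} : Finset (Fin k))ᶜ, ℓ (fib τ v) - m) ^ 2 :=
          pow_le_pow_left₀ hd.le (by linarith) 2
        have h5 : Q τ ≤ 1 / (1 - T - m) ^ 2 * ((∑ v ∈ ({i} : Finset (Fin k))ᶜ, ℓ (fib τ v) - m) ^ 2 * Q τ) := by
          rw [← mul_assoc, one_div, inv_mul_eq_div]
          have h6 : 1 ≤ (∑ v ∈ ({i} : Finset (Fin k))ᶜ, ℓ (fib τ v) - m) ^ 2 / (1 - T - m) ^ 2 :=
            (one_le_div hd2).2 h4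
          nlinarith [hQ0 τ]
        linarith
    rw [← Finset.mul_sum] at h1
    have h5 : (1 - Va / (1 - T - m) ^ 2 - K ^ 2 * SX x) * A =
        (1 - K ^ 2 * SX x) * A - 1 / (1 - T - m) ^ 2 * (Va * A) := by ring
    rw [h5]
    have h6 := mul_le_mul_of_nonneg_left q3 (show 0 ≤ 1 / (1 - T - m) ^ 2 by positivity)
    linarith
  have r3 : ∑ τ ∈ G2, Q τ * ∑ p ∈ supp τ, x p ≤ K * SX x * A :=
    (Finset.sum_le_sum_of_subset_of_nonneg hG2s fun τ _ _ => mul_nonneg (hQ0 τ) (hs0 τ)).trans q4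
  rw [hgood]
  have t1 : ∑ τ ∈ G2, (B ^ 2 * (1 - 2 * K ^ 2 * SX x) * Q τ -
      2 * K * B ^ 2 * (Q τ * ∑ p ∈ supp τ, x p)) ≤
      ∑ τ ∈ good, zz x y (qx x {i}) τ ^ 2 * xwt x τ := by
    refine le_trans (Finset.sum_le_sum fun τ hτ => ?_)
      (Finset.sum_le_sum_of_subset_of_nonneg hG2s fun τ _ _ => mul_nonneg (sq_nonneg _) (hX0 τ))
    rw [hG2] at hτ
    obtain ⟨h1, h2⟩ := Finset.mem_filter.1 hτ
    rw [hgm] at h1
    have h1' : ∀ p v, τ p = some v → v ≠ i := fun p v h =>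
      fun h' => h1 p v h (h' ▸ Finset.mem_singleton_self _)
    have h3 := Mj_Y hG i hy0 ℓ hyg T hU τ h1' h2
    rw [← hB, ← hK] at h3
    have h4 := LG5_sq (Finset.prod_nonneg fun v _ => hG.g_nonneg v _) hB0 h3
    have h5 := mul_le_mul_of_nonneg_right h4 (hX0 τ)
    refine le_trans (le_of_eq ?_) h5
    rw [hQ, ← Finset.prod_pow]
    ring
  refine le_trans ?_ t1
  rw [Finset.sum_sub_distrib, ← Finset.mul_sum, ← Finset.mul_sum]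
  have hB2 : 0 ≤ B ^ 2 := sq_nonneg _
  have hKS : 0 ≤ 2 * K ^ 2 * SX x := mul_nonneg (mul_nonneg zero_le_two (sq_nonneg _)) hSX
  have u1 := mul_le_mul_of_nonneg_left r2 hB2
  have u2 := mul_le_mul_of_nonneg_left r1 (mul_nonneg hB2 hKS)
  have u3 := mul_le_mul_of_nonneg_left r3 (mul_nonneg (mul_nonneg zero_le_two hK0) hB2)
  have e5 : (1 - Va / (1 - T - m) ^ 2 - 5 * K ^ 2 * SX x) * (A * B ^ 2) =
      B ^ 2 * ((1 - Va / (1 - T - m) ^ 2 - K ^ 2 * SX x) * A) - B ^ 2 * (2 * K ^ 2 * SX x) * A -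
        2 * K * B ^ 2 * (K * SX x * A) := by ring
  have e6 : B ^ 2 * (1 - 2 * K ^ 2 * SX x) * ∑ τ ∈ G2, Q τ =
      B ^ 2 * ∑ τ ∈ G2, Q τ - B ^ 2 * (2 * K ^ 2 * SX x) * ∑ τ ∈ G2, Q τ := by ring
  rw [e5, e6]
  linarith

end Pool.Agent.W33m
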