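import Pool.Agent.W_d33b62m_h36.Md
import Pool.Agent.W_d33b62_h36.LG2
import Pool.Agent.W_d33b62_h36.LG4
import Pool.Agent.W_d33b62_h36.LA1

/-!
# The Selberg forms in the two models: upper bound (MP_d33b62, T2, file Mk1)
-/

set_option autoImplicit false

noncomputable section

open Finset Filter

namespace Pool.Agent.W33m

open Pool.Agent.Wd33b62 (Pl PS xr nmS nm supp Sub dn fib era off FF lam zz AA BB SX QH GH TT0 HasExp conv Ex QOK
  qwt xwt EB Bd mem_PS)
open Pool.Agent.Wb58c63 (PI mem_PI VP aw ap XM Pr)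
open Pool.Agent.M58 (lp' lm')

/-- `k ≤ w`, so the probabilities `1 / p` are admissible; `GW_up` with `U = ∅`, `B = ∅`, `C = 0` (see `AR5_Ex` in
`W_d33b62_h36/AR5.lean`). -/
theorem EX1 (k w : ℕ) (hk : 1 ≤ k) (hw : k ≤ w) (c Y : ℝ) :
    Ex (q0 (w := w) (z := Y ^ th) (k := k)) (FW k w c Y) ≤ AM w c Y ^ k := by
  have hw1 : 1 ≤ w := hk.trans hw
  have hQ : QH (xr w (Y ^ th)) (q0 (w := w) (z := Y ^ th) (k := k)) ∅ ∅ 0 := by
    refine ⟨fun i v => ?_, fun i => ?_, fun i v h => ?_, fun i v _ _ => ?_⟩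
    · exact (Pool.Agent.Wd33b62.xr_pos i).le
    · simp only [q0, Finset.sum_const, Finset.card_univ, nsmul_eq_mul, Fintype.card_fin]
      have h1 := Pool.Agent.Wd33b62.xr_le hw1 i
      have h2 : (0 : ℝ) < w := by exact_mod_cast hw1
      have h3 : (k : ℝ) ≤ w := by exact_mod_cast hw
      calc (k : ℝ) * xr w (Y ^ th) i ≤ w * (1 / w) :=
            mul_le_mul h3 h1 (Pool.Agent.Wd33b62.xr_pos i).le h2.le
        _ = 1 := by field_simp
    · simp at h
    · simp [q0]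
  have h := Pool.Agent.Wd33b62.GW_up (GH_GM (z := Y ^ th) hw1 k (Y ^ c) (Y ^ th)) le_rfl hQ
    (fun κ => yM_nonneg k (Y ^ c) (Y ^ th) κ) (fun κ => yM_le k (Y ^ c) (Y ^ th) κ)
  refine (le_of_eq ?_).trans (h.trans (le_of_eq ?_))
  · rfl
  · simp [Pool.Agent.Wd33b62.Th, AM]

/-- `|1 / (p - 1) - 1 / p| ≤ 2 / p ^ 2`. -/
theorem QH_qi (k w : ℕ) (hw : 4 * k + 4 ≤ w) (z : ℝ) (i : Fin k) :
    QH (xr w z) (qi i) {i} ∅ 2 := by
  have hp1 : ∀ p : Pl w z, (w : ℝ) + 1 ≤ (p.1 : ℝ) := by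
    intro p
    have hp := mem_PS.1 p.2
    exact_mod_cast hp.2.1
  have hwr : 4 * (k : ℝ) + 4 ≤ w := by exact_mod_cast hw
  have hk0 : (0 : ℝ) ≤ k := Nat.cast_nonneg _
  refine ⟨fun p v => ?_, fun p => ?_, fun p v h => ?_, fun p v hv _ => ?_⟩
  · unfold qi
    have := hp1 p
    split_ifs
    · exact le_rfl
    · exact div_nonneg zero_le_one (by linarith)
  · have h1 := hp1 p
    have h2 : (0 : ℝ) < (p.1 : ℝ) - 1 := by linarith
    have h3 : ∀ v : Fin k, qi i p v ≤ 1 / ((p.1 : ℝ) - 1) := by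
      intro v
      unfold qi
      split_ifs
      · positivity
      · exact le_rfl
    calc ∑ v, qi i p v ≤ ∑ _v : Fin k, 1 / ((p.1 : ℝ) - 1) := Finset.sum_le_sum fun v _ => h3 v
      _ = (k : ℝ) / ((p.1 : ℝ) - 1) := by
          rw [Finset.sum_const, Finset.card_univ, nsmul_eq_mul, Fintype.card_fin]
          ring
      _ ≤ 1 := by
          rw [div_le_one h2]
          linarith
  · rcases h with h | h
    · rw [Finset.mem_singleton] at h
      unfold qi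
      rw [if_pos h]
    · simp at h
  · rw [Finset.mem_singleton] at hv
    unfold qi
    rw [if_neg hv]
    have h1 := hp1 p
    have h2 : (0 : ℝ) < (p.1 : ℝ) - 1 := by linarith
    have h3 : (0 : ℝ) < (p.1 : ℝ) := by linarith
    have e : 1 / ((p.1 : ℝ) - 1) - xr w z p = 1 / ((p.1 : ℝ) * ((p.1 : ℝ) - 1)) := by
      unfold Pool.Agent.Wd33b62.xr
      field_simp
      ring
    rw [e, abs_of_pos (by positivity)]
    have e2 : 2 * xr w z p ^ 2 = 2 / ((p.1 : ℝ) * (p.1 : ℝ)) := by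
      unfold Pool.Agent.Wd33b62.xr
      field_simp
    rw [e2, div_le_div_iff₀ (by positivity) (by positivity)]
    nlinarith

/-- `Ex ≥ 0` (a square). -/
theorem Ex_FW_nonneg (k w : ℕ) (c Y : ℝ) (q : Pl w (Y ^ th) → Fin k → ℝ) (hq : QOK q) :
    0 ≤ Ex q (FW k w c Y) := by
  unfold Pool.Agent.Wd33b62.Ex
  exact Finset.sum_nonneg fun a _ =>
    mul_nonneg (Pool.Agent.Wd33b62.prb_nonneg hq a) (sq_nonneg _)

end Pool.Agent.W33m
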