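import Pool.Agent.W_d33b62m_h36.Mk1
import Pool.Agent.W_d33b62m_h36.Mi3
import Pool.Agent.W_d33b62m_h36.Mj3
import Pool.Agent.W_d33b62_h36.LG4

/-!
# The Selberg form in the model of the primes: lower bound (MP_d33b62, T2, file Mk2)
-/

set_option autoImplicit false

noncomputable section

open Finset Filter

namespace Pool.Agent.W33m

open Pool.Agent.Wd33b62 (Pl PS xr nmS nm supp Sub dn fib era off FF lam zz AA BB SX QH GH TT0 HasExp conv Ex QOK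
  qwt xwt EB Bd mem_PS qx GW_low xr_le xr_pos SX_xr_le)
open Pool.Agent.Wb58c63 (PI mem_PI VP aw ap XM Pr)
open Pool.Agent.M58 (lp' lm')

theorem Mk2_exp (w : ℝ) (hw : 10 ^ 11 ≤ w) (S : ℝ) (h0 : 0 ≤ S) (hS : S ≤ 1 / w) :
    2 * (Real.exp (2000 * 2 * S) - 1) + (2 + 2000 * (1 + 2)) * (2000 * S) ≤ 1 / 1000 ∧
      5 * (2000 : ℝ) ^ 2 * S ≤ 1 / 1000 := by
  have h1 : S ≤ 1 / 10 ^ 11 := hS.trans (one_div_le_one_div_of_le (by norm_num) hw)
  have h2 : 2000 * 2 * S ≤ 1 := by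
    norm_num at h1
    linarith
  have h3 := Real.exp_bound_div_one_sub_of_interval (x := 2000 * 2 * S) (by positivity) (by
    norm_num at h1
    linarith)
  have h4 : Real.exp (2000 * 2 * S) ≤ 1 + 2 * (2000 * 2 * S) := by
    refine h3.trans ?_
    have h5 : 0 < 1 - 2000 * 2 * S := by
      norm_num at h1
      linarith
    rw [div_le_iff₀ h5]
    have h6 : 2000 * 2 * S ≤ 1 / 4 := by
      norm_num at h1
      linarith
    nlinarith
  norm_num at h1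
  obtain ⟨E, hE⟩ : ∃ E, E = Real.exp (2000 * 2 * S) := ⟨_, rfl⟩
  rw [← hE] at h4 ⊢
  constructor
  · linarith
  · linarith

/-- The cost of a set on which `G` does not vanish. -/
theorem Mk2_cost {w : ℕ} {z : ℝ} (z0 R : ℝ) (hR : 1 < R) (S : Finset (Pl w z)) (h : GM z0 R S ≠ 0) :
    co R S ≤ 32 / 775 := by
  have h1 := (GM_ne_zero z0 R hR.le S h).2
  have hl : 0 < Real.log R := Real.log_pos hR
  have hR0 : 0 < R := by linarith
  unfold co
  rw [div_le_iff₀ hl]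
  rcases Nat.eq_zero_or_pos (nmS S) with h0 | h0
  · rw [h0, Nat.cast_zero, Real.log_zero]
    positivity
  · have h2 : (0 : ℝ) < nmS S := by exact_mod_cast h0
    have h3 := Real.log_le_log h2 h1
    rwa [Real.log_rpow hR0] at h3

/-- `GW_low` (`LG4.lean`, `C = 2`, `U = {i}`) and `TLow2` with `ℓ = co R`, `T = 32 / 775`, `m = 753 / 1000`, `k = 2000`;
`rat2` bounds the Chebyshev term by `118 / 1000`; `SX (xr w z) ≤ 1 / w` (`SX_xr_le`), so for `w ≥ w0` all other errors are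
at most `1 / 1000`. `MM j` is the sum in `TLow2` with `ℓ = co (Y ^ th)`. -/
theorem EX2 : ∃ c0 : ℝ, 0 < c0 ∧ ∀ c : ℝ, 0 < c → c ≤ c0 → ∃ w0 : ℕ, ∀ w ≥ w0, ∀ᶠ Y : ℝ in atTop,
    ∀ i : Fin 2000, 88 / 100 * (AM w c Y ^ 1999 * BM w c Y ^ 2) ≤
      Ex (qi (w := w) (z := Y ^ th) i) (FW 2000 w c Y) := by
  obtain ⟨c0, hc0, hrat⟩ := rat2
  refine ⟨c0, hc0, fun c hc hcc => ⟨10 ^ 11, fun w hw => ?_⟩⟩
  have hwr : (10 : ℝ) ^ 11 ≤ w := by exact_mod_cast hw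
  have hw1 : 1 ≤ w := le_trans (by norm_num) hw
  filter_upwards [hrat c hc hcc w, eventually_gt_atTop (1 : ℝ)] with Y hY hY1 i
  have hR : 1 < Y ^ th := Real.one_lt_rpow hY1 (by unfold th; norm_num)
  obtain ⟨x, hx⟩ : ∃ x : Pl w (Y ^ th) → ℝ, x = xr w (Y ^ th) := ⟨_, rfl⟩
  obtain ⟨G, hGd⟩ : ∃ G : Finset (Pl w (Y ^ th)) → ℝ, G = GM (Y ^ c) (Y ^ th) := ⟨_, rfl⟩
  have hG : GH x (fun _ : Fin 2000 => G) := by
    rw [hx, hGd]
    exact GH_GM hw1 2000 (Y ^ c) (Y ^ th)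
  have hAM : AM w c Y = AA x G := by rw [hx, hGd]; rfl
  have hBM : BM w c Y = BB x G := by rw [hx, hGd]; rfl
  have hA1 : 1 ≤ AA x G := by rw [← hAM]; exact one_le_AM w c Y hY1.le
  have hA : 0 < AA x G := by linarith
  have hB1 : 1 ≤ BB x G := by rw [← hBM]; exact one_le_BM w c Y hY1.le
  have hSX : SX x ≤ 1 / (w : ℝ) := by rw [hx]; exact SX_xr_le hw1
  have hSX0 : 0 ≤ SX x := Finset.sum_nonneg fun i _ => sq_nonneg _
  obtain ⟨e1, e2⟩ := Mk2_exp w hwr (SX x) hSX0 hSX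
  have hxw : ∀ p, x p ≤ 1 / (w : ℝ) := by
    intro p
    rw [hx]
    exact xr_le hw1 p
  have hlow := GW_low hG (q := qi (w := w) (z := Y ^ th) i) (U := {i}) (C := 2) (by norm_num) (by
      rw [hx]
      exact QH_qi 2000 w (le_trans (by norm_num) hw) (Y ^ th) i) (y := yM 2000 (Y ^ c) (Y ^ th))
    (yM_nonneg 2000 _ _) (by
      rw [hGd]
      exact yM_le 2000 _ _) (by
      intro p
      rw [Fintype.card_fin]
      have h3 := hxw p
      have h4 : (1 : ℝ) / w ≤ 1 / 10 ^ 11 := one_div_le_one_div_of_le (by norm_num) hwr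
      have h5 : x p ≤ 1 / 10 ^ 11 := h3.trans h4
      norm_num at h5 ⊢
      linarith)
  have htl := TLow2 hG i (y := yM 2000 (Y ^ c) (Y ^ th)) (yM_nonneg 2000 _ _) (co (Y ^ th)) (by
      rw [hGd]
      exact yM_ge 2000 (Y ^ c) (Y ^ th) hR) (32 / 775) (753 / 1000) (by norm_num) (by
      rw [hGd]
      exact Mk2_cost (Y ^ c) (Y ^ th) hR) hA
  have hcard : (({i} : Finset (Fin 2000))ᶜ).card = 1999 := by
    rw [Finset.card_compl, Fintype.card_fin, Finset.card_singleton]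
  rw [Finset.prod_const, hcard, Finset.prod_singleton, Fintype.card_fin] at hlow
  have hM2 : (∑ S, co (Y ^ th) S ^ 2 * G S ^ 2 * ∏ p ∈ S, x p) = MM 2 w c Y := by
    rw [hx, hGd]
    rfl
  have hM1 : (∑ S, co (Y ^ th) S ^ 1 * G S ^ 2 * ∏ p ∈ S, x p) = MM 1 w c Y := by
    rw [hx, hGd]
    rfl
  rw [hM2, hM1, ← hAM, ← hBM] at htl
  rw [← hAM, ← hBM] at hlow
  rw [← hAM] at hA1
  rw [← hBM] at hB1
  have hP : 0 ≤ AM w c Y ^ 1999 * BM w c Y ^ 2 := by positivity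
  have e3 : ((2000 : ℕ) : ℝ) = 2000 := by norm_num
  rw [e3] at htl hlow
  have hcheb : (((2000 : ℝ) - 1) * (MM 2 w c Y / AM w c Y) +
        ((2000 : ℝ) - 1) * ((2000 : ℝ) - 2) * (MM 1 w c Y / AM w c Y) ^ 2 -
        2 * (753 / 1000) * ((2000 : ℝ) - 1) * (MM 1 w c Y / AM w c Y) + (753 / 1000) ^ 2) /
          (1 - 32 / 775 - 753 / 1000) ^ 2 ≤ 118 / 1000 := by
    have e4 : (2000 : ℝ) - 1 = 1999 := by norm_num
    have e5 : (2000 : ℝ) - 2 = 1998 := by norm_num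
    have e6 : (1 : ℝ) - 32 / 775 - 753 / 1000 = 743 / 775 - 753 / 1000 := by norm_num
    rw [e4, e5, e6]
    exact hY
  obtain ⟨P, hPd⟩ : ∃ P, P = AM w c Y ^ 1999 * BM w c Y ^ 2 := ⟨_, rfl⟩
  have h7 : Ex (qi (w := w) (z := Y ^ th) i) (fun c_1 => FF x (yM 2000 (Y ^ c) (Y ^ th)) c_1 ^ 2) =
      Ex (qi (w := w) (z := Y ^ th) i) (FW 2000 w c Y) := by
    rw [hx]
    rfl
  rw [h7] at hlow
  rw [← hPd] at hlow htl hP ⊢
  have h6 := mul_le_mul_of_nonneg_right e1 hP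
  have h8 : (88 / 100 + 1 / 1000) * P ≤ TT0 x (yM 2000 (Y ^ c) (Y ^ th)) {i} := by
    refine le_trans ?_ htl
    apply mul_le_mul_of_nonneg_right _ hP
    linarith
  have h9 := (sub_le_sub_left h6 (TT0 x (yM 2000 (Y ^ c) (Y ^ th)) {i})).trans hlow
  linarith

end Pool.Agent.W33m
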