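import Pool.Agent.W_d33b62m_h36.Mo
import Pool.Agent.W_d33b62_h36.AR2a

/-!
# Sums with smooth weights over residue classes (MP_d33b62, T2, file Ml1)
-/

set_option autoImplicit false

noncomputable section

open Finset Filter

namespace Pool.Agent.W33m

open Pool.Agent.Wd33b62 (Pl PS xr nmS nm supp Sub dn fib era off FF lam zz AA BB SX QH GH TT0 HasExp conv Ex QOK
  qwt xwt EB Bd mem_PS)
open Pool.Agent.Wb58c63 (PI mem_PI VP aw ap XM Pr)
open Pool.Agent.M58 (lp' lm')

open Pool.Agent.Wd33b62 (AR2a_card AR2a_nm_pos AR2a_xwt)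

/-- The defect of the counting function. -/
def Ml1_D (N2 q r m : ℕ) : ℝ :=
  ((((Ico m N2).filter (fun n => n ≡ r [MOD q])).card : ℕ) : ℝ) - ((N2 : ℝ) - m) / q

theorem Ml1_step (N2 q r m : ℕ) (h : m < N2) :
    Ml1_D N2 q r m = (if m ≡ r [MOD q] then 1 else 0) - 1 / q + Ml1_D N2 q r (m + 1) := by
  unfold Ml1_D
  have h1 : Ico m N2 = insert m (Ico (m + 1) N2) := by
    ext x
    simp only [mem_Ico, mem_insert]
    omega
  have h2 : m ∉ (Ico (m + 1) N2).filter (fun n => n ≡ r [MOD q]) := by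
    simp
  rw [h1, filter_insert]
  split_ifs with h3
  · rw [card_insert_of_notMem h2]
    push_cast
    ring
  · push_cast
    ring

theorem Ml1_abel (f : ℕ → ℝ) (q r : ℕ) (k : ℕ) : ∀ N1 N2 : ℕ, N2 = N1 + k →
    ∑ n ∈ (Ico N1 N2).filter (fun n => n ≡ r [MOD q]), f n - (∑ n ∈ Ico N1 N2, f n) / q =
      f N1 * Ml1_D N2 q r N1 + ∑ n ∈ Ico N1 N2, (f (n + 1) - f n) * Ml1_D N2 q r (n + 1) := by
  induction k with
  | zero =>
    intro N1 N2 h
    rw [Nat.add_zero] at h
    subst h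
    simp [Ml1_D]
  | succ k ih =>
    intro N1 N2 h
    have h0 : N1 < N2 := by omega
    have h1 := ih (N1 + 1) N2 (by omega)
    have h2 : Ico N1 N2 = insert N1 (Ico (N1 + 1) N2) := by
      ext x
      simp only [mem_Ico, mem_insert]
      omega
    have h3 : N1 ∉ Ico (N1 + 1) N2 := by simp
    have h4 : N1 ∉ (Ico (N1 + 1) N2).filter (fun n => n ≡ r [MOD q]) := by simp
    have h5 : ∑ n ∈ (Ico N1 N2).filter (fun n => n ≡ r [MOD q]), f n =
        (if N1 ≡ r [MOD q] then 1 else 0) * f N1 +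
          ∑ n ∈ (Ico (N1 + 1) N2).filter (fun n => n ≡ r [MOD q]), f n := by
      rw [h2, filter_insert]
      split_ifs with h6
      · rw [sum_insert h4, one_mul]
      · rw [zero_mul, zero_add]
    rw [h5, h2, sum_insert h3, sum_insert h3, Ml1_step N2 q r N1 h0]
    rw [add_div]
    have h7 : (∑ n ∈ (Ico (N1 + 1) N2).filter (fun n => n ≡ r [MOD q]), f n) =
        (∑ n ∈ Ico (N1 + 1) N2, f n) / q + (f (N1 + 1) * Ml1_D N2 q r (N1 + 1) +
          ∑ n ∈ Ico (N1 + 1) N2, (f (n + 1) - f n) * Ml1_D N2 q r (n + 1)) := by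
      linarith
    rw [h7]
    ring

/-- Abel summation: `f n = f N1 + ∑_{m = N1}^{n - 1} (f (m + 1) - f m)`, so both sums are linear combinations of the
counting functions of the intervals `(m, N2)`, for which the difference is at most `1` (`AR2a_card`). -/
theorem sum_class (f : ℕ → ℝ) (N1 N2 q r : ℕ) (hN : N1 ≤ N2) (hq : 0 < q) :
    |∑ n ∈ (Ico N1 N2).filter (fun n => n ≡ r [MOD q]), f n - (∑ n ∈ Ico N1 N2, f n) / q| ≤
      |f N1| + ∑ n ∈ Ico N1 N2, |f (n + 1) - f n| := by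
  rw [Ml1_abel f q r (N2 - N1) N1 N2 (by omega)]
  have hD : ∀ m : ℕ, m ≤ N2 → |Ml1_D N2 q r m| ≤ 1 := fun m hm => AR2a_card m N2 q r hm hq
  refine (abs_add_le _ _).trans (add_le_add ?_ ?_)
  · rw [abs_mul]
    exact mul_le_of_le_one_right (abs_nonneg _) (hD N1 hN)
  · refine (abs_sum_le_sum_abs _ _).trans (sum_le_sum fun n hn => ?_)
    rw [abs_mul]
    exact mul_le_of_le_one_right (abs_nonneg _) (hD (n + 1) (mem_Ico.1 hn).2)

end Pool.Agent.W33m
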