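import Pool.Agent.W_d33b62m_h36.Ma
import Pool.Agent.W_d33b62m_h36.Ml1

/-!
# Transfer for the integers with weights (MP_d33b62, T2, file Ml2)
-/

set_option autoImplicit false

noncomputable section

open Finset Filter

namespace Pool.Agent.W33m

open Pool.Agent.Wd33b62 (Pl PS xr nmS nm supp Sub dn fib era off FF lam zz AA BB SX QH GH TT0 HasExp conv Ex QOK
  qwt xwt EB Bd mem_PS)
open Pool.Agent.Wb58c63 (PI mem_PI VP aw ap XM Pr)
open Pool.Agent.M58 (lp' lm')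

open Pool.Agent.Wd33b62 (AR2a_card AR2a_nm_pos AR2a_xwt)

/-- **Transfer for the integers with weights**: as `tr_int` in `W_d33b62_h36/AR2a.lean`, with `sum_class` instead of
`AR2a_card` and `AR2a_class` of `Ma.lean`. -/
theorem trI {k : ℕ} (d : MD k) (z : ℝ) (q r N1 N2 : ℕ) (hN : N1 ≤ N2) (hq : 0 < q) (f : ℕ → ℝ)
    (α : (Pl d.w z → Option (Fin k)) → ℝ) (hα : ∀ σ, α σ ≠ 0 → q.Coprime (nm σ)) :
    |∑ n ∈ (Ico N1 N2).filter (fun n => n ≡ r [MOD q]), f n * ∑ σ ∈ dn (cM d z n), α σ -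
      (∑ n ∈ Ico N1 N2, f n) / q * ∑ σ, α σ * xwt (xr d.w z) σ| ≤
      (|f N1| + ∑ n ∈ Ico N1 N2, |f (n + 1) - f n|) * ∑ σ, |α σ| := by
  classical
  have hqR : (0 : ℝ) < q := by exact_mod_cast hq
  have h1 : ∑ n ∈ (Ico N1 N2).filter (fun n => n ≡ r [MOD q]), f n * ∑ σ ∈ dn (cM d z n), α σ =
      ∑ σ, α σ * ∑ n ∈ ((Ico N1 N2).filter (fun n => n ≡ r [MOD q])).filter
        (fun n => Sub σ (cM d z n)), f n := by
    have h2 : ∀ n, f n * ∑ σ ∈ dn (cM d z n), α σ = ∑ σ, if Sub σ (cM d z n) then α σ * f n else 0 := by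
      intro n
      unfold dn
      rw [Finset.mul_sum, Finset.sum_filter]
      refine Finset.sum_congr rfl fun σ _ => ?_
      split_ifs
      · ring
      · rfl
    simp only [h2]
    rw [Finset.sum_comm]
    refine Finset.sum_congr rfl fun σ _ => ?_
    rw [← Finset.sum_filter, Finset.mul_sum]
  rw [h1, Finset.mul_sum, Finset.mul_sum, ← Finset.sum_sub_distrib]
  refine (Finset.abs_sum_le_sum_abs _ _).trans (Finset.sum_le_sum fun σ _ => ?_)
  by_cases h0 : α σ = 0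
  · simp [h0]
  obtain ⟨b, hb⟩ := AR2a_class d z q r σ (hα σ h0)
  have h3 : ((Ico N1 N2).filter (fun n => n ≡ r [MOD q])).filter (fun n => Sub σ (cM d z n)) =
      (Ico N1 N2).filter (fun n => n ≡ b [MOD (q * nm σ)]) := by
    rw [Finset.filter_filter]
    refine Finset.filter_congr fun n _ => hb n
  rw [h3]
  have hnm := AR2a_nm_pos σ
  have hnmR : (0 : ℝ) < nm σ := by exact_mod_cast hnm
  have h4 := sum_class f N1 N2 (q * nm σ) b hN (Nat.mul_pos hq hnm)
  have h5 : α σ * ∑ n ∈ (Ico N1 N2).filter (fun n => n ≡ b [MOD (q * nm σ)]), f n -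
      (∑ n ∈ Ico N1 N2, f n) / q * (α σ * xwt (xr d.w z) σ) =
      α σ * (∑ n ∈ (Ico N1 N2).filter (fun n => n ≡ b [MOD (q * nm σ)]), f n -
        (∑ n ∈ Ico N1 N2, f n) / ((q * nm σ : ℕ) : ℝ)) := by
    rw [AR2a_xwt]
    push_cast
    field_simp
  rw [h5, abs_mul, mul_comm]
  exact mul_le_mul_of_nonneg_right h4 (abs_nonneg _)

end Pool.Agent.W33m
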