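import Pool.Agent.W_d33b62_h36.AR1a
import Pool.Agent.W_d33b62_h36.BV4
import Pool.Agent.W_d33b62_h36.BV3
import Pool.Agent.W_d33b62_h47.T1

/-!
# The rough sieve of Maynard and Pintz (MP_d33b62 full, section T2; helper36): definitions

`k` shifts `h i`, all primes `≤ w` divide the modulus `M`, the class is `b mod M`. Places are the primes in `(w, Y ^ th)`,
labels are the shifts. The primes in `(w, Y ^ c)` are treated with the fundamental lemma, the primes in `[Y ^ c, Y ^ th)`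
with the Selberg weights `FF` of the folder `W_d33b62_h36`.
-/

set_option autoImplicit false

noncomputable section

open Finset Filter

namespace Pool.Agent.W33m

open Pool.Agent.Wd33b62 (Pl PS xr nmS nm supp Sub dn fib era off FF lam zz AA BB SX QH GH TT0 HasExp conv Ex QOK
  qwt xwt EB Bd)
open Pool.Agent.Wb58c63 (PI VP aw ap XM Pr)
open Pool.Agent.M58 (lp' lm')

/-- The data: `k` different shifts `≤ w`, the modulus and the residue class. -/
structure MD (k : ℕ) where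
  h : Fin k → ℕ
  w : ℕ
  M : ℕ
  b : ℕ
  w_ge : 4 * k + 4 ≤ w
  h_inj : Function.Injective h
  h_le : ∀ i, h i ≤ w
  M_pos : 0 < M
  M_primes : ∀ p : ℕ, p.Prime → (p ∣ M ↔ p ≤ w)
  cop : ∀ i, (b + h i).Coprime M

open Classical in
/-- The labeling of `n`. -/
def cM {k : ℕ} (d : MD k) (z : ℝ) (n : ℕ) (p : Pl d.w z) : Option (Fin k) :=
  if h : ∃ v, p.1 ∣ n + d.h v then some h.choose else none

/-- The exponent of the level of the Selberg weights: `R = Y ^ th`. -/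
def th : ℝ := 249 / 1000

/-- The steps. -/
def tl (l : ℕ) : ℝ := 2 ^ l / 6200

/-- The heights: `cl 0 + … + cl 8 = 1`. -/
def cl (l : ℕ) : ℝ := if l = 8 then 1 / 2 ^ 8 else 1 / 2 ^ (l + 1)

section
variable {w : ℕ} {z : ℝ}

open Classical in
/-- The one-variable function `G`: a step function of `log (nmS S) / log R`, `0` unless all primes are `≥ z0`. -/
def GM (z0 R : ℝ) (S : Finset (Pl w z)) : ℝ :=
  if ∀ p ∈ S, z0 ≤ (p.1 : ℝ) then ∑ l ∈ range 9, cl l * (if (nmS S : ℝ) ≤ R ^ tl l then 1 else 0) else 0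

open Classical in
/-- The Selberg variables. -/
def yM (k : ℕ) (z0 R : ℝ) (κ : Pl w z → Option (Fin k)) : ℝ :=
  if (nm κ : ℝ) ≤ R then ∏ v, GM z0 R (fib κ v) else 0

/-- The cost `log (nmS S) / log R`. -/
def co (R : ℝ) (S : Finset (Pl w z)) : ℝ := Real.log (nmS S) / Real.log R

/-- The fundamental lemma weights of a labeling (`true`: upper bound, `false`: lower bound). -/
def LS {V : Type} (s : Bool) (z0 : ℝ) (b : ℕ) (c : Pl w z → Option V) : ℝ :=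
  ∑ S ∈ ((supp c).filter fun p => (p.1 : ℝ) < z0).powerset,
    (if s then lp' z0 b (S.image Subtype.val) else lm' z0 b (S.image Subtype.val))

open Classical in
/-- Their coefficients. -/
def aLS {V : Type} (s : Bool) (z0 : ℝ) (b : ℕ) (σ : Pl w z → Option V) : ℝ :=
  if ∀ p ∈ supp σ, (p.1 : ℝ) < z0 then
    (if s then lp' z0 b ((supp σ).image Subtype.val) else lm' z0 b ((supp σ).image Subtype.val)) else 0

/-- The model of the integers. -/
def q0 {k : ℕ} (p : Pl w z) (_ : Fin k) : ℝ := xr w z p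

/-- The model of the primes `n + h i`. -/
def qi {k : ℕ} (i : Fin k) (p : Pl w z) (v : Fin k) : ℝ := if v = i then 0 else 1 / ((p.1 : ℝ) - 1)
end

open Classical in
/-- The moments of the rough numbers up to `R ^ t`. -/
def mo (w : ℕ) (z : ℝ) (j : ℕ) (z0 R t : ℝ) : ℝ :=
  ∑ S : Finset (Pl w z), if (∀ p ∈ S, z0 ≤ (p.1 : ℝ)) ∧ (nmS S : ℝ) ≤ R ^ t then
    co R S ^ j * ∏ p ∈ S, xr w z p else 0

/-- `∏_{p < z0} (1 - 1 / p)`. -/
def P0 (z0 : ℝ) : ℝ := VP (fun p => 1 / (p : ℝ)) (PI 0 z0)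

/-- The normalisation: `log R ∏_{p < z0} (1 - 1 / p)`. -/
def La (z0 R : ℝ) : ℝ := Real.log R * P0 z0

/-- `∏_{w < p < z0} (1 - k / p)`. -/
def V1 (k w : ℕ) (z0 : ℝ) : ℝ := VP (fun p => (k : ℝ) / p) (PI ((w : ℝ) + 1) z0)

/-- `∏_{w < p < z0} (1 - (k - 1) / (p - 1))`. -/
def V2 (k w : ℕ) (z0 : ℝ) : ℝ := VP (fun p => ((k : ℝ) - 1) / ((p : ℝ) - 1)) (PI ((w : ℝ) + 1) z0)

/-- `A = ∑_S G(S) ^ 2 / nmS S`, `B = ∑_S G(S) / nmS S`, and the moments of the cost. -/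
def AM (w : ℕ) (c Y : ℝ) : ℝ := AA (xr w (Y ^ th)) (GM (Y ^ c) (Y ^ th))
def BM (w : ℕ) (c Y : ℝ) : ℝ := BB (xr w (Y ^ th)) (GM (Y ^ c) (Y ^ th))
def MM (j w : ℕ) (c Y : ℝ) : ℝ :=
  ∑ S : Finset (Pl w (Y ^ th)), co (Y ^ th) S ^ j * GM (Y ^ c) (Y ^ th) S ^ 2 * ∏ p ∈ S, xr w (Y ^ th) p

/-- The Selberg weight of a labeling. -/
def FW (k w : ℕ) (c Y : ℝ) (a : Pl w (Y ^ th) → Option (Fin k)) : ℝ :=
  FF (xr w (Y ^ th)) (yM k (Y ^ c) (Y ^ th)) a ^ 2

/-- The window. -/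
def IW (Y : ℝ) : Finset ℕ := Ico ⌊Y / 2⌋₊ ⌈2 * Y⌉₊

/-- The integers of the window in the class `b mod M`. -/
def WM {k : ℕ} (d : MD k) (Y : ℝ) : Finset ℕ := (IW Y).filter fun n => n ≡ d.b [MOD d.M]

/-- The primes in the class `b + h i mod M`. -/
def PM {k : ℕ} (d : MD k) (i : Fin k) (Y : ℝ) : Finset ℕ := (Pr Y).filter fun p => p ≡ d.b + d.h i [MOD d.M]

open Classical in
/-- The set of the theorem. -/
def GS {k : ℕ} (d : MD k) (c Y : ℝ) : Finset ℕ :=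
  (Ioc ⌊Y⌋₊ ⌊2 * Y⌋₊).filter fun n => n ≡ d.b [MOD d.M] ∧
    (∀ p : ℕ, p.Prime → d.w < p → (p : ℝ) < Y ^ c → ∀ l, ¬ p ∣ n + d.h l) ∧
    ∃ i j, i ≠ j ∧ (n + d.h i).Prime ∧ (n + d.h j).Prime

end Pool.Agent.W33m
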