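import Pool.Agent.W_d33b62m_h36.Mo

/-!
# The products over primes: an identity (MP_d33b62, T2, file Mp1)
-/

set_option autoImplicit false

noncomputable section

open Finset Filter

namespace Pool.Agent.W33m

open Pool.Agent.Wd33b62 (Pl PS xr nmS nm supp Sub dn fib era off FF lam zz AA BB SX QH GH TT0 HasExp conv Ex QOK
  qwt xwt EB Bd mem_PS)
open Pool.Agent.Wb58c63 (PI mem_PI VP aw ap XM Pr)
open Pool.Agent.M58 (lp' lm')

/-- `1 - (k - 1) / (p - 1) = (1 - k / p) / (1 - 1 / p)` and `φ(M) / M = ∏_{p ≤ w} (1 - 1 / p)`. -/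
theorem V_id {k : ℕ} (d : MD k) (z0 : ℝ) (hz : (d.w : ℝ) + 1 ≤ z0) :
    P0 z0 * V2 k d.w z0 / (d.M.totient : ℝ) = V1 k d.w z0 / d.M := by
  classical
  have hM0 : (d.M : ℝ) ≠ 0 := by exact_mod_cast d.M_pos.ne'
  -- the totient
  have htot : (d.M.totient : ℝ) = d.M * ∏ p ∈ d.M.primeFactors, (1 - 1 / (p : ℝ)) := by
    have h1 := Nat.totient_eq_mul_prod_factors d.M
    have h2 : ((d.M.totient : ℚ) : ℝ) = ((d.M * ∏ p ∈ d.M.primeFactors, (1 - (p : ℚ)⁻¹) : ℚ) : ℝ) := by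
      rw [h1]
    push_cast at h2
    simpa [one_div] using h2
  have hpf : (PI 0 z0).filter (fun p => p ≤ d.w) = d.M.primeFactors := by
    ext p
    rw [Finset.mem_filter, mem_PI, Nat.mem_primeFactors]
    constructor
    · rintro ⟨⟨hp, -, -⟩, hw⟩
      exact ⟨hp, (d.M_primes p hp).2 hw, d.M_pos.ne'⟩
    · rintro ⟨hp, hd, -⟩
      have hw := (d.M_primes p hp).1 hd
      have hwR : (p : ℝ) ≤ d.w := by exact_mod_cast hw
      exact ⟨⟨hp, Nat.cast_nonneg _, by linarith⟩, hw⟩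
  have hpf2 : (PI 0 z0).filter (fun p => ¬ p ≤ d.w) = PI ((d.w : ℝ) + 1) z0 := by
    ext p
    rw [Finset.mem_filter, mem_PI, mem_PI]
    constructor
    · rintro ⟨⟨hp, -, h2⟩, hw⟩
      refine ⟨hp, ?_, h2⟩
      have : d.w + 1 ≤ p := by omega
      exact_mod_cast this
    · rintro ⟨hp, h1, h2⟩
      refine ⟨⟨hp, Nat.cast_nonneg _, h2⟩, ?_⟩
      have : d.w + 1 ≤ p := by exact_mod_cast h1
      omega
  have hP0 : P0 z0 = (∏ p ∈ d.M.primeFactors, (1 - 1 / (p : ℝ))) *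
      ∏ p ∈ PI ((d.w : ℝ) + 1) z0, (1 - 1 / (p : ℝ)) := by
    unfold P0 VP
    rw [← Finset.prod_filter_mul_prod_filter_not (PI 0 z0) (fun p => p ≤ d.w), hpf, hpf2]
  have hne : ∏ p ∈ d.M.primeFactors, (1 - 1 / (p : ℝ)) ≠ 0 := by
    apply Finset.prod_ne_zero_iff.2
    intro p hp
    have hpp := Nat.prime_of_mem_primeFactors hp
    have h2 : (1 : ℝ) < p := by exact_mod_cast hpp.one_lt
    have h3 : 1 / (p : ℝ) < 1 := (div_lt_one (by linarith)).2 h2
    linarith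
  have hV : (∏ p ∈ PI ((d.w : ℝ) + 1) z0, (1 - 1 / (p : ℝ))) * V2 k d.w z0 = V1 k d.w z0 := by
    unfold V2 V1 VP
    rw [← Finset.prod_mul_distrib]
    refine Finset.prod_congr rfl fun p hp => ?_
    have hpp := (mem_PI.1 hp).1
    have h2 : (1 : ℝ) < p := by exact_mod_cast hpp.one_lt
    have h3 : (p : ℝ) ≠ 0 := by linarith
    have h4 : (p : ℝ) - 1 ≠ 0 := by linarith
    field_simp
    ring
  rw [hP0, htot, mul_assoc, hV, mul_comm (d.M : ℝ), mul_div_mul_left _ _ hne]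

end Pool.Agent.W33m
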