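import Pool.Agent.W_d33b62m_h36.Mo
import Pool.Agent.W_b58c63_h68.ArB

/-!
# The products over primes: bounds (MP_d33b62, T2, file Mp2)
-/

set_option autoImplicit false

noncomputable section

open Finset Filter

namespace Pool.Agent.W33m

open Pool.Agent.Wd33b62 (Pl PS xr nmS nm supp Sub dn fib era off FF lam zz AA BB SX QH GH TT0 HasExp conv Ex QOK
  qwt xwt EB Bd mem_PS)
open Pool.Agent.Wb58c63 (PI mem_PI VP aw ap XM Pr)
open Pool.Agent.M58 (lp' lm')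

private theorem Mp2_frac {k w : ℕ} (hw : 4 * k + 4 ≤ w) {z0 : ℝ} {p : ℕ} (hp : p ∈ PI ((w : ℝ) + 1) z0) :
    0 ≤ (k : ℝ) / p ∧ (k : ℝ) / p ≤ 1 / 2 ∧ (4 * k + 5 : ℝ) ≤ p := by
  have h := mem_PI.1 hp
  have h1 : ((w : ℝ) + 1) ≤ p := by tauto
  have h2 : (4 * k + 4 : ℝ) ≤ w := by exact_mod_cast hw
  have hk : (0 : ℝ) ≤ k := Nat.cast_nonneg k
  have h3 : (0 : ℝ) < p := by linarith
  refine ⟨by positivity, ?_, by linarith⟩
  rw [div_le_iff₀ h3]
  linarith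

/-- All factors of `V1` are between `1 / 2` and `1`. -/
theorem V1_pos (k w : ℕ) (hw : 4 * k + 4 ≤ w) (z0 : ℝ) : 0 < V1 k w z0 ∧ V1 k w z0 ≤ 1 := by
  unfold V1 VP
  constructor
  · refine Finset.prod_pos fun p hp => ?_
    have := Mp2_frac hw hp
    linarith [this.1, this.2.1]
  · refine Finset.prod_le_one (fun p hp => ?_) (fun p hp => ?_)
    · have := Mp2_frac hw hp
      linarith [this.1, this.2.1]
    · have := Mp2_frac hw hp
      linarith [this.1, this.2.1]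

/-- `V1 ≤ V2 ≤ 1`: the factors satisfy `(k - 1) / (p - 1) ≤ k / p`. -/
theorem V2_ge (k w : ℕ) (hk : 1 ≤ k) (hw : 4 * k + 4 ≤ w) (z0 : ℝ) : V1 k w z0 ≤ V2 k w z0 ∧ V2 k w z0 ≤ 1 := by
  have hk' : (1 : ℝ) ≤ k := by exact_mod_cast hk
  have key : ∀ p ∈ PI ((w : ℝ) + 1) z0, 0 ≤ 1 - (k : ℝ) / p ∧
      1 - (k : ℝ) / p ≤ 1 - ((k : ℝ) - 1) / ((p : ℝ) - 1) ∧ 1 - ((k : ℝ) - 1) / ((p : ℝ) - 1) ≤ 1 := by
    intro p hp
    obtain ⟨h1, h2, h3⟩ := Mp2_frac hw hp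
    have hp0 : (0 : ℝ) < p := by linarith
    have hp1 : (0 : ℝ) < (p : ℝ) - 1 := by linarith
    refine ⟨by linarith, ?_, ?_⟩
    · have : ((k : ℝ) - 1) / ((p : ℝ) - 1) ≤ (k : ℝ) / p := by
        rw [div_le_div_iff₀ hp1 hp0]
        nlinarith
      linarith
    · have : 0 ≤ ((k : ℝ) - 1) / ((p : ℝ) - 1) := div_nonneg (by linarith) hp1.le
      linarith
  unfold V1 V2 VP
  constructor
  · exact Finset.prod_le_prod (fun p hp => (key p hp).1) (fun p hp => (key p hp).2.1)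
  · exact Finset.prod_le_one (fun p hp => (key p hp).1.trans (key p hp).2.1) (fun p hp => (key p hp).2.2)

/-- `1 - k / p ≥ exp (- 2 k / p)` for `p ≥ 2 k` and `∑_{p < z} 1 / p ≤ log log z + C` (`mertens_two` in
`W_b58c63_h68/ArB.lean`). -/
theorem V1_ge (k w : ℕ) (hw : 4 * k + 4 ≤ w) (c : ℝ) (hc : 0 < c) (hc1 : c ≤ 1) : ∀ᶠ Y : ℝ in atTop,
    1 / Real.log Y ^ (2 * k + 1) ≤ V1 k w (Y ^ c) := by
  obtain ⟨C, hC, hM⟩ := Wb58c63.mertens_two
  set K : ℝ := 2 * k * (C / Real.log 2 - Real.log (Real.log 2)) with hK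
  have hlog : ∀ᶠ Y : ℝ in atTop, Real.exp K ≤ Real.log Y :=
    Real.tendsto_log_atTop.eventually_ge_atTop _
  have hpow : ∀ᶠ Y : ℝ in atTop, (2 : ℝ) ≤ Y ^ c :=
    (tendsto_rpow_atTop hc).eventually_ge_atTop _
  filter_upwards [hlog, hpow, eventually_ge_atTop (3 : ℝ)] with Y h1 h2 h3
  have hY0 : (0 : ℝ) < Y := by linarith
  have hlY : 0 < Real.log Y := (Real.exp_pos K).trans_le h1
  have hk0 : (0 : ℝ) ≤ k := Nat.cast_nonneg k
  have hl2 : 0 < Real.log 2 := Real.log_pos (by norm_num)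
  -- the sum over primes
  have hsum : ∑ p ∈ PI ((w : ℝ) + 1) (Y ^ c), (1 : ℝ) / p ≤ Real.log (Real.log Y) - Real.log (Real.log 2) +
      C / Real.log 2 := by
    have e1 : ∑ p ∈ PI ((w : ℝ) + 1) (Y ^ c), (1 : ℝ) / p ≤ ∑ p ∈ PI 2 (Y ^ c), (1 : ℝ) / p := by
      refine Finset.sum_le_sum_of_subset_of_nonneg ?_ fun p _ _ => by positivity
      intro p hp
      have h4 := mem_PI.1 hp
      have h5 := (Mp2_frac hw hp).2.2
      rw [mem_PI]
      have h6 : (2 : ℝ) ≤ p := by linarith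
      tauto
    have e2 := hM 2 (Y ^ c) le_rfl h2
    have e3 : Real.log (Real.log (Y ^ c) / Real.log 2) ≤ Real.log (Real.log Y) - Real.log (Real.log 2) := by
      rw [← Real.log_div hlY.ne' hl2.ne']
      have e4 : 0 < Real.log (Y ^ c) := Real.log_pos (by linarith)
      refine Real.log_le_log (by positivity) ?_
      refine div_le_div_of_nonneg_right ?_ hl2.le
      rw [Real.log_rpow hY0]
      nlinarith
    linarith
  -- the product
  have hprod : Real.exp (-(2 * k * ∑ p ∈ PI ((w : ℝ) + 1) (Y ^ c), (1 : ℝ) / p)) ≤ V1 k w (Y ^ c) := by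
    unfold V1 VP
    rw [Finset.mul_sum, ← Finset.sum_neg_distrib, Real.exp_sum]
    refine Finset.prod_le_prod (fun p _ => (Real.exp_pos _).le) fun p hp => ?_
    obtain ⟨h4, h5, h6⟩ := Mp2_frac hw hp
    have h7 : 0 < 1 - (k : ℝ) / p := by linarith
    rw [← Real.le_log_iff_exp_le h7]
    have h8 := Real.one_sub_inv_le_log_of_pos h7
    have h9 : -(2 * k * (1 / (p : ℝ))) = -(2 * ((k : ℝ) / p)) := by ring
    rw [h9]
    set t := (k : ℝ) / p with ht
    have h10 : (1 - t)⁻¹ ≤ 1 + 2 * t := by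
      rw [inv_le_iff_one_le_mul₀ h7]
      nlinarith
    linarith
  refine le_trans ?_ hprod
  have h4 : Real.exp (-K) * (Real.log Y)⁻¹ ^ (2 * k) ≤
      Real.exp (-(2 * k * ∑ p ∈ PI ((w : ℝ) + 1) (Y ^ c), (1 : ℝ) / p)) := by
    have e1 : (Real.log Y)⁻¹ ^ (2 * k) = Real.exp (-(2 * k * Real.log (Real.log Y))) := by
      rw [← Real.exp_log (inv_pos.2 hlY), ← Real.exp_nat_mul, Real.log_inv]
      push_cast
      ring_nf
    rw [e1, ← Real.exp_add]
    apply Real.exp_le_exp.2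
    have := mul_le_mul_of_nonneg_left hsum (by positivity : (0 : ℝ) ≤ 2 * k)
    rw [hK]
    linarith
  refine le_trans ?_ h4
  rw [pow_succ, one_div, mul_inv, ← inv_pow, mul_comm]
  refine mul_le_mul_of_nonneg_right ?_ (by positivity)
  rw [Real.exp_neg]
  exact inv_anti₀ (Real.exp_pos K) h1

end Pool.Agent.W33m
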