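import Pool.Agent.W_d33b62m_h36.Mb1
import Pool.Agent.W_d33b62m_h36.Mc1
import Pool.Agent.W_d33b62m_h36.Mc2

/-!
# The complete weight (MP_d33b62, T2, file Mq0)
-/

set_option autoImplicit false

noncomputable section

open Finset Filter

namespace Pool.Agent.W33m

open Pool.Agent.Wd33b62 (Pl PS xr nmS nm supp Sub dn fib era off FF lam zz AA BB SX QH GH TT0 HasExp conv Ex QOK
  qwt xwt EB Bd mem_PS)
open Pool.Agent.Wb58c63 (PI mem_PI VP aw ap XM Pr)
open Pool.Agent.M58 (lp' lm')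

/-- The complete weight of `n`. -/
def TW {k : ℕ} (s : Bool) (d : MD k) (b : ℕ) (c Y : ℝ) (n : ℕ) : ℝ :=
  LS s (Y ^ c) b (cM d (Y ^ th) n) * FW k d.w c Y (cM d (Y ^ th) n)

/-- The expectation of the complete weight factorizes: `Ex_indep` with the places `< Y ^ c`, `LS_congr`, `FW_congr`. -/
theorem Ex_TW (s : Bool) (k w b : ℕ) (c Y : ℝ) (q : Pl w (Y ^ th) → Fin k → ℝ) :
    Ex q (fun a => LS s (Y ^ c) b a * FW k w c Y a) = Ex q (LS s (Y ^ c) b) * Ex q (FW k w c Y) := by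
  classical
  refine Ex_indep q (Finset.univ.filter fun p : Pl w (Y ^ th) => (p.1 : ℝ) < Y ^ c)
    (LS s (Y ^ c) b) (FW k w c Y) ?_ ?_
  · intro a a' h
    exact LS_congr s (Y ^ c) b a a' fun p hp =>
      h p (Finset.mem_filter.2 ⟨Finset.mem_univ _, hp⟩)
  · intro a a' h
    exact FW_congr k w c Y a a' fun p hp =>
      h p fun hm => absurd (Finset.mem_filter.1 hm).2 (not_lt.2 hp)

end Pool.Agent.W33m
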