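import Pool.Agent.W_d33b62m_h36.Mq0
import Pool.Agent.W_d33b62m_h36.Mb3
import Pool.Agent.W_d33b62m_h36.Me
import Pool.Agent.W_d33b62m_h36.Mf1
import Pool.Agent.W_d33b62m_h36.Mk1
import Pool.Agent.W_d33b62m_h36.Ml2
import Pool.Agent.W_d33b62m_h36.Mp2
import Pool.Agent.W_d33b62_h36.AR3b

/-!
# The sum over the integers (MP_d33b62, T2, file Mq1)
-/

set_option autoImplicit false

noncomputable section

open Finset Filter

namespace Pool.Agent.W33m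

open Pool.Agent.Wd33b62 (Pl PS xr nmS nm supp Sub dn fib era off FF lam zz AA BB SX QH GH TT0 HasExp conv Ex QOK
  qwt xwt EB Bd mem_PS)
open Pool.Agent.Wb58c63 (PI mem_PI VP aw ap XM Pr)
open Pool.Agent.M58 (lp' lm')

theorem Mq1_cop {k : ℕ} (d : MD k) {z : ℝ} {V : Type} (σ : Pl d.w z → Option V) :
    d.M.Coprime (nm σ) := by
  unfold nm nmS
  refine Nat.Coprime.prod_right fun p _ => ?_
  have hp := (mem_PS (D0 := d.w) (z := z)).1 p.2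
  rw [Nat.coprime_comm, Nat.Prime.coprime_iff_not_dvd hp.1]
  intro h
  have := (d.M_primes p.1 hp.1).1 h
  omega

theorem Mq1_qwt {k w : ℕ} {z : ℝ} (σ : Pl w z → Option (Fin k)) :
    qwt (q0 (w := w) (z := z) (k := k)) σ = xwt (xr w z) σ := by
  unfold qwt xwt supp
  rw [Finset.prod_filter]
  refine Finset.prod_congr rfl fun i _ => ?_
  rcases h : σ i with _ | v
  · simp [Pool.Agent.Wd33b62.qv]
  · simp [Pool.Agent.Wd33b62.qv, q0]

theorem Mq1_sum {k w : ℕ} {z : ℝ} (p : Pl w z) : ∑ v, q0 (k := k) p v = (k : ℝ) / p.1 := by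
  simp only [q0, Finset.sum_const, Finset.card_univ, Fintype.card_fin, nsmul_eq_mul, xr]
  rw [mul_one_div]

theorem Mq1_ok {k w : ℕ} {z : ℝ} (hw : 4 * k + 4 ≤ w) : QOK (q0 (w := w) (z := z) (k := k)) := by
  constructor
  · intro p v
    exact (Pool.Agent.Wd33b62.xr_pos p).le
  · intro p
    rw [Mq1_sum, div_le_one]
    · have h := (mem_PS.1 p.2).2.1
      have h1 : k ≤ p.1 := by omega
      exact_mod_cast h1
    · exact_mod_cast (mem_PS.1 p.2).1.pos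

/-- The asymptotic inequality. -/
theorem Mq1_asymp (n : ℕ) (K : ℝ) (hK : 0 < K) :
    ∀ᶠ Y : ℝ in atTop, K * (1 + Real.log Y) ^ n * Y ^ (998 / 1000 : ℝ) ≤ Y := by
  have h1 := (isLittleO_log_rpow_rpow_atTop (n : ℝ) (show (0 : ℝ) < 2 / 1000 by norm_num)).def
    (show (0 : ℝ) < 1 / (K * 2 ^ n) by positivity)
  filter_upwards [h1, eventually_ge_atTop (Real.exp 1)] with Y hY hY8
  have he : 1 ≤ Real.exp 1 := Real.one_le_exp (by norm_num)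
  have hY1 : (1 : ℝ) ≤ Y := he.trans hY8
  have hY0 : (0 : ℝ) < Y := by linarith
  have hlog : 0 ≤ Real.log Y := Real.log_nonneg hY1
  have hlog1 : 1 ≤ Real.log Y := (Real.le_log_iff_exp_le hY0).2 hY8
  rw [Real.norm_of_nonneg (Real.rpow_nonneg hlog _), Real.norm_of_nonneg (Real.rpow_nonneg hY0.le _),
    Real.rpow_natCast] at hY
  have h2 : (1 + Real.log Y) ^ n ≤ 2 ^ n * Real.log Y ^ n := by
    rw [← mul_pow]
    exact pow_le_pow_left₀ (by linarith) (by linarith) n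
  have h3 : Y ^ (2 / 1000 : ℝ) * Y ^ (998 / 1000 : ℝ) = Y := by
    rw [← Real.rpow_add hY0]
    norm_num
  calc K * (1 + Real.log Y) ^ n * Y ^ (998 / 1000 : ℝ)
      ≤ K * (2 ^ n * (1 / (K * 2 ^ n) * Y ^ (2 / 1000 : ℝ))) * Y ^ (998 / 1000 : ℝ) := by
        have h4 := h2.trans (mul_le_mul_of_nonneg_left hY (by positivity : (0 : ℝ) ≤ 2 ^ n))
        gcongr
    _ = Y ^ (2 / 1000 : ℝ) * Y ^ (998 / 1000 : ℝ) := by field_simp
    _ = Y := h3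

/-- The length of the window. -/
theorem Mq1_len (Y : ℝ) (hY : 1 ≤ Y) : ⌊Y / 2⌋₊ ≤ ⌈2 * Y⌉₊ ∧ Y ≤ (⌈2 * Y⌉₊ : ℝ) - ⌊Y / 2⌋₊ := by
  have h2 : (⌊Y / 2⌋₊ : ℝ) ≤ Y / 2 := Nat.floor_le (by positivity)
  have h3 : 2 * Y ≤ (⌈2 * Y⌉₊ : ℝ) := Nat.le_ceil _
  have h4 : (⌊Y / 2⌋₊ : ℝ) ≤ (⌈2 * Y⌉₊ : ℝ) := by linarith
  exact ⟨by exact_mod_cast h4, by linarith⟩

theorem Mq1_sum_ge (κ : ℕ) (e Y : ℝ) (he : 0 < e) (hY : 1 ≤ Y) :
    e * Y ≤ ∑ n ∈ IW Y, (aw κ Y n + e) := by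
  obtain ⟨h1, h2⟩ := Mq1_len Y hY
  have h3 : ∑ n ∈ IW Y, e ≤ ∑ n ∈ IW Y, (aw κ Y n + e) :=
    Finset.sum_le_sum fun n _ => by
      have := Pool.Agent.Wb58c63.aw_nonneg κ Y hY n
      linarith
  refine le_trans ?_ h3
  rw [Finset.sum_const, nsmul_eq_mul, IW, Nat.card_Ico, Nat.cast_sub h1, mul_comm]
  exact mul_le_mul_of_nonneg_right h2 he.le

/-- **The sum over the integers.** `trI` with `q = M`, `r = b`, `f n = aw κ Y n + e`, `α = aT true` (`aT_hasExp`): the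
main term is `(∑ f) / M` times `∑ α σ xwt σ = Ex q0 (LS FW)` (`Ex_of_hasExp`, `qwt q0 = xwt`), which is
`Ex q0 LS * Ex q0 FW ≤ V1 (1 + C e^(-b)) AM ^ k` (`Ex_TW`, `Ex_LS_FL` with `κ = k`, `g p = k / p`, `EX1`); `b0` with
`C e^(-b0) ≤ ε / 2`. The error is `O(∑ |α|) = O((log Y)^(2 k) Y ^ (998 / 1000))` (`Bd_aT`, `sum_abs_le` in `AR3b.lean`,
`aw_tv`, `aw_le_two`), and `∑ f ≥ e Y`, `V1 ≥ (log Y)^(- 2 k - 1)` (`V1_ge`), `AM ≥ 1`. The coprimality of `M` and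
`nm σ`: all places are `> w`. `c0`: `c0 (4 b + 5) ≤ 1 / 1000`. -/
theorem S1_le (k : ℕ) (hk : 1 ≤ k) (ε : ℝ) (hε : 0 < ε) : ∃ b0 : ℕ, ∀ b ≥ b0, ∃ c0 : ℝ, 0 < c0 ∧
    ∀ c : ℝ, 0 < c → c ≤ c0 → ∀ (d : MD k) (κ : ℕ) (e : ℝ), 0 < e → ∀ᶠ Y : ℝ in atTop,
      ∑ n ∈ WM d Y, (aw κ Y n + e) * TW true d b c Y n ≤
        (1 + ε) * ((∑ n ∈ IW Y, (aw κ Y n + e)) / d.M) * V1 k d.w (Y ^ c) * AM d.w c Y ^ k := by
  obtain ⟨C1, hC1, hFL⟩ := Ex_LS_FL (k : ℝ) (Nat.cast_nonneg k)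
  -- the number `b0`
  obtain ⟨b0, hb0⟩ := exists_nat_gt (2 * C1 / ε)
  refine ⟨max 1 b0, fun b hb => ?_⟩
  have hb1 : 1 ≤ b := le_trans (le_max_left _ _) hb
  have hb2 : (b0 : ℝ) ≤ b := by exact_mod_cast le_trans (le_max_right _ _) hb
  have hCe : C1 * Real.exp (-(b : ℝ)) ≤ ε / 2 := by
    have h1 : (b : ℝ) ≤ Real.exp b := by
      have := Real.add_one_le_exp (b : ℝ)
      linarith
    have hbpos : (0 : ℝ) < b := by exact_mod_cast hb1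
    rw [Real.exp_neg, ← div_eq_mul_inv, div_le_iff₀ (Real.exp_pos _)]
    have h2 : 2 * C1 / ε ≤ b := hb0.le.trans hb2
    rw [div_le_iff₀ hε] at h2
    have h3 : (b : ℝ) * ε ≤ Real.exp b * ε := mul_le_mul_of_nonneg_right h1 hε.le
    linarith
  have hb5 : (0 : ℝ) < 4 * b + 5 := by positivity
  refine ⟨1 / (1000 * (4 * b + 5)), by positivity, fun c hc hc0 d κ e he => ?_⟩
  have hcb : c * (4 * b + 5) ≤ 1 / 1000 := by
    calc c * (4 * b + 5) ≤ 1 / (1000 * (4 * b + 5)) * (4 * b + 5) :=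
          mul_le_mul_of_nonneg_right hc0 hb5.le
      _ = 1 / 1000 := by field_simp
  have hc1 : c ≤ 1 / 1000 := by
    have h1 : c * 1 ≤ c * (4 * b + 5) := mul_le_mul_of_nonneg_left (by linarith [hb5]) hc.le
    linarith
  obtain ⟨C', hC', hsum⟩ := Pool.Agent.Wd33b62.sum_abs_le (Fin k) 10 (by norm_num)
  obtain ⟨C2, hC2, htv⟩ := aw_tv κ
  obtain ⟨Y0, hY01, hY0⟩ := Pool.Agent.Wd33b62.aw_le_two κ
  have hM : (0 : ℝ) < d.M := by exact_mod_cast d.M_pos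
  have hw : 4 * k + 4 ≤ d.w := d.w_ge
  filter_upwards [htv, eventually_ge_atTop Y0, eventually_ge_atTop (1 : ℝ),
    V1_ge k d.w hw c hc (by linarith), (tendsto_rpow_atTop hc).eventually_ge_atTop 2,
    Mq1_asymp (2 * k + (2 * k + 1)) ((2 + e + C2) * C' * (d.M / (e * (ε / 2)))) (by positivity)]
    with Y htvY hYY0 hY1 hV hYc hasym
  have hY0' : (0 : ℝ) < Y := by linarith
  have hlog : 0 ≤ Real.log Y := Real.log_nonneg hY1
  obtain ⟨hN, hlen⟩ := Mq1_len Y hY1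
  set S := ∑ n ∈ IW Y, (aw κ Y n + e) with hS
  have hSY : e * Y ≤ S := Mq1_sum_ge κ e Y he hY1
  have hS0 : 0 < S := lt_of_lt_of_le (by positivity) hSY
  -- the sum
  have h1 : ∑ n ∈ WM d Y, (aw κ Y n + e) * TW true d b c Y n =
      ∑ n ∈ (Ico ⌊Y / 2⌋₊ ⌈2 * Y⌉₊).filter (fun n => n ≡ d.b [MOD d.M]),
        (aw κ Y n + e) * ∑ σ ∈ dn (cM d (Y ^ th) n), aT true k d.w b c Y σ := by
    unfold WM IW
    refine Finset.sum_congr rfl fun n _ => ?_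
    rw [← aT_hasExp true k d.w b c Y (cM d (Y ^ th) n)]
    rfl
  have h2 := trI d (Y ^ th) d.M d.b ⌊Y / 2⌋₊ ⌈2 * Y⌉₊ hN d.M_pos (fun n => aw κ Y n + e)
    (aT true k d.w b c Y) (fun σ _ => Mq1_cop d σ)
  have hSS : ∑ n ∈ Ico ⌊Y / 2⌋₊ ⌈2 * Y⌉₊, (aw κ Y n + e) = S := rfl
  simp only [hSS] at h2
  rw [← h1] at h2
  -- the main term
  have h3 : ∑ σ, aT true k d.w b c Y σ * xwt (xr d.w (Y ^ th)) σ =
      Ex (q0 (w := d.w) (z := Y ^ th) (k := k)) (LS true (Y ^ c) b) *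
        Ex (q0 (w := d.w) (z := Y ^ th) (k := k)) (FW k d.w c Y) := by
    rw [← Ex_TW, Pool.Agent.Wd33b62.Ex_of_hasExp _ (aT_hasExp true k d.w b c Y)]
    exact Finset.sum_congr rfl fun σ _ => by rw [Mq1_qwt]
  have hz : Y ^ c ≤ Y ^ th := Real.rpow_le_rpow_of_exponent_le hY1 (by unfold th; linarith)
  have h4 : Ex (q0 (w := d.w) (z := Y ^ th) (k := k)) (LS true (Y ^ c) b) ≤
      V1 k d.w (Y ^ c) * (1 + ε / 2) := by
    have h5 := (hFL d.w (Y ^ th) (Y ^ c) b k q0 (fun p => (k : ℝ) / p) hYc hz hb1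
      (fun p => Mq1_sum p) (fun p hp => by
        obtain ⟨hp1, hp2, _⟩ := mem_PI.1 hp
        have h6 : (4 * k + 4 : ℝ) ≤ d.w := by exact_mod_cast hw
        have h7 : (0 : ℝ) < p := by exact_mod_cast hp1.pos
        refine ⟨by positivity, ?_, le_rfl⟩
        rw [div_le_iff₀ h7]
        have : (0 : ℝ) ≤ k := Nat.cast_nonneg k
        linarith)).1
    refine h5.trans ?_
    have h6 := (V1_pos k d.w hw (Y ^ c)).1
    unfold V1 at h6 ⊢
    exact mul_le_mul_of_nonneg_left (by linarith) h6.le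
  have h5 := EX1 k d.w hk (by omega) c Y
  have h6 := Ex_FW_nonneg k d.w c Y q0 (Mq1_ok hw)
  have hV0 := (V1_pos k d.w hw (Y ^ c)).1
  have h7 : ∑ σ, aT true k d.w b c Y σ * xwt (xr d.w (Y ^ th)) σ ≤
      V1 k d.w (Y ^ c) * (1 + ε / 2) * AM d.w c Y ^ k := by
    rw [h3]
    exact (mul_le_mul_of_nonneg_right h4 h6).trans
      (mul_le_mul_of_nonneg_left h5 (by positivity))
  -- the error
  have hBd := Bd_aT true k d.w b (by omega) c Y hY1 hcb hYc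
  have h8 : ∑ σ, |aT true k d.w b c Y σ| ≤ C' * (1 + Real.log Y) ^ (2 * k) * Y ^ (998 / 1000 : ℝ) := by
    have h9 := hsum d.w (Y ^ th) (aT true k d.w b c Y) (Y ^ (499 / 1000 : ℝ)) ((1 + Real.log Y) ^ (2 * k))
      (Real.one_le_rpow hY1 (by norm_num)) (by positivity) hBd
    refine h9.trans (le_of_eq ?_)
    rw [← Real.rpow_natCast (Y ^ (499 / 1000 : ℝ)) 2, ← Real.rpow_mul hY0'.le]
    norm_num
  have h9 : |aw κ Y ⌊Y / 2⌋₊ + e| + ∑ n ∈ Ico ⌊Y / 2⌋₊ ⌈2 * Y⌉₊, |aw κ Y (n + 1) + e - (aw κ Y n + e)| ≤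
      2 + e + C2 := by
    have h10 : |aw κ Y ⌊Y / 2⌋₊ + e| ≤ 2 + e := by
      have h11 := hY0 Y hYY0 ⌊Y / 2⌋₊
      have h12 := Pool.Agent.Wb58c63.aw_nonneg κ Y hY1 ⌊Y / 2⌋₊
      rw [abs_of_nonneg (by linarith)]
      linarith
    have h11 : ∑ n ∈ Ico ⌊Y / 2⌋₊ ⌈2 * Y⌉₊, |aw κ Y (n + 1) + e - (aw κ Y n + e)| ≤ C2 := by
      refine le_trans (le_of_eq ?_) htvY
      refine Finset.sum_congr rfl fun n _ => ?_
      rw [add_sub_add_right_eq_sub]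
    linarith
  have hA : 1 ≤ AM d.w c Y := one_le_AM d.w c Y hY1
  have h10 : (|aw κ Y ⌊Y / 2⌋₊ + e| + ∑ n ∈ Ico ⌊Y / 2⌋₊ ⌈2 * Y⌉₊, |aw κ Y (n + 1) + e - (aw κ Y n + e)|) *
      ∑ σ, |aT true k d.w b c Y σ| ≤ ε / 2 * (S / d.M) * V1 k d.w (Y ^ c) * AM d.w c Y ^ k := by
    have h11 : (|aw κ Y ⌊Y / 2⌋₊ + e| + ∑ n ∈ Ico ⌊Y / 2⌋₊ ⌈2 * Y⌉₊, |aw κ Y (n + 1) + e - (aw κ Y n + e)|) *
        ∑ σ, |aT true k d.w b c Y σ| ≤ (2 + e + C2) * (C' * (1 + Real.log Y) ^ (2 * k) * Y ^ (998 / 1000 : ℝ)) :=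
      mul_le_mul h9 h8 (Finset.sum_nonneg fun _ _ => abs_nonneg _) (by positivity)
    refine h11.trans ?_
    have h12 : ε / 2 * (S / d.M) * V1 k d.w (Y ^ c) * 1 ≤
        ε / 2 * (S / d.M) * V1 k d.w (Y ^ c) * AM d.w c Y ^ k :=
      mul_le_mul_of_nonneg_left (one_le_pow₀ hA) (by positivity)
    refine le_trans ?_ h12
    have hL1 : 0 < 1 + Real.log Y := by linarith
    have h13 : ε / 2 * (e * Y / d.M) * (1 / (1 + Real.log Y) ^ (2 * k + 1)) ≤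
        ε / 2 * (S / d.M) * V1 k d.w (Y ^ c) := by
      have h14 : 1 / (1 + Real.log Y) ^ (2 * k + 1) ≤ V1 k d.w (Y ^ c) := by
        by_cases hl : Real.log Y = 0
        · exfalso
          have : Y = 1 := by
            have := Real.exp_log hY0'
            rw [hl, Real.exp_zero] at this
            exact this.symm
          rw [this, Real.one_rpow] at hYc
          norm_num at hYc
        · have hl' : 0 < Real.log Y := lt_of_le_of_ne hlog (Ne.symm hl)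
          refine le_trans ?_ hV
          exact one_div_le_one_div_of_le (by positivity) (pow_le_pow_left₀ hl'.le (by linarith) _)
      gcongr
    rw [mul_one]
    refine le_trans ?_ h13
    have h15 : (2 + e + C2) * (C' * (1 + Real.log Y) ^ (2 * k) * Y ^ (998 / 1000 : ℝ)) =
        ((2 + e + C2) * C' * (d.M / (e * (ε / 2))) * (1 + Real.log Y) ^ (2 * k + (2 * k + 1)) *
          Y ^ (998 / 1000 : ℝ)) * ((e * (ε / 2)) / d.M * (1 / (1 + Real.log Y) ^ (2 * k + 1))) := by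
      rw [pow_add _ (2 * k) (2 * k + 1)]
      field_simp
    rw [h15]
    refine (mul_le_mul_of_nonneg_right hasym (by positivity)).trans (le_of_eq ?_)
    ring
  -- conclusion
  have h11 := (abs_le.1 h2).2
  have h12 : S / d.M * ∑ σ, aT true k d.w b c Y σ * xwt (xr d.w (Y ^ th)) σ ≤
      S / d.M * (V1 k d.w (Y ^ c) * (1 + ε / 2) * AM d.w c Y ^ k) :=
    mul_le_mul_of_nonneg_left h7 (by positivity)
  have h13 : S / d.M * (V1 k d.w (Y ^ c) * (1 + ε / 2) * AM d.w c Y ^ k) +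
      ε / 2 * (S / d.M) * V1 k d.w (Y ^ c) * AM d.w c Y ^ k =
      (1 + ε) * (S / d.M) * V1 k d.w (Y ^ c) * AM d.w c Y ^ k := by ring
  linarith

end Pool.Agent.W33m
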