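import Pool.Agent.W_d33b62m_h36.Mq0
import Pool.Agent.W_d33b62m_h36.Mb3
import Pool.Agent.W_d33b62m_h36.Me
import Pool.Agent.W_d33b62m_h36.Ma
import Pool.Agent.W_d33b62m_h36.Mk1
import Pool.Agent.W_d33b62m_h36.Mp2
import Pool.Agent.W_d33b62_h36.AR3b
import Pool.Agent.W_d33b62_h36.BV3

/-!
# The sums over the primes (MP_d33b62, T2, file Mq2)
-/

set_option autoImplicit false

noncomputable section

open Finset Filter

namespace Pool.Agent.W33m

open Pool.Agent.Wd33b62 (Pl PS xr nmS nm supp Sub dn fib era off FF lam zz AA BB SX QH GH TT0 HasExp conv Ex QOK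
  qwt xwt EB Bd mem_PS)
open Pool.Agent.Wb58c63 (PI mem_PI VP aw ap XM Pr)
open Pool.Agent.M58 (lp' lm')

theorem Mq2_sumq {k w : ℕ} {z : ℝ} (i : Fin k) (p : Pl w z) :
    ∑ v, qi i p v = ((k : ℝ) - 1) / ((p.1 : ℝ) - 1) := by
  unfold qi
  obtain ⟨a, ha⟩ : ∃ a : ℝ, a = 1 / ((p.1 : ℝ) - 1) := ⟨_, rfl⟩
  rw [← ha]
  have h1 : ∀ v : Fin k, (if v = i then (0 : ℝ) else a) = a - if v = i then a else 0 := by
    intro v
    split_ifs <;> ring
  rw [Finset.sum_congr rfl (fun v _ => h1 v), Finset.sum_sub_distrib, Finset.sum_const,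
    Finset.sum_ite_eq' Finset.univ i (fun _ => a), if_pos (Finset.mem_univ i), Finset.card_univ,
    Fintype.card_fin, nsmul_eq_mul, ha]
  ring

theorem Mq2_qwt {k w : ℕ} {z : ℝ} (i : Fin k) (σ : Pl w z → Option (Fin k)) (h : ∀ p, σ p ≠ some i) :
    qwt (qi i) σ = ∏ p ∈ supp σ, 1 / ((p.1 : ℝ) - 1) := by
  unfold Pool.Agent.Wd33b62.qwt
  rw [← Finset.prod_subset (Finset.subset_univ (supp σ))]
  · refine Finset.prod_congr rfl fun p hp => ?_
    rcases hs : σ p with _ | v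
    · exact absurd hs (mem_filter.1 hp).2
    · show qi i p v = _
      unfold qi
      rw [if_neg]
      rintro rfl
      exact h p hs
  · intro p _ hp
    rcases hs : σ p with _ | v
    · rfl
    · exfalso
      apply hp
      unfold supp
      rw [mem_filter, hs]
      exact ⟨mem_univ _, by simp⟩

/-- A prime `p > z` has no prime factor `< z`: the label `i` does not occur. -/
theorem Mq2_era {k : ℕ} (d : MD k) (z : ℝ) (i : Fin k) (p : ℕ) (hp : p.Prime) (hz : z ≤ p) (hi : d.h i ≤ p) :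
    era {i} (cM d z (p - d.h i)) = cM d z (p - d.h i) := by
  funext q
  unfold Pool.Agent.Wd33b62.era
  cases hq : cM d z (p - d.h i) q with
  | none => rfl
  | some v =>
    have hv : v ∉ ({i} : Finset (Fin k)) := by
      intro hv
      rw [Finset.mem_singleton] at hv
      rw [hv] at hq
      have h1 := (cc_iff d z (p - d.h i) q i).1 hq
      rw [Nat.sub_add_cancel hi] at h1
      have h2 := mem_PS.1 q.2
      have h3 := (Nat.prime_dvd_prime_iff_eq h2.1 hp).1 h1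
      have h4 : (q.1 : ℝ) < z := h2.2.2
      rw [h3] at h4
      linarith
    simp [Option.filter, hv]

/-- **The sums over the primes.** For `p ∈ PM d i Y` with `ap κ Y p ≠ 0` the prime `p > Y` is larger than all places, so
the label `i` does not occur in `cM d z (p - h i)` and one may replace the coefficients `α = aT false` by their restriction to
the labelings without the label `i` (`HasExp.era`, `era {i} c = c`). `tr_prime` in `Ma.lean`: the main term is `XM / φ(M)`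
times `∑ α σ ∏ 1 / (p - 1) = Ex (qi i) (LS FW) = Ex LS Ex FW`, `Ex LS ≥ V2 (1 - C e^(-b))` (`Ex_LS_FL` with `κ = k`,
`g p = (k - 1) / (p - 1)`), `Ex FW ≥ 0`. The error is `∑ |α σ| EB κ Y (M nm σ)`: `Bd_aT`, `sum_EB_le` in `AR3b.lean` and
`BVC` with `A = 4 k + 3`, `b = 10 k`, level `Y ^ (499 / 1000)`, `κ ≥ κ0`: it is `O(Y (log Y)^(- 2 k - 3))`, and
`XM ≥ c Y` (`XM_ge'`), `V2 ≥ V1 ≥ (log Y)^(- 2 k - 1)`. -/
theorem S2_ge (k : ℕ) (hk : 1 ≤ k) (ε : ℝ) (hε : 0 < ε) : ∃ b0 : ℕ, ∀ b ≥ b0, ∃ c0 : ℝ, 0 < c0 ∧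
    ∀ c : ℝ, 0 < c → c ≤ c0 → ∀ d : MD k, ∃ κ0 : ℕ, ∀ κ ≥ κ0, ∀ᶠ Y : ℝ in atTop, ∀ i : Fin k,
      XM κ Y / (d.M.totient : ℝ) * V2 k d.w (Y ^ c) *
        ((1 - ε) * Ex (qi (w := d.w) (z := Y ^ th) i) (FW k d.w c Y) - ε) ≤
        ∑ p ∈ PM d i Y, ap κ Y p * TW false d b c Y (p - d.h i) := by
  obtain ⟨C, hC1, hFL⟩ := Ex_LS_FL (k : ℝ) (Nat.cast_nonneg k)
  obtain ⟨b0, hb0⟩ : ∃ b0 : ℕ, ∀ b : ℕ, b0 ≤ b → 1 ≤ b ∧ C * Real.exp (-(b : ℝ)) ≤ ε := by
    have h1 : Tendsto (fun b : ℕ => C * Real.exp (-(b : ℝ))) atTop (nhds (C * 0)) := by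
      refine Tendsto.const_mul C ?_
      exact Real.tendsto_exp_neg_atTop_nhds_zero.comp tendsto_natCast_atTop_atTop
    rw [mul_zero] at h1
    obtain ⟨b1, hb1⟩ := eventually_atTop.1 (h1.eventually (ge_mem_nhds hε))
    exact ⟨max 1 b1, fun b hb => ⟨(le_max_left _ _).trans hb, hb1 b ((le_max_right _ _).trans hb)⟩⟩
  refine ⟨b0, fun b hb => ?_⟩
  obtain ⟨hb1, hbε⟩ := hb0 b hb
  have hb1' : (1 : ℝ) ≤ b := by exact_mod_cast hb1
  refine ⟨1 / (1000 * (4 * b + 5)), by positivity, fun c hc hc0 d => ?_⟩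
  have hcb : c * (4 * b + 5) ≤ 1 / 1000 := by
    rw [le_div_iff₀ (by positivity)] at hc0
    linarith
  have hcth : c ≤ th := by
    unfold th
    nlinarith
  have hc1 : c ≤ 1 := by
    have : th ≤ 1 := by unfold th; norm_num
    linarith
  have hw1 : 1 ≤ d.w := by
    have := d.w_ge
    omega
  obtain ⟨c1, hc1', hXM'⟩ := Pool.Agent.Wd33b62.XM_ge'
  have hcard : 1 ≤ 10 * Fintype.card (Fin k) := by
    rw [Fintype.card_fin]
    omega
  obtain ⟨κ0, hκ0⟩ := Pool.Agent.Wd33b62.BVC (4 * k + 3) (10 * Fintype.card (Fin k)) hcard (1 / 1000)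
    (by norm_num) (by norm_num) d.M d.M_pos
  refine ⟨κ0, fun κ hκ => ?_⟩
  obtain ⟨C2, hC2, hBV⟩ := hκ0 κ hκ
  obtain ⟨Y₀, hY₀, hXM⟩ := hXM' κ
  have hφ : (0 : ℝ) < (d.M.totient : ℝ) := by exact_mod_cast Nat.totient_pos.2 d.M_pos
  have hlogev : ∀ᶠ Y : ℝ in atTop, 4 ^ k * C2 * (d.M.totient : ℝ) / (c1 * ε) ≤ Real.log Y :=
    Real.tendsto_log_atTop.eventually_ge_atTop _
  have hlog1 : ∀ᶠ Y : ℝ in atTop, 1 ≤ Real.log Y := Real.tendsto_log_atTop.eventually_ge_atTop _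
  have hYc : ∀ᶠ Y : ℝ in atTop, 2 ≤ Y ^ c := (tendsto_rpow_atTop hc).eventually_ge_atTop _
  filter_upwards [hlogev, hlog1, hYc, V1_ge k d.w d.w_ge c hc hc1, eventually_ge_atTop Y₀,
    eventually_ge_atTop (3 : ℝ), eventually_ge_atTop (d.w : ℝ)] with Y hlog hl1 hY2c hV1 hYY hY3 hYD i
  have hY1 : 1 ≤ Y := by linarith
  have hY0 : 0 < Y := by linarith
  have hl0 : 0 < Real.log Y := by linarith
  have hYth : Y ^ th ≤ Y := by
    calc Y ^ th ≤ Y ^ (1 : ℝ) := Real.rpow_le_rpow_of_exponent_le hY1 (by unfold th; norm_num)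
      _ = Y := Real.rpow_one Y
  have hcz : Y ^ c ≤ Y ^ th := Real.rpow_le_rpow_of_exponent_le hY1 hcth
  -- the expansion
  obtain ⟨G, hGd⟩ : ∃ G : (Pl d.w (Y ^ th) → Option (Fin k)) → ℝ,
    G = fun a => LS false (Y ^ c) b a * FW k d.w c Y a := ⟨_, rfl⟩
  have hexp : HasExp G (aT false k d.w b c Y) := by
    rw [hGd]
    exact aT_hasExp false k d.w b c Y
  have hBd0 := Bd_aT false k d.w b hw1 c Y hY1 hcb hY2c
  obtain ⟨α, hvan, h1, hB1⟩ : ∃ α : (Pl d.w (Y ^ th) → Option (Fin k)) → ℝ,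
      (∀ σ, α σ ≠ 0 → ∀ p, σ p ≠ some i) ∧ HasExp (fun a => G (era {i} a)) α ∧
      Bd α (Y ^ (499 / 1000 : ℝ)) ((1 + Real.log Y) ^ (2 * k)) 10 := by
    refine ⟨_, ?_, hexp.era {i}, ?_⟩
    · intro σ hσ p hp
      exact hσ (if_neg fun h => h p i hp (Finset.mem_singleton_self i))
    · convert Pool.Agent.Wd33b62.Bd.ite hBd0 (by positivity) (by norm_num)
        (fun σ => ∀ (p : Pl d.w (Y ^ th)) (v : Fin k), σ p = some v → v ∉ ({i} : Finset (Fin k)))
  -- transfer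
  have hT := tr_prime d (Y ^ th) κ Y i hY1 hYth hYD α hvan
  have hQH := QH_qi k d.w d.w_ge (Y ^ th) i
  have hQOK : QOK (qi (w := d.w) (z := Y ^ th) i) := ⟨hQH.q_nonneg, hQH.q_sum⟩
  have hmain : ∑ σ, α σ * ∏ p ∈ supp σ, 1 / ((p.1 : ℝ) - 1) =
      Ex (qi (w := d.w) (z := Y ^ th) i) (LS false (Y ^ c) b) *
        Ex (qi (w := d.w) (z := Y ^ th) i) (FW k d.w c Y) := by
    rw [← Ex_TW false k d.w b c Y (qi i)]
    have h3 := Pool.Agent.Wd33b62.Ex_of_hasExp (qi (w := d.w) (z := Y ^ th) i) h1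
    have h4 : Ex (qi (w := d.w) (z := Y ^ th) i) (fun a => G (era {i} a)) =
        Ex (qi (w := d.w) (z := Y ^ th) i) (fun a => LS false (Y ^ c) b a * FW k d.w c Y a) := by
      refine Pool.Agent.Wd33b62.Ex_congr fun a ha => ?_
      rw [Pool.Agent.Wd33b62.era_of_prb (U := {i}) (fun p v hv => by
        rw [Finset.mem_singleton] at hv
        rw [hv]
        unfold qi
        rw [if_pos rfl]) a ha, hGd]
    rw [← h4, h3]
    refine Finset.sum_congr rfl fun σ _ => ?_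
    by_cases hσ : α σ = 0
    · rw [hσ, zero_mul, zero_mul]
    · rw [Mq2_qwt i σ (hvan σ hσ)]
  have hsum : ∑ p ∈ PM d i Y, ap κ Y p * ∑ σ ∈ dn (cM d (Y ^ th) (p - d.h i)), α σ =
      ∑ p ∈ PM d i Y, ap κ Y p * TW false d b c Y (p - d.h i) := by
    refine Finset.sum_congr rfl fun p hp => ?_
    by_cases h0 : ap κ Y p = 0
    · rw [h0, zero_mul, zero_mul]
    · have h2 : aw κ Y p ≠ 0 := by
        intro h2
        apply h0
        unfold Pool.Agent.Wb58c63.ap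
        rw [h2, zero_mul]
      have h3 := (Pool.Agent.Wb58c63.aw_support κ Y hY1 p h2).1
      have hpp : p.Prime := by
        unfold PM Pool.Agent.Wb58c63.Pr at hp
        exact (Finset.mem_filter.1 (Finset.mem_filter.1 hp).1).2
      have h4 : d.h i ≤ p := by
        have h5 : (d.h i : ℝ) ≤ d.w := by exact_mod_cast d.h_le i
        have h6 : (d.h i : ℝ) ≤ p := by linarith
        exact_mod_cast h6
      rw [← h1 (cM d (Y ^ th) (p - d.h i))]
      show ap κ Y p * G (era {i} (cM d (Y ^ th) (p - d.h i))) = _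
      rw [Mq2_era d (Y ^ th) i p hpp (by linarith) h4, hGd]
      rfl
  have hErr : ∑ σ, |α σ| * EB κ Y (d.M * nm σ) ≤
      (1 + Real.log Y) ^ (2 * k) * (C2 * Y / Real.log Y ^ (4 * k + 3)) := by
    have h3 := Pool.Agent.Wd33b62.sum_EB_le α (Y ^ (499 / 1000 : ℝ)) ((1 + Real.log Y) ^ (2 * k)) 10
      (by norm_num) (by positivity) (by exact_mod_cast hB1) d.M (fun p hp h => (d.M_primes p hp).1 h) κ Y
    have h4 := hBV Y ⌊Y ^ (499 / 1000 : ℝ)⌋₊ hY3 (by
      have h5 : (1 / 2 - 1 / 1000 : ℝ) = 499 / 1000 := by norm_num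
      rw [h5]
      exact Nat.floor_le (by positivity))
    exact h3.trans (mul_le_mul_of_nonneg_left h4 (by positivity))
  rw [hsum, hmain] at hT
  -- the fundamental lemma
  obtain ⟨q, hq⟩ : ∃ q : Pl d.w (Y ^ th) → Fin k → ℝ, q = qi i := ⟨_, rfl⟩
  rw [← hq] at hT hQOK ⊢
  have hw4 : (4 : ℝ) * k + 4 ≤ d.w := by exact_mod_cast d.w_ge
  have hk1 : (1 : ℝ) ≤ k := by exact_mod_cast hk
  have hLS := (hFL d.w (Y ^ th) (Y ^ c) b k q (fun p => ((k : ℝ) - 1) / ((p : ℝ) - 1)) hY2c hcz hb1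
    (fun p => by rw [hq]; exact Mq2_sumq i p) (by
      intro p hp
      have h2 := (mem_PI.1 hp).2.1
      have h3 : (4 : ℝ) * k + 4 ≤ p := by linarith
      have h4 : (0 : ℝ) < (p : ℝ) - 1 := by linarith
      have h5 : (0 : ℝ) < p := by linarith
      refine ⟨div_nonneg (by linarith) h4.le, ?_, ?_⟩
      · show ((k : ℝ) - 1) / ((p : ℝ) - 1) ≤ 3 / 4
        rw [div_le_iff₀ h4]
        linarith
      · show ((k : ℝ) - 1) / ((p : ℝ) - 1) ≤ k / p
        rw [div_le_div_iff₀ h4 h5]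
        nlinarith)).2
  have hV2d : VP (fun p => ((k : ℝ) - 1) / ((p : ℝ) - 1)) (PI ((d.w : ℝ) + 1) (Y ^ c)) = V2 k d.w (Y ^ c) := rfl
  rw [hV2d] at hLS
  obtain ⟨V, hV⟩ : ∃ V, V = V2 k d.w (Y ^ c) := ⟨_, rfl⟩
  have hVV := V2_ge k d.w hk d.w_ge (Y ^ c)
  rw [← hV] at hLS hVV ⊢
  have hV1' : 1 / Real.log Y ^ (2 * k + 1) ≤ V := hV1.trans hVV.1
  have hV0 : 0 < V := lt_of_lt_of_le (by positivity) hV1'
  obtain ⟨E, hE⟩ : ∃ E, E = Ex q (FW k d.w c Y) := ⟨_, rfl⟩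
  have hE0 : 0 ≤ E := by
    rw [hE]
    exact Ex_FW_nonneg k d.w c Y q hQOK
  rw [← hE] at hT ⊢
  obtain ⟨L, hL⟩ : ∃ L, L = Ex q (LS false (Y ^ c) b) := ⟨_, rfl⟩
  rw [← hL] at hT hLS
  obtain ⟨X, hX⟩ : ∃ X, X = XM κ Y / (d.M.totient : ℝ) := ⟨_, rfl⟩
  have hXlow : c1 * Y / (d.M.totient : ℝ) ≤ X := by
    rw [hX]
    exact div_le_div_of_nonneg_right (hXM Y hYY) hφ.le
  have hX0 : 0 ≤ X := le_trans (by positivity) hXlow
  rw [← hX] at hT ⊢
  obtain ⟨S, hS⟩ : ∃ S, S = ∑ p ∈ PM d i Y, ap κ Y p * TW false d b c Y (p - d.h i) := ⟨_, rfl⟩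
  rw [← hS] at hT ⊢
  have hT1 := (abs_le.1 (hT.trans hErr)).1
  have hLV : V * (1 - ε) ≤ L := by
    refine le_trans ?_ hLS
    exact mul_le_mul_of_nonneg_left (by linarith) hV0.le
  have hLE : X * (V * (1 - ε) * E) ≤ X * (L * E) :=
    mul_le_mul_of_nonneg_left (mul_le_mul_of_nonneg_right hLV hE0) hX0
  have hsmall : (1 + Real.log Y) ^ (2 * k) * (C2 * Y / Real.log Y ^ (4 * k + 3)) ≤ X * V * ε := by
    have e1 : (1 + Real.log Y) ^ (2 * k) ≤ 4 ^ k * Real.log Y ^ (2 * k) := by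
      calc (1 + Real.log Y) ^ (2 * k) ≤ (2 * Real.log Y) ^ (2 * k) :=
            pow_le_pow_left₀ (by linarith) (by linarith) _
        _ = 4 ^ k * Real.log Y ^ (2 * k) := by
            rw [mul_pow, pow_mul 2 2 k]
            norm_num
    have e2 : c1 * Y / (d.M.totient : ℝ) * (1 / Real.log Y ^ (2 * k + 1)) ≤ X * V :=
      mul_le_mul hXlow hV1' (by positivity) hX0
    have e3 : (1 + Real.log Y) ^ (2 * k) * (C2 * Y / Real.log Y ^ (4 * k + 3)) ≤
        4 ^ k * C2 * Y / Real.log Y ^ (2 * k + 3) := by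
      calc _ ≤ 4 ^ k * Real.log Y ^ (2 * k) * (C2 * Y / Real.log Y ^ (4 * k + 3)) :=
            mul_le_mul_of_nonneg_right e1 (by positivity)
        _ = 4 ^ k * C2 * Y / Real.log Y ^ (2 * k + 3) := by
            have h7 : Real.log Y ^ (4 * k + 3) = Real.log Y ^ (2 * k) * Real.log Y ^ (2 * k + 3) := by
              rw [← pow_add]
              congr 1
              ring
            rw [h7]
            have h8 : Real.log Y ^ (2 * k) ≠ 0 := (pow_pos hl0 _).ne'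
            have h9 : Real.log Y ^ (2 * k + 3) ≠ 0 := (pow_pos hl0 _).ne'
            field_simp
    refine e3.trans ?_
    have e4 : 4 ^ k * C2 * Y / Real.log Y ^ (2 * k + 3) ≤
        c1 * Y / (d.M.totient : ℝ) * (1 / Real.log Y ^ (2 * k + 1)) * ε := by
      rw [div_le_iff₀ (by positivity)] at hlog
      have h7 : Real.log Y ^ (2 * k + 3) = Real.log Y ^ (2 * k + 1) * Real.log Y ^ 2 := by
        rw [← pow_add]
      rw [h7, div_le_iff₀ (by positivity)]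
      have h8 : c1 * Y / (d.M.totient : ℝ) * (1 / Real.log Y ^ (2 * k + 1)) * ε *
          (Real.log Y ^ (2 * k + 1) * Real.log Y ^ 2) =
          Y * (Real.log Y * (c1 * ε) * Real.log Y) / (d.M.totient : ℝ) := by
        have h9 : Real.log Y ^ (2 * k + 1) ≠ 0 := (pow_pos hl0 _).ne'
        field_simp
      rw [h8, le_div_iff₀ hφ]
      have h10 : 0 ≤ Real.log Y * (c1 * ε) := by positivity
      have h11 : Real.log Y * (c1 * ε) ≤ Real.log Y * (c1 * ε) * Real.log Y :=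
        le_mul_of_one_le_right h10 hl1
      calc 4 ^ k * C2 * Y * (d.M.totient : ℝ) = Y * (4 ^ k * C2 * (d.M.totient : ℝ)) := by ring
        _ ≤ Y * (Real.log Y * (c1 * ε) * Real.log Y) :=
          mul_le_mul_of_nonneg_left (hlog.trans h11) hY0.le
    refine e4.trans ?_
    exact mul_le_mul_of_nonneg_right e2 hε.le
  have hfin : X * V * ((1 - ε) * E - ε) = X * (V * (1 - ε) * E) - X * V * ε := by ring
  rw [hfin]
  linarith

end Pool.Agent.W33m
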