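import Pool.Agent.W_d33b62m_h36.Me
import Pool.Agent.W_d33b62m_h36.Ma
import Pool.Agent.W_d33b62m_h36.Mi2
import Pool.Agent.W_d33b62m_h36.Mg1

/-!
# The Selberg weight is bounded (MP_d33b62, T2, file Mq3)
-/

set_option autoImplicit false

noncomputable section

open Finset Filter

namespace Pool.Agent.W33m

open Pool.Agent.Wd33b62 (Pl PS xr nmS nm supp Sub dn fib era off FF lam zz AA BB SX QH GH TT0 HasExp conv Ex QOK
  qwt xwt EB Bd mem_PS)
open Pool.Agent.Wb58c63 (PI mem_PI VP aw ap XM Pr)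
open Pool.Agent.M58 (lp' lm')

/-- few primes `≥ Y ^ c` divide a number `≤ Y ^ 2` -/
theorem Mq3_one (w : ℕ) (z c Y : ℝ) (hc : 0 < c) (hY : 1 < Y) (m : ℕ) (hm : 0 < m) (hmY : (m : ℝ) ≤ Y ^ (2 : ℝ))
    (T : Finset (Pl w z)) (hT : ∀ p ∈ T, p.1 ∣ m ∧ Y ^ c ≤ (p.1 : ℝ)) : T.card ≤ ⌊2 / c⌋₊ := by
  have h1 : ∏ p ∈ T, p.1 ∣ m := by
    have h2 : ∏ q ∈ T.image Subtype.val, q ∣ m := by
      refine Finset.prod_primes_dvd m ?_ ?_
      · intro q hq
        obtain ⟨p, _, rfl⟩ := Finset.mem_image.1 hq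
        exact (mem_PS.1 p.2).1.prime
      · intro q hq
        obtain ⟨p, hp, rfl⟩ := Finset.mem_image.1 hq
        exact (hT p hp).1
    rwa [Finset.prod_image (fun a _ b _ h => Subtype.ext h)] at h2
  have h3 : ((∏ p ∈ T, p.1 : ℕ) : ℝ) ≤ Y ^ (2 : ℝ) :=
    le_trans (by exact_mod_cast Nat.le_of_dvd hm h1) hmY
  have h4 : (Y ^ c) ^ T.card ≤ ((∏ p ∈ T, p.1 : ℕ) : ℝ) := by
    push_cast
    rw [← Finset.prod_const]
    exact Finset.prod_le_prod (fun p _ => Real.rpow_nonneg (by linarith) _) (fun p hp => (hT p hp).2)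
  have h5 : Y ^ (c * T.card) ≤ Y ^ (2 : ℝ) := by
    rw [Real.rpow_mul (by linarith), Real.rpow_natCast]
    exact h4.trans h3
  have h6 : c * T.card ≤ 2 := (Real.rpow_le_rpow_left_iff hY).1 h5
  rw [Nat.le_floor_iff (by positivity), le_div_iff₀ hc]
  linarith

open Classical in
theorem Mq3_card (k : ℕ) (d : MD k) (c Y : ℝ) (hc : 0 < c) (hY : 2 ≤ Y) (hw : 2 * Y + d.w ≤ Y ^ (2 : ℝ))
    (n : ℕ) (hn : n ∈ IW Y) :
    ((supp (cM d (Y ^ th) n)).filter fun p => Y ^ c ≤ (p.1 : ℝ)).card ≤ k * ⌊2 / c⌋₊ := by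
  unfold IW at hn
  rw [mem_Ico] at hn
  have hn1 : 1 ≤ n := by
    refine le_trans ?_ hn.1
    rw [Nat.le_floor_iff (by linarith)]
    push_cast
    linarith
  have hn2 : (n : ℝ) < 2 * Y := Nat.lt_ceil.1 hn.2
  have hsub : ((supp (cM d (Y ^ th) n)).filter fun p => Y ^ c ≤ (p.1 : ℝ)) ⊆
      (univ : Finset (Fin k)).biUnion fun v =>
        (univ : Finset (Pl d.w (Y ^ th))).filter fun p => p.1 ∣ n + d.h v ∧ Y ^ c ≤ (p.1 : ℝ) := by
    intro p hp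
    rw [mem_filter] at hp
    obtain ⟨hp1, hp2⟩ := hp
    unfold supp at hp1
    rw [mem_filter] at hp1
    have h1 : ∃ v, p.1 ∣ n + d.h v := by
      by_contra hcon
      apply hp1.2
      unfold cM
      rw [dif_neg hcon]
    obtain ⟨v, hv⟩ := h1
    exact mem_biUnion.2 ⟨v, mem_univ _, mem_filter.2 ⟨mem_univ _, hv, hp2⟩⟩
  refine (card_le_card hsub).trans (card_biUnion_le.trans ?_)
  have h2 : ∀ v ∈ (univ : Finset (Fin k)),
      ((univ : Finset (Pl d.w (Y ^ th))).filter fun p => p.1 ∣ n + d.h v ∧ Y ^ c ≤ (p.1 : ℝ)).card ≤ ⌊2 / c⌋₊ := by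
    intro v _
    refine Mq3_one d.w (Y ^ th) c Y hc (by linarith) (n + d.h v) (by omega) ?_ _
      (fun p hp => (mem_filter.1 hp).2)
    have h3 : ((n + d.h v : ℕ) : ℝ) ≤ 2 * Y + d.w := by
      have h4 : (d.h v : ℝ) ≤ d.w := by exact_mod_cast d.h_le v
      push_cast
      linarith
    exact h3.trans hw
  refine (sum_le_sum h2).trans ?_
  rw [sum_const, card_univ, Fintype.card_fin, smul_eq_mul]

open Classical in
theorem Mq3_FF (k w : ℕ) (hw : 1 ≤ w) (c Y : ℝ) (a : Pl w (Y ^ th) → Option (Fin k)) :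
    |FF (xr w (Y ^ th)) (yM k (Y ^ c) (Y ^ th)) a| ≤
      2 ^ ((supp a).filter fun p => Y ^ c ≤ (p.1 : ℝ)).card * BM w c Y ^ k := by
  have hGH : GH (xr w (Y ^ th)) (fun _ : Fin k => GM (Y ^ c) (Y ^ th)) := GH_GM hw k (Y ^ c) (Y ^ th)
  have hlam : ∀ σ : Pl w (Y ^ th) → Option (Fin k),
      |lam (xr w (Y ^ th)) (yM k (Y ^ c) (Y ^ th)) σ| ≤ BM w c Y ^ k := by
    intro σ
    have h1 := Pool.Agent.Wd33b62.abs_lam_le hGH (y := yM k (Y ^ c) (Y ^ th))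
      (yM_nonneg k (Y ^ c) (Y ^ th)) (yM_le k (Y ^ c) (Y ^ th)) σ
    rw [Finset.prod_const, Finset.card_univ, Fintype.card_fin] at h1
    exact h1
  have hB0 : 0 ≤ BM w c Y ^ k := (abs_nonneg _).trans (hlam fun _ => none)
  rw [Pool.Agent.Wd33b62.FF_hasExp (xr w (Y ^ th)) (yM k (Y ^ c) (Y ^ th)) a,
    Pool.Agent.Wd33b62.LA3_sum_dn]
  refine (Finset.abs_sum_le_sum_abs _ _).trans ?_
  have h2 : ∑ S ∈ (supp a).powerset,
      |lam (xr w (Y ^ th)) (yM k (Y ^ c) (Y ^ th)) (Pool.Agent.Wd33b62.LA3_res a S)| =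
      ∑ S ∈ ((supp a).filter fun p => Y ^ c ≤ (p.1 : ℝ)).powerset,
      |lam (xr w (Y ^ th)) (yM k (Y ^ c) (Y ^ th)) (Pool.Agent.Wd33b62.LA3_res a S)| := by
    symm
    refine Finset.sum_subset (Finset.powerset_mono.2 (Finset.filter_subset _ _)) ?_
    intro S hS hS'
    rw [abs_eq_zero]
    by_contra hne
    apply hS'
    obtain ⟨κ, hκ, hy⟩ := Pool.Agent.Wd33b62.lam_ne_zero hne
    have h3 := (yM_ne_zero k (Y ^ c) (Y ^ th) κ hy).2
    rw [Finset.mem_powerset] at hS ⊢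
    intro p hp
    refine Finset.mem_filter.2 ⟨hS hp, h3 p ?_⟩
    have h4 : p ∈ supp (Pool.Agent.Wd33b62.LA3_res a S) := by
      rw [Pool.Agent.Wd33b62.LA3_supp_res hS]; exact hp
    rw [Pool.Agent.Wd33b62.LA3_mem_supp] at h4 ⊢
    rcases hκ p with h5 | h5
    · exact absurd h5 h4
    · rw [← h5]; exact h4
  rw [h2]
  refine (Finset.sum_le_sum fun S _ => hlam _).trans ?_
  rw [Finset.sum_const, Finset.card_powerset, nsmul_eq_mul]
  push_cast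
  exact le_rfl

/-- **The Selberg weight is bounded**: `FF = ∑_{σ ≤ a} lam σ` (`FF_hasExp`), `|lam σ| ≤ BM ^ k` (`abs_lam_le`), and `lam σ ≠ 0`
only if all places of `σ` are `≥ Y ^ c` (`lam_ne_zero`, `yM_ne_zero`); `n + h v ≤ 4 Y` has at most `2 / c` prime factors
`≥ Y ^ c`, so there are at most `2 ^ (2 k / c)` such `σ ≤ cM d z n`. `BM ≤ 2 La / 1240 + …` (`cert`) and
`La = th log Y P0 ≤ th / c` (`P0_le`). -/
theorem FW_le (k : ℕ) : ∃ c0 : ℝ, 0 < c0 ∧ ∀ c : ℝ, 0 < c → c ≤ c0 → ∃ C : ℝ, 0 < C ∧ ∀ d : MD k,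
    ∀ᶠ Y : ℝ in atTop, ∀ n ∈ IW Y, FW k d.w c Y (cM d (Y ^ th) n) ≤ C := by
  classical
  obtain ⟨c0, h0, H⟩ := cert 1 one_pos
  refine ⟨c0, h0, fun c hc hcc => ?_⟩
  have hth : (0 : ℝ) < th := by unfold th; norm_num
  refine ⟨(2 ^ (k * ⌊2 / c⌋₊) * (2 * (th / c)) ^ k) ^ 2, by positivity, fun d => ?_⟩
  have hlim : ∀ᶠ Y : ℝ in atTop, (2 : ℝ) ≤ Y ^ c := (tendsto_rpow_atTop hc).eventually_ge_atTop 2
  filter_upwards [H c hc hcc d.w, hlim, eventually_ge_atTop (2 : ℝ), eventually_ge_atTop (d.w + 2 : ℝ)] with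
    Y hE hYc hY2 hYw n hn
  have hw1 : 1 ≤ d.w := by have := d.w_ge; omega
  have hY1 : (1 : ℝ) ≤ Y := by linarith
  have hY0 : (0 : ℝ) < Y := by linarith
  have hw : 2 * Y + d.w ≤ Y ^ (2 : ℝ) := by
    have : Y ^ (2 : ℝ) = Y * Y := by
      rw [show (2 : ℝ) = ((2 : ℕ) : ℝ) by norm_num, Real.rpow_natCast]; ring
    rw [this]
    have hw0 : (0 : ℝ) ≤ d.w := Nat.cast_nonneg _
    nlinarith
  -- bound of BM
  have hLa0 : 0 < La (Y ^ c) (Y ^ th) := by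
    by_contra hcon
    push Not at hcon
    have h1 := hE.1
    rw [one_mul] at h1
    have h2 := (abs_nonneg _).trans h1
    have h3 : La (Y ^ c) (Y ^ th) = 0 := le_antisymm hcon h2
    rw [h3, mul_zero, sub_zero] at h1
    have h4 := one_le_BM d.w c Y hY1
    have h5 := abs_of_nonneg (by linarith : (0 : ℝ) ≤ BM d.w c Y)
    linarith
  have hLa : La (Y ^ c) (Y ^ th) ≤ th / c := by
    unfold La
    have hlY : 0 < Real.log Y := Real.log_pos (by linarith)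
    have h1 := P0_le (Y ^ c) hYc
    rw [Real.log_rpow hY0] at h1 ⊢
    calc th * Real.log Y * P0 (Y ^ c) ≤ th * Real.log Y * (1 / (c * Real.log Y)) :=
          mul_le_mul_of_nonneg_left h1 (by positivity)
      _ = th / c := by field_simp
  have hBM : BM d.w c Y ≤ 2 * (th / c) := by
    have h1 := (abs_le.1 hE.1).2
    linarith
  have hBM0 : 0 ≤ BM d.w c Y := by linarith [one_le_BM d.w c Y hY1]
  have hcard := Mq3_card k d c Y hc hY2 hw n hn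
  have hFF := Mq3_FF k d.w hw1 c Y (cM d (Y ^ th) n)
  unfold FW
  rw [← sq_abs]
  refine pow_le_pow_left₀ (abs_nonneg _) (hFF.trans ?_) 2
  refine mul_le_mul ?_ ?_ (pow_nonneg hBM0 k) (by positivity)
  · exact pow_le_pow_right₀ (by norm_num) hcard
  · exact pow_le_pow_left₀ hBM0 hBM k

end Pool.Agent.W33m
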