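import Pool.Agent.W_d33b62m_h36.Mq1
import Pool.Agent.W_d33b62m_h36.Mq2
import Pool.Agent.W_d33b62m_h36.Mk2
import Pool.Agent.W_d33b62m_h36.Mf3
import Pool.Agent.W_d33b62m_h36.Mp1

/-!
# The difference of the sums (MP_d33b62, T2, file Mq4)
-/

set_option autoImplicit false

noncomputable section

open Finset Filter

namespace Pool.Agent.W33m

open Pool.Agent.Wd33b62 (Pl PS xr nmS nm supp Sub dn fib era off FF lam zz AA BB SX QH GH TT0 HasExp conv Ex QOK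
  qwt xwt EB Bd mem_PS)
open Pool.Agent.Wb58c63 (PI mem_PI VP aw ap XM Pr)
open Pool.Agent.M58 (lp' lm')

/-- The numerical inequality. -/
theorem Mq4_num (L L2 X S U P V Q φ M A B E W T1 T2 : ℝ) (hL : 0 ≤ L) (hL2 : L2 ≤ 1005 / 1000 * L)
    (hL20 : 0 ≤ L2) (hU : 0 ≤ U) (hS : S ≤ 1001 / 1000 * U) (hX : 999 / 1000 * U ≤ X) (hV : 0 < V) (hQ : 0 < Q)
    (hφ : 0 < φ) (hM : 0 < M) (hA : 1 ≤ A) (hB : 1 ≤ B) (hW : 1 ≤ W) (hid : P * Q / φ = V / M)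
    (hrat : 269 / 100000 * (249 / 1000 * L * P * A) ≤ B ^ 2) (hE : 88 / 100 * (W * B ^ 2) ≤ E)
    (hT2 : X / φ * Q * ((1 - 1 / 1000) * E - 1 / 1000) ≤ T2)
    (hT1 : T1 ≤ (1 + 1 / 1000) * (S / M) * V * (W * A)) :
    1 / 10 * L * (U / M) * V ≤ 2000 * T2 - L2 * T1 := by
  have hX0 : 0 ≤ X := le_trans (by positivity) hX
  have hB2 : 1 ≤ B ^ 2 := one_le_pow₀ hB
  have hWB : 1 ≤ W * B ^ 2 := one_le_mul_of_one_le_of_one_le hW hB2
  have h1 : 878 / 1000 * (W * B ^ 2) ≤ (1 - 1 / 1000) * E - 1 / 1000 := by linarith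
  have h2 : W * (269 / 100000 * (249 / 1000 * L * P * A)) ≤ W * B ^ 2 :=
    mul_le_mul_of_nonneg_left hrat (by linarith)
  have h3 : X / φ * Q * (878 / 1000 * (W * (269 / 100000 * (249 / 1000 * L * P * A)))) ≤ T2 :=
    (mul_le_mul_of_nonneg_left (by linarith) (by positivity)).trans hT2
  have h4 : X / φ * Q * (878 / 1000 * (W * (269 / 100000 * (249 / 1000 * L * P * A)))) =
      (878 / 1000 * (269 / 100000) * (249 / 1000)) * (L * X * (V / M) * (W * A)) := by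
    rw [← hid]
    ring
  rw [h4] at h3
  have hWA : 1 ≤ W * A := one_le_mul_of_one_le_of_one_le hW hA
  have h5 : L2 * T1 ≤ (1005 / 1000 * L) * ((1 + 1 / 1000) * (1001 / 1000 * U / M) * V * (W * A)) := by
    have h6 : T1 ≤ (1 + 1 / 1000) * (1001 / 1000 * U / M) * V * (W * A) := by
      refine hT1.trans ?_
      have h7 : S / M ≤ 1001 / 1000 * U / M := div_le_div_of_nonneg_right hS hM.le
      gcongr
    have h7 : 0 ≤ (1 + 1 / 1000) * (1001 / 1000 * U / M) * V * (W * A) := by positivity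
    calc L2 * T1 ≤ L2 * ((1 + 1 / 1000) * (1001 / 1000 * U / M) * V * (W * A)) :=
          mul_le_mul_of_nonneg_left h6 hL20
      _ ≤ _ := mul_le_mul_of_nonneg_right hL2 h7
  have h8 : L * (999 / 1000 * U) * (V / M) * (W * A) ≤ L * X * (V / M) * (W * A) := by
    gcongr
  have h9 : 0 ≤ L * U * (V / M) := by positivity
  have h10 : L * U * (V / M) * 1 ≤ L * U * (V / M) * (W * A) := mul_le_mul_of_nonneg_left hWA h9
  have h11 : 1 / 10 * L * (U / M) * V = 1 / 10 * (L * U * (V / M)) := by ring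
  have h12 : (1005 / 1000 * L) * ((1 + 1 / 1000) * (1001 / 1000 * U / M) * V * (W * A)) =
      (1005 / 1000 * (1 + 1 / 1000) * (1001 / 1000)) * (L * U * (V / M) * (W * A)) := by ring
  have h13 : L * (999 / 1000 * U) * (V / M) * (W * A) = 999 / 1000 * (L * U * (V / M) * (W * A)) := by ring
  rw [h12] at h5
  rw [h13] at h8
  rw [h11]
  linarith

/-- The window. -/
theorem Mq4_len (Y : ℝ) (hY : 4 ≤ Y) : (((IW Y).card : ℕ) : ℝ) ≤ 2 * Y := by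
  have h7 : (⌈2 * Y⌉₊ : ℝ) < 2 * Y + 1 := Nat.ceil_lt_add_one (by positivity)
  have h8 : Y / 2 < (⌊Y / 2⌋₊ : ℝ) + 1 := Nat.lt_floor_add_one _
  have h9 := (Mq1_len Y (by linarith)).1
  rw [IW, Nat.card_Ico, Nat.cast_sub h9]
  linarith

/-- **The difference of the sums** for `k = 2000`. Let `ε = 1 / 1000`, `U = ∑ aw`, `U ≥ c1 Y` (`aw_sum_ge`), `e = ε c1 / 2`,
so `∑ (aw + e) ≤ (1 + ε) U ≤ (1 + ε) / (1 - ε) XM` (`XM_PNT`). `S2_ge`, `EX2`, `1 ≤ AM, BM`, `rat1`, `V_id`, `log R = th log Y`: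
each `S2` is `≥ XM / φ(M) V2 (0.999 · 0.88 - 0.001) A^1999 B^2 ≥ 0.878 · 0.00269 · 0.249 log Y XM (V1 / M) A^2000`, the sum over
`i` is `≥ 1.176 log Y XM (V1 / M) A^2000`, and `log (2 Y) S1 ≤ 1.01 log Y XM (V1 / M) A^2000`. -/
theorem diff_ge : ∃ c1 : ℝ, 0 < c1 ∧ ∃ (b : ℕ) (c0 : ℝ), 0 < c0 ∧ ∀ c : ℝ, 0 < c → c ≤ c0 → ∃ w0 : ℕ,
    ∀ d : MD 2000, w0 ≤ d.w → ∃ (κ : ℕ) (e : ℝ), 0 < e ∧ ∀ᶠ Y : ℝ in atTop,
      c1 * Real.log Y * (Y / d.M) * V1 2000 d.w (Y ^ c) ≤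
        (∑ i, ∑ p ∈ PM d i Y, ap κ Y p * TW false d b c Y (p - d.h i)) -
          Real.log (2 * Y) * ∑ n ∈ WM d Y, (aw κ Y n + e) * TW true d b c Y n := by
  obtain ⟨cS, hcS, hsum⟩ := aw_sum_ge
  obtain ⟨b1, hb1⟩ := S1_le 2000 (by norm_num) (1 / 1000) (by norm_num)
  obtain ⟨b2, hb2⟩ := S2_ge 2000 (by norm_num) (1 / 1000) (by norm_num)
  obtain ⟨c01, hc01, H1⟩ := hb1 (max b1 b2) (le_max_left _ _)
  obtain ⟨c02, hc02, H2⟩ := hb2 (max b1 b2) (le_max_right _ _)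
  obtain ⟨c03, hc03, H3⟩ := EX2
  obtain ⟨c04, hc04, H4⟩ := rat1
  refine ⟨cS / 10, by positivity, max b1 b2, min (min c01 c02) (min c03 c04),
    lt_min (lt_min hc01 hc02) (lt_min hc03 hc04), fun c hc hc0 => ?_⟩
  have hc1 : c ≤ c01 := hc0.trans ((min_le_left _ _).trans (min_le_left _ _))
  have hc2 : c ≤ c02 := hc0.trans ((min_le_left _ _).trans (min_le_right _ _))
  have hc3 : c ≤ c03 := hc0.trans ((min_le_right _ _).trans (min_le_left _ _))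
  have hc4 : c ≤ c04 := hc0.trans ((min_le_right _ _).trans (min_le_right _ _))
  obtain ⟨w0, hw0⟩ := H3 c hc hc3
  refine ⟨w0, fun d hd => ?_⟩
  obtain ⟨κ0, hκ0⟩ := H2 c hc hc2 d
  have he : 0 < cS / 2000 := by positivity
  refine ⟨κ0, cS / 2000, he, ?_⟩
  have hM : (0 : ℝ) < d.M := by exact_mod_cast d.M_pos
  have hφ : (0 : ℝ) < d.M.totient := by exact_mod_cast Nat.totient_pos.2 d.M_pos
  filter_upwards [H1 c hc hc1 d κ0 (cS / 2000) he, hκ0 κ0 le_rfl, hw0 d.w hd, H4 c hc hc4 d.w,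
    hsum κ0, XM_PNT (1 / 1000) (by norm_num) κ0, (tendsto_rpow_atTop hc).eventually_ge_atTop ((d.w : ℝ) + 1),
    eventually_ge_atTop (4 : ℝ), eventually_ge_atTop (Real.exp 200)] with Y h1 h2 h3 h4 h5 h6 h7 h8 h9
  have hY0 : (0 : ℝ) < Y := by linarith
  have hY1 : (1 : ℝ) ≤ Y := by linarith
  have hL : 200 ≤ Real.log Y := (Real.le_log_iff_exp_le hY0).2 h9
  have hL0 : 0 < Real.log Y := by linarith
  have hlog2 : Real.log 2 ≤ 1 := by
    have := Real.log_two_lt_d9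
    linarith
  have hlog20 : 0 ≤ Real.log 2 := Real.log_nonneg (by norm_num)
  have hL2 : Real.log (2 * Y) = Real.log 2 + Real.log Y := Real.log_mul (by norm_num) hY0.ne'
  set U := ∑ n ∈ IW Y, aw κ0 Y n with hU
  have hU0 : 0 < U := lt_of_lt_of_le (by positivity) h5
  have hS : ∑ n ∈ IW Y, (aw κ0 Y n + cS / 2000) ≤ 1001 / 1000 * U := by
    rw [Finset.sum_add_distrib, ← hU, Finset.sum_const, nsmul_eq_mul]
    have h10 : (((IW Y).card : ℕ) : ℝ) * (cS / 2000) ≤ 2 * Y * (cS / 2000) :=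
      mul_le_mul_of_nonneg_right (Mq4_len Y h8) he.le
    have h11 : 2 * Y * (cS / 2000) = 1 / 1000 * (cS * Y) := by ring
    linarith
  have hid := V_id d (Y ^ c) h7
  have hA := one_le_AM d.w c Y hY1
  have hB := one_le_BM d.w c Y hY1
  have hV1 := (V1_pos 2000 d.w d.w_ge (Y ^ c)).1
  have hV2 := lt_of_lt_of_le hV1 (V2_ge 2000 d.w (by norm_num) d.w_ge (Y ^ c)).1
  have hla : La (Y ^ c) (Y ^ th) = 249 / 1000 * Real.log Y * P0 (Y ^ c) := by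
    unfold La
    rw [Real.log_rpow hY0]
    rfl
  rw [hla] at h4
  have hpow : AM d.w c Y ^ 2000 = AM d.w c Y ^ 1999 * AM d.w c Y := pow_succ _ _
  rw [hpow] at h1
  have hW : 1 ≤ AM d.w c Y ^ 1999 := one_le_pow₀ hA
  have key : ∀ i : Fin 2000, 1 / 2000 * (1 / 10 * Real.log Y * (U / d.M) * V1 2000 d.w (Y ^ c) +
      Real.log (2 * Y) * ∑ n ∈ WM d Y, (aw κ0 Y n + cS / 2000) * TW true d (max b1 b2) c Y n) ≤
      ∑ p ∈ PM d i Y, ap κ0 Y p * TW false d (max b1 b2) c Y (p - d.h i) := by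
    intro i
    have h10 := Mq4_num (Real.log Y) (Real.log (2 * Y)) (XM κ0 Y) (∑ n ∈ IW Y, (aw κ0 Y n + cS / 2000)) U
      (P0 (Y ^ c)) (V1 2000 d.w (Y ^ c)) (V2 2000 d.w (Y ^ c)) d.M.totient d.M (AM d.w c Y) (BM d.w c Y)
      (Ex (qi (w := d.w) (z := Y ^ th) i) (FW 2000 d.w c Y)) (AM d.w c Y ^ 1999)
      (∑ n ∈ WM d Y, (aw κ0 Y n + cS / 2000) * TW true d (max b1 b2) c Y n)
      (∑ p ∈ PM d i Y, ap κ0 Y p * TW false d (max b1 b2) c Y (p - d.h i))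
      hL0.le (by rw [hL2]; linarith) (by rw [hL2]; linarith) hU0.le hS (by linarith [h6]) hV1 hV2 hφ hM hA hB hW
      hid h4 (h3 i) (h2 i) h1
    linarith
  have h10 := Finset.sum_le_sum fun (i : Fin 2000) (_ : i ∈ univ) => key i
  rw [Finset.sum_const, Finset.card_univ, Fintype.card_fin, nsmul_eq_mul] at h10
  push_cast at h10
  have h11 : cS / 10 * Real.log Y * (Y / d.M) * V1 2000 d.w (Y ^ c) ≤
      1 / 10 * Real.log Y * (U / d.M) * V1 2000 d.w (Y ^ c) := by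
    have h12 : cS / 10 * Real.log Y * (Y / d.M) * V1 2000 d.w (Y ^ c) =
        1 / 10 * Real.log Y * ((cS * Y) / d.M) * V1 2000 d.w (Y ^ c) := by ring
    rw [h12]
    gcongr
  linarith

end Pool.Agent.W33m
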