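import Pool.Agent.W_d33b62m_h36.Ma
import Pool.Agent.W_d33b62m_h36.Mf1

/-!
# The primes as a function of n (MP_d33b62, T2, file Mr1)
-/

set_option autoImplicit false

noncomputable section

open Finset Filter

namespace Pool.Agent.W33m

open Pool.Agent.Wd33b62 (Pl PS xr nmS nm supp Sub dn fib era off FF lam zz AA BB SX QH GH TT0 HasExp conv Ex QOK
  qwt xwt EB Bd mem_PS)
open Pool.Agent.Wb58c63 (PI mem_PI VP aw ap XM Pr)
open Pool.Agent.M58 (lp' lm')

open Classical in
/-- The weight of the primes as a function of `n`. -/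
def pw {k : ℕ} (d : MD k) (κ : ℕ) (Y : ℝ) (i : Fin k) (n : ℕ) : ℝ :=
  if (n + d.h i).Prime then ap κ Y (n + d.h i) else 0

private theorem Mr1_supp {κ : ℕ} {Y : ℝ} (hY : 1 ≤ Y) {p : ℕ} (h : ap κ Y p ≠ 0) :
    Y < p ∧ (p : ℝ) < 2 * Y := by
  refine Wb58c63.aw_support κ Y hY p ?_
  intro h0
  apply h
  unfold Wb58c63.ap
  rw [h0, zero_mul]

/-- `p = n + h i`; `ap κ Y p ≠ 0` only for `Y < p < 2 Y` (`aw_support`), so `p - h i` is in the window for large `Y`. -/
theorem sum_pw {k : ℕ} (d : MD k) (κ : ℕ) (Y : ℝ) (hY : 2 * (d.w : ℝ) + 2 ≤ Y) (i : Fin k) (Φ : ℕ → ℝ) :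
    ∑ p ∈ PM d i Y, ap κ Y p * Φ (p - d.h i) = ∑ n ∈ WM d Y, pw d κ Y i n * Φ n := by
  classical
  have hw0 : (0 : ℝ) ≤ d.w := Nat.cast_nonneg _
  have hY1 : 1 ≤ Y := by linarith
  have hhi : (d.h i : ℝ) ≤ d.w := by exact_mod_cast d.h_le i
  refine Finset.sum_bij_ne_zero (fun p _ _ => p - d.h i) ?_ ?_ ?_ ?_
  · intro p hp hne
    have h1 : ap κ Y p ≠ 0 := fun h => hne (by rw [h, zero_mul])
    obtain ⟨h2, h3⟩ := Mr1_supp hY1 h1
    have h4 : d.h i ≤ p := by
      have : (d.h i : ℝ) ≤ p := by linarith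
      exact_mod_cast this
    obtain ⟨n, rfl⟩ := Nat.exists_eq_add_of_le' h4
    have h5 : n + d.h i ≡ d.b + d.h i [MOD d.M] := (mem_filter.1 hp).2
    simp only [Nat.add_sub_cancel]
    unfold WM IW
    rw [mem_filter, mem_Ico]
    push_cast at h2 h3
    have hn0 : (0 : ℝ) ≤ n := Nat.cast_nonneg _
    refine ⟨⟨?_, ?_⟩, Nat.ModEq.add_right_cancel' _ h5⟩
    · have : Y / 2 ≤ n := by linarith
      exact Nat.floor_le_of_le this
    · refine Nat.lt_ceil.2 ?_
      have h6 : (0 : ℝ) ≤ d.h i := Nat.cast_nonneg _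
      linarith
  · intro p hp hne q hq hne' h
    have h1 : ap κ Y p ≠ 0 := fun h => hne (by rw [h, zero_mul])
    have h1' : ap κ Y q ≠ 0 := fun h => hne' (by rw [h, zero_mul])
    have h2 := (Mr1_supp hY1 h1).1
    have h2' := (Mr1_supp hY1 h1').1
    have h4 : d.h i ≤ p := by
      have : (d.h i : ℝ) ≤ p := by linarith
      exact_mod_cast this
    have h4' : d.h i ≤ q := by
      have : (d.h i : ℝ) ≤ q := by linarith
      exact_mod_cast this
    omega
  · intro n hn hne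
    have h1 : pw d κ Y i n ≠ 0 := fun h => hne (by rw [h, zero_mul])
    have h2 : (n + d.h i).Prime ∧ ap κ Y (n + d.h i) ≠ 0 := by
      unfold pw at h1
      split_ifs at h1 with h3
      · exact ⟨h3, h1⟩
      · exact absurd rfl h1
    have h5 : n ≡ d.b [MOD d.M] := (mem_filter.1 hn).2
    obtain ⟨h3, h4⟩ := Mr1_supp hY1 h2.2
    have h6 : Φ n ≠ 0 := fun h => hne (by rw [h, mul_zero])
    refine ⟨n + d.h i, ?_, ?_, ?_⟩
    · unfold PM Wb58c63.Pr
      rw [mem_filter, mem_filter, mem_range]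
      exact ⟨⟨Nat.lt_ceil.2 h4, h2.1⟩, h5.add_right _⟩
    · rw [Nat.add_sub_cancel]
      exact mul_ne_zero h2.2 h6
    · simp
  · intro p hp hne
    have h1 : ap κ Y p ≠ 0 := fun h => hne (by rw [h, zero_mul])
    obtain ⟨h2, h3⟩ := Mr1_supp hY1 h1
    have h4 : d.h i ≤ p := by
      have : (d.h i : ℝ) ≤ p := by linarith
      exact_mod_cast this
    obtain ⟨n, rfl⟩ := Nat.exists_eq_add_of_le' h4
    have h6 : (n + d.h i).Prime := (mem_filter.1 (mem_filter.1 hp).1).2
    simp only [Nat.add_sub_cancel]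
    unfold pw
    rw [if_pos h6]

/-- If at most one of the `n + h i` is prime, the sum is `≤ 0`: `ap κ Y (n + h i) = aw κ Y (n + h i) log (n + h i)
≤ (aw κ Y n + e) log (2 Y)` (`aw_shift`); otherwise it is at most `∑_i pw i n ≤ k 2 log (2 Y)` (`aw_le_two`). -/
theorem pw_le {k : ℕ} (d : MD k) (κ : ℕ) (e : ℝ) (he : 0 < e) : ∀ᶠ Y : ℝ in atTop, ∀ n ∈ WM d Y,
    (∑ i, pw d κ Y i n) - Real.log (2 * Y) * (aw κ Y n + e) ≤
      (open Classical in if (∃ i j, i ≠ j ∧ (n + d.h i).Prime ∧ (n + d.h j).Prime) ∧ Y < n + d.w then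
        2 * k * Real.log (2 * Y) else 0) := by
  classical
  obtain ⟨Y₀, hY₀, h2⟩ := Wd33b62.aw_le_two κ
  filter_upwards [aw_shift κ d.w e he, eventually_ge_atTop Y₀, eventually_ge_atTop (1 : ℝ)] with Y hs hY0 hY1
  intro n hn
  have hnI : n ∈ IW Y := (mem_filter.1 hn).1
  have hl : 0 ≤ Real.log (2 * Y) := Real.log_nonneg (by linarith)
  have han : 0 ≤ aw κ Y n := Wb58c63.aw_nonneg κ Y hY1 n
  -- each term
  have key : ∀ i, pw d κ Y i n ≤ Real.log (2 * Y) * (aw κ Y n + e) ∧ pw d κ Y i n ≤ 2 * Real.log (2 * Y) ∧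
      (n + d.w ≤ Y → pw d κ Y i n = 0) ∧ (¬ (n + d.h i).Prime → pw d κ Y i n = 0) := by
    intro i
    have h0 : 0 ≤ Real.log (2 * Y) * (aw κ Y n + e) := by positivity
    unfold pw
    split_ifs with hp
    · by_cases hz : ap κ Y (n + d.h i) = 0
      · rw [hz]
        exact ⟨h0, by positivity, fun _ => rfl, fun h => absurd hp h⟩
      · obtain ⟨h3, h4⟩ := Mr1_supp hY1 hz
        have h5 : 0 ≤ aw κ Y (n + d.h i) := Wb58c63.aw_nonneg κ Y hY1 _
        have h6 : 0 ≤ Real.log ((n + d.h i : ℕ) : ℝ) := Real.log_natCast_nonneg _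
        have h7 : Real.log ((n + d.h i : ℕ) : ℝ) ≤ Real.log (2 * Y) := Real.log_le_log (by linarith) h4.le
        have h8 := hs n hnI (d.h i) (d.h_le i)
        have h9 := h2 Y hY0 (n + d.h i)
        unfold Wb58c63.ap
        refine ⟨?_, ?_, ?_, fun h => absurd hp h⟩
        · rw [mul_comm]
          exact mul_le_mul h7 h8 h5 hl
        · exact mul_le_mul h9 h7 h6 (by norm_num)
        · intro h10
          exfalso
          have h11 : (d.h i : ℝ) ≤ d.w := by exact_mod_cast d.h_le i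
          push_cast at h3
          linarith
    · exact ⟨h0, by positivity, fun _ => rfl, fun _ => rfl⟩
  split_ifs with hc
  · have h3 : ∑ i, pw d κ Y i n ≤ ∑ _i : Fin k, 2 * Real.log (2 * Y) :=
      Finset.sum_le_sum fun i _ => (key i).2.1
    rw [Finset.sum_const, Finset.card_univ, Fintype.card_fin, nsmul_eq_mul] at h3
    have h0 : 0 ≤ Real.log (2 * Y) * (aw κ Y n + e) := by positivity
    linarith
  · have h0 : 0 ≤ Real.log (2 * Y) * (aw κ Y n + e) := by positivity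
    by_cases hY : Y < n + d.w
    · have h4 : ∀ i j, i ≠ j → (n + d.h i).Prime → ¬ (n + d.h j).Prime := by
        intro i j hij hi hj
        exact hc ⟨⟨i, j, hij, hi, hj⟩, hY⟩
      by_cases h5 : ∃ i, (n + d.h i).Prime
      · obtain ⟨i, hi⟩ := h5
        have h6 : ∑ j, pw d κ Y j n = pw d κ Y i n := by
          refine Finset.sum_eq_single i (fun j _ hj => ?_) (fun h => absurd (mem_univ _) h)
          exact (key j).2.2.2 (h4 i j hj.symm hi)
        rw [h6]
        linarith [(key i).1]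
      · push Not at h5
        have h6 : ∑ j, pw d κ Y j n = 0 := Finset.sum_eq_zero fun j _ => (key j).2.2.2 (h5 j)
        rw [h6]
        linarith
    · push Not at hY
      have h6 : ∑ j, pw d κ Y j n = 0 := Finset.sum_eq_zero fun j _ => (key j).2.2.1 hY
      rw [h6]
      linarith

end Pool.Agent.W33m
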