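import Pool.Agent.W_d33b62m_h36.Mr1
import Pool.Agent.W_d33b62m_h36.Mq4
import Pool.Agent.W_d33b62m_h36.Mq3
import Pool.Agent.W_d33b62m_h36.Mb2

/-!
# The theorem T2 (MP_d33b62, file Mr2)
-/

set_option autoImplicit false

noncomputable section

open Finset Filter

namespace Pool.Agent.W33m

open Pool.Agent.Wd33b62 (Pl PS xr nmS nm supp Sub dn fib era off FF lam zz AA BB SX QH GH TT0 HasExp conv Ex QOK
  qwt xwt EB Bd mem_PS)
open Pool.Agent.Wb58c63 (PI mem_PI VP aw ap XM Pr)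
open Pool.Agent.M58 (lp' lm')

open Classical in
/-- The rough integers of the window with two primes. -/
def Mr2_B {k : ℕ} (d : MD k) (c Y : ℝ) : Finset ℕ :=
  (WM d Y).filter fun n => (∀ p ∈ supp (cM d (Y ^ th) n), Y ^ c ≤ (p.1 : ℝ)) ∧
    (∃ i j, i ≠ j ∧ (n + d.h i).Prime ∧ (n + d.h j).Prime) ∧ Y < n + d.w

theorem Mr2_pw_nonneg {k : ℕ} (d : MD k) (κ : ℕ) (Y : ℝ) (hY : 1 ≤ Y) (i : Fin k) (n : ℕ) : 0 ≤ pw d κ Y i n := by
  unfold pw
  split_ifs
  · exact Wb58c63.ap_nonneg κ Y hY _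
  · exact le_refl 0

/-- The term of one `n`. -/
theorem Mr2_term {k : ℕ} (d : MD k) (κ b : ℕ) (c e C Y : ℝ) (hY : 1 ≤ Y) (he : 0 < e) (hC : 0 < C) (h2 : 2 ≤ Y ^ c)
    (n : ℕ) (hn : n ∈ WM d Y) (hF : FW k d.w c Y (cM d (Y ^ th) n) ≤ C)
    (hpw : (∑ i, pw d κ Y i n) - Real.log (2 * Y) * (aw κ Y n + e) ≤
      (open Classical in if (∃ i j, i ≠ j ∧ (n + d.h i).Prime ∧ (n + d.h j).Prime) ∧ Y < n + d.w then
        2 * k * Real.log (2 * Y) else 0)) :
    (∑ i, pw d κ Y i n * TW false d b c Y n) - Real.log (2 * Y) * ((aw κ Y n + e) * TW true d b c Y n) ≤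
      (open Classical in if n ∈ Mr2_B d c Y then C * (2 * k * Real.log (2 * Y)) else 0) := by
  classical
  have hlog : 0 ≤ Real.log (2 * Y) := Real.log_nonneg (by linarith)
  have haw := Wb58c63.aw_nonneg κ Y hY n
  have hF0 : 0 ≤ FW k d.w c Y (cM d (Y ^ th) n) := by
    unfold FW
    positivity
  have hP0 : 0 ≤ ∑ i, pw d κ Y i n := Finset.sum_nonneg fun i _ => Mr2_pw_nonneg d κ Y hY i n
  obtain ⟨l1, l2⟩ := LS_ineq (w := d.w) (z := Y ^ th) (Y ^ c) h2 b (cM d (Y ^ th) n)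
  obtain ⟨r, hr⟩ : ∃ r : ℝ, r = if ∀ p ∈ supp (cM d (Y ^ th) n), Y ^ c ≤ (p.1 : ℝ) then 1 else 0 := ⟨_, rfl⟩
  rw [← hr] at l1 l2
  have hr0 : 0 ≤ r := by
    rw [hr]
    split_ifs <;> norm_num
  have e1 : (∑ i, pw d κ Y i n * TW false d b c Y n) = (∑ i, pw d κ Y i n) * TW false d b c Y n := by
    rw [Finset.sum_mul]
  rw [e1]
  unfold TW
  have s1 : (∑ i, pw d κ Y i n) * (LS false (Y ^ c) b (cM d (Y ^ th) n) * FW k d.w c Y (cM d (Y ^ th) n)) ≤
      (∑ i, pw d κ Y i n) * (r * FW k d.w c Y (cM d (Y ^ th) n)) :=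
    mul_le_mul_of_nonneg_left (mul_le_mul_of_nonneg_right l1 hF0) hP0
  have s2 : Real.log (2 * Y) * ((aw κ Y n + e) * (r * FW k d.w c Y (cM d (Y ^ th) n))) ≤
      Real.log (2 * Y) * ((aw κ Y n + e) * (LS true (Y ^ c) b (cM d (Y ^ th) n) * FW k d.w c Y (cM d (Y ^ th) n))) :=
    mul_le_mul_of_nonneg_left (mul_le_mul_of_nonneg_left (mul_le_mul_of_nonneg_right l2 hF0) (by linarith)) hlog
  have s3 : (∑ i, pw d κ Y i n) * (r * FW k d.w c Y (cM d (Y ^ th) n)) -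
      Real.log (2 * Y) * ((aw κ Y n + e) * (r * FW k d.w c Y (cM d (Y ^ th) n))) =
      r * (((∑ i, pw d κ Y i n) - Real.log (2 * Y) * (aw κ Y n + e)) * FW k d.w c Y (cM d (Y ^ th) n)) := by
    ring
  have s4 := mul_le_mul_of_nonneg_right hpw hF0
  have s5 := mul_le_mul_of_nonneg_left s4 hr0
  refine le_trans (by linarith : _ ≤ r * (((∑ i, pw d κ Y i n) - Real.log (2 * Y) * (aw κ Y n + e)) *
    FW k d.w c Y (cM d (Y ^ th) n))) (s5.trans ?_)
  have hk : (0 : ℝ) ≤ 2 * k * Real.log (2 * Y) := by positivity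
  by_cases hB : n ∈ Mr2_B d c Y
  · rw [if_pos hB]
    simp only [Mr2_B, Finset.mem_filter] at hB
    obtain ⟨_, hB1, hB2⟩ := hB
    rw [if_pos hB2, hr, if_pos hB1, one_mul, mul_comm C]
    exact mul_le_mul_of_nonneg_left hF hk
  · rw [if_neg hB]
    simp only [Mr2_B, Finset.mem_filter, not_and] at hB
    by_cases h3 : ∀ p ∈ supp (cM d (Y ^ th) n), Y ^ c ≤ (p.1 : ℝ)
    · have h4 := hB hn h3
      rw [if_neg (fun h => h4 h.1 h.2)]
      simp
    · rw [hr, if_neg h3]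
      simp

/-- The counting of the `n`. -/
theorem Mr2_card {k : ℕ} (d : MD k) (c Y : ℝ) (hY : 2 * (d.w : ℝ) + 2 ≤ Y) (hcY : Y ^ c ≤ Y ^ th) :
    (Mr2_B d c Y).card ≤ (GS d c Y).card + (d.w + 1) := by
  classical
  have hY0 : 0 ≤ Y := by
    have : (0 : ℝ) ≤ d.w := Nat.cast_nonneg _
    linarith
  have hsub : Mr2_B d c Y ⊆ GS d c Y ∪ Ioc (⌊Y⌋₊ - d.w - 1) ⌊Y⌋₊ := by
    intro n hn
    simp only [Mr2_B, WM, IW, Finset.mem_filter, Finset.mem_Ico] at hn
    obtain ⟨⟨⟨_, hn1⟩, hn2⟩, hn3, hn4, hn5⟩ := hn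
    rw [Finset.mem_union]
    have hw : d.w + 1 ≤ ⌊Y⌋₊ := by
      apply Nat.le_floor
      push_cast
      have : (0 : ℝ) ≤ d.w := Nat.cast_nonneg _
      linarith
    have hn6 : ⌊Y⌋₊ < n + d.w := by
      have h1 := Nat.floor_le hY0
      have h2 : ((⌊Y⌋₊ : ℕ) : ℝ) < ((n + d.w : ℕ) : ℝ) := by
        push_cast
        linarith
      exact_mod_cast h2
    by_cases h : ⌊Y⌋₊ < n
    · left
      simp only [GS, Finset.mem_filter, Finset.mem_Ioc]
      refine ⟨⟨h, ?_⟩, hn2, ?_, hn4⟩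
      · apply Nat.le_floor
        exact (Nat.lt_ceil.1 hn1).le
      · intro p hp hwp hpc l hdiv
        have hm : p ∈ PS d.w (Y ^ th) := mem_PS.2 ⟨hp, hwp, hpc.trans_le hcY⟩
        have h1 : cM d (Y ^ th) n ⟨p, hm⟩ = some l := (cc_iff d (Y ^ th) n ⟨p, hm⟩ l).2 hdiv
        have h2 : (⟨p, hm⟩ : Pl d.w (Y ^ th)) ∈ supp (cM d (Y ^ th) n) := by
          unfold supp
          rw [Finset.mem_filter]
          exact ⟨Finset.mem_univ _, by rw [h1]; simp⟩
        have h3 := hn3 _ h2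
        simp only at h3
        linarith
    · right
      rw [Finset.mem_Ioc]
      omega
  refine (Finset.card_le_card hsub).trans ((Finset.card_union_le _ _).trans ?_)
  rw [Nat.card_Ioc]
  omega

/-- The difference is a sum over `n`. -/
theorem Mr2_sum {k : ℕ} (d : MD k) (κ b : ℕ) (c e Y : ℝ) (h7 : 2 * (d.w : ℝ) + 2 ≤ Y) :
    (∑ i, ∑ p ∈ PM d i Y, ap κ Y p * TW false d b c Y (p - d.h i)) -
      Real.log (2 * Y) * ∑ n ∈ WM d Y, (aw κ Y n + e) * TW true d b c Y n =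
      ∑ n ∈ WM d Y, ((∑ i, pw d κ Y i n * TW false d b c Y n) -
        Real.log (2 * Y) * ((aw κ Y n + e) * TW true d b c Y n)) := by
  rw [Finset.sum_sub_distrib, ← Finset.mul_sum]
  congr 1
  rw [Finset.sum_comm]
  refine Finset.sum_congr rfl fun i _ => ?_
  exact sum_pw d κ Y h7 i (fun n => TW false d b c Y n)

/-- The sum is at most the number of the rough integers with two primes. -/
theorem Mr2_sum_le {k : ℕ} (d : MD k) (κ b : ℕ) (c e C Y : ℝ) (hY1 : 1 ≤ Y) (he : 0 < e) (hC : 0 < C) (h6 : 2 ≤ Y ^ c)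
    (h2 : ∀ n ∈ IW Y, FW k d.w c Y (cM d (Y ^ th) n) ≤ C)
    (h4 : ∀ n ∈ WM d Y, (∑ i, pw d κ Y i n) - Real.log (2 * Y) * (aw κ Y n + e) ≤
      (open Classical in if (∃ i j, i ≠ j ∧ (n + d.h i).Prime ∧ (n + d.h j).Prime) ∧ Y < n + d.w then
        2 * k * Real.log (2 * Y) else 0)) :
    ∑ n ∈ WM d Y, ((∑ i, pw d κ Y i n * TW false d b c Y n) -
        Real.log (2 * Y) * ((aw κ Y n + e) * TW true d b c Y n)) ≤
      ((Mr2_B d c Y).card : ℝ) * (C * (2 * k * Real.log (2 * Y))) := by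
  classical
  have hBsub : Mr2_B d c Y ⊆ WM d Y := Finset.filter_subset _ _
  calc ∑ n ∈ WM d Y, ((∑ i, pw d κ Y i n * TW false d b c Y n) -
        Real.log (2 * Y) * ((aw κ Y n + e) * TW true d b c Y n))
      ≤ ∑ n ∈ WM d Y, (if n ∈ Mr2_B d c Y then C * (2 * k * Real.log (2 * Y)) else 0) := by
        refine Finset.sum_le_sum fun n hn => ?_
        have hnI : n ∈ IW Y := (Finset.mem_filter.1 hn).1
        exact Mr2_term d κ b c e C Y hY1 he hC h6 n hn (h2 n hnI) (h4 n hn)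
    _ = ((Mr2_B d c Y).card : ℝ) * (C * (2 * k * Real.log (2 * Y))) := by
        rw [← Finset.sum_filter, Finset.filter_mem_eq_inter, Finset.inter_eq_right.2 hBsub, Finset.sum_const,
          nsmul_eq_mul]

/-- **T2** in the notation of `MD`. `diff_ge` and `sum_pw`: with `rough(n) = 1` if no prime in `(w, Y ^ c)` divides
any `n + h l`, `LS_ineq` gives `TW false ≤ rough FW ≤ TW true` (`FW ≥ 0`, `Y ^ c ≤ Y ^ th`; the labelled places of
`cM d z n` are the places dividing some `n + h l`, `cc_iff` in `Ma.lean`), so the difference of the sums is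
`≤ ∑_{n ∈ WM} rough(n) FW(n) (∑_i pw i n - log (2 Y) (aw κ Y n + e))`, at most `2 k log (2 Y) C` times the number of
rough `n ∈ WM` with two primes and `n > Y - w`, which is `≤ card GS + w + 1`. As `log Y (Y / M) V1 → ∞`, faster than
`log (2 Y) w` (`V1_ge`), the result follows with `δ = c1 / (8000 C) / 2 `. -/
theorem T2_MD : ∃ c δ : ℝ, 0 < c ∧ c < 1 ∧ 0 < δ ∧ ∃ w0 : ℕ, ∀ d : MD 2000, w0 ≤ d.w → ∀ᶠ Y : ℝ in atTop,
    δ * (Y / d.M) * V1 2000 d.w (Y ^ c) ≤ ((GS d c Y).card : ℝ) := by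
  classical
  obtain ⟨c1, hc1, b, c0, hc0, hdiff⟩ := diff_ge
  obtain ⟨c0', hc0', hFW⟩ := FW_le 2000
  obtain ⟨c, hc⟩ : ∃ c : ℝ, c = min (min c0 c0') (1 / 10) := ⟨_, rfl⟩
  have hcp : 0 < c := by rw [hc]; positivity
  have hcc0 : c ≤ c0 := by rw [hc]; exact (min_le_left _ _).trans (min_le_left _ _)
  have hcc0' : c ≤ c0' := by rw [hc]; exact (min_le_left _ _).trans (min_le_right _ _)
  have hc10 : c ≤ 1 / 10 := by rw [hc]; exact min_le_right _ _
  obtain ⟨w0, hw0⟩ := hdiff c hcp hcc0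
  obtain ⟨C, hC, hFW⟩ := hFW c hcp hcc0'
  refine ⟨c, c1 / (16000 * C), hcp, by linarith, by positivity, w0, fun d hd => ?_⟩
  obtain ⟨κ, e, he, hdY⟩ := hw0 d hd
  have hV := V1_ge 2000 d.w d.w_ge c hcp (by linarith)
  have hpw := pw_le d κ e he
  have hM : (0 : ℝ) < d.M := by exact_mod_cast d.M_pos
  -- `Y` beats the powers of the logarithm
  have hlim : ∀ᶠ Y : ℝ in atTop, ((d.w : ℝ) + 1) * (16000 * C) / c1 * d.M * Real.log Y ^ 4001 ≤ Y := by
    have h1 := Real.isLittleO_pow_log_id_atTop (n := 4001)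
    have h2 := h1.def (show 0 < 1 / (((d.w : ℝ) + 1) * (16000 * C) / c1 * d.M) by positivity)
    filter_upwards [h2, eventually_ge_atTop (1 : ℝ)] with Y h3 h4
    have h5 : 0 ≤ Real.log Y := Real.log_nonneg h4
    rw [Real.norm_of_nonneg (by positivity), id, Real.norm_of_nonneg (by linarith), one_div, inv_mul_eq_div,
      le_div_iff₀ (by positivity)] at h3
    linarith
  have hYc : ∀ᶠ Y : ℝ in atTop, 2 ≤ Y ^ c := (tendsto_rpow_atTop hcp).eventually (eventually_ge_atTop 2)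
  filter_upwards [hdY, hFW d, hV, hpw, hlim, hYc, eventually_ge_atTop (2 * (d.w : ℝ) + 2), eventually_ge_atTop (3 : ℝ)]
    with Y h1 h2 h3 h4 h5 h6 h7 h8
  have hY1 : 1 ≤ Y := by linarith
  have hlogY : 1 ≤ Real.log Y := by
    rw [Real.le_log_iff_exp_le (by linarith)]
    exact (Real.exp_one_lt_d9.le.trans (by norm_num)).trans h8
  have hlog2 : Real.log (2 * Y) ≤ 2 * Real.log Y := by
    rw [Real.log_mul (by norm_num) (by linarith)]
    have : Real.log 2 ≤ Real.log Y := Real.log_le_log (by norm_num) (by linarith)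
    linarith
  have hlog20 : 0 ≤ Real.log (2 * Y) := Real.log_nonneg (by linarith)
  have hcY : Y ^ c ≤ Y ^ th := Real.rpow_le_rpow_of_exponent_le hY1 (by unfold th; linarith)
  -- the difference is a sum over `n`
  have e1 := Mr2_sum d κ b c e Y h7
  rw [e1] at h1
  have e2 := Mr2_sum_le d κ b c e C Y hY1 he hC h6 h2 h4
  have e3 : ((Mr2_B d c Y).card : ℝ) ≤ (GS d c Y).card + (d.w + 1) := by
    exact_mod_cast Mr2_card d c Y h7 hcY
  obtain ⟨G, hG⟩ : ∃ G : ℝ, G = ((GS d c Y).card : ℝ) := ⟨_, rfl⟩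
  rw [← hG] at e3 ⊢
  have hG0 : 0 ≤ G := by rw [hG]; positivity
  obtain ⟨V, hVd⟩ : ∃ V : ℝ, V = V1 2000 d.w (Y ^ c) := ⟨_, rfl⟩
  rw [← hVd] at h1 h3 ⊢
  have hlp : 0 < Real.log Y ^ 4001 := by positivity
  have h3' : 1 / Real.log Y ^ 4001 ≤ V := h3
  have hV0 : 0 < V := lt_of_lt_of_le (by positivity) h3'
  have e4 : c1 * Real.log Y * (Y / d.M) * V ≤ (G + (d.w + 1)) * (C * (2 * (2000 : ℕ) * (2 * Real.log Y))) := by
    refine (h1.trans e2).trans ?_
    refine mul_le_mul e3 ?_ (by positivity) (by positivity)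
    refine mul_le_mul_of_nonneg_left ?_ hC.le
    exact mul_le_mul_of_nonneg_left hlog2 (by positivity)
  have e5 : c1 * (Y / d.M) * V ≤ (G + (d.w + 1)) * (8000 * C) := by
    have h9 : 0 < Real.log Y := by linarith
    have h10 : Real.log Y * (c1 * (Y / d.M) * V) ≤ Real.log Y * ((G + (d.w + 1)) * (8000 * C)) := by
      push_cast at e4
      nlinarith
    exact le_of_mul_le_mul_left h10 h9
  -- the trivial term
  have e6 : ((d.w : ℝ) + 1) * (16000 * C) ≤ c1 * (Y / d.M) * V := by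
    have h9 : ((d.w : ℝ) + 1) * (16000 * C) / c1 * d.M * Real.log Y ^ 4001 ≤ Y := h5
    have h10 : ((d.w : ℝ) + 1) * (16000 * C) ≤ c1 * (Y / d.M) * (1 / Real.log Y ^ 4001) := by
      rw [mul_one_div, le_div_iff₀ hlp, ← mul_div_assoc, le_div_iff₀ hM]
      have h11 := mul_le_mul_of_nonneg_left h9 hc1.le
      refine le_trans (le_of_eq ?_) h11
      field_simp
    refine h10.trans ?_
    exact mul_le_mul_of_nonneg_left h3' (by positivity)
  have e7 : c1 / (16000 * C) * (Y / d.M) * V = c1 * (Y / d.M) * V / (16000 * C) := by ring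
  rw [e7, div_le_iff₀ (by positivity)]
  nlinarith

end Pool.Agent.W33m
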